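import Pool.Agent.Lib.MP_77f3ac_co.Defs

/-!
From an abstract invariant of Breaker to the strong draw and the draw.
-/

set_option autoImplicit false

namespace Torus103

section Basics
variable {V : Type*} [Fintype V] [DecidableEq V]

omit [Fintype V] in
lemma firstPts_past (p : ℕ → V) (k : ℕ) :
    firstPts (past p k) = ((Finset.range k).filter fun i => Even i).image p := by
  ext y
  simp only [firstPts, past, Finset.mem_image, Finset.mem_filter, Finset.mem_univ, true_and,
    Finset.mem_range]
  constructor
  · rintro ⟨i, hi, rfl⟩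
    exact ⟨i, ⟨i.2, hi⟩, rfl⟩
  · rintro ⟨i, ⟨hik, hi⟩, rfl⟩
    exact ⟨⟨i, hik⟩, hi, rfl⟩

omit [Fintype V] in
lemma secondPts_past (p : ℕ → V) (k : ℕ) :
    secondPts (past p k) = ((Finset.range k).filter fun i => Odd i).image p := by
  ext y
  simp only [secondPts, past, Finset.mem_image, Finset.mem_filter, Finset.mem_univ, true_and,
    Finset.mem_range]
  constructor
  · rintro ⟨i, hi, rfl⟩
    exact ⟨i, ⟨i.2, hi⟩, rfl⟩
  · rintro ⟨i, ⟨hik, hi⟩, rfl⟩
    exact ⟨⟨i, hik⟩, hi, rfl⟩

omit [Fintype V] in
lemma firstPts_succ_even (p : ℕ → V) (k : ℕ) (hk : Even k) :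
    firstPts (past p (k + 1)) = insert (p k) (firstPts (past p k)) := by
  rw [firstPts_past, firstPts_past, Finset.range_add_one, Finset.filter_insert, if_pos hk,
    Finset.image_insert]

omit [Fintype V] in
lemma firstPts_succ_odd (p : ℕ → V) (k : ℕ) (hk : Odd k) :
    firstPts (past p (k + 1)) = firstPts (past p k) := by
  rw [firstPts_past, firstPts_past, Finset.range_add_one, Finset.filter_insert,
    if_neg (Nat.not_even_iff_odd.mpr hk)]

omit [Fintype V] in
lemma secondPts_succ_odd (p : ℕ → V) (k : ℕ) (hk : Odd k) :
    secondPts (past p (k + 1)) = insert (p k) (secondPts (past p k)) := by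
  rw [secondPts_past, secondPts_past, Finset.range_add_one, Finset.filter_insert, if_pos hk,
    Finset.image_insert]

omit [Fintype V] in
lemma secondPts_succ_even (p : ℕ → V) (k : ℕ) (hk : Even k) :
    secondPts (past p (k + 1)) = secondPts (past p k) := by
  rw [secondPts_past, secondPts_past, Finset.range_add_one, Finset.filter_insert,
    if_neg (Nat.not_odd_iff_even.mpr hk)]

omit [Fintype V] in
lemma firstPts_zero (p : ℕ → V) : firstPts (past p 0) = ∅ := by
  rw [firstPts_past]; simp

omit [Fintype V] in
lemma secondPts_zero (p : ℕ → V) : secondPts (past p 0) = ∅ := by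
  rw [secondPts_past]; simp

lemma notMem_firstPts {p : ℕ → V} (hp : IsPlay p) {k : ℕ} (hk : k < Fintype.card V) :
    p k ∉ firstPts (past p k) := by
  rw [firstPts_past]
  intro h
  simp only [Finset.mem_image, Finset.mem_filter, Finset.mem_range] at h
  obtain ⟨i, ⟨hik, -⟩, hi⟩ := h
  have := hp (show i ∈ {k | k < Fintype.card V} from lt_trans hik hk) hk hi
  omega

lemma notMem_secondPts {p : ℕ → V} (hp : IsPlay p) {k : ℕ} (hk : k < Fintype.card V) :
    p k ∉ secondPts (past p k) := by
  rw [secondPts_past]
  intro h
  simp only [Finset.mem_image, Finset.mem_filter, Finset.mem_range] at h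
  obtain ⟨i, ⟨hik, -⟩, hi⟩ := h
  have := hp (show i ∈ {k | k < Fintype.card V} from lt_trans hik hk) hk hi
  omega

omit [Fintype V] in
lemma first_union_second (p : ℕ → V) (k : ℕ) :
    firstPts (past p k) ∪ secondPts (past p k) = (Finset.range k).image p := by
  rw [firstPts_past, secondPts_past, ← Finset.image_union, ← Finset.filter_or]
  congr 1
  apply Finset.filter_true_of_mem
  intro i _
  exact Nat.even_or_odd i

omit [Fintype V] in
lemma hist_union {k : ℕ} (h : Hist V k) :
    firstPts h ∪ secondPts h = Finset.univ.image h := by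
  rw [firstPts, secondPts, ← Finset.image_union, ← Finset.filter_or]
  congr 1
  apply Finset.filter_true_of_mem
  intro i _
  exact Nat.even_or_odd (i : ℕ)

omit [DecidableEq V] in
lemma past_injective {p : ℕ → V} (hp : IsPlay p) {k : ℕ} (hk : k ≤ Fintype.card V) :
    Function.Injective (past p k) := by
  intro i j hij
  have := hp (show (i : ℕ) ∈ {k | k < Fintype.card V} from lt_of_lt_of_le i.2 hk)
    (show (j : ℕ) ∈ {k | k < Fintype.card V} from lt_of_lt_of_le j.2 hk) hij
  exact Fin.ext this

omit [DecidableEq V] in
lemma exists_free {k : ℕ} (h : Hist V k) (hk : k < Fintype.card V) : ∃ y, ∀ i, y ≠ h i := by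
  classical
  by_contra hcon
  push Not at hcon
  have : Function.Surjective h := fun y => by
    obtain ⟨i, hi⟩ := hcon y
    exact ⟨i, hi.symm⟩
  have := Fintype.card_le_of_surjective h this
  rw [Fintype.card_fin] at this
  omega

/-- the play resulting from a rule for both players -/
def playOf (ρ : Strategy V) : ℕ → V
  | k => ρ k (fun i : Fin k => playOf ρ i)
decreasing_by exact i.2

omit [Fintype V] [DecidableEq V] in
lemma playOf_eq (ρ : Strategy V) (k : ℕ) : playOf ρ k = ρ k (past (playOf ρ) k) := by
  rw [playOf]
  rfl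

omit [DecidableEq V] in
lemma playOf_isPlay (ρ : Strategy V)
    (h : ∀ (k : ℕ) (h : Hist V k), k < Fintype.card V → Function.Injective h →
      ∀ i, ρ k h ≠ h i) : IsPlay (playOf ρ) := by
  have key : ∀ k ≤ Fintype.card V, Function.Injective (past (playOf ρ) k) := by
    intro k
    induction k with
    | zero => intro _ i; exact i.elim0
    | succ k ih =>
      intro hk
      have hk' : k < Fintype.card V := hk
      have ih' := ih hk'.le
      have hne := h k (past (playOf ρ) k) hk' ih'
      intro i j hij
      simp only [past] at hij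
      rcases Nat.lt_succ_iff_lt_or_eq.mp i.2 with hi | hi
      · rcases Nat.lt_succ_iff_lt_or_eq.mp j.2 with hj | hj
        · have := @ih' ⟨i, hi⟩ ⟨j, hj⟩ hij
          simp only [Fin.mk.injEq] at this
          exact Fin.ext this
        · exfalso
          have := hne ⟨i, hi⟩
          rw [← playOf_eq ρ k] at this
          apply this
          simp only [past]
          rw [hij, hj]
      · rcases Nat.lt_succ_iff_lt_or_eq.mp j.2 with hj | hj
        · exfalso
          have := hne ⟨j, hj⟩
          rw [← playOf_eq ρ k] at this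
          apply this
          simp only [past]
          rw [← hij, hi]
        · exact Fin.ext (by omega)
  intro a ha b hb hab
  change a < _ at ha
  change b < _ at hb
  have hk := key (Fintype.card V) le_rfl
  have := @hk ⟨a, ha⟩ ⟨b, hb⟩ hab
  simpa using this

omit [DecidableEq V] in
/-- a play in which both players follow given legal strategies -/
lemma exists_play (σ τ : Strategy V) (hσ : LegalFirst σ) (hτ : LegalSecond τ) :
    ∃ p, IsPlay p ∧ FirstFollows σ p ∧ SecondFollows τ p := by
  classical
  refine ⟨playOf (fun k h => if Even k then σ k h else τ k h), playOf_isPlay _ ?_, ?_, ?_⟩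
  · intro k h hk hinj i
    by_cases hev : Even k
    · simp only [hev, if_true]
      exact hσ k h hk hev hinj i
    · simp only [hev, if_false]
      exact hτ k h hk (Nat.not_even_iff_odd.mp hev) hinj i
  · intro k _ hev
    rw [playOf_eq]
    simp only [hev, if_true]
  · intro k _ hodd
    rw [playOf_eq]
    simp only [Nat.not_even_iff_odd.mpr hodd, if_false]

/-- in a draw the first player has no winning strategy -/
theorem IsDraw.not_first {W : Set (Finset V)} (h : IsDraw W) : ¬ FirstHasWinningStrategy W := by
  rintro ⟨σ, hσ, hwin⟩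
  obtain ⟨-, τ, hτ, hτ'⟩ := h
  obtain ⟨p, hp, h1, h2⟩ := exists_play σ τ hσ hτ
  exact hτ' p hp h2 (hwin p hp h1)

/-- in a draw the second player has no winning strategy -/
theorem IsDraw.not_second {W : Set (Finset V)} (h : IsDraw W) :
    ¬ SecondHasWinningStrategy W := by
  rintro ⟨τ, hτ, hwin⟩
  obtain ⟨⟨σ, hσ, hσ'⟩, -⟩ := h
  obtain ⟨p, hp, h1, h2⟩ := exists_play σ τ hσ hτ
  exact hσ' p hp h1 (hwin p hp h2)

end Basics

section Breaker
variable {V : Type*} [Fintype V] [DecidableEq V]

/-- An invariant `Inv M B` of Breaker for positions where Maker has to move; `M` are the points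
of Maker, `B` the points of Breaker. -/
structure BreakerInv (W : Set (Finset V)) (Inv : Finset V → Finset V → Prop) : Prop where
  /-- Maker does not own a line -/
  safe : ∀ M B, Inv M B → ¬ Owns W M
  /-- after a move `z` of Maker he does not own a line -/
  safe_move : ∀ M B z, Inv M B → z ∉ M → z ∉ B → ¬ Owns W (insert z M)
  /-- if the board is not full then, Breaker can restore the invariant -/
  step : ∀ M B z, Inv M B → z ∉ M → z ∉ B → insert z M ∪ B ≠ Finset.univ →
    ∃ y, y ∉ insert z M ∧ y ∉ B ∧ Inv (insert z M) (insert y B)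

/-- the strategy of Breaker: `M`, `B` are the points of Maker and Breaker -/
noncomputable def brMove [Nonempty V] (Inv : Finset V → Finset V → Prop) (M B : Finset V) : V :=
  Classical.epsilon fun y => (y ∉ M ∧ y ∉ B) ∧
    ((∃ y', y' ∉ M ∧ y' ∉ B ∧ Inv M (insert y' B)) → Inv M (insert y B))

lemma brMove_spec [Nonempty V] (Inv : Finset V → Finset V → Prop) (M B : Finset V)
    (h : ∃ y, y ∉ M ∧ y ∉ B) :
    (brMove Inv M B ∉ M ∧ brMove Inv M B ∉ B) ∧
      ((∃ y', y' ∉ M ∧ y' ∉ B ∧ Inv M (insert y' B)) → Inv M (insert (brMove Inv M B) B)) := by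
  have : ∃ y, (y ∉ M ∧ y ∉ B) ∧
      ((∃ y', y' ∉ M ∧ y' ∉ B ∧ Inv M (insert y' B)) → Inv M (insert y B)) := by
    by_cases h' : ∃ y', y' ∉ M ∧ y' ∉ B ∧ Inv M (insert y' B)
    · obtain ⟨y, h1, h2, h3⟩ := h'
      exact ⟨y, ⟨h1, h2⟩, fun _ => h3⟩
    · obtain ⟨y, hy⟩ := h
      exact ⟨y, hy, fun h'' => absurd h'' h'⟩
  exact Classical.epsilon_spec this

lemma exists_free' {k : ℕ} (h : Hist V k) (hk : k < Fintype.card V) :
    ∃ y, y ∉ firstPts h ∧ y ∉ secondPts h := by
  obtain ⟨y, hy⟩ := exists_free h hk
  have : y ∉ firstPts h ∪ secondPts h := by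
    rw [hist_union]
    simp only [Finset.mem_image, Finset.mem_univ, true_and, not_exists]
    exact fun i hi => hy i hi.symm
  rw [Finset.mem_union, not_or] at this
  exact ⟨y, this⟩

omit [Fintype V] in
lemma ne_of_notMem {k : ℕ} (h : Hist V k) {y : V} (h1 : y ∉ firstPts h) (h2 : y ∉ secondPts h)
    (i : Fin k) : y ≠ h i := by
  intro hy
  have : y ∈ firstPts h ∪ secondPts h := by
    rw [hist_union, hy]
    exact Finset.mem_image_of_mem _ (Finset.mem_univ _)
  rw [Finset.mem_union] at this
  tauto

variable {W : Set (Finset V)} {Inv : Finset V → Finset V → Prop}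

/-- the second player as Breaker -/
theorem second_breaker [Nonempty V] (hI : BreakerInv W Inv) (h0 : Inv ∅ ∅) :
    ∃ σ : Strategy V, LegalSecond σ ∧ ∀ p, IsPlay p → SecondFollows σ p →
      ∀ k ≤ Fintype.card V, ¬ Owns W (firstPts (past p k)) := by
  refine ⟨fun k h => brMove Inv (firstPts h) (secondPts h), ?_, ?_⟩
  · intro k h hk _ _ i
    obtain ⟨⟨h1, h2⟩, -⟩ := brMove_spec Inv (firstPts h) (secondPts h) (exists_free' h hk)
    exact ne_of_notMem h h1 h2 i
  · intro p hp hσ
    have key : ∀ j : ℕ, 2 * j ≤ Fintype.card V →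
        Inv (firstPts (past p (2 * j))) (secondPts (past p (2 * j))) := by
      intro j
      induction j with
      | zero => intro _; rw [Nat.mul_zero, firstPts_zero, secondPts_zero]; exact h0
      | succ j ih =>
        intro hj
        have hj1 : 2 * j < Fintype.card V := by omega
        have hj2 : 2 * j + 1 < Fintype.card V := by omega
        have ih' := ih hj1.le
        have hev : Even (2 * j) := even_two_mul j
        have hodd : Odd (2 * j + 1) := odd_two_mul_add_one j
        have e1 : firstPts (past p (2 * j + 1)) =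
          insert (p (2 * j)) (firstPts (past p (2 * j))) := firstPts_succ_even p _ hev
        have e2 : secondPts (past p (2 * j + 1)) = secondPts (past p (2 * j)) :=
          secondPts_succ_even p _ hev
        have e3 : firstPts (past p (2 * (j + 1))) = firstPts (past p (2 * j + 1)) :=
          firstPts_succ_odd p _ hodd
        have e4 : secondPts (past p (2 * (j + 1))) =
          insert (p (2 * j + 1)) (secondPts (past p (2 * j + 1))) :=
          secondPts_succ_odd p _ hodd
        have hstep := hI.step _ _ _ ih' (notMem_firstPts hp hj1) (notMem_secondPts hp hj1) (by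
          rw [← e1, ← e2, first_union_second]
          intro hu
          have : (Finset.univ : Finset V).card ≤ 2 * j + 1 := by
            rw [← hu]
            exact le_trans Finset.card_image_le (by simp)
          rw [Finset.card_univ] at this
          omega)
        rw [← e1, ← e2] at hstep
        have hmove := hσ (2 * j + 1) hj2 hodd
        obtain ⟨-, h2⟩ := brMove_spec Inv (firstPts (past p (2 * j + 1)))
          (secondPts (past p (2 * j + 1))) (exists_free' (past p (2 * j + 1)) hj2)
        rw [e3, e4, hmove]
        exact h2 hstep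
    intro k hk
    rcases Nat.even_or_odd' k with ⟨j, hj | hj⟩
    · rw [hj]
      exact hI.safe _ _ (key j (by omega))
    · rw [hj, firstPts_succ_even p _ (even_two_mul j)]
      exact hI.safe_move _ _ _ (key j (by omega)) (notMem_firstPts hp (by omega))
        (notMem_secondPts hp (by omega))

/-- the first player as Breaker -/
theorem first_breaker [Nonempty V] (hI : BreakerInv W Inv) (h0 : ∃ x, Inv ∅ {x})
    (hW : ¬ Owns W ∅) :
    ∃ σ : Strategy V, LegalFirst σ ∧ ∀ p, IsPlay p → FirstFollows σ p →
      ∀ k ≤ Fintype.card V, ¬ Owns W (secondPts (past p k)) := by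
  refine ⟨fun k h => brMove Inv (secondPts h) (firstPts h), ?_, ?_⟩
  · intro k h hk _ _ i
    obtain ⟨y, hy1, hy2⟩ := exists_free' h hk
    obtain ⟨⟨h1, h2⟩, -⟩ := brMove_spec Inv (secondPts h) (firstPts h) ⟨y, hy2, hy1⟩
    exact ne_of_notMem h h2 h1 i
  · intro p hp hσ
    have key : ∀ j : ℕ, 2 * j + 1 ≤ Fintype.card V →
        Inv (secondPts (past p (2 * j + 1))) (firstPts (past p (2 * j + 1))) := by
      intro j
      induction j with
      | zero =>
        intro hj
        have hmove := hσ 0 (by omega) (by simp)
        have e1 : firstPts (past p (2 * 0 + 1)) = insert (p 0) (firstPts (past p 0)) :=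
          firstPts_succ_even p 0 (by simp)
        have e2 : secondPts (past p (2 * 0 + 1)) = secondPts (past p 0) :=
          secondPts_succ_even p 0 (by simp)
        obtain ⟨x, hx⟩ := h0
        obtain ⟨-, h2⟩ := brMove_spec Inv (secondPts (past p 0)) (firstPts (past p 0))
          ⟨x, by rw [secondPts_zero]; simp, by rw [firstPts_zero]; simp⟩
        rw [e1, e2, hmove]
        apply h2
        refine ⟨x, by rw [secondPts_zero]; simp, by rw [firstPts_zero]; simp, ?_⟩
        rw [secondPts_zero, firstPts_zero]
        exact hx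
      | succ j ih =>
        intro hj
        have hj1 : 2 * j + 1 < Fintype.card V := by omega
        have hj2 : 2 * j + 1 + 1 < Fintype.card V := by omega
        have ih' := ih hj1.le
        have hodd : Odd (2 * j + 1) := odd_two_mul_add_one j
        have hev : Even (2 * j + 1 + 1) := hodd.add_one
        have e1 : secondPts (past p (2 * j + 1 + 1)) =
          insert (p (2 * j + 1)) (secondPts (past p (2 * j + 1))) :=
          secondPts_succ_odd p _ hodd
        have e2 : firstPts (past p (2 * j + 1 + 1)) = firstPts (past p (2 * j + 1)) :=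
          firstPts_succ_odd p _ hodd
        have e3 : secondPts (past p (2 * (j + 1) + 1)) = secondPts (past p (2 * j + 1 + 1)) :=
          secondPts_succ_even p _ hev
        have e4 : firstPts (past p (2 * (j + 1) + 1)) =
          insert (p (2 * j + 1 + 1)) (firstPts (past p (2 * j + 1 + 1))) :=
          firstPts_succ_even p _ hev
        have hstep := hI.step _ _ _ ih' (notMem_secondPts hp hj1) (notMem_firstPts hp hj1) (by
          rw [← e1, ← e2, Finset.union_comm, first_union_second]
          intro hu
          have : (Finset.univ : Finset V).card ≤ 2 * j + 1 + 1 := by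
            rw [← hu]
            exact le_trans Finset.card_image_le (by simp)
          rw [Finset.card_univ] at this
          omega)
        rw [← e1, ← e2] at hstep
        have hmove := hσ (2 * j + 1 + 1) hj2 hev
        obtain ⟨y, hy1, hy2⟩ := exists_free' (past p (2 * j + 1 + 1)) hj2
        obtain ⟨-, h2⟩ := brMove_spec Inv (secondPts (past p (2 * j + 1 + 1)))
          (firstPts (past p (2 * j + 1 + 1))) ⟨y, hy2, hy1⟩
        rw [e3, e4, hmove]
        exact h2 hstep
    intro k hk
    rcases Nat.even_or_odd' k with ⟨j, hj | hj⟩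
    · rcases j with _ | j
      · rw [hj, Nat.mul_zero, secondPts_zero]
        exact hW
      · have : k = (2 * j + 1) + 1 := by omega
        rw [this, secondPts_succ_odd p _ (odd_two_mul_add_one j)]
        exact hI.safe_move _ _ _ (key j (by omega)) (notMem_secondPts hp (by omega))
          (notMem_firstPts hp (by omega))
    · rw [hj]
      exact hI.safe _ _ (key j (by omega))

/-- an invariant of Breaker which holds at the beginning of the game and after one move of
Breaker gives a Strong Draw and a draw -/
theorem draw_of_inv [Nonempty V] (hI : BreakerInv W Inv) (h0 : Inv ∅ ∅) (h1 : ∃ x, Inv ∅ {x}) :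
    IsStrongDraw W ∧ IsDraw W ∧ ¬ FirstHasWinningStrategy W ∧ ¬ SecondHasWinningStrategy W := by
  have hW : ¬ Owns W ∅ := hI.safe _ _ h0
  obtain ⟨σ, hσ, hσ'⟩ := second_breaker hI h0
  obtain ⟨τ, hτ, hτ'⟩ := first_breaker hI h1 hW
  have hd : IsDraw W := by
    refine ⟨⟨τ, hτ, fun p hp hf => ?_⟩, ⟨σ, hσ, fun p hp hf => ?_⟩⟩
    · rintro ⟨k, hk, h, -⟩
      exact hτ' p hp hf k hk h
    · rintro ⟨k, hk, h, -⟩
      exact hσ' p hp hf k hk h
  exact ⟨⟨σ, hσ, hσ'⟩, hd, hd.not_first, hd.not_second⟩

end Breaker

end Torus103
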