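import Pool.Agent.Lib.MP_77f3ac_co.Inv
import Pool.Agent.Lib.MP_77f3ac_co.Strategy

/-!
From the one-step statement about `Inv` to the game theorem.
-/

set_option autoImplicit false

namespace Torus103
open Finset
variable {P : Type*} [DecidableEq P] [Fintype P]

/-- The invariant of Breaker in terms of the sets `M` of Maker's points and `B` of Breaker's
points; `𝒢` is the family of all lines. -/
def InvMB (𝒢 : Finset (Finset P)) (M B : Finset P) : Prop :=
  Disjoint M B ∧ Inv (M ∪ B)ᶜ (𝒢.filter fun L => Disjoint L B)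

theorem breakerInv_of_step (𝒢 : Finset (Finset P))
    (hstep : ∀ (F : Finset P) (𝓛 : Finset (Finset P)), 𝓛 ⊆ 𝒢 → Inv F 𝓛 → ∀ z ∈ F,
      (F.erase z).Nonempty →
      ∃ y ∈ F.erase z, Inv ((F.erase z).erase y) (𝓛.filter (fun L => y ∉ L))) :
    BreakerInv (↑𝒢 : Set (Finset P)) (InvMB 𝒢) where
  safe := by
    rintro M B ⟨hd, hI⟩ ⟨L, hL, hLM⟩
    have hLB : Disjoint L B := hd.mono_left hLM
    have h2 := hI.two_le L (mem_filter.mpr ⟨hL, hLB⟩)
    have h0 : L ∩ (M ∪ B)ᶜ = ∅ := by
      rw [eq_empty_iff_forall_notMem]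
      intro x hx
      rw [mem_inter, mem_compl, mem_union, not_or] at hx
      exact hx.2.1 (hLM hx.1)
    rw [h0, card_empty] at h2
    omega
  safe_move := by
    rintro M B z ⟨hd, hI⟩ hzM hzB ⟨L, hL, hLM⟩
    have hLB : Disjoint L B := by
      refine Disjoint.mono_left hLM ?_
      rw [disjoint_insert_left]
      exact ⟨hzB, hd⟩
    have h2 := hI.two_le L (mem_filter.mpr ⟨hL, hLB⟩)
    have h0 : L ∩ (M ∪ B)ᶜ ⊆ {z} := by
      intro x hx
      rw [mem_inter, mem_compl, mem_union, not_or] at hx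
      rcases mem_insert.mp (hLM hx.1) with h | h
      · exact mem_singleton.mpr h
      · exact absurd h hx.2.1
    have := card_le_card h0
    rw [card_singleton] at this
    omega
  step := by
    rintro M B z ⟨hd, hI⟩ hzM hzB hne
    have hz : z ∈ (M ∪ B)ᶜ := by
      rw [mem_compl, mem_union, not_or]
      exact ⟨hzM, hzB⟩
    have hne' : ((M ∪ B)ᶜ.erase z).Nonempty := by
      by_contra hcon
      rw [not_nonempty_iff_eq_empty] at hcon
      apply hne
      rw [eq_univ_iff_forall]
      intro x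
      by_contra hx
      have : x ∈ (M ∪ B)ᶜ.erase z := by
        rw [mem_union, mem_insert, not_or, not_or] at hx
        rw [mem_erase, mem_compl, mem_union, not_or]
        exact ⟨hx.1.1, hx.1.2, hx.2⟩
      rw [hcon] at this
      exact notMem_empty _ this
    obtain ⟨y, hy, hIy⟩ := hstep _ _ (filter_subset _ _) hI z hz hne'
    rw [mem_erase, mem_compl, mem_union, not_or] at hy
    obtain ⟨hyz, hyM, hyB⟩ := hy
    have hy1 : y ∉ insert z M := by
      rw [mem_insert, not_or]
      exact ⟨hyz, hyM⟩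
    refine ⟨y, hy1, hyB, ?_, ?_⟩
    · rw [disjoint_insert_right]
      refine ⟨hy1, ?_⟩
      rw [disjoint_insert_left]
      exact ⟨hzB, hd⟩
    · have e1 : (insert z M ∪ insert y B)ᶜ = ((M ∪ B)ᶜ.erase z).erase y := by
        ext x
        simp only [mem_compl, mem_union, mem_insert, mem_erase]
        tauto
      have e2 : (𝒢.filter fun L => Disjoint L (insert y B)) =
          (𝒢.filter fun L => Disjoint L B).filter (fun L => y ∉ L) := by
        ext L
        simp only [mem_filter, disjoint_insert_right]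
        tauto
      rw [e1, e2]
      exact hIy

/-- The game theorem from the one-step statement and the starting positions. -/
theorem draw_of_step [Nonempty P] (𝒢 : Finset (Finset P))
    (hstep : ∀ (F : Finset P) (𝓛 : Finset (Finset P)), 𝓛 ⊆ 𝒢 → Inv F 𝓛 → ∀ z ∈ F,
      (F.erase z).Nonempty →
      ∃ y ∈ F.erase z, Inv ((F.erase z).erase y) (𝓛.filter (fun L => y ∉ L)))
    (h0 : Inv univ 𝒢) (h1 : ∃ x, Inv (univ.erase x) (𝒢.filter fun L => x ∉ L)) :
    IsStrongDraw (↑𝒢 : Set (Finset P)) ∧ IsDraw (↑𝒢 : Set (Finset P)) ∧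
      ¬ FirstHasWinningStrategy (↑𝒢 : Set (Finset P)) ∧
      ¬ SecondHasWinningStrategy (↑𝒢 : Set (Finset P)) := by
  apply draw_of_inv (breakerInv_of_step 𝒢 hstep)
  · refine ⟨disjoint_empty_left _, ?_⟩
    have e1 : (∅ ∪ ∅ : Finset P)ᶜ = univ := by simp
    have e2 : (𝒢.filter fun L => Disjoint L ∅) = 𝒢 := by simp
    rw [e1, e2]
    exact h0
  · obtain ⟨x, hx⟩ := h1
    refine ⟨x, disjoint_empty_left _, ?_⟩
    have e1 : (∅ ∪ {x} : Finset P)ᶜ = univ.erase x := by
      ext y
      simp
    have e2 : (𝒢.filter fun L => Disjoint L {x}) = 𝒢.filter fun L => x ∉ L := by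
      ext L
      simp
    rw [e1, e2]
    exact hx

end Torus103
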