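import Mathlib

/-!
# MP_77f3ac_co: cluster potential (generic part)

`P` : points, a line is a `Finset P`, `𝓛` the family of live lines, `F` the set of free points.
-/

namespace Torus103

open Finset

variable {P : Type*} [DecidableEq P]

/-- The free points covered by the lines of `C`. -/
def un (F : Finset P) (C : Finset (Finset P)) : Finset P := C.biUnion id ∩ F

/-- `C` is nonempty and connected through points of `F`. -/
def Conn (F : Finset P) (C : Finset (Finset P)) : Prop :=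
  C.Nonempty ∧ ∀ S ⊆ C, S.Nonempty → (C \ S).Nonempty →
    ∃ a ∈ S, ∃ b ∈ C \ S, (a ∩ b ∩ F).Nonempty

noncomputable instance (F : Finset P) : DecidablePred (Conn F) := fun _ => Classical.dec _

/-- The weight `2^(-number of free points of the union)`. -/
noncomputable def w (F : Finset P) (C : Finset (Finset P)) : ℚ := (1 / 2) ^ (un F C).card

/-- The coefficients. -/
def al : ℕ → ℚ
  | 1 => 1
  | 2 => 2
  | 3 => 4
  | 4 => 3
  | _ => 0

/-- The potential `V_x` at Maker's turn: clusters through `x` count twice. -/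
noncomputable def Phi (F : Finset P) (𝓛 : Finset (Finset P)) (x : P) : ℚ :=
  ∑ C ∈ 𝓛.powerset.filter (Conn F), al C.card * w F C * (if x ∈ un F C then 2 else 1)

/-- Marked sums: clusters of size `k` through `m`, weight `2 * w`. -/
noncomputable def Sm (F : Finset P) (𝓛 : Finset (Finset P)) (m : P) (k : ℕ) : ℚ :=
  ∑ C ∈ (𝓛.powersetCard k).filter (fun C => Conn F C ∧ m ∈ un F C), 2 * w F C

/-- Surviving marked sums: still connected without `m`. -/
noncomputable def Sv (F : Finset P) (𝓛 : Finset (Finset P)) (m : P) (k : ℕ) : ℚ :=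
  ∑ C ∈ (𝓛.powersetCard k).filter (fun C => Conn (F.erase m) C ∧ m ∈ un F C), 2 * w F C

/-- Unmarked sums: clusters of size `k` avoiding `m`. -/
noncomputable def Om (F : Finset P) (𝓛 : Finset (Finset P)) (m : P) (k : ℕ) : ℚ :=
  ∑ C ∈ (𝓛.powersetCard k).filter (fun C => Conn F C ∧ m ∉ un F C), w F C

/-- The geometry of the lines of the torus that is used. -/
structure Geom (𝒢 : Finset (Finset P)) : Prop where
  /-- two lines share at most two points -/
  two : ∀ a ∈ 𝒢, ∀ b ∈ 𝒢, a ≠ b → (a ∩ b).card ≤ 2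
  /-- double crossings are transitive -/
  trans : ∀ a ∈ 𝒢, ∀ b ∈ 𝒢, ∀ c ∈ 𝒢, a ≠ b → b ≠ c → a ≠ c →
    (a ∩ b).card = 2 → (b ∩ c).card = 2 → (a ∩ c).Nonempty → a ∩ b = b ∩ c ∧ a ∩ c = b ∩ c
  /-- two disjoint double pairs and two non-concurrent triangles among four lines: impossible.
  (Any two triangles among four lines share two lines.) -/
  plane : ∀ a ∈ 𝒢, ∀ b ∈ 𝒢, ∀ c ∈ 𝒢, ∀ d ∈ 𝒢,
    a ≠ b → a ≠ c → a ≠ d → b ≠ c → b ≠ d → c ≠ d →
    (a ∩ b).card = 2 → (c ∩ d).card = 2 →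
    (a ∩ c).Nonempty → (b ∩ c).Nonempty → a ∩ b ∩ c = ∅ →
    ((a ∩ d).Nonempty ∧ (b ∩ d).Nonempty ∧ a ∩ b ∩ d = ∅ ∨
      (a ∩ d).Nonempty ∧ a ∩ c ∩ d = ∅ ∨ (b ∩ d).Nonempty ∧ b ∩ c ∩ d = ∅) → False
  /-- a line crossing three mutually double-crossing lines at three different places: impossible -/
  star : ∀ a ∈ 𝒢, ∀ b ∈ 𝒢, ∀ c ∈ 𝒢, ∀ d ∈ 𝒢,
    a ≠ b → a ≠ c → a ≠ d → b ≠ c → b ≠ d → c ≠ d →
    (b ∩ c).card = 2 → (c ∩ d).card = 2 → (b ∩ d).card = 2 →
    (a ∩ b).Nonempty → (a ∩ c).Nonempty → (a ∩ d).Nonempty →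
    a ∩ b ∩ c = ∅ → a ∩ c ∩ d = ∅ → False
  /-- a line has at most four antipodal pairs avoiding a given point of it -/
  pairs : ∀ b ∈ 𝒢, ∀ m ∈ b, ∃ i : Finset P → Fin 4, ∀ h ∈ 𝒢, ∀ h' ∈ 𝒢, h ≠ b → h' ≠ b →
    (h ∩ b).card = 2 → (h' ∩ b).card = 2 → m ∉ h → m ∉ h' → i h = i h' → h ∩ b = h' ∩ b

end Torus103
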