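import Pool.Agent.Lib.MP_77f3ac_co.Pattern

/-! # MP_77f3ac_co: facts on codes and on the functions of `Pattern` -/

set_option autoImplicit false

namespace Torus103
namespace Pat

theorem nz_iff (n : ℕ) : nz n = true ↔ n ≠ 0 := by
  unfold nz; cases h : Nat.beq n 0
  · have := Nat.ne_of_beq_eq_false h; simpa using this
  · have := Nat.eq_of_beq_eq_true h; simpa using this

theorem nz_land (a b : ℕ) : nz (Nat.land a b) = true ↔ a &&& b ≠ 0 := nz_iff _

theorem beq_iff (a b : ℕ) : Nat.beq a b = true ↔ a = b :=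
  ⟨Nat.eq_of_beq_eq_true, fun h => by subst h; exact Nat.beq_refl a⟩

theorem land_ne_zero_iff (a b : ℕ) : a &&& b ≠ 0 ↔ ∃ i, a.testBit i = true ∧ b.testBit i = true := by
  constructor
  · intro h
    by_contra hn
    push Not at hn
    apply h
    apply Nat.eq_of_testBit_eq
    intro i
    rw [Nat.testBit_and, Nat.zero_testBit]
    by_cases hi : a.testBit i = true
    · have := hn i hi
      simp only [hi, Bool.true_and]
      simpa using this
    · simp only [Bool.not_eq_true] at hi
      simp [hi]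
  · rintro ⟨i, h1, h2⟩ h
    have := congrArg (fun n => Nat.testBit n i) h
    simp [Nat.testBit_and, h1, h2] at this

theorem lt16_testBit {c : ℕ} (hc : c < 16) {i : ℕ} (hi : c.testBit i = true) : i < 4 := by
  by_contra h
  have : c < 2 ^ i := lt_of_lt_of_le hc (by
    calc (16:ℕ) = 2 ^ 4 := by norm_num
    _ ≤ 2 ^ i := Nat.pow_le_pow_right (by norm_num) (by omega))
  rw [Nat.testBit_lt_two_pow this] at hi
  exact absurd hi (by simp)

/-- code of a predicate on `0, 1, 2, 3` -/
def cod (p : ℕ → Bool) : ℕ :=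
  (bif p 0 then 1 else 0) + (bif p 1 then 2 else 0) + (bif p 2 then 4 else 0)
    + (bif p 3 then 8 else 0)

theorem cod_lt (p : ℕ → Bool) : cod p < 16 := by
  unfold cod
  cases p 0 <;> cases p 1 <;> cases p 2 <;> cases p 3 <;> decide

theorem cod_testBit (p : ℕ → Bool) {i : ℕ} (hi : i < 4) : (cod p).testBit i = p i := by
  have h : ∀ a b c d : Bool, ∀ i < 4, ((bif a then 1 else 0) + (bif b then 2 else 0)
    + (bif c then 4 else 0) + (bif d then 8 else 0) : ℕ).testBit i =
      (if i = 0 then a else if i = 1 then b else if i = 2 then c else d) := by decide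
  unfold cod
  rw [h _ _ _ _ i hi]
  interval_cases i <;> rfl

theorem code_ext {a b : ℕ} (ha : a < 16) (hb : b < 16)
    (h : ∀ i < 4, a.testBit i = b.testBit i) : a = b := by
  apply Nat.eq_of_testBit_eq
  intro i
  by_cases hi : i < 4
  · exact h i hi
  · have h1 : a.testBit i = false := by
      by_contra hn
      exact hi (lt16_testBit ha (by simpa using hn))
    have h2 : b.testBit i = false := by
      by_contra hn
      exact hi (lt16_testBit hb (by simpa using hn))
    rw [h1, h2]

theorem sub_code : ∀ c < 16, ∀ t < 16, t &&& c = t →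
    t &&& (c - t) = 0 ∧ ∀ i < 4, (c - t).testBit i = (c.testBit i && !t.testBit i) := by decide

theorem sub_sub_code : ∀ f ∈ [3, 7, 15], ∀ a < f + 1, ∀ b < f + 1, a &&& b = 0 →
    f - a - b < f + 1 ∧
      ∀ i < 4, (f - a - b).testBit i = (f.testBit i && !(a.testBit i || b.testBit i)) := by
  decide +kernel

/-- private points cancel -/
theorem single_code : ∀ f ∈ [3, 7, 15], ∀ a < f + 1, ∀ b < f + 1, a &&& b = 0 →
    ∀ t ∈ [0, 1, 2, 4, 8], (bif nz (Nat.land t a) then 1 else 0) + ((bif nz (Nat.land t b) then 1 else 0)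
      + (bif nz (Nat.land t (f - a - b)) then 1 else 0)) = (bif nz (Nat.land t f) then 1 else 0) := by
  decide +kernel

theorem sz_le (c : ℕ) : sz c ≤ 4 := by
  have h1 : c % 2 < 2 := Nat.mod_lt _ (by norm_num)
  have h2 : c / 2 % 2 < 2 := Nat.mod_lt _ (by norm_num)
  have h3 : c / 4 % 2 < 2 := Nat.mod_lt _ (by norm_num)
  have h4 : c / 8 % 2 < 2 := Nat.mod_lt _ (by norm_num)
  show (c % 2 + c / 2 % 2) + (c / 4 % 2 + c / 8 % 2) ≤ 4
  omega

theorem sz_pos : ∀ c < 16, c ≠ 0 → 1 ≤ sz c := by decide

theorem sz_eq : ∀ c < 16, sz c = ((Finset.range 4).filter (fun i => c.testBit i)).card := by decide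

theorem sumTo_eq (f : ℕ → ℕ) (n : ℕ) : sumTo f n = ∑ i ∈ Finset.range n, f i := by
  induction n with
  | zero => rfl
  | succ n ih => rw [Finset.sum_range_succ, ← ih]; rfl

theorem allTo_iff (f : ℕ → Bool) (n : ℕ) : allTo f n = true ↔ ∀ i < n, f i = true := by
  induction n with
  | zero => simp [allTo]
  | succ n ih =>
    show (f n && allTo f n) = true ↔ _
    rw [Bool.and_eq_true, ih]
    constructor
    · rintro ⟨h1, h2⟩ i hi
      rcases Nat.lt_succ_iff_lt_or_eq.1 hi with h | h
      · exact h2 i h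
      · subst h; exact h1
    · intro h
      exact ⟨h n (Nat.lt_succ_self n), fun i hi => h i (Nat.lt_succ_of_lt hi)⟩

theorem tab_lt (f : ℕ → ℕ) (hf : ∀ i, f i < 32) (n : ℕ) : tab f n < 32 ^ n := by
  induction n with
  | zero => simp [tab]
  | succ n ih =>
    show f n * 32 ^ n + tab f n < 32 ^ (n + 1)
    have h1 := hf n
    rw [pow_succ]
    have : (f n + 1) * 32 ^ n ≤ 32 * 32 ^ n := Nat.mul_le_mul_right _ h1
    nlinarith

theorem gt_tab (f : ℕ → ℕ) (hf : ∀ i, f i < 32) (n c : ℕ) (hc : c < n) :
    gt (tab f n) c = f c := by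
  induction n with
  | zero => omega
  | succ n ih =>
    show (f n * 32 ^ n + tab f n) / 32 ^ c % 32 = f c
    rcases Nat.lt_succ_iff_lt_or_eq.1 hc with h | h
    · have h1 := ih h
      unfold gt at h1
      have h2 : tab f n / 32 ^ c % 32 = f c := h1
      rw [← h2]
      obtain ⟨k, rfl⟩ : ∃ k, n = c + (k + 1) := ⟨n - c - 1, by omega⟩
      have h3 : f (c + (k + 1)) * 32 ^ (c + (k + 1)) + tab f (c + (k + 1)) =
          tab f (c + (k + 1)) + 32 ^ c * (32 * (f (c + (k + 1)) * 32 ^ k)) := by
        rw [pow_add, pow_succ]; ring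
      rw [h3, Nat.add_mul_div_left _ _ (by positivity), Nat.add_mul_mod_self_left]
    · subst h
      rw [mul_comm, Nat.mul_add_div (by positivity), Nat.div_eq_of_lt (tab_lt f hf c), add_zero,
        Nat.mod_eq_of_lt (hf c)]

/-! ### lists -/

theorem cnt_eq (p : ℕ → Bool) (l : List ℕ) : cnt p l = l.countP p := by
  induction l with
  | nil => rfl
  | cons a l ih =>
    show (bif p a then Nat.succ (cnt p l) else cnt p l) = _
    rw [List.countP_cons, ih]
    cases p a <;> simp

/-- the canonical list -/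
def canon (N : ℕ → ℕ) : List ℕ → List ℕ → List ℕ
  | [], acc => acc
  | σ :: l, acc => canon N l (List.replicate (N σ) σ ++ acc)

theorem countP_canon (N : ℕ → ℕ) (p : ℕ → Bool) (l acc : List ℕ) :
    (canon N l acc).countP p = acc.countP p + (l.map (fun σ => if p σ then N σ else 0)).sum := by
  induction l generalizing acc with
  | nil => simp [canon]
  | cons σ l ih =>
    rw [canon, ih, List.countP_append, List.countP_replicate, List.map_cons, List.sum_cons]
    ring

theorem mem_canon (N : ℕ → ℕ) (l acc : List ℕ) (q : ℕ) :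
    q ∈ canon N l acc ↔ q ∈ acc ∨ (q ∈ l ∧ N q ≠ 0) := by
  induction l generalizing acc with
  | nil => simp [canon]
  | cons σ l ih =>
    rw [canon, ih, List.mem_append, List.mem_replicate, List.mem_cons]
    constructor
    · rintro ((⟨h1, rfl⟩ | h) | ⟨h1, h2⟩)
      · exact Or.inr ⟨Or.inl rfl, h1⟩
      · exact Or.inl h
      · exact Or.inr ⟨Or.inr h1, h2⟩
    · rintro (h | ⟨rfl | h1, h2⟩)
      · exact Or.inl (Or.inr h)
      · exact Or.inl (Or.inl ⟨h2, rfl⟩)
      · exact Or.inr ⟨h1, h2⟩

theorem pairsOK_mono {l l' : List ℕ} (h : ∀ p : ℕ → Bool, l.countP p ≤ l'.countP p)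
    (h' : pairsOK l' = true) : pairsOK l = true := by
  unfold pairsOK le2 at *
  simp only [Bool.and_eq_true, Nat.ble_eq, dd, cnt_eq] at *
  obtain ⟨⟨⟨h1, h2⟩, h3, h4⟩, h5, h6⟩ := h'
  exact ⟨⟨⟨(h _).trans h1, (h _).trans h2⟩, (h _).trans h3, (h _).trans h4⟩,
    (h _).trans h5, (h _).trans h6⟩

theorem genAll_sound (f : List ℕ → Bool) (N : ℕ → ℕ) (l : List ℕ) : ∀ acc : List ℕ,
    genAll f l acc = true → (∀ σ ∈ l, N σ ≤ 2) → pairsOK (canon N l acc) = true →
    f (canon N l acc) = true := by
  induction l with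
  | nil => intro acc h _ _; exact h
  | cons σ l ih =>
    intro acc h hN hp
    have h' : (genAll f l acc && (bif pairsOK (σ :: acc) then (genAll f l (σ :: acc) &&
      (bif pairsOK (σ :: σ :: acc) then genAll f l (σ :: σ :: acc) else true))
      else true)) = true := h
    rw [Bool.and_eq_true] at h'
    have hN' : ∀ τ ∈ l, N τ ≤ 2 := fun τ hτ => hN τ (List.mem_cons_of_mem _ hτ)
    have hσ := hN σ List.mem_cons_self
    rw [canon] at hp ⊢
    have mono : ∀ acc', pairsOK (canon N l acc') = true → pairsOK acc' = true := by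
      intro acc' h0
      refine pairsOK_mono (fun p => ?_) h0
      rw [countP_canon]; exact Nat.le_add_right _ _
    have hcase : N σ = 0 ∨ N σ = 1 ∨ N σ = 2 := by omega
    rcases hcase with h0 | h0 | h0
    · rw [h0] at hp ⊢
      exact ih acc h'.1 hN' hp
    · rw [h0] at hp ⊢
      have e : List.replicate 1 σ ++ acc = σ :: acc := rfl
      rw [e] at hp ⊢
      have hq := mono _ hp
      rw [hq, cond_true, Bool.and_eq_true] at h'
      exact ih _ h'.2.1 hN' hp
    · rw [h0] at hp ⊢
      have e : List.replicate 2 σ ++ acc = σ :: σ :: acc := rfl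
      rw [e] at hp ⊢
      have hq := mono _ hp
      have hq1 : pairsOK (σ :: acc) = true := by
        refine pairsOK_mono (fun p => ?_) hq
        rw [List.countP_cons (l := σ :: acc)]; exact Nat.le_add_right _ _
      rw [hq1, hq, cond_true, cond_true, Bool.and_eq_true] at h'
      exact ih _ h'.2.2 hN' hp

theorem adj_iff (t s : ℕ) (L : List ℕ) :
    nz (Nat.land (adj t L) s) = true ↔ ∃ q ∈ L, q &&& t ≠ 0 ∧ q &&& s ≠ 0 := by
  induction L with
  | nil =>
    rw [nz_land]
    simp [adj]
  | cons q L ih =>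
    rw [nz_land] at ih ⊢
    by_cases h : q &&& t = 0
    · have h1 : nz (Nat.land q t) = false := by
        by_contra hn
        exact (nz_land q t).1 (by simpa using hn) h
      have e : adj t (q :: L) = adj t L := by
        show (bif nz (Nat.land q t) then Nat.lor q (adj t L) else adj t L) = _
        rw [h1]; rfl
      rw [e, ih]
      simp [h]
    · have h1 : nz (Nat.land q t) = true := (nz_land q t).2 h
      have e : adj t (q :: L) = q ||| adj t L := by
        show (bif nz (Nat.land q t) then Nat.lor q (adj t L) else adj t L) = _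
        rw [h1]; rfl
      rw [e, Nat.and_or_distrib_right]
      have e2 : ∀ x y : ℕ, x ||| y ≠ 0 ↔ x ≠ 0 ∨ y ≠ 0 := by
        intro x y
        rw [Ne, Nat.or_eq_zero_iff]; tauto
      rw [e2, ih]
      simp [h]

theorem connB_iff (L : List ℕ) (c : ℕ) :
    connB L c = true ↔ c ≠ 0 ∧ ∀ t < c, t ≠ 0 → t &&& c = t →
      ∃ q ∈ L, q &&& t ≠ 0 ∧ q &&& (c - t) ≠ 0 := by
  unfold connB
  rw [Bool.and_eq_true, nz_iff, allTo_iff]
  refine and_congr_right fun _ => forall_congr' fun t => forall_congr' fun _ => ?_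
  rw [Bool.or_eq_true, Bool.or_eq_true, beq_iff]
  rw [adj_iff]
  constructor
  · rintro (h | h | h) h1 h2
    · exact absurd h h1
    · have h3 : Nat.beq (Nat.land t c) t = true := (beq_iff _ _).2 h2
      rw [h3] at h; exact absurd h (by simp)
    · exact h
  · intro h
    by_cases h1 : t = 0
    · exact Or.inl h1
    · by_cases h2 : t &&& c = t
      · exact Or.inr (Or.inr (h h1 h2))
      · refine Or.inr (Or.inl ?_)
        cases h3 : Nat.beq (Nat.land t c) t
        · rfl
        · exact absurd ((beq_iff _ _).1 h3) h2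

end Pat
end Torus103
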