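import Pool.Agent.Lib.MP_77f3ac_co.Rows
import Pool.Agent.Lib.MP_77f3ac_co.Codes

/-! # MP_77f3ac_co: from configurations of lines to codes -/

set_option autoImplicit false

namespace Torus103
open Finset Pat
variable {P : Type*} [DecidableEq P]

/-- the trace of a point on the lines `l 0, .., l 3` -/
def tr (l : ℕ → Finset P) (x : P) : ℕ := cod (fun i => decide (x ∈ l i))

/-- the lines of a code -/
def Cset (l : ℕ → Finset P) (c : ℕ) : Finset (Finset P) :=
  ((range 4).filter (fun i => c.testBit i)).image l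

theorem tr_lt (l : ℕ → Finset P) (x : P) : tr l x < 16 := cod_lt _

theorem tr_testBit (l : ℕ → Finset P) (x : P) {i : ℕ} (hi : i < 4) :
    (tr l x).testBit i = decide (x ∈ l i) := cod_testBit _ hi

theorem tr_land (l : ℕ → Finset P) (x : P) (c : ℕ) :
    tr l x &&& c ≠ 0 ↔ ∃ i < 4, c.testBit i = true ∧ x ∈ l i := by
  rw [land_ne_zero_iff]
  constructor
  · rintro ⟨i, h1, h2⟩
    have hi := lt16_testBit (tr_lt l x) h1
    rw [tr_testBit l x hi] at h1
    exact ⟨i, hi, h2, of_decide_eq_true h1⟩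
  · rintro ⟨i, hi, h1, h2⟩
    exact ⟨i, by rw [tr_testBit l x hi]; exact decide_eq_true h2, h1⟩

theorem mem_Cset (l : ℕ → Finset P) (c : ℕ) (L : Finset P) :
    L ∈ Cset l c ↔ ∃ i < 4, c.testBit i = true ∧ l i = L := by
  simp only [Cset, mem_image, mem_filter, mem_range, and_assoc]

theorem mem_un (l : ℕ → Finset P) (c : ℕ) (X : Finset P) (x : P) :
    x ∈ un X (Cset l c) ↔ x ∈ X ∧ tr l x &&& c ≠ 0 := by
  rw [tr_land, un, mem_inter, mem_biUnion]
  constructor
  · rintro ⟨⟨L, hL, hx⟩, h⟩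
    obtain ⟨i, hi, h1, rfl⟩ := (mem_Cset l c L).1 hL
    exact ⟨h, i, hi, h1, hx⟩
  · rintro ⟨h, i, hi, h1, hx⟩
    exact ⟨⟨l i, (mem_Cset l c _).2 ⟨i, hi, h1, rfl⟩, hx⟩, h⟩

/-- an enumeration of `k ≤ 4` lines -/
structure En (T : Finset (Finset P)) (l : ℕ → Finset P) (k : ℕ) : Prop where
  k4 : k ≤ 4
  inj : ∀ i < k, ∀ j < k, l i = l j → i = j
  img : ∀ L, L ∈ T ↔ ∃ i < k, l i = L
  emp : ∀ i, k ≤ i → l i = ∅

theorem lt_pow_testBit {k c : ℕ} (hc : c < 2 ^ k) {i : ℕ} (hi : c.testBit i = true) : i < k := by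
  by_contra h
  have : c < 2 ^ i := lt_of_lt_of_le hc (Nat.pow_le_pow_right (by norm_num) (by omega))
  rw [Nat.testBit_lt_two_pow this] at hi
  exact absurd hi (by simp)

namespace En
variable {T : Finset (Finset P)} {l : ℕ → Finset P} {k : ℕ} (hE : En T l k)
include hE

theorem mem (c : ℕ) (hc : c < 2 ^ k) (L : Finset P) :
    L ∈ Cset l c ↔ ∃ i < k, c.testBit i = true ∧ l i = L := by
  rw [mem_Cset]
  constructor
  · rintro ⟨i, _, h1, h2⟩; exact ⟨i, lt_pow_testBit hc h1, h1, h2⟩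
  · rintro ⟨i, hi, h1, h2⟩; exact ⟨i, lt_of_lt_of_le hi hE.k4, h1, h2⟩

theorem subset (c : ℕ) (hc : c < 2 ^ k) : Cset l c ⊆ T := by
  intro L hL
  obtain ⟨i, hi, _, h2⟩ := (hE.mem c hc L).1 hL
  exact (hE.img L).2 ⟨i, hi, h2⟩

theorem mem' {c : ℕ} (hc : c < 2 ^ k) {i : ℕ} (hi : i < k) : l i ∈ Cset l c ↔ c.testBit i = true := by
  rw [hE.mem c hc]
  constructor
  · rintro ⟨j, hj, h1, h2⟩
    rw [hE.inj j hj i hi h2] at h1; exact h1
  · intro h; exact ⟨i, hi, h, rfl⟩

theorem lt16 {c : ℕ} (hc : c < 2 ^ k) : c < 16 :=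
  lt_of_lt_of_le hc (by
    calc 2 ^ k ≤ 2 ^ 4 := Nat.pow_le_pow_right (by norm_num) hE.k4
    _ = 16 := by norm_num)

theorem Cset_inj {c d : ℕ} (hc : c < 2 ^ k) (hd : d < 2 ^ k) (h : Cset l c = Cset l d) : c = d := by
  apply Nat.eq_of_testBit_eq
  intro i
  by_cases hi : i < k
  · have h1 := hE.mem' hc hi
    have h2 := hE.mem' hd hi
    rw [h] at h1
    have := h1.symm.trans h2
    by_cases h3 : d.testBit i = true
    · rw [h3, this.2 h3]
    · have h4 : ¬ c.testBit i = true := fun h5 => h3 (this.1 h5)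
      simp only [Bool.not_eq_true] at h3 h4
      rw [h3, h4]
  · have h1 : c.testBit i = false := by
      by_contra hn; exact hi (lt_pow_testBit hc (by simpa using hn))
    have h2 : d.testBit i = false := by
      by_contra hn; exact hi (lt_pow_testBit hd (by simpa using hn))
    rw [h1, h2]

theorem card_Cset {c : ℕ} (hc : c < 2 ^ k) : (Cset l c).card = sz c := by
  rw [sz_eq c (hE.lt16 hc), Cset, card_image_of_injOn]
  intro i hi j hj h
  simp only [coe_filter, mem_range, Set.mem_setOf_eq] at hi hj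
  exact hE.inj i (lt_pow_testBit hc hi.2) j (lt_pow_testBit hc hj.2) h

/-- the code of a subset -/
theorem exists_code {S : Finset (Finset P)} (hS : S ⊆ T) :
    ∃ c < 2 ^ k, Cset l c = S := by
  classical
  refine ⟨cod (fun i => decide (i < k ∧ l i ∈ S)), ?_, ?_⟩
  · by_contra hn
    have hn' : 2 ^ k ≤ cod (fun i => decide (i < k ∧ l i ∈ S)) := not_lt.1 hn
    -- some bit `≥ k` is set
    obtain ⟨i, hi, h1⟩ : ∃ i, k ≤ i ∧
        (cod (fun i => decide (i < k ∧ l i ∈ S))).testBit i = true :=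
      Nat.exists_ge_and_testBit_of_ge_two_pow hn'
    have hi4 := lt16_testBit (cod_lt _) h1
    rw [cod_testBit _ hi4] at h1
    have := of_decide_eq_true h1
    omega
  · ext L
    rw [mem_Cset]
    constructor
    · rintro ⟨i, hi, h1, rfl⟩
      rw [cod_testBit _ hi] at h1
      exact (of_decide_eq_true h1).2
    · intro hL
      obtain ⟨i, hi, rfl⟩ := (hE.img L).1 (hS hL)
      have hi4 := lt_of_lt_of_le hi hE.k4
      exact ⟨i, hi4, by rw [cod_testBit _ hi4]; exact decide_eq_true ⟨hi, hL⟩, rfl⟩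

end En

end Torus103
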