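import Mathlib

/-! # MP_77f3ac_co: the real inequality behind `core`

A box cover of `[0, 5/8] × [0, 5/4] × [0, 5/16]` (the variables `a`, `b`, `c`); every leaf carries the
multipliers (over 256) of a linear certificate. -/

set_option autoImplicit false

namespace Torus103
namespace Box

/-- Cover tree: `F` excluded by `c ≤ 4ab + a²`, `E` excluded by the main hypothesis, `L` multipliers,
`S` bisection of the coordinate `0`, `1`, `2`. -/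
inductive Tree
  | F : Tree
  | E : Tree
  | L : ℕ → ℕ → ℕ → ℕ → ℕ → ℕ → ℕ → Tree
  | S : ℕ → Tree → Tree → Tree

def G (e t1 t2 f1 f2 f3 f4 a b c : ℚ) : ℚ :=
  e * (5 / 4 - 2 * a - b - 4 * c) + t1 * (2 * c * b + c * a) + t2 * (3 / 2 * c * b + 5 / 4 * c * a)
    + f1 * (8 * c * b ^ 2 + 3 / 2 * c ^ 2)
    + f2 * (8 / 5 * c * b ^ 2 + 21 / 5 * c * a * b + 17 / 50 * c ^ 2)
    + f3 * (24 * c * b ^ 2 + c ^ 2)
    + f4 * (207 / 100 * c * b ^ 2 + 41 / 10 * c * a * b + 17 / 50 * c ^ 2)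

def Pc (e t1 t2 f1 f2 f4 a c : ℚ) : ℚ :=
  2 * t1 * a + 4 * t2 * a + f1 * (51 / 10 * a ^ 2 + 23 / 25 * c) + f2 * (57 / 10 * a ^ 2 + 4 * c)
    + f4 * (67 / 10 * a ^ 2 + 57 / 20 * c) - 2 * e

def Qc (e f1 f2 f4 a : ℚ) : ℚ :=
  f1 * (8 / 25 + 11 / 10 * a) + f2 * (1 / 10 + 24 / 5 * a) + f4 * (13 / 100 + 31 / 5 * a) - 4 * e

def leafOK (al ah bl bh cl ch e t1 t2 f1 f2 f3 f4 : ℚ) : Bool :=
  decide (640 ≤ t1 + t2 + 11 / 2 * e) && decide (768 ≤ f1 + f2 + f3 + f4 + 3 * e) &&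
  decide (Pc e t1 t2 f1 f2 f4 ah ch ≤ 0) && decide (Qc e f1 f2 f4 ah ≤ 0) &&
  decide (G e t1 t2 f1 f2 f3 f4 al bl cl ≤ 64) && decide (G e t1 t2 f1 f2 f3 f4 ah bl cl ≤ 64) &&
  decide (G e t1 t2 f1 f2 f3 f4 al bh cl ≤ 64) && decide (G e t1 t2 f1 f2 f3 f4 ah bh cl ≤ 64) &&
  decide (G e t1 t2 f1 f2 f3 f4 al bl ch ≤ 64) && decide (G e t1 t2 f1 f2 f3 f4 ah bl ch ≤ 64) &&
  decide (G e t1 t2 f1 f2 f3 f4 al bh ch ≤ 64) && decide (G e t1 t2 f1 f2 f3 f4 ah bh ch ≤ 64)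

def check : Tree → ℚ → ℚ → ℚ → ℚ → ℚ → ℚ → Bool
  | .F, _, ah, _, bh, cl, _ => decide (4 * ah * bh + ah ^ 2 < cl)
  | .E, al, _, bl, _, cl, _ => decide (5 / 4 < 2 * al + bl + 4 * cl)
  | .L e t1 t2 f1 f2 f3 f4, al, ah, bl, bh, cl, ch =>
    leafOK al ah bl bh cl ch e t1 t2 f1 f2 f3 f4
  | .S 0 l r, al, ah, bl, bh, cl, ch =>
    check l al ((al + ah) / 2) bl bh cl ch && check r ((al + ah) / 2) ah bl bh cl ch
  | .S 1 l r, al, ah, bl, bh, cl, ch =>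
    check l al ah bl ((bl + bh) / 2) cl ch && check r al ah ((bl + bh) / 2) bh cl ch
  | .S _ l r, al, ah, bl, bh, cl, ch =>
    check l al ah bl bh cl ((cl + ch) / 2) && check r al ah bl bh ((cl + ch) / 2) ch

theorem conv {A B C K l h x : ℚ} (hA : 0 ≤ A) (h1 : l ≤ x) (h2 : x ≤ h)
    (hl : A * l ^ 2 + B * l + C ≤ K) (hh : A * h ^ 2 + B * h + C ≤ K) :
    A * x ^ 2 + B * x + C ≤ K := by
  rcases eq_or_lt_of_le (h1.trans h2) with h0 | h0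
  · have hx : x = l := le_antisymm (h0 ▸ h2) h1
    subst hx; exact hl
  · have e1 : 0 ≤ A * ((x - l) * (h - x)) := mul_nonneg hA (mul_nonneg (by linarith) (by linarith))
    have e2 : (h - l) * (A * x ^ 2 + B * x + C) ≤ (h - l) * K := by
      have e3 := mul_le_mul_of_nonneg_left hl (show 0 ≤ h - x by linarith)
      have e4 := mul_le_mul_of_nonneg_left hh (show 0 ≤ x - l by linarith)
      have e5 := mul_nonneg e1 (show 0 ≤ h - l by linarith)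
      linarith [e3, e4, e5]
    exact le_of_mul_le_mul_left e2 (by linarith)

structure Hyp (a b c p q x y : ℚ) : Prop where
  a0 : 0 ≤ a
  b0 : 0 ≤ b
  c0 : 0 ≤ c
  p0 : 0 ≤ p
  q0 : 0 ≤ q
  x0 : 0 ≤ x
  y0 : 0 ≤ y
  hE : 2 * a + 4 * c + 11 / 2 * x + 3 * y + b + 2 * p + 4 * q ≤ 5 / 4
  hC : c ≤ 4 * a * b + a ^ 2
  X1 : x ≤ 2 * a * p + 2 * c * b + c * a
  X2 : x ≤ 4 * a * p + 3 / 2 * c * b + 5 / 4 * c * a
  Y1 : y ≤ 8 / 25 * q + 11 / 10 * a * q + 51 / 10 * a ^ 2 * p + 8 * c * b ^ 2 + 23 / 25 * c * p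
    + 3 / 2 * c ^ 2
  Y2 : y ≤ 1 / 10 * q + 24 / 5 * a * q + 57 / 10 * a ^ 2 * p + 8 / 5 * c * b ^ 2 + 4 * c * p
    + 21 / 5 * c * a * b + 17 / 50 * c ^ 2
  Y3 : y ≤ 24 * c * b ^ 2 + c ^ 2
  Y4 : y ≤ 13 / 100 * q + 31 / 5 * a * q + 67 / 10 * a ^ 2 * p + 207 / 100 * c * b ^ 2
    + 57 / 20 * c * p + 41 / 10 * c * a * b + 17 / 50 * c ^ 2

theorem leaf_sound {a b c p q x y : ℚ} (H : Hyp a b c p q x y)
    {al ah bl bh cl ch e t1 t2 f1 f2 f3 f4 : ℚ}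
    (he : 0 ≤ e) (h1 : 0 ≤ t1) (h2 : 0 ≤ t2) (h3 : 0 ≤ f1) (h4 : 0 ≤ f2) (h5 : 0 ≤ f3)
    (h6 : 0 ≤ f4) (hc : leafOK al ah bl bh cl ch e t1 t2 f1 f2 f3 f4 = true)
    (ha1 : al ≤ a) (ha2 : a ≤ ah) (hb1 : bl ≤ b) (hb2 : b ≤ bh) (hc1 : cl ≤ c) (hc2 : c ≤ ch)
    (hcl : 0 ≤ cl) :
    5 / 2 * x + 3 * y ≤ 1 / 4 := by
  simp only [leafOK, Bool.and_eq_true, decide_eq_true_eq] at hc
  obtain ⟨⟨⟨⟨⟨⟨⟨⟨⟨⟨⟨k1, k2⟩, k3⟩, k4⟩, g1⟩, g2⟩, g3⟩, g4⟩, g5⟩, g6⟩, g7⟩, g8⟩ := hc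
  have hch : 0 ≤ ch := le_trans H.c0 hc2
  -- affine in `a`
  have sa : ∀ b' c', G e t1 t2 f1 f2 f3 f4 al b' c' ≤ 64 → G e t1 t2 f1 f2 f3 f4 ah b' c' ≤ 64 →
      G e t1 t2 f1 f2 f3 f4 a b' c' ≤ 64 := by
    intro b' c' u v
    have key : ∀ z, G e t1 t2 f1 f2 f3 f4 z b' c' = 0 * z ^ 2 +
        (-2 * e + t1 * c' + t2 * (5 / 4 * c') + f2 * (21 / 5 * c' * b') + f4 * (41 / 10 * c' * b')) * z
        + G e t1 t2 f1 f2 f3 f4 0 b' c' := by intro z; unfold G; ring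
    rw [key] at u v ⊢
    exact conv le_rfl ha1 ha2 u v
  have sb : ∀ a' c', 0 ≤ c' → G e t1 t2 f1 f2 f3 f4 a' bl c' ≤ 64 →
      G e t1 t2 f1 f2 f3 f4 a' bh c' ≤ 64 → G e t1 t2 f1 f2 f3 f4 a' b c' ≤ 64 := by
    intro a' c' hc' u v
    have key : ∀ z, G e t1 t2 f1 f2 f3 f4 a' z c' =
        (c' * (8 * f1 + 8 / 5 * f2 + 24 * f3 + 207 / 100 * f4)) * z ^ 2 +
        (-e + t1 * (2 * c') + t2 * (3 / 2 * c') + f2 * (21 / 5 * c' * a')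
          + f4 * (41 / 10 * c' * a')) * z
        + G e t1 t2 f1 f2 f3 f4 a' 0 c' := by intro z; unfold G; ring
    rw [key] at u v ⊢
    exact conv (mul_nonneg hc' (by positivity)) hb1 hb2 u v
  have sc : ∀ a' b', G e t1 t2 f1 f2 f3 f4 a' b' cl ≤ 64 →
      G e t1 t2 f1 f2 f3 f4 a' b' ch ≤ 64 → G e t1 t2 f1 f2 f3 f4 a' b' c ≤ 64 := by
    intro a' b' u v
    have key : ∀ z, G e t1 t2 f1 f2 f3 f4 a' b' z =
        (3 / 2 * f1 + 17 / 50 * f2 + f3 + 17 / 50 * f4) * z ^ 2 +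
        (-4 * e + t1 * (2 * b' + a') + t2 * (3 / 2 * b' + 5 / 4 * a') + f1 * (8 * b' ^ 2)
          + f2 * (8 / 5 * b' ^ 2 + 21 / 5 * a' * b') + f3 * (24 * b' ^ 2)
          + f4 * (207 / 100 * b' ^ 2 + 41 / 10 * a' * b')) * z
        + G e t1 t2 f1 f2 f3 f4 a' b' 0 := by intro z; unfold G; ring
    rw [key] at u v ⊢
    exact conv (by positivity) hc1 hc2 u v
  have hG : G e t1 t2 f1 f2 f3 f4 a b c ≤ 64 :=
    sc a b (sb a cl hcl (sa bl cl g1 g2) (sa bh cl g3 g4)) (sb a ch hch (sa bl ch g5 g6) (sa bh ch g7 g8))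
  have hah : 0 ≤ ah := le_trans H.a0 ha2
  have hasq : a ^ 2 ≤ ah ^ 2 := pow_le_pow_left₀ H.a0 ha2 2
  have hP : Pc e t1 t2 f1 f2 f4 a c ≤ 0 := by
    refine le_trans ?_ k3
    unfold Pc
    have m1 := mul_le_mul_of_nonneg_left ha2 h1
    have m2 := mul_le_mul_of_nonneg_left ha2 h2
    have m3 := mul_le_mul_of_nonneg_left hasq h3
    have m4 := mul_le_mul_of_nonneg_left hc2 h3
    have m5 := mul_le_mul_of_nonneg_left hasq h4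
    have m6 := mul_le_mul_of_nonneg_left hc2 h4
    have m7 := mul_le_mul_of_nonneg_left hasq h6
    have m8 := mul_le_mul_of_nonneg_left hc2 h6
    linarith
  have hQ : Qc e f1 f2 f4 a ≤ 0 := by
    refine le_trans ?_ k4
    unfold Qc
    have m1 := mul_le_mul_of_nonneg_left ha2 h3
    have m2 := mul_le_mul_of_nonneg_left ha2 h4
    have m3 := mul_le_mul_of_nonneg_left ha2 h6
    linarith
  have r0 := mul_le_mul_of_nonneg_left H.hE he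
  have r1 := mul_le_mul_of_nonneg_left H.X1 h1
  have r2 := mul_le_mul_of_nonneg_left H.X2 h2
  have r3 := mul_le_mul_of_nonneg_left H.Y1 h3
  have r4 := mul_le_mul_of_nonneg_left H.Y2 h4
  have r5 := mul_le_mul_of_nonneg_left H.Y3 h5
  have r6 := mul_le_mul_of_nonneg_left H.Y4 h6
  have r7 := mul_nonneg H.p0 (neg_nonneg.2 hP)
  have r8 := mul_nonneg H.q0 (neg_nonneg.2 hQ)
  have r9 := mul_le_mul_of_nonneg_right k1 H.x0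
  have r10 := mul_le_mul_of_nonneg_right k2 H.y0
  unfold G at hG
  unfold Pc at r7
  unfold Qc at r8
  linarith [r0, r1, r2, r3, r4, r5, r6, r7, r8, r9, r10, hG]

theorem sound {a b c p q x y : ℚ} (H : Hyp a b c p q x y) (t : Tree) :
    ∀ al ah bl bh cl ch : ℚ, check t al ah bl bh cl ch = true → al ≤ a → a ≤ ah → bl ≤ b → b ≤ bh →
      cl ≤ c → c ≤ ch → 0 ≤ cl → 5 / 2 * x + 3 * y ≤ 1 / 4 := by
  induction t with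
  | F =>
    intro al ah bl bh cl ch h ha1 ha2 hb1 hb2 hc1 hc2 hcl
    simp only [check, decide_eq_true_eq] at h
    exfalso
    have hah : 0 ≤ ah := le_trans H.a0 ha2
    have e1 : a * b ≤ ah * bh := mul_le_mul ha2 hb2 H.b0 hah
    have e2 : a ^ 2 ≤ ah ^ 2 := pow_le_pow_left₀ H.a0 ha2 2
    have := H.hC
    linarith
  | E =>
    intro al ah bl bh cl ch h ha1 ha2 hb1 hb2 hc1 hc2 hcl
    simp only [check, decide_eq_true_eq] at h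
    exfalso
    have := H.hE; have := H.p0; have := H.q0; have := H.x0; have := H.y0
    linarith
  | L e t1 t2 f1 f2 f3 f4 =>
    intro al ah bl bh cl ch h ha1 ha2 hb1 hb2 hc1 hc2 hcl
    simp only [check] at h
    exact leaf_sound H (Nat.cast_nonneg e) (Nat.cast_nonneg t1) (Nat.cast_nonneg t2)
      (Nat.cast_nonneg f1) (Nat.cast_nonneg f2) (Nat.cast_nonneg f3) (Nat.cast_nonneg f4) h
      ha1 ha2 hb1 hb2 hc1 hc2 hcl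
  | S d l r ihl ihr =>
    intro al ah bl bh cl ch h ha1 ha2 hb1 hb2 hc1 hc2 hcl
    match d with
    | 0 =>
      simp only [check, Bool.and_eq_true] at h
      rcases le_total a ((al + ah) / 2) with u | u
      · exact ihl _ _ _ _ _ _ h.1 ha1 u hb1 hb2 hc1 hc2 hcl
      · exact ihr _ _ _ _ _ _ h.2 u ha2 hb1 hb2 hc1 hc2 hcl
    | 1 =>
      simp only [check, Bool.and_eq_true] at h
      rcases le_total b ((bl + bh) / 2) with u | u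
      · exact ihl _ _ _ _ _ _ h.1 ha1 ha2 hb1 u hc1 hc2 hcl
      · exact ihr _ _ _ _ _ _ h.2 ha1 ha2 u hb2 hc1 hc2 hcl
    | n + 2 =>
      simp only [check, Bool.and_eq_true] at h
      rcases le_total c ((cl + ch) / 2) with u | u
      · exact ihl _ _ _ _ _ _ h.1 ha1 ha2 hb1 hb2 hc1 u hcl
      · refine ihr _ _ _ _ _ _ h.2 ha1 ha2 hb1 hb2 u hc2 ?_
        have : cl ≤ ch := hc1.trans hc2
        linarith

def tree : Tree :=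
  (.S 0 (.S 1 (.S 1 (.S 2 (.S 0 (.S 2 (.S 0 (.S 1 (.S 1 (.L 36 442 0 0 0 660 0) (.S 0 (.L 33 459 0
  353 0 316 0) (.S 2 (.L 36 442 0 0 0 660 0) (.S 2 (.L 50 365 0 486 0 132 0) .F)))) (.S 0 (.S 2
  (.L 52 354 0 0 115 30 467) (.S 2 (.L 62 299 0 31 0 0 551) .F)) (.S 2 (.L 63 294 0 223 337 19 0)
  (.S 0 (.S 2 (.S 0 (.L 65 283 0 29 0 0 544) (.L 68 266 0 59 35 0 470)) (.S 1 .F (.S 2 (.S 0 (.L
  73 192 47 0 0 0 549) (.L 74 225 8 0 0 0 546)) (.S 0 .F (.S 1 .F (.S 0 (.S 2 (.L 78 116 95 0 0 0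
  534) .F) (.S 2 (.L 79 133 73 0 0 0 531) (.L 81 113 82 0 0 0 525)))))))) (.S 2 (.S 0 (.S 1 (.L 68
  266 0 166 118 0 280) (.L 72 244 0 44 94 0 414)) (.S 1 (.L 71 250 0 200 148 0 207) (.L 75 228 0
  76 149 0 318))) (.S 2 (.S 0 (.S 1 (.L 73 239 0 88 2 0 459) (.L 77 217 0 0 0 0 537)) (.S 1 (.S 0
  (.L 75 228 0 102 31 0 410) (.S 2 (.L 75 228 0 110 99 0 334) (.L 77 217 0 87 52 0 398))) (.L 80
  200 0 0 44 0 484))) (.S 0 (.S 2 (.S 0 (.L 77 217 0 9 0 0 528) (.L 78 211 0 16 0 0 518)) (.S 1 .F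
  (.L 81 182 13 0 0 0 525))) (.S 2 (.S 0 (.L 79 206 0 23 0 0 508) (.L 80 200 0 31 2 0 495)) (.S 0
  (.S 2 (.L 81 195 0 13 0 0 512) (.S 1 .F (.L 83 159 25 0 0 0 519))) (.S 1 (.L 81 195 0 57 0 0
  468) (.L 83 184 0 0 0 0 519))))))))))) (.S 1 (.S 0 (.S 1 (.L 46 387 0 0 0 630 0) (.S 2 (.L 46
  387 0 0 0 630 0) (.S 0 (.L 64 288 0 576 0 0 0) (.L 70 255 0 558 0 0 0)))) (.S 1 (.L 54 343 0 0 0
  606 0) (.S 2 (.L 54 343 0 0 0 606 0) (.S 0 (.L 75 228 0 502 0 41 0) (.L 78 211 0 444 0 90 0)))))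
  (.S 0 (.S 2 (.S 0 (.L 68 218 48 360 204 0 0) (.L 71 235 15 403 152 0 0)) (.S 0 (.S 2 (.S 1 (.S 0
  (.S 0 (.L 72 244 0 211 156 0 185) (.L 73 239 0 225 161 0 163)) (.L 74 233 0 257 160 0 129)) (.S
  0 (.S 2 (.L 74 233 0 118 289 0 139) (.L 78 211 0 88 188 0 258)) (.S 2 (.L 76 222 0 143 300 0 97)
  (.L 80 200 0 112 212 0 204)))) (.S 0 (.S 2 (.S 1 (.S 0 (.S 0 (.L 76 222 0 125 65 0 350) (.L 77
  217 0 133 75 0 329)) (.S 0 (.L 77 217 0 140 83 0 314) (.L 78 211 0 147 90 0 297))) (.S 0 (.L 82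
  189 0 0 75 0 447) (.L 84 178 0 0 103 0 413))) (.S 0 (.S 2 (.L 81 195 0 45 31 0 449) (.L 83 184 0
  34 0 0 485)) (.S 1 (.S 2 (.L 81 195 0 96 54 0 375) (.L 83 184 0 78 16 0 425)) (.L 86 167 0 0 16
  0 494)))) (.S 2 (.S 1 (.S 0 (.S 0 (.L 78 211 0 154 97 0 283) (.L 79 206 0 160 102 0 269)) (.S 0
  (.L 79 206 0 167 107 0 257) (.L 80 200 0 173 111 0 244))) (.S 0 (.L 86 167 0 0 130 0 380) (.L 87
  162 0 0 155 0 352))) (.S 1 (.S 0 (.S 2 (.L 82 189 0 109 72 0 341) (.L 84 178 0 91 36 0 389)) (.S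
  2 (.L 83 184 0 122 86 0 311) (.L 85 173 0 103 53 0 357))) (.L 90 145 0 0 70 0 428))))) (.S 2 (.S
  1 (.S 0 (.L 76 222 0 283 148 0 109) (.L 78 211 0 306 127 0 101)) (.S 0 (.S 2 (.L 78 211 0 166
  301 0 67) (.L 82 189 0 133 227 0 162)) (.S 2 (.L 80 200 0 187 292 0 49) (.L 84 178 0 153 231 0
  132)))) (.S 1 (.S 0 (.S 2 (.S 0 (.S 0 (.L 80 200 0 179 114 0 235) (.L 81 195 0 185 117 0 223))
  (.S 2 (.L 81 195 0 190 158 0 177) (.L 83 184 0 166 133 0 220))) (.S 0 (.S 2 (.L 84 178 0 133 97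
  0 286) (.L 86 167 0 115 67 0 328)) (.S 2 (.L 85 173 0 145 106 0 262) (.L 87 162 0 126 79 0
  302)))) (.S 2 (.S 0 (.L 83 184 0 206 121 0 192) (.L 83 184 0 221 119 0 179)) (.S 0 (.L 87 162 0
  162 78 0 267) (.L 88 156 0 172 83 0 249)))) (.S 2 (.S 0 (.S 2 (.L 89 151 0 0 247 0 254) (.L 91
  140 0 0 201 0 294)) (.L 94 123 0 0 241 0 245)) (.S 0 (.L 93 129 0 0 117 0 372) (.L 96 112 0 0
  160 0 320))))))) (.S 2 (.S 0 (.L 74 233 0 453 46 0 47) (.L 78 211 0 533 0 0 1)) (.S 2 (.S 0 (.S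
  1 (.S 0 (.L 79 206 0 332 98 0 101) (.L 81 195 0 354 62 0 109)) (.S 0 (.L 85 173 0 191 213 0 109)
  (.L 87 162 0 209 200 0 98))) (.S 1 (.L 84 178 0 410 0 0 106) (.L 90 145 0 249 152 0 97))) (.S 0
  (.S 1 (.S 0 (.S 2 (.L 85 173 0 242 110 0 161) (.L 89 151 0 194 86 0 221)) (.L 88 156 0 271 40 0
  193)) (.S 2 (.L 99 96 0 0 308 0 163) (.L 101 85 0 0 232 0 233))) (.S 1 (.L 90 145 0 313 0 0 185)
  (.L 106 57 0 0 290 0 160)))))))) (.S 0 (.S 2 (.S 0 .F (.S 1 .F (.S 0 .F (.S 2 (.S 2 (.S 0 (.S 1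
  .F (.S 2 (.S 0 (.L 83 142 42 0 0 0 519) (.L 84 151 27 0 0 0 516)) (.S 1 .F (.L 90 0 145 0 0 0
  498)))) (.S 2 (.S 0 (.S 1 .F (.L 85 161 12 0 0 0 513)) (.S 2 (.L 84 178 0 16 0 0 500) (.L 85 173
  0 14 0 0 499))) (.S 1 .F (.L 87 162 0 0 0 0 507)))) (.S 1 .F (.S 0 (.S 1 .F (.L 94 0 123 0 0 0
  486)) (.L 96 0 112 0 0 0 480)))) (.S 1 .F (.S 0 .F (.L 101 0 85 0 0 0 465))))))) .F) (.S 1 (.S 1
  .F (.S 0 (.S 0 .F (.S 2 (.S 2 (.S 2 (.L 77 217 0 440 0 0 97) .F) .F) .F)) (.S 2 (.S 0 (.L 83 184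
  0 493 0 0 26) (.L 86 167 0 510 0 0 0)) (.L 110 35 0 0 0 95 343)))) (.S 2 (.S 0 (.S 2 (.S 0 (.S 2
  (.S 0 (.S 2 (.S 0 (.L 85 173 0 29 0 0 484) (.L 86 167 0 35 0 0 475)) (.S 0 (.L 87 162 0 25 0 0
  482) (.L 88 156 0 31 0 0 473))) (.S 2 (.S 0 (.L 87 162 0 42 3 0 462) (.L 88 156 0 54 25 0 425))
  (.L 90 145 0 45 0 0 453))) (.S 0 (.S 2 (.L 90 145 0 30 0 0 468) (.L 93 129 0 0 0 0 489)) (.L 95
  118 0 0 0 0 483))) (.S 2 (.S 0 (.S 1 (.S 0 (.L 88 156 0 104 6 0 394) (.L 89 151 0 115 20 0 366))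
  (.L 95 118 0 0 45 0 438)) (.L 93 129 0 101 54 0 334)) (.L 96 112 0 79 5 0 396))) (.S 0 (.S 2 (.L
  98 101 0 0 0 0 474) (.L 101 85 0 0 0 0 465)) (.L 105 63 0 0 0 0 453))) (.S 2 (.S 0 (.S 0 (.L 96
  112 0 126 18 0 336) (.L 97 107 0 142 31 0 304)) (.L 100 90 0 174 41 0 253)) (.L 114 13 0 0 72 0
  354))) (.L 117 0 0 66 0 0 351))))) (.S 1 (.S 2 (.S 0 (.S 2 (.L 66 277 0 0 0 570 0) (.S 1 (.L 66
  277 0 0 0 570 0) (.S 0 (.L 83 184 0 345 0 174 0) (.L 87 162 0 272 0 235 0)))) (.L 78 211 0 34 0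
  500 0)) (.S 0 (.S 1 (.L 71 250 0 0 0 526 29) (.S 0 (.L 97 107 0 444 0 33 0) (.L 102 79 0 389 0
  73 0))) (.L 102 79 0 237 0 225 0))) (.S 2 (.S 0 (.S 2 (.S 0 (.S 0 (.S 2 (.L 74 233 0 376 0 170
  0) (.L 83 184 0 509 0 10 0)) (.L 85 173 0 442 0 71 0)) (.L 91 140 0 368 0 127 0)) (.S 0 (.S 1
  (.S 0 (.L 89 151 0 459 0 0 42) (.L 92 134 0 482 0 10 0)) (.S 0 (.L 97 107 0 270 29 0 178) (.L 99
  96 0 309 0 0 162))) (.L 102 79 0 461 0 0 1))) (.S 2 (.L 100 90 0 261 0 207 0) (.L 112 24 0 360 0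
  72 0))) (.S 0 (.L 114 13 0 334 0 0 92) (.L 124 0 0 384 0 12 0))))) (.S 0 (.S 0 .F (.S 1 .F (.L
  157 0 0 0 0 0 297))) (.L 157 0 0 0 0 98 199))) (.S 2 (.S 0 (.S 2 (.S 0 (.S 2 (.S 0 (.L 61 0 305
  0 73 0 512) (.L 71 250 0 0 430 0 125)) (.S 0 (.S 1 (.S 0 .F (.S 2 (.L 72 0 244 0 98 0 454) (.S 0
  .F (.S 1 (.S 2 (.L 76 0 222 0 60 0 480) .F) (.S 2 (.L 81 0 195 0 281 0 244) (.S 0 .F (.L 85 0
  173 0 262 0 251))))))) (.S 0 (.S 2 (.L 75 0 228 0 543 0 0) .F) (.S 2 (.L 80 0 200 0 528 0 0) (.S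
  0 (.L 89 0 151 0 501 0 0) (.L 91 0 140 0 495 0 0))))) (.S 1 (.S 0 (.S 2 (.L 76 50 172 0 0 0 540)
  (.S 2 (.S 0 (.S 1 (.L 78 10 201 0 0 0 534) (.L 83 0 184 0 224 0 295)) (.L 81 0 195 0 23 0 502))
  (.S 0 (.S 1 (.S 0 (.S 2 (.L 80 0 200 0 74 0 454) .F) (.S 2 (.L 81 0 195 0 42 0 483) (.L 83 0 184
  0 50 0 469))) (.L 93 0 129 0 489 0 0)) (.S 1 (.S 0 (.L 83 0 184 0 0 0 519) (.L 85 0 173 0 0 0
  513)) (.L 95 0 118 0 483 0 0))))) (.S 2 (.L 78 211 0 0 188 0 346) (.S 2 (.S 0 (.L 83 27 157 0 0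
  0 519) (.L 84 62 116 0 0 0 516)) (.S 0 (.L 87 0 162 0 3 0 504) (.L 90 0 145 0 0 0 498))))) (.S 2
  (.L 89 36 115 0 501 0 0) (.L 99 0 96 0 471 0 0))))) (.S 2 (.S 0 (.S 0 (.L 77 217 0 12 507 0 18)
  (.L 83 150 34 78 441 0 0)) (.L 90 110 35 181 317 0 0)) (.S 0 (.S 2 (.S 0 (.L 85 173 0 0 255 0
  258) (.L 91 140 0 0 333 0 162)) (.S 1 (.S 0 (.S 2 (.L 87 162 0 0 155 0 352) (.L 94 0 123 0 0 0
  486)) (.L 96 112 0 0 160 0 320)) (.L 105 0 63 0 453 0 0))) (.S 2 (.L 101 85 0 0 445 0 20) (.L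
  108 46 0 0 444 0 0))))) (.S 0 (.S 2 (.S 0 (.S 1 .F (.S 0 .F (.L 109 0 41 0 441 0 0))) (.S 2 (.S
  1 (.S 0 (.S 2 (.S 0 (.S 1 (.S 0 .F (.S 2 (.L 85 0 173 0 58 0 455) .F)) (.L 98 0 101 0 474 0 0))
  (.S 1 (.S 2 (.L 86 0 167 0 0 0 510) (.L 89 0 151 0 20 0 481)) (.L 99 0 96 0 471 0 0))) (.S 1 (.S
  1 .F (.L 103 0 74 0 459 0 0)) (.L 103 0 74 0 459 0 0))) (.S 2 (.S 1 (.S 0 (.L 90 0 145 0 0 0
  498) (.L 93 0 129 0 0 0 489)) (.L 102 0 79 0 462 0 0)) (.L 106 0 57 0 450 0 0))) (.L 116 2 0 0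
  420 0 0)) (.S 1 (.S 1 (.S 0 .F (.L 113 0 19 0 429 0 0)) (.L 116 2 0 0 420 0 0)) (.L 116 2 0 0
  420 0 0)))) (.S 0 .F (.L 117 0 0 0 167 0 250))) (.S 2 (.S 0 (.L 116 0 2 0 420 0 0) (.L 117 0 0 0
  218 0 199)) (.L 123 0 0 0 0 0 399)))) (.S 2 (.S 0 (.S 2 (.S 0 (.L 96 110 2 229 251 0 0) (.L 103
  74 0 293 166 0 0)) (.L 117 0 0 101 267 0 49)) (.L 128 0 0 267 117 0 0)) (.L 160 0 0 0 0 0 288)))
  (.S 0 (.L 157 0 0 0 0 0 297) (.L 256 0 0 0 0 0 0)))) (.S 2 (.S 0 (.S 2 (.S 1 (.S 0 (.L 99 0 96 0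
  471 0 0) (.L 109 30 11 0 441 0 0)) (.L 132 0 0 0 372 0 0)) (.L 137 0 0 0 357 0 0)) (.L 159 0 0 9
  0 0 282)) (.L 256 0 0 0 0 0 0))) (.S 1 (.S 1 (.S 2 (.S 1 (.L 91 140 0 0 2 493 0) (.S 0 (.L 130 0
  0 202 0 176 0) (.L 138 0 0 129 0 225 0))) (.L 256 0 0 0 0 0 0)) (.L 189 0 0 165 0 36 0)) (.L 256
  0 0 0 0 0 0)))

theorem tree_ok : check tree 0 (5 / 8) 0 (5 / 4) 0 (5 / 16) = true := by decide +kernel

end Box

/-- The real inequality behind `core`. -/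
theorem real_ineq {a b c p q x y : ℚ} (H : Box.Hyp a b c p q x y) :
    5 / 2 * x + 3 * y ≤ 1 / 4 := by
  have h1 := H.a0; have h2 := H.b0; have h3 := H.c0; have h4 := H.p0; have h5 := H.q0
  have h6 := H.x0; have h7 := H.y0; have h8 := H.hE
  exact Box.sound H Box.tree 0 (5 / 8) 0 (5 / 4) 0 (5 / 16) Box.tree_ok h1 (by linarith) h2
    (by linarith) h3 (by linarith) le_rfl

end Torus103
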