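import Pool.Agent.Lib.MP_77f3ac_co.Patt
import Pool.Agent.Lib.MP_77f3ac_co.RealIneq
import Pool.Agent.Lib.MP_77f3ac_co_h25.Cap

/-! # MP_77f3ac_co: the static inequality `core` -/

set_option autoImplicit false
set_option linter.unusedSectionVars false

namespace Torus103
open Finset Pat
variable {P : Type*} [DecidableEq P]

theorem un_erase (F : Finset P) (m : P) (C : Finset (Finset P)) :
    un (F.erase m) C = (un F C).erase m := by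
  unfold un
  ext x
  simp only [mem_inter, mem_erase]
  tauto

theorem w_erase_mem {F : Finset P} {m : P} {C : Finset (Finset P)} (h : m ∈ un F C) :
    w (F.erase m) C = 2 * w F C := by
  unfold w
  rw [un_erase, card_erase_of_mem h]
  obtain ⟨n, hn⟩ := Nat.exists_eq_add_of_le (card_pos.2 ⟨m, h⟩ : 1 ≤ (un F C).card)
  rw [hn, Nat.add_sub_cancel_left, pow_add]
  ring

theorem w_erase_notMem {F : Finset P} {m : P} {C : Finset (Finset P)} (h : m ∉ un F C) :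
    w (F.erase m) C = w F C := by
  unfold w
  rw [un_erase, erase_eq_of_notMem h]

theorem KS_marked (F : Finset P) (𝓛 : Finset (Finset P)) (m : P) {k : ℕ} (h1 : 1 ≤ k)
    (h4 : k ≤ 4) : KS F 𝓛 m k = Sm F 𝓛 m k := by
  unfold KS Sm KF
  have e : 𝓛.powerset.filter (KindOf F m k) =
      (𝓛.powersetCard k).filter (fun C => Conn F C ∧ m ∈ un F C) := by
    ext C
    simp only [mem_filter, mem_powerset, mem_powersetCard, KindOf]
    constructor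
    · rintro ⟨hC, (h | h | h)⟩
      · exact ⟨⟨hC, h.2.2.1⟩, h.2.2.2.1, h.2.2.2.2⟩
      · omega
      · omega
    · rintro ⟨⟨hC, hc⟩, h, h'⟩
      exact ⟨hC, Or.inl ⟨h1, h4, hc, h, h'⟩⟩
  rw [e]
  apply sum_congr rfl
  intro C hC
  rw [mem_filter] at hC
  exact w_erase_mem hC.2.2

theorem KS_unmarked (F : Finset P) (𝓛 : Finset (Finset P)) (m : P) {k : ℕ} (h1 : 1 ≤ k)
    (h4 : k ≤ 4) : KS F 𝓛 m (k + 4) = Om F 𝓛 m k := by
  unfold KS Om KF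
  have e : 𝓛.powerset.filter (KindOf F m (k + 4)) =
      (𝓛.powersetCard k).filter (fun C => Conn F C ∧ m ∉ un F C) := by
    ext C
    simp only [mem_filter, mem_powerset, mem_powersetCard, KindOf]
    constructor
    · rintro ⟨hC, (h | h | h)⟩
      · omega
      · exact ⟨⟨hC, by omega⟩, h.2.2.2.1, h.2.2.2.2⟩
      · omega
    · rintro ⟨⟨hC, hc⟩, h, h'⟩
      exact ⟨hC, Or.inr (Or.inl ⟨by omega, by omega, by omega, h, h'⟩)⟩
  rw [e]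
  apply sum_congr rfl
  intro C hC
  rw [mem_filter] at hC
  exact w_erase_notMem hC.2.2

theorem KS_nine (F : Finset P) (𝓛 : Finset (Finset P)) (m : P) : KS F 𝓛 m 9 = 1 := by
  unfold KS KF
  have e : 𝓛.powerset.filter (KindOf F m 9) = {∅} := by
    ext C
    simp only [mem_filter, mem_powerset, KindOf, mem_singleton]
    constructor
    · rintro ⟨_, (h | h | h)⟩
      · omega
      · omega
      · exact h.2
    · rintro rfl
      exact ⟨empty_subset _, Or.inr (Or.inr ⟨trivial, rfl⟩)⟩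
  rw [e, sum_singleton]
  simp [w, un]

/-- the surviving clusters -/
noncomputable def TT (F : Finset P) (𝓛 : Finset (Finset P)) (m : P) (k : ℕ) :
    Finset (Finset (Finset P)) :=
  (𝓛.powersetCard k).filter (fun C => Conn (F.erase m) C ∧ m ∈ un F C)

theorem Sv_eq (F : Finset P) (𝓛 : Finset (Finset P)) (m : P) (k : ℕ) :
    Sv F 𝓛 m k = ∑ T ∈ TT F 𝓛 m k, w (F.erase m) T := by
  unfold Sv TT
  apply sum_congr rfl
  intro C hC
  rw [mem_filter] at hC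
  exact (w_erase_mem hC.2.2).symm

theorem mem_TT {F : Finset P} {𝓛 : Finset (Finset P)} {m : P} {k : ℕ} {T : Finset (Finset P)}
    (h : T ∈ TT F 𝓛 m k) :
    T ∈ 𝓛.powersetCard k ∧ Conn (F.erase m) T ∧ ∃ L ∈ T, m ∈ L := by
  unfold TT at h
  rw [mem_filter] at h
  refine ⟨h.1, h.2.1, ?_⟩
  have := h.2.2
  unfold un at this
  rw [mem_inter, mem_biUnion] at this
  obtain ⟨⟨L, h1, h2⟩, _⟩ := this
  exact ⟨L, h1, h2⟩

section rows
variable {𝒢 𝓛 : Finset (Finset P)} (hG : Geom 𝒢) (hL : 𝓛 ⊆ 𝒢) (F : Finset P) (m : P)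
    (hm : m ∈ F)
include hG hL hm

theorem sum_rV4 : ∑ T ∈ TT F 𝓛 m 4, rV4 F 𝓛 m T ≤
    KS F 𝓛 m 2 * (KS F 𝓛 m 5 * KS F 𝓛 m 5) := by
  have h1 : ∑ T ∈ TT F 𝓛 m 4, rV4 F 𝓛 m T =
      ∑ T ∈ (TT F 𝓛 m 4).filter (SP F m), (if DP F m T then w (F.erase m) T else 0) +
      ∑ T ∈ (TT F 𝓛 m 4).filter (fun T => ¬ SP F m T), rowT F 𝓛 m 2 5 5 T := by
    rw [← sum_filter_add_sum_filter_not (TT F 𝓛 m 4) (SP F m)]
    congr 1
    · apply sum_congr rfl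
      intro T hT
      rw [mem_filter] at hT
      unfold rV4
      rw [if_pos hT.2]
    · apply sum_congr rfl
      intro T hT
      rw [mem_filter] at hT
      unfold rV4
      rw [if_neg hT.2]
  have h2 : ∑ T ∈ (TT F 𝓛 m 4).filter (SP F m), (if DP F m T then w (F.erase m) T else 0) ≤
      ∑ T ∈ (𝓛.powersetCard 4).filter (fun T => SP F m T ∧ DP F m T), w (F.erase m) T := by
    rw [← sum_filter]
    apply sum_le_sum_of_subset_of_nonneg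
    · intro T hT
      simp only [mem_filter] at hT ⊢
      exact ⟨(mem_TT hT.1.1).1, hT.1.2, hT.2⟩
    · intro T _ _; exact w_nonneg _ _
  have h3 : ∑ T ∈ (TT F 𝓛 m 4).filter (fun T => ¬ SP F m T), rowT F 𝓛 m 2 5 5 T ≤
      ∑ t ∈ (K3 F 𝓛 m 2 5 5).filter (fun t => ¬ SP F m (t.1 ∪ (t.2.1 ∪ t.2.2))), w3 F m t := by
    unfold rowT
    rw [sum_fiberwise_eq_sum_filter]
    apply sum_le_sum_of_subset_of_nonneg
    · intro t ht
      simp only [mem_filter] at ht ⊢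
      exact ⟨ht.1, ht.2.2⟩
    · intro t _ _; exact w3_nonneg _ _ _
  have h4 := vrow4 hG hL F m hm
  rw [← K3_sum, ← sum_filter_add_sum_filter_not (K3 F 𝓛 m 2 5 5)
    (fun t => SP F m (t.1 ∪ (t.2.1 ∪ t.2.2)))]
  linarith

theorem sum_rV3 : ∑ T ∈ TT F 𝓛 m 3, rV3 F 𝓛 m T ≤
    3 * (KS F 𝓛 m 2 * (KS F 𝓛 m 5 * KS F 𝓛 m 9)) := by
  have h1 : ∑ T ∈ TT F 𝓛 m 3, rV3 F 𝓛 m T =
      ∑ T ∈ (TT F 𝓛 m 3).filter (SP F m), (if DP F m T then 2 * w (F.erase m) T else 0) +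
      ∑ T ∈ (TT F 𝓛 m 3).filter (fun T => ¬ SP F m T), 3 * rowT F 𝓛 m 2 5 9 T := by
    rw [← sum_filter_add_sum_filter_not (TT F 𝓛 m 3) (SP F m)]
    congr 1
    · apply sum_congr rfl
      intro T hT
      rw [mem_filter] at hT
      unfold rV3
      rw [if_pos hT.2]
    · apply sum_congr rfl
      intro T hT
      rw [mem_filter] at hT
      unfold rV3
      rw [if_neg hT.2]
  have h2 : ∑ T ∈ (TT F 𝓛 m 3).filter (SP F m), (if DP F m T then 2 * w (F.erase m) T else 0) ≤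
      2 * ∑ T ∈ (𝓛.powersetCard 3).filter (fun T => SP F m T ∧ DP F m T), w (F.erase m) T := by
    rw [← sum_filter, mul_sum]
    apply sum_le_sum_of_subset_of_nonneg
    · intro T hT
      simp only [mem_filter] at hT ⊢
      exact ⟨(mem_TT hT.1.1).1, hT.1.2, hT.2⟩
    · intro T _ _; exact mul_nonneg (by norm_num) (w_nonneg _ _)
  have h3 : ∑ T ∈ (TT F 𝓛 m 3).filter (fun T => ¬ SP F m T), rowT F 𝓛 m 2 5 9 T ≤
      ∑ t ∈ (K3 F 𝓛 m 2 5 9).filter (fun t => ¬ SP F m (t.1 ∪ (t.2.1 ∪ t.2.2))), w3 F m t := by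
    unfold rowT
    rw [sum_fiberwise_eq_sum_filter]
    apply sum_le_sum_of_subset_of_nonneg
    · intro t ht
      simp only [mem_filter] at ht ⊢
      exact ⟨ht.1, ht.2.2⟩
    · intro t _ _; exact w3_nonneg _ _ _
  have h4 := vrow3 hG hL F m hm
  rw [← mul_sum] at h1
  rw [← K3_sum, ← sum_filter_add_sum_filter_not (K3 F 𝓛 m 2 5 9)
    (fun t => SP F m (t.1 ∪ (t.2.1 ∪ t.2.2)))]
  linarith

theorem sum_rC : ∑ T ∈ TT F 𝓛 m 4, rC F m T ≤ Om F 𝓛 m 3 := by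
  refine le_trans ?_ (cap_row hG hL F m hm)
  unfold rC
  rw [← sum_filter]
  apply sum_le_sum_of_subset_of_nonneg
  · intro T hT
    simp only [mem_filter] at hT ⊢
    exact ⟨(mem_TT hT.1).1, hT.2⟩
  · intro T _ _; exact w_nonneg _ _

end rows

theorem Sm_nonneg (F : Finset P) (𝓛 : Finset (Finset P)) (m : P) (k : ℕ) : 0 ≤ Sm F 𝓛 m k :=
  sum_nonneg fun _ _ => mul_nonneg (by norm_num) (w_nonneg _ _)

theorem Sv_nonneg (F : Finset P) (𝓛 : Finset (Finset P)) (m : P) (k : ℕ) : 0 ≤ Sv F 𝓛 m k :=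
  sum_nonneg fun _ _ => mul_nonneg (by norm_num) (w_nonneg _ _)

theorem Om_nonneg (F : Finset P) (𝓛 : Finset (Finset P)) (m : P) (k : ℕ) : 0 ≤ Om F 𝓛 m k :=
  sum_nonneg fun _ _ => w_nonneg _ _

theorem Sv_le_Sm (F : Finset P) (𝓛 : Finset (Finset P)) (m : P) (k : ℕ) :
    Sv F 𝓛 m k ≤ Sm F 𝓛 m k := by
  unfold Sv Sm
  apply sum_le_sum_of_subset_of_nonneg
  · intro C hC
    rw [mem_filter] at hC ⊢
    exact ⟨hC.1, conn_mono (erase_subset m F) hC.2.1, hC.2.2⟩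
  · intro C _ _; exact mul_nonneg (by norm_num) (w_nonneg _ _)

/-- **The static inequality.** -/
theorem core {𝒢 𝓛 : Finset (Finset P)} (hG : Geom 𝒢) (hL : 𝓛 ⊆ 𝒢) (F : Finset P) (m : P)
    (hm : m ∈ F)
    (hE : 2 * Sm F 𝓛 m 1 + 4 * Sm F 𝓛 m 2 + 11 / 2 * Sm F 𝓛 m 3 + 3 * Sm F 𝓛 m 4
      + Om F 𝓛 m 1 + 2 * Om F 𝓛 m 2 + 4 * Om F 𝓛 m 3 ≤ 5 / 4) :
    5 / 2 * Sv F 𝓛 m 3 + 3 * Sv F 𝓛 m 4 ≤ 1 / 4 := by
  have ka : KS F 𝓛 m 1 = Sm F 𝓛 m 1 := KS_marked F 𝓛 m (by norm_num) (by norm_num)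
  have kc : KS F 𝓛 m 2 = Sm F 𝓛 m 2 := KS_marked F 𝓛 m (by norm_num) (by norm_num)
  have kb : KS F 𝓛 m 5 = Om F 𝓛 m 1 := KS_unmarked F 𝓛 m (k := 1) (by norm_num) (by norm_num)
  have kp : KS F 𝓛 m 6 = Om F 𝓛 m 2 := KS_unmarked F 𝓛 m (k := 2) (by norm_num) (by norm_num)
  have kq : KS F 𝓛 m 7 = Om F 𝓛 m 3 := KS_unmarked F 𝓛 m (k := 3) (by norm_num) (by norm_num)
  have k9 : KS F 𝓛 m 9 = 1 := KS_nine F 𝓛 m
  -- four lines
  have p4 : ∀ T ∈ TT F 𝓛 m 4, _ := fun T hT =>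
    pat4 hG hL hm (mem_TT hT).1 (mem_TT hT).2.1 (mem_TT hT).2.2
  have p3 : ∀ T ∈ TT F 𝓛 m 3, _ := fun T hT =>
    pat3 hG hL hm (mem_TT hT).1 (mem_TT hT).2.1 (mem_TT hT).2.2
  have s1 := row_sum F 𝓛 m 1 7 9 (TT F 𝓛 m 4)
  have s2 := row_sum F 𝓛 m 1 1 6 (TT F 𝓛 m 4)
  have s3 := row_sum F 𝓛 m 2 5 5 (TT F 𝓛 m 4)
  have s4 := sum_rV4 hG hL F m hm
  have s5 := row_sum F 𝓛 m 2 6 9 (TT F 𝓛 m 4)
  have s6 := row_sum F 𝓛 m 2 1 5 (TT F 𝓛 m 4)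
  have s7 := row_sum F 𝓛 m 2 2 9 (TT F 𝓛 m 4)
  have s8 := sum_rC hG hL F m hm
  have t1 := row_sum F 𝓛 m 1 6 9 (TT F 𝓛 m 3)
  have t2 := row_sum F 𝓛 m 2 5 9 (TT F 𝓛 m 3)
  have t3 := sum_rV3 hG hL F m hm
  have t4 := row_sum F 𝓛 m 2 1 9 (TT F 𝓛 m 3)
  rw [ka, kq, k9] at s1
  rw [ka, kp] at s2
  rw [kc, kb] at s3 s4
  rw [kc, kp, k9] at s5
  rw [kc, ka, kb] at s6
  rw [kc, k9] at s7
  rw [ka, kp, k9] at t1
  rw [kc, kb, k9] at t2 t3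
  rw [kc, ka, k9] at t4
  have y1 := sum_le_sum (fun T hT => (p4 T hT).1)
  have y2 := sum_le_sum (fun T hT => (p4 T hT).2.1)
  have y3 := sum_le_sum (fun T hT => (p4 T hT).2.2.1)
  have y4 := sum_le_sum (fun T hT => (p4 T hT).2.2.2)
  have x1 := sum_le_sum (fun T hT => (p3 T hT).1)
  have x2 := sum_le_sum (fun T hT => (p3 T hT).2)
  simp only [sum_add_distrib, ← mul_sum] at y1 y2 y3 y4 x1 x2
  rw [← Sv_eq] at y1 y2 y3 y4 x1 x2
  -- two lines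
  have hc2 : Sm F 𝓛 m 2 ≤ 4 * (Sm F 𝓛 m 1 * Om F 𝓛 m 1) + Sm F 𝓛 m 1 * Sm F 𝓛 m 1 := by
    have u1 := row_sum F 𝓛 m 1 5 9 ((𝓛.powersetCard 2).filter (fun C => Conn F C ∧ m ∈ un F C))
    have u2 := row_sum F 𝓛 m 1 1 9 ((𝓛.powersetCard 2).filter (fun C => Conn F C ∧ m ∈ un F C))
    rw [ka, kb, k9, mul_one] at u1
    rw [ka, k9, mul_one] at u2
    have u3 : Sm F 𝓛 m 2 ≤ ∑ T ∈ (𝓛.powersetCard 2).filter (fun C => Conn F C ∧ m ∈ un F C),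
        (4 * rowT F 𝓛 m 1 5 9 T + rowT F 𝓛 m 1 1 9 T) := by
      unfold Sm
      apply sum_le_sum
      intro T hT
      rw [mem_filter] at hT
      rw [← w_erase_mem hT.2.2]
      refine pat2 hG hL hm hT.1 hT.2.1 ?_
      have := hT.2.2
      unfold un at this
      rw [mem_inter, mem_biUnion] at this
      obtain ⟨⟨L, h1, h2⟩, _⟩ := this
      exact ⟨L, h1, h2⟩
    rw [sum_add_distrib, ← mul_sum] at u3
    linarith
  have z3 := Sv_le_Sm F 𝓛 m 3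
  have z4 := Sv_le_Sm F 𝓛 m 4
  apply real_ineq (a := Sm F 𝓛 m 1) (b := Om F 𝓛 m 1) (c := Sm F 𝓛 m 2) (p := Om F 𝓛 m 2)
    (q := Om F 𝓛 m 3) (x := Sv F 𝓛 m 3) (y := Sv F 𝓛 m 4)
  refine ⟨Sm_nonneg _ _ _ _, Om_nonneg _ _ _ _, Sm_nonneg _ _ _ _, Om_nonneg _ _ _ _,
    Om_nonneg _ _ _ _, Sv_nonneg _ _ _ _, Sv_nonneg _ _ _ _, ?_, ?_, ?_, ?_, ?_, ?_, ?_, ?_⟩
  · linarith
  · linarith [hc2]
  · linarith [x1, t1, t2, t4]
  · linarith [x2, t1, t2, t3, t4]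
  · linarith [y1, s1, s2, s3, s5, s7, s8]
  · linarith [y2, s1, s2, s3, s4, s5, s6, s7, s8]
  · linarith [y3, s3, s7]
  · linarith [y4, s1, s2, s3, s4, s5, s6, s7, s8]

end Torus103
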