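import Pool.Agent.Lib.MP_77f3ac_co.Valid

/-! # MP_77f3ac_co: the point list of a configuration of lines -/

set_option autoImplicit false
set_option linter.unusedSectionVars false

namespace Torus103
open Finset Pat
variable {P : Type*} [DecidableEq P]

/-- the number of points of `X` with trace `σ` -/
def Nn (l : ℕ → Finset P) (X : Finset P) (σ : ℕ) : ℕ := (X.filter (fun x => tr l x = σ)).card

/-- the list of the traces of the points of `X` with trace in `masks` -/
def ptl (l : ℕ → Finset P) (X : Finset P) (masks : List ℕ) : List ℕ := canon (Nn l X) masks []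

/-- `masks`: the codes `< 2 ^ k` with at least two bits -/
structure Mk (k : ℕ) (masks : List ℕ) : Prop where
  nodup : masks.Nodup
  all : ∀ t < 2 ^ k, t ∈ masks ∨ t ∈ [0, 1, 2, 4, 8]
  multi : ∀ t ∈ masks, t < 16 ∧ t ∉ [0, 1, 2, 4, 8]
  len : masks.length ≤ 11

theorem mk4 : Mk 4 masks4 := ⟨by decide, by decide, by decide, by decide⟩
theorem mk3 : Mk 3 masks3 := ⟨by decide, by decide, by decide, by decide⟩
theorem mk2 : Mk 2 masks2 := ⟨by decide, by decide, by decide, by decide⟩

theorem sum_masks (l : ℕ → Finset P) (X : Finset P) (p : ℕ → Bool) (masks : List ℕ)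
    (hn : masks.Nodup) :
    (masks.map (fun σ => if p σ then Nn l X σ else 0)).sum =
      (X.filter (fun x => tr l x ∈ masks ∧ p (tr l x) = true)).card := by
  induction masks with
  | nil => simp
  | cons σ M ih =>
    rw [List.nodup_cons] at hn
    rw [List.map_cons, List.sum_cons, ih hn.2]
    have hd : Disjoint (X.filter (fun x => tr l x = σ ∧ p (tr l x) = true))
        (X.filter (fun x => tr l x ∈ M ∧ p (tr l x) = true)) := by
      rw [disjoint_left]
      intro x hx hy
      simp only [mem_filter] at hx hy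
      exact hn.1 (hx.2.1 ▸ hy.2.1)
    have hu : X.filter (fun x => tr l x ∈ σ :: M ∧ p (tr l x) = true) =
        X.filter (fun x => tr l x = σ ∧ p (tr l x) = true) ∪
        X.filter (fun x => tr l x ∈ M ∧ p (tr l x) = true) := by
      ext x
      simp only [mem_filter, mem_union, List.mem_cons]
      tauto
    rw [hu, card_union_of_disjoint hd]
    congr 1
    by_cases hp : p σ = true
    · rw [if_pos hp]
      unfold Nn
      congr 1
      ext x
      simp only [mem_filter]
      constructor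
      · rintro ⟨h1, h2⟩; exact ⟨h1, h2, h2 ▸ hp⟩
      · rintro ⟨h1, h2, _⟩; exact ⟨h1, h2⟩
    · rw [if_neg hp]
      symm
      rw [card_eq_zero, filter_eq_empty_iff]
      rintro x _ ⟨h2, h3⟩
      exact hp (h2 ▸ h3)

theorem cnt_ptl (l : ℕ → Finset P) (X : Finset P) (p : ℕ → Bool) {k : ℕ} {masks : List ℕ}
    (hM : Mk k masks) :
    cnt p (ptl l X masks) = (X.filter (fun x => tr l x ∈ masks ∧ p (tr l x) = true)).card := by
  rw [cnt_eq, ptl, countP_canon, List.countP_nil, zero_add, sum_masks l X p masks hM.nodup]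

section en
variable {T : Finset (Finset P)} {l : ℕ → Finset P} {k : ℕ} (hE : En T l k)
include hE

theorem tr_lt_pow (x : P) : tr l x < 2 ^ k := by
  by_contra hn
  obtain ⟨i, hi, h1⟩ := Nat.exists_ge_and_testBit_of_ge_two_pow (not_lt.1 hn)
  have hi4 := lt16_testBit (tr_lt l x) h1
  rw [tr_testBit l x hi4] at h1
  have h2 := of_decide_eq_true h1
  rw [hE.emp i hi] at h2
  exact absurd h2 (notMem_empty _)

theorem cnt_ptl_multi (X : Finset P) (p : ℕ → Bool) {masks : List ℕ}
    (hM : Mk k masks) (hp : ∀ s ∈ [0, 1, 2, 4, 8], p s = false) :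
    cnt p (ptl l X masks) = (X.filter (fun x => p (tr l x) = true)).card := by
  rw [cnt_ptl l X p hM]
  congr 1
  ext x
  simp only [mem_filter]
  constructor
  · rintro ⟨h1, _, h3⟩; exact ⟨h1, h3⟩
  · rintro ⟨h1, h3⟩
    refine ⟨h1, ?_, h3⟩
    rcases hM.all _ (tr_lt_pow hE x) with h | h
    · exact h
    · rw [hp _ h] at h3; exact absurd h3 (by simp)

theorem mem_ptl (X : Finset P) {masks : List ℕ} (q : ℕ) :
    q ∈ ptl l X masks ↔ q ∈ masks ∧ ∃ x ∈ X, tr l x = q := by
  rw [ptl, mem_canon]
  simp only [List.not_mem_nil, false_or]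
  refine and_congr_right fun _ => ?_
  unfold Nn
  rw [← Nat.pos_iff_ne_zero, card_pos]
  constructor
  · rintro ⟨x, hx⟩; rw [mem_filter] at hx; exact ⟨x, hx.1, hx.2⟩
  · rintro ⟨x, hx, h⟩; exact ⟨x, mem_filter.2 ⟨hx, h⟩⟩

/-- private part of the union -/
theorem un_card (X : Finset P) {masks : List ℕ} (hM : Mk k masks) (c : ℕ) :
    (un X (Cset l c)).card = hit (ptl l X masks) c +
      (X.filter (fun x => tr l x ∉ masks ∧ nz (Nat.land (tr l x) c) = true)).card := by
  have h1 : un X (Cset l c) = X.filter (fun x => nz (Nat.land (tr l x) c) = true) := by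
    ext x
    rw [mem_un, mem_filter, nz_land]
  have h2 : X.filter (fun x => nz (Nat.land (tr l x) c) = true) =
      X.filter (fun x => tr l x ∈ masks ∧ nz (Nat.land (tr l x) c) = true) ∪
      X.filter (fun x => tr l x ∉ masks ∧ nz (Nat.land (tr l x) c) = true) := by
    ext x
    simp only [mem_filter, mem_union]
    tauto
  rw [h1, h2, card_union_of_disjoint, hit, cnt_ptl l X _ hM]
  rw [disjoint_left]
  intro x hx hy
  simp only [mem_filter] at hx hy
  exact hy.2.1 hx.2.1

/-- private points cancel -/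
theorem priv_add (X : Finset P) {masks : List ℕ} (hM : Mk k masks) {f a b : ℕ}
    (hf : f ∈ [3, 7, 15]) (ha : a < f + 1) (hb : b < f + 1) (hab : a &&& b = 0) :
    (X.filter (fun x => tr l x ∉ masks ∧ nz (Nat.land (tr l x) a) = true)).card +
    ((X.filter (fun x => tr l x ∉ masks ∧ nz (Nat.land (tr l x) b) = true)).card +
    (X.filter (fun x => tr l x ∉ masks ∧ nz (Nat.land (tr l x) (f - a - b)) = true)).card) =
    (X.filter (fun x => tr l x ∉ masks ∧ nz (Nat.land (tr l x) f) = true)).card := by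
  simp only [card_filter]
  rw [← sum_add_distrib, ← sum_add_distrib]
  apply sum_congr rfl
  intro x _
  by_cases h : tr l x ∈ masks
  · simp [h]
  · have h1 := (hM.all _ (tr_lt_pow hE x)).resolve_left h
    have h2 := single_code f hf a ha b hb hab _ h1
    simp only [h, not_false_eq_true, true_and]
    have e : ∀ c : Bool, (bif c then 1 else 0 : ℕ) = if c = true then 1 else 0 := by
      intro c; cases c <;> rfl
    rw [e, e, e, e] at h2
    exact h2

/-! ### the mark -/

theorem dd_eq {F : Finset P} {m : P} (hm : m ∈ F) {masks : List ℕ} (hM : Mk k masks) {p : ℕ}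
    (hp : ∀ s ∈ [0, 1, 2, 4, 8], Nat.beq (Nat.land s p) p = false) :
    dd (tr l m :: ptl l (F.erase m) masks) p =
      (F.filter (fun x => Nat.beq (Nat.land (tr l x) p) p = true)).card := by
  have h1 : dd (tr l m :: ptl l (F.erase m) masks) p =
      (bif Nat.beq (Nat.land (tr l m) p) p then
        Nat.succ (cnt (fun q => Nat.beq (Nat.land q p) p) (ptl l (F.erase m) masks))
      else cnt (fun q => Nat.beq (Nat.land q p) p) (ptl l (F.erase m) masks)) := rfl
  rw [h1, cnt_ptl_multi hE (F.erase m) _ hM hp]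
  have h2 : F = insert m (F.erase m) := (insert_erase hm).symm
  conv_rhs => rw [h2]
  rw [filter_insert]
  by_cases h : Nat.beq (Nat.land (tr l m) p) p = true
  · rw [if_pos h, h, cond_true, card_insert_of_notMem]
    simp
  · rw [if_neg h]
    simp only [Bool.not_eq_true] at h
    rw [h, cond_false]

theorem conn_list {F : Finset P} {m : P} (hm : m ∈ F) {masks : List ℕ} (hM : Mk k masks) (t s : ℕ)
    (hts : t &&& s = 0) :
    (∃ q ∈ tr l m :: ptl l (F.erase m) masks, q &&& t ≠ 0 ∧ q &&& s ≠ 0) ↔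
      ∃ x ∈ F, tr l x &&& t ≠ 0 ∧ tr l x &&& s ≠ 0 := by
  constructor
  · rintro ⟨q, hq, h1, h2⟩
    rcases List.mem_cons.1 hq with rfl | hq
    · exact ⟨m, hm, h1, h2⟩
    · obtain ⟨_, x, hx, rfl⟩ := (mem_ptl hE _ q).1 hq
      exact ⟨x, mem_of_mem_erase hx, h1, h2⟩
  · rintro ⟨x, hx, h1, h2⟩
    by_cases hxm : x = m
    · subst hxm; exact ⟨_, List.mem_cons_self, h1, h2⟩
    · refine ⟨tr l x, List.mem_cons_of_mem _ ((mem_ptl hE _ _).2 ⟨?_, x, mem_erase.2 ⟨hxm, hx⟩, rfl⟩),
        h1, h2⟩
      rcases hM.all _ (tr_lt_pow hE x) with h | h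
      · exact h
      · exfalso
        rw [land_ne_zero_iff] at h1 h2
        obtain ⟨i, i1, i2⟩ := h1
        obtain ⟨j, j1, j2⟩ := h2
        have hij : i = j := by
          have hi4 := lt16_testBit (tr_lt l x) i1
          have hj4 := lt16_testBit (tr_lt l x) j1
          revert h i1 j1
          generalize tr l x = u
          intro h i1 j1
          have key : ∀ u ∈ [0, 1, 2, 4, 8], ∀ i < 4, ∀ j < 4, u.testBit i = true →
            u.testBit j = true → i = j := by decide
          exact key u h i hi4 j hj4 i1 j1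
        subst hij
        have : t &&& s ≠ 0 := (land_ne_zero_iff t s).2 ⟨i, i2, j2⟩
        exact this hts

theorem conn_list' (X : Finset P) {masks : List ℕ} (hM : Mk k masks) (t s : ℕ)
    (hts : t &&& s = 0) :
    (∃ q ∈ ptl l X masks, q &&& t ≠ 0 ∧ q &&& s ≠ 0) ↔
      ∃ x ∈ X, tr l x &&& t ≠ 0 ∧ tr l x &&& s ≠ 0 := by
  constructor
  · rintro ⟨q, hq, h1, h2⟩
    obtain ⟨_, x, hx, rfl⟩ := (mem_ptl hE _ q).1 hq
    exact ⟨x, hx, h1, h2⟩
  · rintro ⟨x, hx, h1, h2⟩
    refine ⟨tr l x, (mem_ptl hE _ _).2 ⟨?_, x, hx, rfl⟩, h1, h2⟩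
    rcases hM.all _ (tr_lt_pow hE x) with h | h
    · exact h
    · exfalso
      rw [land_ne_zero_iff] at h1 h2
      obtain ⟨i, i1, i2⟩ := h1
      obtain ⟨j, j1, j2⟩ := h2
      have hij : i = j := by
        have hi4 := lt16_testBit (tr_lt l x) i1
        have hj4 := lt16_testBit (tr_lt l x) j1
        revert h i1 j1
        generalize tr l x = u
        intro h i1 j1
        have key : ∀ u ∈ [0, 1, 2, 4, 8], ∀ i < 4, ∀ j < 4, u.testBit i = true →
          u.testBit j = true → i = j := by decide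
        exact key u h i hi4 j hj4 i1 j1
      subst hij
      have : t &&& s ≠ 0 := (land_ne_zero_iff t s).2 ⟨i, i2, j2⟩
      exact this hts

/-- connectivity in terms of codes -/
theorem conn_iff {X : Finset P} {L : List ℕ}
    (hL : ∀ t s, t &&& s = 0 → ((∃ q ∈ L, q &&& t ≠ 0 ∧ q &&& s ≠ 0) ↔
      ∃ x ∈ X, tr l x &&& t ≠ 0 ∧ tr l x &&& s ≠ 0)) {c : ℕ} (hc : c < 2 ^ k) :
    connB L c = true ↔ Conn X (Cset l c) := by
  have hc16 := hE.lt16 hc
  rw [connB_iff]
  constructor
  · rintro ⟨h0, h⟩
    refine ⟨?_, ?_⟩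
    · obtain ⟨i, hi⟩ := Nat.exists_testBit_of_ne_zero h0
      have hi' := lt_pow_testBit hc hi
      exact ⟨l i, (hE.mem' hc hi').2 hi⟩
    · intro S hS hSn hSc
      obtain ⟨t, ht, rfl⟩ := hE.exists_code (hS.trans (hE.subset c hc))
      have ht16 := hE.lt16 ht
      have hbits : ∀ i < 4, t.testBit i = true → c.testBit i = true := by
        intro i _ h1
        have hi' := lt_pow_testBit ht h1
        exact (hE.mem' hc hi').1 (hS ((hE.mem' ht hi').2 h1))
      have htc : t &&& c = t := by
        apply code_ext _ ht16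
        · intro i hi
          rw [Nat.testBit_and]
          by_cases h1 : t.testBit i = true
          · rw [h1, hbits i hi h1]; rfl
          · simp only [Bool.not_eq_true] at h1; rw [h1]; rfl
        · exact lt_of_le_of_lt Nat.and_le_left ht16
      have ht0 : t ≠ 0 := by
        rintro rfl
        obtain ⟨L', hL'⟩ := hSn
        obtain ⟨i, _, h1, _⟩ := (mem_Cset l 0 L').1 hL'
        simp at h1
      have htc' : t ≠ c := by
        rintro rfl; simp at hSc
      have hle : t ≤ c := by rw [← htc]; exact Nat.and_le_right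
      have hlt : t < c := lt_of_le_of_ne hle htc'
      obtain ⟨s1, s2⟩ := sub_code c hc16 t ht16 htc
      have h2 := h t hlt ht0 htc
      rw [hL t (c - t) s1] at h2
      obtain ⟨x, hx, h3, h4⟩ := h2
      rw [tr_land] at h3 h4
      obtain ⟨i, hi, i1, i2⟩ := h3
      obtain ⟨j, hj, j1, j2⟩ := h4
      rw [s2 j hj, Bool.and_eq_true] at j1
      have hi' := lt_pow_testBit ht i1
      have hj' := lt_pow_testBit hc j1.1
      refine ⟨l i, (hE.mem' ht hi').2 i1, l j, ?_, ⟨x, ?_⟩⟩
      · rw [mem_sdiff]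
        refine ⟨(hE.mem' hc hj').2 j1.1, fun h5 => ?_⟩
        have := (hE.mem' ht hj').1 h5
        rw [this] at j1
        exact absurd j1.2 (by simp)
      · simp only [mem_inter]; exact ⟨⟨i2, j2⟩, hx⟩
  · rintro ⟨h0, h⟩
    refine ⟨?_, ?_⟩
    · rintro rfl
      obtain ⟨L', hL'⟩ := h0
      obtain ⟨i, _, h1, _⟩ := (mem_Cset l 0 L').1 hL'
      simp at h1
    · intro t htlt ht0 htc
      have ht16 : t < 16 := htlt.trans hc16
      have ht : t < 2 ^ k := htlt.trans hc
      obtain ⟨s1, s2⟩ := sub_code c hc16 t ht16 htc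
      have hsub : Cset l t ⊆ Cset l c := by
        intro L' hL'
        obtain ⟨i, hi, h1, rfl⟩ := (hE.mem t ht L').1 hL'
        refine (hE.mem' hc hi).2 ?_
        have : (t &&& c).testBit i = true := by rw [htc]; exact h1
        rw [Nat.testBit_and, Bool.and_eq_true] at this
        exact this.2
      have hdiff : ∀ i < k, (l i ∈ Cset l c \ Cset l t ↔ (c - t).testBit i = true) := by
        intro i hi
        rw [mem_sdiff, hE.mem' hc hi, hE.mem' ht hi, s2 i (lt_of_lt_of_le hi hE.k4),
          Bool.and_eq_true, Bool.not_eq_true', Bool.not_eq_true]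
      have hn1 : (Cset l t).Nonempty := by
        obtain ⟨i, hi⟩ := Nat.exists_testBit_of_ne_zero ht0
        have hi' := lt_pow_testBit ht hi
        exact ⟨l i, (hE.mem' ht hi').2 hi⟩
      have hn2 : (Cset l c \ Cset l t).Nonempty := by
        obtain ⟨i, hi⟩ := Nat.exists_testBit_of_ne_zero (show c - t ≠ 0 by omega)
        have hi4 : i < k := lt_pow_testBit (c := c - t) (by omega) hi
        exact ⟨l i, (hdiff i hi4).2 hi⟩
      obtain ⟨a, ha, b, hb, x, hx⟩ := h (Cset l t) hsub hn1 hn2
      rw [hL t (c - t) s1]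
      simp only [mem_inter] at hx
      obtain ⟨i, hi, i1, rfl⟩ := (hE.mem t ht a).1 ha
      obtain ⟨j, hj, j1, rfl⟩ := (hE.mem c hc b).1 (mem_sdiff.1 hb).1
      refine ⟨x, hx.2, ?_, ?_⟩
      · rw [tr_land]; exact ⟨i, lt_of_lt_of_le hi hE.k4, i1, hx.1.1⟩
      · rw [tr_land]; exact ⟨j, lt_of_lt_of_le hj hE.k4, (hdiff j hj).1 hb, hx.1.2⟩

end en

end Torus103
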