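import Mathlib

/-!
The `n^d` torus game: two players alternately take points of the torus `(ℤ/n)^d`, the first
player moving first; whoever first owns a whole torus-line wins.
-/

set_option autoImplicit false

namespace Torus103

/-! ### Torus-lines -/

/-- The points of the torus `(ℤ/n)^d`. -/
abbrev TorusPt (n d : ℕ) := Fin d → ZMod n

/-- The set `{P + k v : k = 0, 1, …, n-1}`. -/
def line {n d : ℕ} (P v : TorusPt n d) : Finset (TorusPt n d) :=
  (Finset.range n).image fun k : ℕ => P + (k : ZMod n) • v

/-- The torus-lines: the sets `{P + k v : k = 0, …, n-1}`, where every coordinate of `v` is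
`0`, `1` or `-1`, and `v ≠ 0`. -/
def torusLines (n d : ℕ) : Set (Finset (TorusPt n d)) :=
  {L | ∃ P v : TorusPt n d, (∀ i, v i = 0 ∨ v i = 1 ∨ v i = -1) ∧ v ≠ 0 ∧ L = line P v}

/-! ### The game on a finite board `V` with a family `W` of winning sets -/

section Game
variable {V : Type*} [Fintype V] [DecidableEq V]

/-- A history of `k` moves (move number `i` is made by the first player if `i` is even,
by the second player if `i` is odd; `i = 0, 1, …, k-1`). -/
abbrev Hist (V : Type*) (k : ℕ) := Fin k → V

/-- The points taken by the first player during the history `h`. -/
def firstPts {k : ℕ} (h : Hist V k) : Finset V :=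
  (Finset.univ.filter fun i : Fin k => Even (i : ℕ)).image h

/-- The points taken by the second player during the history `h`. -/
def secondPts {k : ℕ} (h : Hist V k) : Finset V :=
  (Finset.univ.filter fun i : Fin k => Odd (i : ℕ)).image h

/-- A strategy tells, after every history, which point to take. -/
abbrev Strategy (V : Type*) := ∀ k : ℕ, Hist V k → V

/-- A strategy of the first player is legal if, whenever he has to move (after an even number
`k` of moves, `k < |V|`), it takes an unoccupied point. -/
def LegalFirst (σ : Strategy V) : Prop :=
  ∀ (k : ℕ) (h : Hist V k), k < Fintype.card V → Even k → Function.Injective h →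
    ∀ i, σ k h ≠ h i

/-- A strategy of the second player is legal if, whenever he has to move (after an odd number
`k` of moves, `k < |V|`), it takes an unoccupied point. -/
def LegalSecond (σ : Strategy V) : Prop :=
  ∀ (k : ℕ) (h : Hist V k), k < Fintype.card V → Odd k → Function.Injective h →
    ∀ i, σ k h ≠ h i

/-- A complete play is a sequence `p 0, p 1, …` of points whose first `|V|` members are distinct
(so that all points are taken after `|V|` moves; the game is regarded as being played on until
all points are taken, which does not matter for the question who is the first to own a winning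
set). -/
def IsPlay (p : ℕ → V) : Prop := Set.InjOn p {k | k < Fintype.card V}

/-- The history of the first `k` moves of a play. -/
def past (p : ℕ → V) (k : ℕ) : Hist V k := fun i => p i

/-- In the play `p` the first player follows the strategy `σ`. -/
def FirstFollows (σ : Strategy V) (p : ℕ → V) : Prop :=
  ∀ k < Fintype.card V, Even k → p k = σ k (past p k)

/-- In the play `p` the second player follows the strategy `σ`. -/
def SecondFollows (σ : Strategy V) (p : ℕ → V) : Prop :=
  ∀ k < Fintype.card V, Odd k → p k = σ k (past p k)

/-- The set `S` of points contains a winning set. -/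
def Owns (W : Set (Finset V)) (S : Finset V) : Prop := ∃ L ∈ W, L ⊆ S

/-- The first player wins the play `p`: at some moment he owns a winning set, while the second
player does not own one. -/
def FirstWins (W : Set (Finset V)) (p : ℕ → V) : Prop :=
  ∃ k ≤ Fintype.card V, Owns W (firstPts (past p k)) ∧ ¬ Owns W (secondPts (past p k))

/-- The second player wins the play `p`: at some moment he owns a winning set, while the first
player does not own one. -/
def SecondWins (W : Set (Finset V)) (p : ℕ → V) : Prop :=
  ∃ k ≤ Fintype.card V, Owns W (secondPts (past p k)) ∧ ¬ Owns W (firstPts (past p k))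

/-- The first player has a winning strategy. -/
def FirstHasWinningStrategy (W : Set (Finset V)) : Prop :=
  ∃ σ : Strategy V, LegalFirst σ ∧ ∀ p, IsPlay p → FirstFollows σ p → FirstWins W p

/-- The second player has a winning strategy. -/
def SecondHasWinningStrategy (W : Set (Finset V)) : Prop :=
  ∃ σ : Strategy V, LegalSecond σ ∧ ∀ p, IsPlay p → SecondFollows σ p → SecondWins W p

/-- The game is a draw: both players can force at least a draw. -/
def IsDraw (W : Set (Finset V)) : Prop :=
  (∃ σ : Strategy V, LegalFirst σ ∧ ∀ p, IsPlay p → FirstFollows σ p → ¬ SecondWins W p) ∧
  (∃ σ : Strategy V, LegalSecond σ ∧ ∀ p, IsPlay p → SecondFollows σ p → ¬ FirstWins W p)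

/-- The game is a Strong Draw: the second player has a strategy ensuring that the first player
never owns a whole winning set. -/
def IsStrongDraw (W : Set (Finset V)) : Prop :=
  ∃ σ : Strategy V, LegalSecond σ ∧ ∀ p, IsPlay p → SecondFollows σ p →
    ∀ k ≤ Fintype.card V, ¬ Owns W (firstPts (past p k))

end Game

end Torus103
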