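import Pool.Agent.Lib.MP_77f3ac_co.Base

/-! The invariant of Breaker (statement as in the plan `t103_Plan.lean`). -/

set_option autoImplicit false

namespace Torus103
open Finset
variable {P : Type*} [DecidableEq P]

/-- Invariant at Maker's turn: `F` free points, `𝓛` live lines (no Breaker point). -/
structure Inv (F : Finset P) (𝓛 : Finset (Finset P)) : Prop where
  pot : ∀ x ∈ F, Phi F 𝓛 x < 7 / 4
  two_le : ∀ L ∈ 𝓛, 2 ≤ (L ∩ F).card
  nowin : ∀ L₁ ∈ 𝓛, ∀ L₂ ∈ 𝓛, (L₁ ∩ F).card = 2 → (L₂ ∩ F).card = 2 →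
    (L₁ ∩ L₂ ∩ F).Nonempty → L₁ ∩ F = L₂ ∩ F

end Torus103
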