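import Pool.Agent.Lib.MP_77f3ac_co.Defs

/-! The torus-lines of `(ℤ/10)^3` as a `Finset`. -/

set_option autoImplicit false

namespace Torus103
open Finset

/-- The points of `(ℤ/10)^3`. -/
abbrev Pt := TorusPt 10 3

/-- The 26 directions. -/
def dirs : Finset Pt := univ.filter fun v => (∀ i, v i = 0 ∨ v i = 1 ∨ v i = -1) ∧ v ≠ 0

/-- The torus-lines. -/
def lines103 : Finset (Finset Pt) := (univ ×ˢ dirs).image fun q => line q.1 q.2

theorem mem_lines103 (L : Finset Pt) : L ∈ lines103 ↔ L ∈ torusLines 10 3 := by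
  simp only [lines103, mem_image, mem_product, mem_univ, true_and, dirs, mem_filter, torusLines]
  constructor
  · rintro ⟨⟨P, v⟩, ⟨h1, h2⟩, rfl⟩
    exact ⟨P, v, h1, h2, rfl⟩
  · rintro ⟨P, v, h1, h2, rfl⟩
    exact ⟨⟨P, v⟩, ⟨h1, h2⟩, rfl⟩

theorem coe_lines103 : (↑lines103 : Set (Finset Pt)) = torusLines 10 3 := by
  ext L
  rw [mem_coe, mem_lines103]

end Torus103
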