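import Pool.Agent.Lib.MP_77f3ac_co.Count

/-! # MP_77f3ac_co: validity, kinds and local row values of a configuration -/

set_option autoImplicit false
set_option linter.unusedSectionVars false

namespace Torus103
open Finset Pat
variable {P : Type*} [DecidableEq P]

theorem trOK_iff (mp : List ℕ) (a b c : ℕ) : trOK mp a b c = true ↔
    (dd mp (a+b) = 2 → dd mp (b+c) = 2 → dd mp (a+c) = 0 ∨ dd mp (a+b+c) = 2) := by
  unfold trOK
  rw [Bool.or_eq_true, Bool.or_eq_true, beq_iff, beq_iff, Bool.not_eq_true', Bool.and_eq_false_iff]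
  have e : ∀ x y : ℕ, Nat.beq x y = false ↔ x ≠ y := by
    intro x y
    rw [← Bool.not_eq_true, beq_iff]
  rw [e, e]
  tauto

theorem tri_iff (mp : List ℕ) (a b c : ℕ) : tri mp a b c = true ↔
    (dd mp (a+b) ≠ 0 ∧ dd mp (b+c) ≠ 0 ∧ dd mp (a+c) ≠ 0 ∧ dd mp (a+b+c) = 0) := by
  unfold tri
  rw [Bool.and_eq_true, Bool.and_eq_true, Bool.and_eq_true, nz_iff, nz_iff, nz_iff, beq_iff]
  tauto

section en
variable {𝒢 T : Finset (Finset P)} {l : ℕ → Finset P} {k : ℕ}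

theorem filt2 (l : ℕ → Finset P) (F : Finset P) (p i j : ℕ)
    (h : ∀ t < 16, Nat.beq (Nat.land t p) p = (t.testBit i && t.testBit j)) (hi : i < 4)
    (hj : j < 4) :
    (F.filter (fun x => Nat.beq (Nat.land (tr l x) p) p = true)).card = D2 F (l i) (l j) := by
  unfold D2
  congr 1
  ext x
  rw [mem_filter, h _ (tr_lt l x), tr_testBit l x hi, tr_testBit l x hj, Bool.and_eq_true,
    decide_eq_true_eq, decide_eq_true_eq]
  simp only [mem_inter]
  tauto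

theorem filt3 (l : ℕ → Finset P) (F : Finset P) (p i j g : ℕ)
    (h : ∀ t < 16, Nat.beq (Nat.land t p) p = (t.testBit i && (t.testBit j && t.testBit g)))
    (hi : i < 4) (hj : j < 4) (hg : g < 4) :
    (F.filter (fun x => Nat.beq (Nat.land (tr l x) p) p = true)).card =
      D3 F (l i) (l j) (l g) := by
  unfold D3
  congr 1
  ext x
  rw [mem_filter, h _ (tr_lt l x), tr_testBit l x hi, tr_testBit l x hj, tr_testBit l x hg,
    Bool.and_eq_true, Bool.and_eq_true,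
    decide_eq_true_eq, decide_eq_true_eq, decide_eq_true_eq]
  simp only [mem_inter]
  tauto

/-- the list of a configuration with the mark -/
structure DD (F : Finset P) (l : ℕ → Finset P) (mp : List ℕ) : Prop where
  d3 : dd mp 3 = D2 F (l 0) (l 1)
  d5 : dd mp 5 = D2 F (l 0) (l 2)
  d9 : dd mp 9 = D2 F (l 0) (l 3)
  d6 : dd mp 6 = D2 F (l 1) (l 2)
  d10 : dd mp 10 = D2 F (l 1) (l 3)
  d12 : dd mp 12 = D2 F (l 2) (l 3)
  d7 : dd mp 7 = D3 F (l 0) (l 1) (l 2)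
  d11 : dd mp 11 = D3 F (l 0) (l 1) (l 3)
  d13 : dd mp 13 = D3 F (l 0) (l 2) (l 3)
  d14 : dd mp 14 = D3 F (l 1) (l 2) (l 3)

theorem dd_all (hE : En T l k) {F : Finset P} {m : P} (hm : m ∈ F) {masks : List ℕ}
    (hM : Mk k masks) : DD F l (tr l m :: ptl l (F.erase m) masks) where
  d3 := by
    rw [dd_eq hE hm hM (by decide)]
    exact filt2 l F 3 0 1 (by decide) (by norm_num) (by norm_num)
  d5 := by
    rw [dd_eq hE hm hM (by decide)]
    exact filt2 l F 5 0 2 (by decide) (by norm_num) (by norm_num)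
  d9 := by
    rw [dd_eq hE hm hM (by decide)]
    exact filt2 l F 9 0 3 (by decide) (by norm_num) (by norm_num)
  d6 := by
    rw [dd_eq hE hm hM (by decide)]
    exact filt2 l F 6 1 2 (by decide) (by norm_num) (by norm_num)
  d10 := by
    rw [dd_eq hE hm hM (by decide)]
    exact filt2 l F 10 1 3 (by decide) (by norm_num) (by norm_num)
  d12 := by
    rw [dd_eq hE hm hM (by decide)]
    exact filt2 l F 12 2 3 (by decide) (by norm_num) (by norm_num)
  d7 := by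
    rw [dd_eq hE hm hM (by decide)]
    exact filt3 l F 7 0 1 2 (by decide) (by norm_num) (by norm_num) (by norm_num)
  d11 := by
    rw [dd_eq hE hm hM (by decide)]
    exact filt3 l F 11 0 1 3 (by decide) (by norm_num) (by norm_num) (by norm_num)
  d13 := by
    rw [dd_eq hE hm hM (by decide)]
    exact filt3 l F 13 0 2 3 (by decide) (by norm_num) (by norm_num) (by norm_num)
  d14 := by
    rw [dd_eq hE hm hM (by decide)]
    exact filt3 l F 14 1 2 3 (by decide) (by norm_num) (by norm_num) (by norm_num)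

section valid
variable (hG : Geom 𝒢) {F : Finset P} (hl : LL 𝒢 l) {mp : List ℕ} (hD : DD F l mp)
include hG hl hD

theorem tr_true : trAll mp = true := by
  have t : ∀ i j h : ℕ, i ≠ j → j ≠ h → i ≠ h → D2 F (l i) (l j) = 2 → D2 F (l j) (l h) = 2 →
      D2 F (l i) (l h) = 0 ∨ D3 F (l i) (l j) (l h) = 2 := fun i j h ij jh ih =>
    trG hG (hl.mem i) (hl.mem j) (hl.mem h) (hl.ne i j ij) (hl.ne j h jh) (hl.ne i h ih)
  have c := D2_comm F
  have c3 := D3_comm F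
  have c3' := D3_comm' F
  have r : ∀ u v x, D3 F u v x = D3 F v x u := fun u v x => by rw [D3_comm, D3_comm']
  unfold trAll
  simp only [Bool.and_eq_true]
  refine ⟨⟨⟨?_, ?_⟩, ?_, ?_⟩, ⟨⟨?_, ?_⟩, ?_, ?_⟩, ⟨?_, ?_⟩, ?_, ?_⟩ <;> rw [trOK_iff] <;>
    simp only [Nat.reduceAdd]
  · rw [hD.d3, hD.d6, hD.d5, hD.d7]; exact t 0 1 2 (by norm_num) (by norm_num) (by norm_num)
  · rw [hD.d5, hD.d6, hD.d3, hD.d7, c (l 1) (l 2), c3' (l 0) (l 1) (l 2)]
    exact t 0 2 1 (by norm_num) (by norm_num) (by norm_num)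
  · rw [hD.d3, hD.d5, hD.d6, hD.d7, c (l 0) (l 1), c3 (l 0) (l 1) (l 2)]
    exact t 1 0 2 (by norm_num) (by norm_num) (by norm_num)
  · rw [hD.d3, hD.d10, hD.d9, hD.d11]; exact t 0 1 3 (by norm_num) (by norm_num) (by norm_num)
  · rw [hD.d9, hD.d10, hD.d3, hD.d11, c (l 1) (l 3), c3' (l 0) (l 1) (l 3)]
    exact t 0 3 1 (by norm_num) (by norm_num) (by norm_num)
  · rw [hD.d3, hD.d9, hD.d10, hD.d11, c (l 0) (l 1), c3 (l 0) (l 1) (l 3)]
    exact t 1 0 3 (by norm_num) (by norm_num) (by norm_num)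
  · rw [hD.d5, hD.d12, hD.d9, hD.d13]; exact t 0 2 3 (by norm_num) (by norm_num) (by norm_num)
  · rw [hD.d9, hD.d12, hD.d5, hD.d13, c (l 2) (l 3), c3' (l 0) (l 2) (l 3)]
    exact t 0 3 2 (by norm_num) (by norm_num) (by norm_num)
  · rw [hD.d5, hD.d9, hD.d12, hD.d13, c (l 0) (l 2), c3 (l 0) (l 2) (l 3)]
    exact t 2 0 3 (by norm_num) (by norm_num) (by norm_num)
  · rw [hD.d6, hD.d12, hD.d10, hD.d14]; exact t 1 2 3 (by norm_num) (by norm_num) (by norm_num)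
  · rw [hD.d10, hD.d12, hD.d6, hD.d14, c (l 2) (l 3), c3' (l 1) (l 2) (l 3)]
    exact t 1 3 2 (by norm_num) (by norm_num) (by norm_num)
  · rw [hD.d6, hD.d10, hD.d12, hD.d14, c (l 1) (l 2), c3 (l 1) (l 2) (l 3)]
    exact t 2 1 3 (by norm_num) (by norm_num) (by norm_num)

theorem pairs_true : pairsOK mp = true := by
  have t : ∀ i j : ℕ, i ≠ j → D2 F (l i) (l j) ≤ 2 := fun i j ij =>
    D2_le hG (hl.mem i) (hl.mem j) (hl.ne i j ij)
  unfold pairsOK le2
  simp only [Bool.and_eq_true, Nat.ble_eq]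
  rw [hD.d3, hD.d5, hD.d9, hD.d6, hD.d10, hD.d12]
  exact ⟨⟨⟨t 0 1 (by norm_num), t 0 2 (by norm_num)⟩, t 1 2 (by norm_num), t 0 3 (by norm_num)⟩,
    t 1 3 (by norm_num), t 2 3 (by norm_num)⟩

theorem plane_true : planeOK mp = true := by
  have t012 : tri mp 1 2 4 = true → T3 F (l 0) (l 1) (l 2) := by
    rw [tri_iff]; simp only [Nat.reduceAdd]; rw [hD.d3, hD.d6, hD.d5, hD.d7]; exact id
  have t013 : tri mp 1 2 8 = true → T3 F (l 0) (l 1) (l 3) := by
    rw [tri_iff]; simp only [Nat.reduceAdd]; rw [hD.d3, hD.d10, hD.d9, hD.d11]; exact id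
  have t023 : tri mp 1 4 8 = true → T3 F (l 0) (l 2) (l 3) := by
    rw [tri_iff]; simp only [Nat.reduceAdd]; rw [hD.d5, hD.d12, hD.d9, hD.d13]; exact id
  have t123 : tri mp 2 4 8 = true → T3 F (l 1) (l 2) (l 3) := by
    rw [tri_iff]; simp only [Nat.reduceAdd]; rw [hD.d6, hD.d12, hD.d10, hD.d14]; exact id
  unfold planeOK
  rw [Bool.or_eq_true]
  by_cases h1 : tri1 mp = true
  · exact Or.inl h1
  · right
    have h2 : (T3 F (l 0) (l 1) (l 2) ∧ T3 F (l 0) (l 1) (l 3)) ∨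
      (T3 F (l 0) (l 1) (l 2) ∧ T3 F (l 0) (l 2) (l 3)) ∨
      (T3 F (l 0) (l 1) (l 2) ∧ T3 F (l 1) (l 2) (l 3)) ∨
      (T3 F (l 0) (l 1) (l 3) ∧ T3 F (l 0) (l 2) (l 3)) ∨
      (T3 F (l 0) (l 1) (l 3) ∧ T3 F (l 1) (l 2) (l 3)) ∨
      (T3 F (l 0) (l 2) (l 3) ∧ T3 F (l 1) (l 2) (l 3)) := by
      unfold tri1 at h1
      rw [Bool.not_eq_true', Bool.not_eq_false] at h1
      simp only [Bool.or_eq_true, Bool.and_eq_true] at h1
      rcases h1 with (⟨a, b⟩ | ⟨a, b⟩ | ⟨a, b⟩) | ⟨a, b⟩ | ⟨a, b⟩ | ⟨a, b⟩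
      · exact Or.inl ⟨t012 a, t013 b⟩
      · exact Or.inr (Or.inl ⟨t012 a, t023 b⟩)
      · exact Or.inr (Or.inr (Or.inl ⟨t012 a, t123 b⟩))
      · exact Or.inr (Or.inr (Or.inr (Or.inl ⟨t013 a, t023 b⟩)))
      · exact Or.inr (Or.inr (Or.inr (Or.inr (Or.inl ⟨t013 a, t123 b⟩))))
      · exact Or.inr (Or.inr (Or.inr (Or.inr (Or.inr ⟨t023 a, t123 b⟩))))
    have n2 : ∀ x y : ℕ, (two mp x = true → two mp y = true → False) →
        (!(two mp x && two mp y)) = true := by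
      intro x y h
      rw [Bool.not_eq_true', ← Bool.not_eq_true, Bool.and_eq_true]
      exact fun h' => h h'.1 h'.2
    have n3 : ∀ x y z : ℕ, (two mp x = true → two mp y = true → two mp z = true → False) →
        (!(two mp x && (two mp y && two mp z))) = true := by
      intro x y z h
      rw [Bool.not_eq_true', ← Bool.not_eq_true, Bool.and_eq_true, Bool.and_eq_true]
      exact fun h' => h h'.1 h'.2.1 h'.2.2
    have hn : ∀ x, two mp x = true ↔ dd mp x = 2 := fun x => by unfold two; rw [beq_iff]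
    simp only [Bool.and_eq_true]
    refine ⟨n2 _ _ ?_, n2 _ _ ?_, n2 _ _ ?_, n3 _ _ _ ?_, n3 _ _ _ ?_, n3 _ _ _ ?_, n3 _ _ _ ?_⟩
    · rw [hn, hn, hD.d3, hD.d12]; intro d1 d2
      exact match1 hG hl (show (0:ℕ) ≠ 1 by norm_num) (show (0:ℕ) ≠ 2 by norm_num)
        (show (0:ℕ) ≠ 3 by norm_num) (show (1:ℕ) ≠ 2 by norm_num) (show (1:ℕ) ≠ 3 by norm_num)
        (show (2:ℕ) ≠ 3 by norm_num) d1 d2 h2
    · rw [hn, hn, hD.d5, hD.d10]; intro d1 d2
      refine match1 hG hl (show (0:ℕ) ≠ 2 by norm_num) (show (0:ℕ) ≠ 1 by norm_num)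
        (show (0:ℕ) ≠ 3 by norm_num) (show (2:ℕ) ≠ 1 by norm_num) (show (2:ℕ) ≠ 3 by norm_num)
        (show (1:ℕ) ≠ 3 by norm_num) d1 d2 ?_
      rcases h2 with ⟨a, b⟩ | ⟨a, b⟩ | ⟨a, b⟩ | ⟨a, b⟩ | ⟨a, b⟩ | ⟨a, b⟩
      · exact Or.inr (Or.inl ⟨T3_swap' a, b⟩)
      · exact Or.inl ⟨T3_swap' a, b⟩
      · exact Or.inr (Or.inr (Or.inl ⟨T3_swap' a, T3_swap b⟩))
      · exact Or.inr (Or.inr (Or.inr (Or.inl ⟨b, a⟩)))
      · exact Or.inr (Or.inr (Or.inr (Or.inr (Or.inr ⟨a, T3_swap b⟩))))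
      · exact Or.inr (Or.inr (Or.inr (Or.inr (Or.inl ⟨a, T3_swap b⟩))))
    · rw [hn, hn, hD.d9, hD.d6]; intro d1 d2
      refine match1 hG hl (show (0:ℕ) ≠ 3 by norm_num) (show (0:ℕ) ≠ 1 by norm_num)
        (show (0:ℕ) ≠ 2 by norm_num) (show (3:ℕ) ≠ 1 by norm_num) (show (3:ℕ) ≠ 2 by norm_num)
        (show (1:ℕ) ≠ 2 by norm_num) d1 d2 ?_
      -- i = 0, j = 3, h = 1, g = 2
      rcases h2 with ⟨a, b⟩ | ⟨a, b⟩ | ⟨a, b⟩ | ⟨a, b⟩ | ⟨a, b⟩ | ⟨a, b⟩
      · exact Or.inr (Or.inl ⟨T3_swap' b, a⟩)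
      · exact Or.inr (Or.inr (Or.inr (Or.inl ⟨T3_swap' b, a⟩)))
      · exact Or.inr (Or.inr (Or.inr (Or.inr (Or.inr ⟨a, T3_rot' b⟩))))
      · exact Or.inl ⟨T3_swap' a, T3_swap' b⟩
      · exact Or.inr (Or.inr (Or.inl ⟨T3_swap' a, T3_rot' b⟩))
      · exact Or.inr (Or.inr (Or.inr (Or.inr (Or.inl ⟨T3_swap' a, T3_rot' b⟩))))
    · rw [hn, hn, hn, hD.d3, hD.d5, hD.d6]; intro d1 d2 d3
      -- star: i = 3, j = 0, h = 1, g = 2
      refine star1 hG hl (show (3:ℕ) ≠ 0 by norm_num) (show (3:ℕ) ≠ 1 by norm_num)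
        (show (3:ℕ) ≠ 2 by norm_num) (show (0:ℕ) ≠ 1 by norm_num) (show (0:ℕ) ≠ 2 by norm_num)
        (show (1:ℕ) ≠ 2 by norm_num) d1 d3 d2 ?_
      rcases h2 with ⟨a, b⟩ | ⟨a, b⟩ | ⟨a, b⟩ | ⟨a, b⟩ | ⟨a, b⟩ | ⟨a, b⟩
      · exact Or.inl a
      · exact Or.inl a
      · exact Or.inl a
      · exact Or.inr (Or.inr (Or.inl ⟨T3_rot' a, T3_rot' b⟩))
      · exact Or.inr (Or.inl ⟨T3_rot' a, T3_rot' b⟩)
      · exact Or.inr (Or.inr (Or.inr ⟨T3_rot' a, T3_rot' b⟩))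
    · rw [hn, hn, hn, hD.d3, hD.d9, hD.d10]; intro d1 d2 d3
      -- star: i = 2, j = 0, h = 1, g = 3
      refine star1 hG hl (show (2:ℕ) ≠ 0 by norm_num) (show (2:ℕ) ≠ 1 by norm_num)
        (show (2:ℕ) ≠ 3 by norm_num) (show (0:ℕ) ≠ 1 by norm_num) (show (0:ℕ) ≠ 3 by norm_num)
        (show (1:ℕ) ≠ 3 by norm_num) d1 d3 d2 ?_
      rcases h2 with ⟨a, b⟩ | ⟨a, b⟩ | ⟨a, b⟩ | ⟨a, b⟩ | ⟨a, b⟩ | ⟨a, b⟩
      · exact Or.inl b
      · exact Or.inr (Or.inr (Or.inl ⟨T3_rot' a, T3_swap b⟩))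
      · exact Or.inr (Or.inl ⟨T3_rot' a, T3_swap b⟩)
      · exact Or.inl a
      · exact Or.inl a
      · exact Or.inr (Or.inr (Or.inr ⟨T3_swap a, T3_swap b⟩))
    · rw [hn, hn, hn, hD.d5, hD.d9, hD.d12]; intro d1 d2 d3
      -- star: i = 1, j = 0, h = 2, g = 3
      refine star1 hG hl (show (1:ℕ) ≠ 0 by norm_num) (show (1:ℕ) ≠ 2 by norm_num)
        (show (1:ℕ) ≠ 3 by norm_num) (show (0:ℕ) ≠ 2 by norm_num) (show (0:ℕ) ≠ 3 by norm_num)
        (show (2:ℕ) ≠ 3 by norm_num) d1 d3 d2 ?_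
      rcases h2 with ⟨a, b⟩ | ⟨a, b⟩ | ⟨a, b⟩ | ⟨a, b⟩ | ⟨a, b⟩ | ⟨a, b⟩
      · exact Or.inr (Or.inr (Or.inl ⟨T3_swap a, T3_swap b⟩))
      · exact Or.inl b
      · exact Or.inr (Or.inl ⟨T3_swap a, b⟩)
      · exact Or.inl b
      · exact Or.inr (Or.inr (Or.inr ⟨T3_swap a, b⟩))
      · exact Or.inl a
    · rw [hn, hn, hn, hD.d6, hD.d10, hD.d12]; intro d1 d2 d3
      -- star: i = 0, j = 1, h = 2, g = 3
      refine star1 hG hl (show (0:ℕ) ≠ 1 by norm_num) (show (0:ℕ) ≠ 2 by norm_num)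
        (show (0:ℕ) ≠ 3 by norm_num) (show (1:ℕ) ≠ 2 by norm_num) (show (1:ℕ) ≠ 3 by norm_num)
        (show (2:ℕ) ≠ 3 by norm_num) d1 d3 d2 ?_
      rcases h2 with ⟨a, b⟩ | ⟨a, b⟩ | ⟨a, b⟩ | ⟨a, b⟩ | ⟨a, b⟩ | ⟨a, b⟩
      · exact Or.inr (Or.inr (Or.inl ⟨a, b⟩))
      · exact Or.inr (Or.inl ⟨a, b⟩)
      · exact Or.inl b
      · exact Or.inr (Or.inr (Or.inr ⟨a, b⟩))
      · exact Or.inl b
      · exact Or.inl b

end valid

theorem valid_true (hG : Geom 𝒢) (hl : LL 𝒢 l) (hE : En T l k) {F : Finset P} {m : P}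
    (hm : m ∈ F) {masks : List ℕ} (hM : Mk k masks) :
    valid4 (tr l m) (ptl l (F.erase m) masks) = true := by
  have hD := dd_all hE hm hM
  unfold valid4
  rw [pairs_true hG hl hD, tr_true hG hl hD, plane_true hG hl hD]
  rfl

theorem Nn_le (hG : Geom 𝒢) (hl : LL 𝒢 l) (X : Finset P) {masks : List ℕ} (hM : Mk k masks) :
    ∀ σ ∈ masks, Nn l X σ ≤ 2 := by
  intro σ hσ
  obtain ⟨h1, h2⟩ := hM.multi σ hσ
  have key : ∀ t < 16, t ∉ [0, 1, 2, 4, 8] → ∃ i < 4, ∃ j < 4, i ≠ j ∧ t.testBit i = true ∧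
    t.testBit j = true := by decide
  obtain ⟨i, hi, j, hj, hij, i1, j1⟩ := key σ h1 h2
  refine le_trans (card_le_card ?_) (D2_le (F := X) hG (hl.mem i) (hl.mem j) (hl.ne i j hij))
  intro x hx
  rw [mem_filter] at hx
  rw [← hx.2, tr_testBit l x hi] at i1
  rw [← hx.2, tr_testBit l x hj] at j1
  simp only [mem_inter]
  exact ⟨⟨of_decide_eq_true i1, of_decide_eq_true j1⟩, hx.1⟩

theorem pairsOK_ptl (hG : Geom 𝒢) (hl : LL 𝒢 l) (hE : En T l k) {F : Finset P} {m : P}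
    (hm : m ∈ F) {masks : List ℕ} (hM : Mk k masks) :
    pairsOK (ptl l (F.erase m) masks) = true := by
  refine pairsOK_mono (fun p => ?_) (pairs_true hG hl (dd_all hE hm hM))
  rw [List.countP_cons]
  exact Nat.le_add_right _ _

/-- any property checked by `genAll` holds for the configuration -/
theorem genAll_ptl (hG : Geom 𝒢) (hl : LL 𝒢 l) (hE : En T l k) {F : Finset P} {m : P}
    (hm : m ∈ F) {masks : List ℕ} (hM : Mk k masks) {f : List ℕ → Bool}
    (hf : genAll f masks [] = true) : f (ptl l (F.erase m) masks) = true :=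
  genAll_sound f _ masks [] hf (Nn_le hG hl _ hM) (pairsOK_ptl hG hl hE hm hM)

theorem length_canon (N : ℕ → ℕ) (l acc : List ℕ) (hN : ∀ σ ∈ l, N σ ≤ 2) :
    (canon N l acc).length ≤ acc.length + 2 * l.length := by
  induction l generalizing acc with
  | nil => simp [canon]
  | cons σ l ih =>
    rw [canon]
    refine (ih _ (fun τ hτ => hN τ (List.mem_cons_of_mem _ hτ))).trans ?_
    rw [List.length_append, List.length_replicate, List.length_cons]
    have := hN σ List.mem_cons_self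
    omega

theorem hit_lt (hG : Geom 𝒢) (hl : LL 𝒢 l) (X : Finset P) {masks : List ℕ} (hM : Mk k masks)
    (c : ℕ) : hit (ptl l X masks) c < 32 := by
  unfold hit
  rw [cnt_eq]
  refine lt_of_le_of_lt List.countP_le_length ?_
  refine lt_of_le_of_lt (length_canon _ masks [] (Nn_le hG hl X hM)) ?_
  have := hM.len
  simp only [List.length_nil]
  omega

theorem kind_lt (M : ℕ) (pts : List ℕ) (c : ℕ) : kind M pts c < 32 := by
  unfold kind
  have := sz_le c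
  cases Nat.beq c 0
  · cases connB (M :: pts) c
    · simp
    · cases nz (Nat.land M c)
      · show 4 + sz c < 32
        omega
      · show sz c < 32
        omega
  · simp

theorem kind_sound (hE : En T l k) {F : Finset P} {m : P} (hm : m ∈ F) {masks : List ℕ}
    (hM : Mk k masks) {c κ : ℕ} (hc : c < 2 ^ k) (hκ : κ ≠ 0)
    (h : kind (tr l m) (ptl l (F.erase m) masks) c = κ) : KindOf F m κ (Cset l c) := by
  unfold kind at h
  by_cases h0 : Nat.beq c 0 = true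
  · rw [h0, cond_true] at h
    rw [beq_iff] at h0
    subst h0
    right; right
    refine ⟨h.symm, ?_⟩
    rw [eq_empty_iff_forall_notMem]
    intro L hL
    obtain ⟨i, _, h1, _⟩ := (mem_Cset l 0 L).1 hL
    simp at h1
  · have hc0 : c ≠ 0 := fun e => h0 ((beq_iff _ _).2 e)
    simp only [Bool.not_eq_true] at h0
    rw [h0, cond_false] at h
    by_cases h1 : connB (tr l m :: ptl l (F.erase m) masks) c = true
    · rw [h1, cond_true] at h
      have hconn : Conn F (Cset l c) :=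
        (conn_iff hE (fun t s hts => conn_list hE hm hM t s hts) hc).1 h1
      have hcard := hE.card_Cset hc
      have h4 := sz_le c
      have h5 := sz_pos c (hE.lt16 hc) hc0
      by_cases h2 : nz (Nat.land (tr l m) c) = true
      · rw [h2, cond_true] at h
        left
        rw [nz_land] at h2
        exact ⟨by omega, by omega, by rw [hcard, h], hconn, (mem_un l c F m).2 ⟨hm, h2⟩⟩
      · have h2' := h2
        simp only [Bool.not_eq_true] at h2'
        rw [h2', cond_false] at h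
        have h' : 4 + sz c = κ := h
        rw [nz_land] at h2
        right; left
        exact ⟨by omega, by omega, by rw [hcard]; omega, hconn, fun h6 => h2 ((mem_un l c F m).1 h6).2⟩
    · simp only [Bool.not_eq_true] at h1
      rw [h1, cond_false] at h
      exact absurd h.symm hκ

end en

end Torus103
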