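import Pool.Agent.Lib.MP_77f3ac_co.Spec

/-! # MP_77f3ac_co: the pattern inequalities, over a configuration -/

set_option autoImplicit false
set_option linter.unusedSectionVars false

namespace Torus103
open Finset Pat
variable {P : Type*} [DecidableEq P]

theorem chkY_sound {a1 a2 a3 a4 a5 a6 a7 a8 y1 y2 y3 y4 y5 y6 y7 y8 : ℕ}
    (h : chkY a1 a2 a3 a4 a5 a6 a7 a8 y1 y2 y3 y4 y5 y6 y7 y8 = true)
    {W r1 r2 r3 r4 r5 r6 r7 r8 : ℚ} (hW : 0 ≤ W)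
    (h1 : (a1 : ℚ) / 4096 * W ≤ r1) (h2 : (a2 : ℚ) / 4096 * W ≤ r2)
    (h3 : (a3 : ℚ) / 4096 * W ≤ r3) (h4 : (a4 : ℚ) / 4096 * W ≤ r4)
    (h5 : (a5 : ℚ) / 4096 * W ≤ r5) (h6 : (a6 : ℚ) / 4096 * W ≤ r6)
    (h7 : (a7 : ℚ) / 4096 * W ≤ r7) (h8 : (a8 : ℚ) / 4096 * W ≤ r8) :
    100 * W ≤ y1 * r1 + y2 * r2 + y3 * r3 + y4 * r4 + y5 * r5 + y6 * r6 + y7 * r7 + y8 * r8 := by
  unfold chkY at h
  have h' : 409600 ≤ ((a1 * y1 + a2 * y2) + (a3 * y3 + a4 * y4)) +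
      ((a5 * y5 + a6 * y6) + (a7 * y7 + a8 * y8)) := Nat.ble_eq.mp h
  have hq : (409600 : ℚ) ≤ ((a1 * y1 + a2 * y2) + (a3 * y3 + a4 * y4)) +
      ((a5 * y5 + a6 * y6) + (a7 * y7 + a8 * y8)) := by exact_mod_cast h'
  have e0 := mul_le_mul_of_nonneg_right hq hW
  have e1 := mul_le_mul_of_nonneg_left h1 (Nat.cast_nonneg (α := ℚ) y1)
  have e2 := mul_le_mul_of_nonneg_left h2 (Nat.cast_nonneg (α := ℚ) y2)
  have e3 := mul_le_mul_of_nonneg_left h3 (Nat.cast_nonneg (α := ℚ) y3)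
  have e4 := mul_le_mul_of_nonneg_left h4 (Nat.cast_nonneg (α := ℚ) y4)
  have e5 := mul_le_mul_of_nonneg_left h5 (Nat.cast_nonneg (α := ℚ) y5)
  have e6 := mul_le_mul_of_nonneg_left h6 (Nat.cast_nonneg (α := ℚ) y6)
  have e7 := mul_le_mul_of_nonneg_left h7 (Nat.cast_nonneg (α := ℚ) y7)
  have e8 := mul_le_mul_of_nonneg_left h8 (Nat.cast_nonneg (α := ℚ) y8)
  linarith

theorem chkX_sound {a1 a2 a3 a4 y1 y2 y3 y4 : ℕ}
    (h : chkX a1 a2 a3 a4 y1 y2 y3 y4 = true)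
    {W r1 r2 r3 r4 : ℚ} (hW : 0 ≤ W)
    (h1 : (a1 : ℚ) / 4096 * W ≤ r1) (h2 : (a2 : ℚ) / 4096 * W ≤ r2)
    (h3 : (a3 : ℚ) / 4096 * W ≤ r3) (h4 : (a4 : ℚ) / 4096 * W ≤ r4) :
    300 * W ≤ 3 * (y1 * r1 + y2 * r2 + y4 * r4) + y3 * r3 := by
  unfold chkX at h
  have h' : 1228800 ≤ 3 * (a1 * y1 + (a2 * y2 + a4 * y4)) + a3 * y3 := Nat.ble_eq.mp h
  have hq : (1228800 : ℚ) ≤ 3 * (a1 * y1 + (a2 * y2 + a4 * y4)) + a3 * y3 := by exact_mod_cast h'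
  have e0 := mul_le_mul_of_nonneg_right hq hW
  have e1 := mul_le_mul_of_nonneg_left h1 (Nat.cast_nonneg (α := ℚ) y1)
  have e2 := mul_le_mul_of_nonneg_left h2 (Nat.cast_nonneg (α := ℚ) y2)
  have e3 := mul_le_mul_of_nonneg_left h3 (Nat.cast_nonneg (α := ℚ) y3)
  have e4 := mul_le_mul_of_nonneg_left h4 (Nat.cast_nonneg (α := ℚ) y4)
  linarith

theorem or_not_or {a b c : Bool} (h : or (not a) (or (not b) c) = true) (ha : a = true)
    (hb : b = true) : c = true := by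
  subst ha; subst hb; simpa using h

variable {𝒢 𝓛 T : Finset (Finset P)}

theorem pat4 (hG : Geom 𝒢) (hL : 𝓛 ⊆ 𝒢) {F : Finset P} {m : P} (hm : m ∈ F)
    (hT : T ∈ 𝓛.powersetCard 4) (hc : Conn (F.erase m) T) (hmT : ∃ L ∈ T, m ∈ L) :
    (100 * w (F.erase m) T ≤ 110 * rowT F 𝓛 m 1 7 9 T + 510 * rowT F 𝓛 m 1 1 6 T +
      800 * rowT F 𝓛 m 2 5 5 T + 0 * rV4 F 𝓛 m T + 92 * rowT F 𝓛 m 2 6 9 T +
      0 * rowT F 𝓛 m 2 1 5 T + 150 * rowT F 𝓛 m 2 2 9 T + 32 * rC F m T) ∧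
    (100 * w (F.erase m) T ≤ 480 * rowT F 𝓛 m 1 7 9 T + 570 * rowT F 𝓛 m 1 1 6 T +
      96 * rowT F 𝓛 m 2 5 5 T + 64 * rV4 F 𝓛 m T + 400 * rowT F 𝓛 m 2 6 9 T +
      420 * rowT F 𝓛 m 2 1 5 T + 34 * rowT F 𝓛 m 2 2 9 T + 10 * rC F m T) ∧
    (100 * w (F.erase m) T ≤ 0 * rowT F 𝓛 m 1 7 9 T + 0 * rowT F 𝓛 m 1 1 6 T +
      2400 * rowT F 𝓛 m 2 5 5 T + 0 * rV4 F 𝓛 m T + 0 * rowT F 𝓛 m 2 6 9 T +
      0 * rowT F 𝓛 m 2 1 5 T + 100 * rowT F 𝓛 m 2 2 9 T + 0 * rC F m T) ∧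
    (100 * w (F.erase m) T ≤ 620 * rowT F 𝓛 m 1 7 9 T + 670 * rowT F 𝓛 m 1 1 6 T +
      170 * rowT F 𝓛 m 2 5 5 T + 37 * rV4 F 𝓛 m T + 285 * rowT F 𝓛 m 2 6 9 T +
      410 * rowT F 𝓛 m 2 1 5 T + 34 * rowT F 𝓛 m 2 2 9 T + 13 * rC F m T) := by
  obtain ⟨l, j, h1, h4, hE, hl, hj⟩ := exists_en hL (le_refl 4) hT m hmT
  have hTL : T ⊆ 𝓛 := (mem_powersetCard.1 hT).1
  have hchk := genAll_ptl hG hl hE hm mk4 all4_true
  have hval := valid_true hG hl hE hm mk4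
  have hconn : connB (ptl l (F.erase m) masks4) 15 = true := by
    rw [conn_iff hE (fun t s hts => conn_list' hE (F.erase m) mk4 t s hts)
      (show 15 < 2 ^ 4 by norm_num)]
    have := Cset_full hE
    norm_num at this
    rw [this]; exact hc
  have hM := tr_mark hj h1 h4
  rw [Bool.and_eq_true, Bool.and_eq_true, Bool.and_eq_true] at hchk
  obtain ⟨⟨c1, c3⟩, c7, c15⟩ := hchk
  have hch : chk (tr l m) (ptl l (F.erase m) masks4) = true := by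
    rw [hM]
    interval_cases j
    · exact c1
    · exact c3
    · exact c7
    · exact c15
  have hcl := or_not_or hch hval hconn
  have hcf : ∀ α β γ : ℕ, α ≠ 0 → β ≠ 0 → γ ≠ 0 →
      (coef 15 (tab (kind (tr l m) (ptl l (F.erase m) masks4)) 16)
        (tab (hit (ptl l (F.erase m) masks4)) 16) α β γ : ℚ) / 4096 * w (F.erase m) T ≤
        rowT F 𝓛 m α β γ T := fun α β γ ha hb hc' =>
    coef_le hG hl hE (by decide) hTL hm mk4 ha hb hc' (by norm_num)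
  unfold chkTab chkAll at hcl
  rw [Bool.and_eq_true, Bool.and_eq_true, Bool.and_eq_true] at hcl
  obtain ⟨⟨y1, y2⟩, y3, y4⟩ := hcl
  have r1 := hcf 1 7 9 (by decide) (by decide) (by decide)
  have r2 := hcf 1 1 6 (by decide) (by decide) (by decide)
  have r3 := hcf 2 5 5 (by decide) (by decide) (by decide)
  have r4 := vco4_le hE hj h1 h4 r3
  have r5 := hcf 2 6 9 (by decide) (by decide) (by decide)
  have r6 := hcf 2 1 5 (by decide) (by decide) (by decide)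
  have r7 := hcf 2 2 9 (by decide) (by decide) (by decide)
  have r8 := capc_le (F := F) hE hj h1 h4
  have hW := w_nonneg (F.erase m) T
  have z1 := chkY_sound y1 hW r1 r2 r3 r4 r5 r6 r7 r8
  have z2 := chkY_sound y2 hW r1 r2 r3 r4 r5 r6 r7 r8
  have z3 := chkY_sound y3 hW r1 r2 r3 r4 r5 r6 r7 r8
  have z4 := chkY_sound y4 hW r1 r2 r3 r4 r5 r6 r7 r8
  push_cast at z1 z2 z3 z4
  exact ⟨z1, z2, z3, z4⟩

theorem pat3 (hG : Geom 𝒢) (hL : 𝓛 ⊆ 𝒢) {F : Finset P} {m : P} (hm : m ∈ F)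
    (hT : T ∈ 𝓛.powersetCard 3) (hc : Conn (F.erase m) T) (hmT : ∃ L ∈ T, m ∈ L) :
    (300 * w (F.erase m) T ≤ 3 * (200 * rowT F 𝓛 m 1 6 9 T + 200 * rowT F 𝓛 m 2 5 9 T +
      100 * rowT F 𝓛 m 2 1 9 T) + 0 * rV3 F 𝓛 m T) ∧
    (300 * w (F.erase m) T ≤ 3 * (400 * rowT F 𝓛 m 1 6 9 T + 0 * rowT F 𝓛 m 2 5 9 T +
      125 * rowT F 𝓛 m 2 1 9 T) + 150 * rV3 F 𝓛 m T) := by
  obtain ⟨l, j, h1, h4, hE, hl, hj⟩ := exists_en hL (show 3 ≤ 4 by norm_num) hT m hmT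
  have hTL : T ⊆ 𝓛 := (mem_powersetCard.1 hT).1
  have hchk := genAll_ptl hG hl hE hm mk3 all3_true
  have hval := valid_true hG hl hE hm mk3
  have hconn : connB (ptl l (F.erase m) masks3) 7 = true := by
    rw [conn_iff hE (fun t s hts => conn_list' hE (F.erase m) mk3 t s hts)
      (show 7 < 2 ^ 3 by norm_num)]
    have := Cset_full hE
    norm_num at this
    rw [this]; exact hc
  have hM := tr_mark hj h1 (show j ≤ 4 by omega)
  rw [Bool.and_eq_true, Bool.and_eq_true] at hchk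
  obtain ⟨c1, c3, c7⟩ := hchk
  have hch : chk3 (tr l m) (ptl l (F.erase m) masks3) = true := by
    rw [hM]
    interval_cases j
    · exact c1
    · exact c3
    · exact c7
  have hcl := or_not_or hch hval hconn
  have hcf : ∀ α β γ : ℕ, α ≠ 0 → β ≠ 0 → γ ≠ 0 →
      (coef 7 (tab (kind (tr l m) (ptl l (F.erase m) masks3)) 8)
        (tab (hit (ptl l (F.erase m) masks3)) 8) α β γ : ℚ) / 4096 * w (F.erase m) T ≤
        rowT F 𝓛 m α β γ T := fun α β γ ha hb hc' =>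
    coef_le hG hl hE (by decide) hTL hm mk3 ha hb hc' (by norm_num)
  unfold chkTab3 at hcl
  rw [Bool.and_eq_true] at hcl
  obtain ⟨y1, y2⟩ := hcl
  have r1 := hcf 1 6 9 (by decide) (by decide) (by decide)
  have r2 := hcf 2 5 9 (by decide) (by decide) (by decide)
  have r3 := vco3_le hE hj h1 h4 r2
  have r4 := hcf 2 1 9 (by decide) (by decide) (by decide)
  have hW := w_nonneg (F.erase m) T
  have z1 := chkX_sound y1 hW r1 r2 r3 r4
  have z2 := chkX_sound y2 hW r1 r2 r3 r4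
  push_cast at z1 z2
  exact ⟨z1, z2⟩

theorem pat2 (hG : Geom 𝒢) (hL : 𝓛 ⊆ 𝒢) {F : Finset P} {m : P} (hm : m ∈ F)
    (hT : T ∈ 𝓛.powersetCard 2) (hc : Conn F T) (hmT : ∃ L ∈ T, m ∈ L) :
    w (F.erase m) T ≤ 4 * rowT F 𝓛 m 1 5 9 T + rowT F 𝓛 m 1 1 9 T := by
  obtain ⟨l, j, h1, h4, hE, hl, hj⟩ := exists_en hL (show 2 ≤ 4 by norm_num) hT m hmT
  have hTL : T ⊆ 𝓛 := (mem_powersetCard.1 hT).1
  have hchk := genAll_ptl hG hl hE hm mk2 all2_true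
  have hval := valid_true hG hl hE hm mk2
  have hconn : connB (tr l m :: ptl l (F.erase m) masks2) 3 = true := by
    rw [conn_iff hE (fun t s hts => conn_list hE hm mk2 t s hts)
      (show 3 < 2 ^ 2 by norm_num)]
    have := Cset_full hE
    norm_num at this
    rw [this]; exact hc
  have hM := tr_mark hj h1 (show j ≤ 4 by omega)
  rw [Bool.and_eq_true] at hchk
  obtain ⟨c1, c3⟩ := hchk
  have hch : chk2 (tr l m) (ptl l (F.erase m) masks2) = true := by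
    rw [hM]
    interval_cases j
    · exact c1
    · exact c3
  have hcl := or_not_or hch hval hconn
  have hcf : ∀ α β γ : ℕ, α ≠ 0 → β ≠ 0 → γ ≠ 0 →
      (coef 3 (tab (kind (tr l m) (ptl l (F.erase m) masks2)) 4)
        (tab (hit (ptl l (F.erase m) masks2)) 4) α β γ : ℚ) / 4096 * w (F.erase m) T ≤
        rowT F 𝓛 m α β γ T := fun α β γ ha hb hc' =>
    coef_le hG hl hE (by decide) hTL hm mk2 ha hb hc' (by norm_num)
  have r1 := hcf 1 5 9 (by decide) (by decide) (by decide)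
  have r2 := hcf 1 1 9 (by decide) (by decide) (by decide)
  have hW := w_nonneg (F.erase m) T
  have z1 := chkX_sound hcl hW r1 r2 (r3 := 0) (r4 := 0) (by simp) (by simp)
  push_cast at z1
  linarith

end Torus103
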