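import Mathlib

/-! # MP_77f3ac_co: the finite pattern check

The traces of the free points on `k ≤ 4` lines are codes `< 16` (bit `i`: the point is on line `i`).
`M` is the trace of Maker's point, `pts` the list of the traces (with multiplicity) of the other free
points that lie on at least two of the lines. -/

set_option autoImplicit false

namespace Torus103
namespace Pat

/-- number of elements of the list satisfying `p` -/
def cnt (p : ℕ → Bool) : List ℕ → ℕ
  | [] => 0
  | q :: l => bif p q then Nat.succ (cnt p l) else cnt p l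

/-- `f 0 + ... + f (n-1)` -/
def sumTo (f : ℕ → ℕ) : ℕ → ℕ
  | 0 => 0
  | n + 1 => Nat.add (sumTo f n) (f n)

/-- `f 0 && ... && f (n-1)` -/
def allTo (f : ℕ → Bool) : ℕ → Bool
  | 0 => true
  | n + 1 => and (f n) (allTo f n)

def nz (n : ℕ) : Bool := not (Nat.beq n 0)

/-- number of listed points on the union of the lines of `c` -/
def hit (pts : List ℕ) (c : ℕ) : ℕ := cnt (fun q => nz (Nat.land q c)) pts

/-- the lines adjacent to a line of `t` -/
def adj (t : ℕ) : List ℕ → ℕ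
  | [] => 0
  | q :: l => bif nz (Nat.land q t) then Nat.lor q (adj t l) else adj t l

/-- `c` is nonempty and connected -/
def connB (pts : List ℕ) (c : ℕ) : Bool :=
  and (nz c) (allTo (fun t => or (Nat.beq t 0) (or (not (Nat.beq (Nat.land t c) t))
    (nz (Nat.land (adj t pts) (Nat.sub c t))))) c)

/-- number of bits (codes `< 16`) -/
def sz (c : ℕ) : ℕ :=
  Nat.add (Nat.add (Nat.mod c 2) (Nat.mod (Nat.div c 2) 2))
    (Nat.add (Nat.mod (Nat.div c 4) 2) (Nat.mod (Nat.div c 8) 2))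

/-- the kind of the cluster with code `c` (`0`: not a cluster) -/
def kind (M : ℕ) (pts : List ℕ) (c : ℕ) : ℕ :=
  bif Nat.beq c 0 then 9 else
  bif connB (M :: pts) c then (bif nz (Nat.land M c) then sz c else Nat.add 4 (sz c)) else 0

/-- number of points on all the lines of `p` -/
def dd (mp : List ℕ) (p : ℕ) : ℕ := cnt (fun q => Nat.beq (Nat.land q p) p) mp

def trOK (mp : List ℕ) (a b c : ℕ) : Bool :=
  or (not (and (Nat.beq (dd mp (a+b)) 2) (Nat.beq (dd mp (b+c)) 2)))
    (or (Nat.beq (dd mp (a+c)) 0) (Nat.beq (dd mp (a+b+c)) 2))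

def tri (mp : List ℕ) (a b c : ℕ) : Bool :=
  and (and (nz (dd mp (a+b))) (nz (dd mp (b+c))))
    (and (nz (dd mp (a+c))) (Nat.beq (dd mp (a+b+c)) 0))

/-- at most one of the four triangles -/
def tri1 (mp : List ℕ) : Bool :=
  not (or (or (and (tri mp 1 2 4) (tri mp 1 2 8)) (or (and (tri mp 1 2 4) (tri mp 1 4 8))
      (and (tri mp 1 2 4) (tri mp 2 4 8))))
    (or (and (tri mp 1 2 8) (tri mp 1 4 8)) (or (and (tri mp 1 2 8) (tri mp 2 4 8))
      (and (tri mp 1 4 8) (tri mp 2 4 8)))))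

def two (mp : List ℕ) (p : ℕ) : Bool := Nat.beq (dd mp p) 2
def le2 (mp : List ℕ) (p : ℕ) : Bool := Nat.ble (dd mp p) 2

def pairsOK (mp : List ℕ) : Bool :=
  and (and (and (le2 mp 3) (le2 mp 5)) (and (le2 mp 6) (le2 mp 9))) (and (le2 mp 10) (le2 mp 12))

def trAll (mp : List ℕ) : Bool :=
  and (and (and (trOK mp 1 2 4) (trOK mp 1 4 2)) (and (trOK mp 2 1 4) (trOK mp 1 2 8)))
  (and (and (and (trOK mp 1 8 2) (trOK mp 2 1 8)) (and (trOK mp 1 4 8) (trOK mp 1 8 4)))
  (and (and (trOK mp 4 1 8) (trOK mp 2 4 8)) (and (trOK mp 2 8 4) (trOK mp 4 2 8))))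

def planeOK (mp : List ℕ) : Bool :=
  or (tri1 mp)
   (and (not (and (two mp 3) (two mp 12))) (and (not (and (two mp 5) (two mp 10)))
   (and (not (and (two mp 9) (two mp 6)))
   (and (not (and (two mp 3) (and (two mp 5) (two mp 6))))
   (and (not (and (two mp 3) (and (two mp 9) (two mp 10))))
   (and (not (and (two mp 5) (and (two mp 9) (two mp 12))))
   (not (and (two mp 6) (and (two mp 10) (two mp 12))))))))))

def valid4 (M : ℕ) (pts : List ℕ) : Bool :=
  and (pairsOK (M :: pts)) (and (trAll (M :: pts)) (planeOK (M :: pts)))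

/-- run `f` over all point lists with at most two points on every pair of lines -/
def genAll (f : List ℕ → Bool) : List ℕ → List ℕ → Bool
  | [], acc => f acc
  | σ :: l, acc =>
    and (genAll f l acc)
    (bif pairsOK (σ :: acc) then and (genAll f l (σ :: acc))
      (bif pairsOK (σ :: σ :: acc) then genAll f l (σ :: σ :: acc) else true)
     else true)

def masks4 : List ℕ := [3,5,6,7,9,10,11,12,13,14,15]
def masks3 : List ℕ := [3,5,6,7]
def masks2 : List ℕ := [3]

/-- table of `f` in base `32` -/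
def tab (f : ℕ → ℕ) : ℕ → ℕ
  | 0 => 0
  | n + 1 => Nat.add (Nat.mul (f n) (Nat.pow 32 n)) (tab f n)

def gt (N c : ℕ) : ℕ := Nat.mod (Nat.div N (Nat.pow 32 c)) 32

/-- one term of the row coefficient (times `4096`) -/
def term (u s : ℕ) : ℕ := bif Nat.ble s (Nat.add 12 u) then Nat.pow 2 (Nat.sub (Nat.add 12 u) s) else 0

/-- row coefficient times `4096` -/
def coef (full K U a b c : ℕ) : ℕ :=
  sumTo (fun c0 => bif Nat.beq (gt K c0) a then
      sumTo (fun c1 =>
        bif and (Nat.beq (gt K c1) b) (Nat.beq (Nat.land c0 c1) 0) then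
          (bif Nat.beq (gt K (Nat.sub (Nat.sub full c0) c1)) c then
            term (gt U full)
              (Nat.add (gt U c0) (Nat.add (gt U c1) (gt U (Nat.sub (Nat.sub full c0) c1)))) else 0)
        else 0) full
    else 0) full

/-- line `a` double-crosses line `1` -/
def isD (pts : List ℕ) (a : ℕ) : Bool :=
  Nat.beq (cnt (fun q => and (nz (Nat.land q a)) (nz (Nat.land q 1))) pts) 2

/-- the points on line `1` are on exactly two lines -/
def diffD (pts : List ℕ) : Bool :=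
  Nat.beq (cnt (fun q => and (nz (Nat.land q 1)) (not (Nat.beq (sz q) 2))) pts) 0

/-- all the others double-cross the line `1` through `m` -/
def spec (M : ℕ) (pts : List ℕ) : Bool :=
  and (Nat.beq M 1) (and (isD pts 2) (and (isD pts 4) (isD pts 8)))
def spec3 (M : ℕ) (pts : List ℕ) : Bool :=
  and (Nat.beq M 1) (and (isD pts 2) (isD pts 4))

def capB (M : ℕ) (pts : List ℕ) : Bool :=
  and (Nat.beq M 1) (and (or (and (isD pts 2) (isD pts 4)) (or (and (isD pts 2) (isD pts 8))
    (and (isD pts 4) (isD pts 8)))) (connB pts 14))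

def chkY (a1 a2 a3 a4 a5 a6 a7 a8 : ℕ) (y1 y2 y3 y4 y5 y6 y7 y8 : ℕ) : Bool :=
  Nat.ble 409600 (Nat.add (Nat.add (Nat.add (Nat.mul a1 y1) (Nat.mul a2 y2))
    (Nat.add (Nat.mul a3 y3) (Nat.mul a4 y4))) (Nat.add (Nat.add (Nat.mul a5 y5) (Nat.mul a6 y6))
    (Nat.add (Nat.mul a7 y7) (Nat.mul a8 y8))))

/-- rows: `S₁O₃`, `S₁S₁O₂`, `S₂O₁O₁`, its V variant, `S₂O₂`, `S₂S₁O₁`, `S₂S₂`, cap -/
def chkAll (a1 a2 a3 a4 a5 a6 a7 a8 : ℕ) : Bool :=
  and (and (chkY a1 a2 a3 a4 a5 a6 a7 a8 110 510 800 0 92 0 150 32)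
  (chkY a1 a2 a3 a4 a5 a6 a7 a8 480 570 96 64 400 420 34 10))
  (and (chkY a1 a2 a3 a4 a5 a6 a7 a8 0 0 2400 0 0 0 100 0)
  (chkY a1 a2 a3 a4 a5 a6 a7 a8 620 670 170 37 285 410 34 13))

def vco (sp : Bool) (pts : List ℕ) (v c : ℕ) : ℕ := bif sp then (bif diffD pts then v else 0) else c

def chkTab (M : ℕ) (pts : List ℕ) (K U : ℕ) : Bool :=
  chkAll (coef 15 K U 1 7 9) (coef 15 K U 1 1 6) (coef 15 K U 2 5 5)
    (vco (spec M pts) pts 4096 (coef 15 K U 2 5 5))
    (coef 15 K U 2 6 9) (coef 15 K U 2 1 5) (coef 15 K U 2 2 9)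
    (bif capB M pts then 4096 else 0)

def chk (M : ℕ) (pts : List ℕ) : Bool :=
  or (not (valid4 M pts)) (or (not (connB pts 15))
    (chkTab M pts (tab (kind M pts) 16) (tab (hit pts) 16)))

def all4 : Bool :=
  genAll (fun pts => and (and (chk 1 pts) (chk 3 pts)) (and (chk 7 pts) (chk 15 pts))) masks4 []

/-- the third row comes multiplied by three -/
def chkX (a1 a2 a3 a4 : ℕ) (y1 y2 y3 y4 : ℕ) : Bool :=
  Nat.ble 1228800 (Nat.add (Nat.mul 3 (Nat.add (Nat.mul a1 y1) (Nat.add (Nat.mul a2 y2)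
    (Nat.mul a4 y4)))) (Nat.mul a3 y3))

/-- rows: `S₁O₂`, `S₂O₁`, three times its V variant (`2/3`), `S₂S₁` -/
def chkTab3 (M : ℕ) (pts : List ℕ) (K U : ℕ) : Bool :=
  and (chkX (coef 7 K U 1 6 9) (coef 7 K U 2 5 9)
    (vco (spec3 M pts) pts 8192 (Nat.mul 3 (coef 7 K U 2 5 9))) (coef 7 K U 2 1 9) 200 200 0 100)
   (chkX (coef 7 K U 1 6 9) (coef 7 K U 2 5 9)
    (vco (spec3 M pts) pts 8192 (Nat.mul 3 (coef 7 K U 2 5 9))) (coef 7 K U 2 1 9) 400 0 150 125)

def chk3 (M : ℕ) (pts : List ℕ) : Bool :=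
  or (not (valid4 M pts)) (or (not (connB pts 7))
    (chkTab3 M pts (tab (kind M pts) 8) (tab (hit pts) 8)))

def all3 : Bool := genAll (fun pts => and (chk3 1 pts) (and (chk3 3 pts) (chk3 7 pts))) masks3 []

/-- rows `S₁O₁`, `S₁S₁` (pairs connected through `m` allowed) -/
def chk2 (M : ℕ) (pts : List ℕ) : Bool :=
  or (not (valid4 M pts)) (or (not (connB (M :: pts) 3))
    (chkX (coef 3 (tab (kind M pts) 4) (tab (hit pts) 4) 1 5 9)
      (coef 3 (tab (kind M pts) 4) (tab (hit pts) 4) 1 1 9) 0 0 400 100 0 0))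

def all2 : Bool := genAll (fun pts => and (chk2 1 pts) (chk2 3 pts)) masks2 []

theorem all2_true : all2 = true := by decide +kernel

theorem all3_true : all3 = true := by decide +kernel

theorem all4_true : all4 = true := by decide +kernel

end Pat
end Torus103
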