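import Pool.Agent.Lib.MP_77f3ac_co.Local

/-! # MP_77f3ac_co: the rows over a configuration -/

set_option autoImplicit false
set_option linter.unusedSectionVars false

namespace Torus103
open Finset Pat
variable {P : Type*} [DecidableEq P]

/-- the part of the triple product above `T` -/
noncomputable def rowT (F : Finset P) (𝓛 : Finset (Finset P)) (m : P) (α β γ : ℕ)
    (T : Finset (Finset P)) : ℚ :=
  ∑ t ∈ (K3 F 𝓛 m α β γ).filter (fun t => t.1 ∪ (t.2.1 ∪ t.2.2) = T), w3 F m t

theorem w_nonneg (F : Finset P) (C : Finset (Finset P)) : 0 ≤ w F C := by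
  unfold w; positivity

theorem w3_nonneg (F : Finset P) (m : P)
    (t : Finset (Finset P) × Finset (Finset P) × Finset (Finset P)) : 0 ≤ w3 F m t :=
  mul_nonneg (w_nonneg _ _) (mul_nonneg (w_nonneg _ _) (w_nonneg _ _))

theorem rowT_nonneg (F : Finset P) (𝓛 : Finset (Finset P)) (m : P) (α β γ : ℕ)
    (T : Finset (Finset P)) : 0 ≤ rowT F 𝓛 m α β γ T :=
  sum_nonneg fun t _ => w3_nonneg F m t

theorem K3_sum (F : Finset P) (𝓛 : Finset (Finset P)) (m : P) (α β γ : ℕ) :
    ∑ t ∈ K3 F 𝓛 m α β γ, w3 F m t = KS F 𝓛 m α * (KS F 𝓛 m β * KS F 𝓛 m γ) := by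
  unfold K3 w3 KS
  rw [sum_product, sum_mul]
  apply sum_congr rfl
  intro x _
  rw [sum_mul_sum, sum_product, mul_sum]
  apply sum_congr rfl
  intro y _
  rw [mul_sum]

/-- the rows over different `T` share the product -/
theorem row_sum (F : Finset P) (𝓛 : Finset (Finset P)) (m : P) (α β γ : ℕ)
    (𝒯 : Finset (Finset (Finset P))) :
    ∑ T ∈ 𝒯, rowT F 𝓛 m α β γ T ≤ KS F 𝓛 m α * (KS F 𝓛 m β * KS F 𝓛 m γ) := by
  rw [← K3_sum]
  unfold rowT
  rw [sum_fiberwise_eq_sum_filter]
  exact sum_le_sum_of_subset_of_nonneg (filter_subset _ _) fun t _ _ => w3_nonneg F m t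

theorem term_le (u s pf : ℕ) :
    (term u s : ℚ) / 4096 * (1 / 2) ^ (u + pf) ≤ (1 / 2) ^ (s + pf) := by
  unfold term
  by_cases h : Nat.ble s (Nat.add 12 u) = true
  · rw [h, cond_true]
    rw [Nat.ble_eq] at h
    obtain ⟨d, hd⟩ := Nat.exists_eq_add_of_le h
    have e1 : Nat.sub (Nat.add 12 u) s = d := by
      rw [hd]; exact Nat.add_sub_cancel_left s d
    rw [e1]
    have e2 : ((Nat.pow 2 d : ℕ) : ℚ) = 2 ^ d := by
      show ((2 ^ d : ℕ) : ℚ) = 2 ^ d
      push_cast; rfl
    rw [e2]
    apply le_of_eq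
    have e3 : (12 + u : ℕ) = s + d := hd
    have e4 : (1 / 2 : ℚ) ^ (u + pf) = 4096 * (1 / 2) ^ (12 + u + pf) := by
      rw [add_assoc 12, pow_add _ 12, ← mul_assoc]; norm_num
    rw [e4, e3, pow_add _ (s + d), pow_add _ s, pow_add _ s]
    have e5 : (2 : ℚ) ^ d * (1 / 2) ^ d = 1 := by rw [← mul_pow]; norm_num
    calc (2 : ℚ) ^ d / 4096 * (4096 * ((1 / 2) ^ s * (1 / 2) ^ d * (1 / 2) ^ pf))
        = (2 ^ d * (1 / 2) ^ d) * ((1 / 2) ^ s * (1 / 2) ^ pf) := by ring
    _ = _ := by rw [e5, one_mul]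
  · simp only [Bool.not_eq_true] at h
    rw [h, cond_false]
    simp only [Nat.cast_zero, zero_div, zero_mul]
    positivity

section en
variable {𝒢 𝓛 T : Finset (Finset P)} {l : ℕ → Finset P} {k : ℕ}

theorem Cset_full (hE : En T l k) : Cset l (2 ^ k - 1) = T := by
  ext L
  rw [hE.mem _ (by have := Nat.two_pow_pos k; omega), hE.img]
  constructor
  · rintro ⟨i, hi, _, h⟩; exact ⟨i, hi, h⟩
  · rintro ⟨i, hi, h⟩
    refine ⟨i, hi, ?_, h⟩
    rw [Nat.testBit_two_pow_sub_one]
    exact decide_eq_true hi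

theorem coef_le (hG : Geom 𝒢) (hl : LL 𝒢 l) (hE : En T l k) (hk : k ∈ [2, 3, 4]) (hT : T ⊆ 𝓛)
    {F : Finset P} {m : P} (hm : m ∈ F) {masks : List ℕ} (hM : Mk k masks) {α β γ : ℕ}
    (hα : α ≠ 0) (hβ : β ≠ 0) (hγ : γ ≠ 0) {full : ℕ} (hfull : full = 2 ^ k - 1) :
    (coef full (tab (kind (tr l m) (ptl l (F.erase m) masks)) (full + 1))
      (tab (hit (ptl l (F.erase m) masks)) (full + 1)) α β γ : ℚ) / 4096 * w (F.erase m) T ≤
      rowT F 𝓛 m α β γ T := by
  have hff : full ∈ [3, 7, 15] := by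
    simp only [List.mem_cons, List.not_mem_nil, or_false] at hk ⊢
    rcases hk with rfl | rfl | rfl <;> omega
  have h2k : 2 ^ k = full + 1 := by
    have := Nat.two_pow_pos k; omega
  set pts := ptl l (F.erase m) masks with hpts
  set K := tab (kind (tr l m) pts) (full + 1) with hK
  set U := tab (hit pts) (full + 1) with hU
  have gK : ∀ c < full + 1, gt K c = kind (tr l m) pts c := fun c hc =>
    gt_tab _ (kind_lt _ _) _ _ hc
  have gU : ∀ c < full + 1, gt U c = hit pts c := fun c hc =>
    gt_tab _ (hit_lt hG hl _ hM) _ _ hc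
  -- the pairs of codes
  set V := (range full ×ˢ range full).filter (fun c => kind (tr l m) pts c.1 = α ∧
    kind (tr l m) pts c.2 = β ∧ c.1 &&& c.2 = 0 ∧ kind (tr l m) pts (full - c.1 - c.2) = γ) with hV
  have hcoef : (coef full K U α β γ : ℚ) ≤
      ∑ c ∈ V, (term (hit pts full) (hit pts c.1 + (hit pts c.2 + hit pts (full - c.1 - c.2))) : ℚ) := by
    rw [hV, sum_filter, sum_product]
    unfold coef
    rw [sumTo_eq]
    push_cast
    apply sum_le_sum
    intro c0 hc0
    rw [mem_range] at hc0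
    rw [gK c0 (by omega)]
    by_cases h0 : kind (tr l m) pts c0 = α
    · rw [(beq_iff _ _).2 h0, cond_true, sumTo_eq]
      push_cast
      apply sum_le_sum
      intro c1 hc1
      rw [mem_range] at hc1
      rw [gK c1 (by omega)]
      by_cases h1 : kind (tr l m) pts c1 = β
      · by_cases h2 : c0 &&& c1 = 0
        · have h2' : Nat.beq (Nat.land c0 c1) 0 = true := (beq_iff _ _).2 h2
          rw [(beq_iff _ _).2 h1, h2']
          simp only [Bool.and_true, cond_true]
          obtain ⟨s1, _⟩ := sub_sub_code full hff c0 (by omega) c1 (by omega) h2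
          have s1' : Nat.sub (Nat.sub full c0) c1 < full + 1 := s1
          rw [gK _ s1', gU _ s1', gU full (by omega), gU c0 (by omega), gU c1 (by omega)]
          have e0 : Nat.sub (Nat.sub full c0) c1 = full - c0 - c1 := rfl
          rw [e0]
          by_cases h3 : kind (tr l m) pts (full - c0 - c1) = γ
          · rw [(beq_iff _ _).2 h3, cond_true, if_pos ⟨h0, h1, h2, h3⟩]
            rfl
          · have h3' : Nat.beq (kind (tr l m) pts (full - c0 - c1)) γ = false := by
              rw [← Bool.not_eq_true, beq_iff]; exact h3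
            rw [h3', cond_false, if_neg (fun h => h3 h.2.2.2)]
            simp
        · have h2' : Nat.beq (Nat.land c0 c1) 0 = false := by
            rw [← Bool.not_eq_true, beq_iff]; exact h2
          rw [h2', if_neg (fun h => h2 h.2.2.1)]
          simp
      · have h1' : Nat.beq (kind (tr l m) pts c1) β = false := by
          rw [← Bool.not_eq_true, beq_iff]; exact h1
        rw [h1', if_neg (fun h => h1 h.2.1)]
        simp
    · have h0' : Nat.beq (kind (tr l m) pts c0) α = false := by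
        rw [← Bool.not_eq_true, beq_iff]; exact h0
      rw [h0', cond_false]
      simp only [Nat.cast_zero]
      apply sum_nonneg
      intro c1 _
      split_ifs
      · positivity
      · exact le_rfl
  -- the injection
  set Φ : ℕ × ℕ → Finset (Finset P) × Finset (Finset P) × Finset (Finset P) :=
    fun c => (Cset l c.1, Cset l c.2, Cset l (full - c.1 - c.2)) with hΦ
  have hVmem : ∀ c ∈ V, c.1 < full ∧ c.2 < full ∧ kind (tr l m) pts c.1 = α ∧
    kind (tr l m) pts c.2 = β ∧ c.1 &&& c.2 = 0 ∧ kind (tr l m) pts (full - c.1 - c.2) = γ := by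
    intro c hc
    rw [hV, mem_filter, mem_product, mem_range, mem_range] at hc
    exact ⟨hc.1.1, hc.1.2, hc.2⟩
  have hinj : Set.InjOn Φ V := by
    intro c hc d hd h
    obtain ⟨c1, c2, _⟩ := hVmem c hc
    obtain ⟨d1, d2, _⟩ := hVmem d hd
    simp only [hΦ, Prod.mk.injEq] at h
    exact Prod.ext (hE.Cset_inj (by omega) (by omega) h.1)
      (hE.Cset_inj (by omega) (by omega) h.2.1)
  have hsub : V.image Φ ⊆ (K3 F 𝓛 m α β γ).filter (fun t => t.1 ∪ (t.2.1 ∪ t.2.2) = T) := by
    intro t ht
    obtain ⟨c, hc, rfl⟩ := mem_image.1 ht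
    obtain ⟨c1, c2, k1, k2, k3, k4⟩ := hVmem c hc
    obtain ⟨s1, s2⟩ := sub_sub_code full hff c.1 (by omega) c.2 (by omega) k3
    rw [mem_filter]
    constructor
    · unfold K3 KF
      simp only [mem_product, mem_filter, mem_powerset, hΦ]
      exact ⟨⟨(hE.subset _ (by omega)).trans hT, kind_sound hE hm hM (by omega) hα k1⟩,
        ⟨(hE.subset _ (by omega)).trans hT, kind_sound hE hm hM (by omega) hβ k2⟩,
        ⟨(hE.subset _ (by omega)).trans hT, kind_sound hE hm hM (by omega) hγ k4⟩⟩
    · simp only [hΦ]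
      ext L
      simp only [mem_union]
      constructor
      · rintro (h | h | h)
        · exact hE.subset _ (by omega) h
        · exact hE.subset _ (by omega) h
        · exact hE.subset _ (by omega) h
      · intro hL
        obtain ⟨i, hi, rfl⟩ := (hE.img L).1 hL
        rw [hE.mem' (by omega) hi, hE.mem' (by omega) hi, hE.mem' (by omega) hi]
        rw [s2 i (lt_of_lt_of_le hi hE.k4)]
        have hfi : full.testBit i = true := by
          rw [hfull, Nat.testBit_two_pow_sub_one]; exact decide_eq_true hi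
        rw [hfi]
        cases c.1.testBit i <;> cases c.2.testBit i <;> simp
  have hrow : ∑ c ∈ V, w3 F m (Φ c) ≤ rowT F 𝓛 m α β γ T := by
    unfold rowT
    rw [← sum_image hinj]
    exact sum_le_sum_of_subset_of_nonneg hsub fun t _ _ => w3_nonneg F m t
  refine le_trans ?_ hrow
  refine le_trans (mul_le_mul_of_nonneg_right (div_le_div_of_nonneg_right hcoef (by norm_num))
    (w_nonneg _ _)) ?_
  rw [sum_div, sum_mul]
  apply sum_le_sum
  intro c hc
  obtain ⟨c1, c2, k1, k2, k3, k4⟩ := hVmem c hc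
  have hwT : w (F.erase m) T = (1 / 2) ^ (hit pts full +
      ((F.erase m).filter (fun x => tr l x ∉ masks ∧ nz (Nat.land (tr l x) full) = true)).card) := by
    have e1 : T = Cset l full := by rw [hfull, Cset_full hE]
    unfold w
    conv_lhs => rw [e1]
    rw [un_card hE (F.erase m) hM]
  have hw3 : w3 F m (Φ c) = (1 / 2) ^ (hit pts c.1 + (hit pts c.2 + hit pts (full - c.1 - c.2)) +
      ((F.erase m).filter (fun x => tr l x ∉ masks ∧ nz (Nat.land (tr l x) full) = true)).card) := by
    rw [← priv_add hE (F.erase m) hM hff (show c.1 < full + 1 by omega)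
      (show c.2 < full + 1 by omega) k3]
    simp only [w3, hΦ, w]
    rw [un_card hE (F.erase m) hM, un_card hE (F.erase m) hM, un_card hE (F.erase m) hM,
      ← pow_add, ← pow_add]
    congr 1
    ring
  rw [hwT, hw3]
  exact term_le _ _ _

end en

end Torus103
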