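import Pool.Agent.Lib.MP_77f3ac_co.Base

/-! # MP_77f3ac_co: kinds of clusters, rows -/

set_option autoImplicit false

namespace Torus103
open Finset
variable {P : Type*} [DecidableEq P]

/-- Kinds of clusters (`F` the free points, `m ∈ F` Maker's move):
`1..4` marked (through `m`) of that size, `5..8` unmarked of size `κ - 4`, `9` the empty cluster. -/
def KindOf (F : Finset P) (m : P) (κ : ℕ) (C : Finset (Finset P)) : Prop :=
  (1 ≤ κ ∧ κ ≤ 4 ∧ C.card = κ ∧ Conn F C ∧ m ∈ un F C) ∨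
  (5 ≤ κ ∧ κ ≤ 8 ∧ C.card = κ - 4 ∧ Conn F C ∧ m ∉ un F C) ∨ (κ = 9 ∧ C = ∅)

noncomputable instance (F : Finset P) (m : P) (κ : ℕ) : DecidablePred (KindOf F m κ) :=
  fun _ => Classical.dec _

/-- The clusters of kind `κ`. -/
noncomputable def KF (F : Finset P) (𝓛 : Finset (Finset P)) (m : P) (κ : ℕ) :
    Finset (Finset (Finset P)) := 𝓛.powerset.filter (KindOf F m κ)

/-- The sum of the weights (after the move) of the clusters of kind `κ`. -/
noncomputable def KS (F : Finset P) (𝓛 : Finset (Finset P)) (m : P) (κ : ℕ) : ℚ :=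
  ∑ C ∈ KF F 𝓛 m κ, w (F.erase m) C

/-- Ordered triples of clusters of kinds `α`, `β`, `γ`. -/
noncomputable def K3 (F : Finset P) (𝓛 : Finset (Finset P)) (m : P) (α β γ : ℕ) :
    Finset (Finset (Finset P) × Finset (Finset P) × Finset (Finset P)) :=
  KF F 𝓛 m α ×ˢ (KF F 𝓛 m β ×ˢ KF F 𝓛 m γ)

/-- The weight of an ordered triple. -/
noncomputable def w3 (F : Finset P) (m : P)
    (t : Finset (Finset P) × Finset (Finset P) × Finset (Finset P)) : ℚ :=
  w (F.erase m) t.1 * (w (F.erase m) t.2.1 * w (F.erase m) t.2.2)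

/-- One line `B` of `T` passes through `m`, all the others double-cross `B` off `m`. -/
def SP (F : Finset P) (m : P) (T : Finset (Finset P)) : Prop :=
  ∃ B ∈ T, m ∈ B ∧ ∀ Y ∈ T, Y ≠ B → m ∉ Y ∧ (Y ∩ B ∩ F.erase m).card = 2

/-- The others cross `B` in different pairs. -/
def DP (F : Finset P) (m : P) (T : Finset (Finset P)) : Prop :=
  ∀ B ∈ T, m ∈ B → ∀ Y ∈ T, ∀ Z ∈ T, Y ≠ B → Z ≠ B → Y ≠ Z →
    Y ∩ B ∩ F.erase m ≠ Z ∩ B ∩ F.erase m

/-- Exactly one line `B` of `T` passes through `m`, the others form a cluster and at least two of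
them double-cross `B`. -/
def CP (F : Finset P) (m : P) (T : Finset (Finset P)) : Prop :=
  ∃ B ∈ T, m ∈ B ∧ (∀ Y ∈ T, Y ≠ B → m ∉ Y) ∧ Conn F (T.erase B) ∧
    ∃ Y ∈ T, ∃ Z ∈ T, Y ≠ B ∧ Z ≠ B ∧ Y ≠ Z ∧
      (Y ∩ B ∩ F.erase m).card = 2 ∧ (Z ∩ B ∩ F.erase m).card = 2

noncomputable instance (F : Finset P) (m : P) : DecidablePred (SP F m) :=
  fun _ => Classical.dec _
noncomputable instance (F : Finset P) (m : P) : DecidablePred (DP F m) :=
  fun _ => Classical.dec _
noncomputable instance (F : Finset P) (m : P) : DecidablePred (CP F m) :=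
  fun _ => Classical.dec _

end Torus103
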