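import Pool.Agent.Lib.MP_77f3ac_co.RowT

/-! # MP_77f3ac_co: the pattern inequalities for a configuration -/

set_option autoImplicit false
set_option linter.unusedSectionVars false

namespace Torus103
open Finset Pat
variable {P : Type*} [DecidableEq P]

/-- enumeration with the lines through `m` first -/
theorem exists_en {𝒢 𝓛 T : Finset (Finset P)} (hL : 𝓛 ⊆ 𝒢) {k : ℕ} (hk : k ≤ 4)
    (hT : T ∈ 𝓛.powersetCard k) (m : P) (hm : ∃ L ∈ T, m ∈ L) :
    ∃ (l : ℕ → Finset P) (j : ℕ), 1 ≤ j ∧ j ≤ k ∧ En T l k ∧ LL 𝒢 l ∧ ∀ i, m ∈ l i ↔ i < j := by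
  classical
  rw [mem_powersetCard] at hT
  obtain ⟨hTL, hc⟩ := hT
  set A := (T.filter (fun L => m ∈ L)).toList with hA
  set B := (T.filter (fun L => m ∉ L)).toList with hB
  have hAl : A.length = (T.filter (fun L => m ∈ L)).card := length_toList _
  have hBl : B.length = (T.filter (fun L => m ∉ L)).card := length_toList _
  have hAB : (A ++ B).length = k := by
    rw [List.length_append, hAl, hBl, card_filter_add_card_filter_not, hc]
  have hnd : (A ++ B).Nodup := by
    rw [List.nodup_append]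
    refine ⟨nodup_toList _, nodup_toList _, ?_⟩
    intro a ha b hb hab
    rw [hA, mem_toList, mem_filter] at ha
    rw [hB, mem_toList, mem_filter] at hb
    subst hab
    exact hb.2 ha.2
  have hmem : ∀ L, L ∈ A ++ B ↔ L ∈ T := by
    intro L
    rw [List.mem_append, hA, hB, mem_toList, mem_toList, mem_filter, mem_filter]
    tauto
  have hAm : ∀ L ∈ A, m ∈ L := by
    intro L h
    rw [hA, mem_toList, mem_filter] at h
    exact h.2
  have hBm : ∀ L ∈ B, m ∉ L := by
    intro L h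
    rw [hB, mem_toList, mem_filter] at h
    exact h.2
  set l : ℕ → Finset P := fun i => (A ++ B).getD i ∅ with hl
  have hlget : ∀ i (hi : i < k), l i = (A ++ B)[i]'(by rw [hAB]; exact hi) := by
    intro i hi
    simp only [hl]
    rw [List.getD_eq_getElem]
  have hemp : ∀ i, k ≤ i → l i = ∅ := by
    intro i hi
    simp only [hl]
    rw [List.getD_eq_default]
    rw [hAB]; exact hi
  have hinj : ∀ i < k, ∀ j < k, l i = l j → i = j := by
    intro i hi j hj h
    rw [hlget i hi, hlget j hj] at h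
    exact (List.Nodup.getElem_inj_iff hnd).1 h
  have himg : ∀ L, L ∈ T ↔ ∃ i < k, l i = L := by
    intro L
    rw [← hmem, List.mem_iff_getElem]
    constructor
    · rintro ⟨i, hi, h⟩
      have hi' : i < k := by rw [hAB] at hi; exact hi
      exact ⟨i, hi', by rw [hlget i hi', h]⟩
    · rintro ⟨i, hi, h⟩
      exact ⟨i, by rw [hAB]; exact hi, by rw [← hlget i hi, h]⟩
  refine ⟨l, A.length, ?_, ?_, ⟨hk, hinj, himg, hemp⟩, ⟨?_, ?_⟩, ?_⟩
  · obtain ⟨L, h1, h2⟩ := hm
    rw [hAl, Nat.succ_le_iff, card_pos]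
    exact ⟨L, mem_filter.2 ⟨h1, h2⟩⟩
  · rw [← hAB, List.length_append]; exact Nat.le_add_right _ _
  · intro i
    by_cases hi : i < k
    · exact Or.inl (hL (hTL ((himg _).2 ⟨i, hi, rfl⟩)))
    · exact Or.inr (hemp i (not_lt.1 hi))
  · intro i j hij h
    by_cases hi : i < k
    · by_cases hj : j < k
      · exact absurd (hinj i hi j hj h) hij
      · rw [h]; exact hemp j (not_lt.1 hj)
    · exact hemp i (not_lt.1 hi)
  · intro i
    by_cases hi : i < k
    · rw [hlget i hi]
      constructor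
      · intro h
        by_contra hn
        rw [List.getElem_append_right (not_lt.1 hn)] at h
        exact hBm _ (List.getElem_mem _) h
      · intro h
        rw [List.getElem_append_left h]
        exact hAm _ (List.getElem_mem _)
    · rw [hemp i (not_lt.1 hi)]
      have : A.length ≤ k := by rw [← hAB, List.length_append]; exact Nat.le_add_right _ _
      constructor
      · intro h; exact absurd h (notMem_empty _)
      · intro h; omega

section en
variable {𝒢 𝓛 T : Finset (Finset P)} {l : ℕ → Finset P} {k : ℕ}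

theorem tr_mark {m : P} {j : ℕ} (hj : ∀ i, m ∈ l i ↔ i < j) (h1 : 1 ≤ j) (h4 : j ≤ 4) :
    tr l m = 2 ^ j - 1 := by
  have e : (fun i => decide (m ∈ l i)) = fun i => decide (i < j) := by
    funext i
    exact decide_eq_decide.2 (hj i)
  unfold tr
  rw [e]
  interval_cases j <;> decide

theorem isD_iff (hE : En T l k) (X : Finset P) {masks : List ℕ} (hM : Mk k masks) (a i : ℕ)
    (hi : i < 4)
    (ha : ∀ t < 16, (nz (Nat.land t a) && nz (Nat.land t 1)) = (t.testBit i && t.testBit 0))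
    (hs : ∀ s ∈ [0, 1, 2, 4, 8], (nz (Nat.land s a) && nz (Nat.land s 1)) = false) :
    isD (ptl l X masks) a = true ↔ (l i ∩ l 0 ∩ X).card = 2 := by
  unfold isD
  rw [beq_iff, cnt_ptl_multi hE X _ hM hs]
  have e : X.filter (fun x => (nz (Nat.land (tr l x) a) && nz (Nat.land (tr l x) 1)) = true) =
      l i ∩ l 0 ∩ X := by
    ext x
    rw [mem_filter, ha _ (tr_lt l x), tr_testBit l x hi, tr_testBit l x (by norm_num),
      Bool.and_eq_true, decide_eq_true_eq, decide_eq_true_eq]
    simp only [mem_inter]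
    tauto
  rw [← e]

theorem isD2 (hE : En T l k) (X : Finset P) {masks : List ℕ} (hM : Mk k masks) :
    isD (ptl l X masks) 2 = true ↔ (l 1 ∩ l 0 ∩ X).card = 2 :=
  isD_iff hE X hM 2 1 (by norm_num) (by decide) (by decide)

theorem isD4 (hE : En T l k) (X : Finset P) {masks : List ℕ} (hM : Mk k masks) :
    isD (ptl l X masks) 4 = true ↔ (l 2 ∩ l 0 ∩ X).card = 2 :=
  isD_iff hE X hM 4 2 (by norm_num) (by decide) (by decide)

theorem isD8 (hE : En T l k) (X : Finset P) {masks : List ℕ} (hM : Mk k masks) :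
    isD (ptl l X masks) 8 = true ↔ (l 3 ∩ l 0 ∩ X).card = 2 :=
  isD_iff hE X hM 8 3 (by norm_num) (by decide) (by decide)

theorem diffD_sound (X : Finset P) {masks : List ℕ} (hM : Mk k masks) (hE : En T l k)
    (h : diffD (ptl l X masks) = true) {i j : ℕ} (hi : i < 4) (hj : j < 4) (hi0 : 1 ≤ i)
    (hj0 : 1 ≤ j) (hij : i ≠ j) {x : P} (hx : x ∈ X) (h0 : x ∈ l 0) (h1 : x ∈ l i)
    (h2 : x ∈ l j) : False := by
  unfold diffD at h
  rw [beq_iff, cnt_ptl l X _ hM, card_eq_zero, filter_eq_empty_iff] at h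
  apply h hx
  have b0 : (tr l x).testBit 0 = true := by
    rw [tr_testBit l x (by norm_num)]; exact decide_eq_true h0
  have b1 : (tr l x).testBit i = true := by
    rw [tr_testBit l x hi]; exact decide_eq_true h1
  have b2 : (tr l x).testBit j = true := by
    rw [tr_testBit l x hj]; exact decide_eq_true h2
  have key : ∀ t < 16, ∀ i < 4, ∀ j < 4, (decide (1 ≤ i) && (decide (1 ≤ j) && (decide (i ≠ j) &&
      (t.testBit 0 && (t.testBit i && t.testBit j))))) = true →
      (decide (t ∉ [0, 1, 2, 4, 8]) && (nz (Nat.land t 1) && !(Nat.beq (sz t) 2))) = true := by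
    decide
  have k0 := key _ (tr_lt l x) i hi j hj (by
    rw [decide_eq_true hi0, decide_eq_true hj0, decide_eq_true hij, b0, b1, b2]; rfl)
  rw [Bool.and_eq_true, decide_eq_true_eq] at k0
  obtain ⟨k1, k2⟩ := k0
  exact ⟨(hM.all _ (tr_lt_pow hE x)).resolve_right k1, k2⟩

/-- SP in terms of the enumeration -/
theorem SP_iff (hE : En T l k) {F : Finset P} {m : P} {j : ℕ} (hj : ∀ i, m ∈ l i ↔ i < j)
    (h1 : 1 ≤ j) (hjk : j ≤ k) :
    SP F m T ↔ j = 1 ∧ ∀ i, 1 ≤ i → i < k → (l i ∩ l 0 ∩ F.erase m).card = 2 := by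
  constructor
  · rintro ⟨B, hB, hmB, h⟩
    obtain ⟨b, hb, rfl⟩ := (hE.img B).1 hB
    have hbj := (hj b).1 hmB
    have hj1 : j = 1 := by
      by_contra hn
      -- another marked line
      obtain ⟨b', hb'j, hb'b⟩ : ∃ b' < j, b' ≠ b := by
        by_cases hb0 : b = 0
        · exact ⟨1, by omega, by omega⟩
        · exact ⟨0, by omega, by omega⟩
      have hb'k : b' < k := by omega
      have h2 := h (l b') ((hE.img _).2 ⟨b', hb'k, rfl⟩)
        (fun e => hb'b (hE.inj b' hb'k b hb e))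
      exact h2.1 ((hj b').2 hb'j)
    have hb0 : b = 0 := by omega
    subst hb0
    refine ⟨hj1, fun i hi hik => ?_⟩
    exact (h (l i) ((hE.img _).2 ⟨i, hik, rfl⟩) (fun e => by
      have := hE.inj i hik 0 hb e
      omega)).2
  · rintro ⟨rfl, h⟩
    refine ⟨l 0, (hE.img _).2 ⟨0, by omega, rfl⟩, (hj 0).2 (by norm_num), ?_⟩
    intro Y hY hne
    obtain ⟨i, hi, rfl⟩ := (hE.img Y).1 hY
    have hi0 : 1 ≤ i := by
      rcases Nat.eq_zero_or_pos i with rfl | h'
      · exact absurd rfl hne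
      · exact h'
    exact ⟨fun hmi => by have := (hj i).1 hmi; omega, h i hi0 hi⟩

theorem DP_of (hE : En T l k) {F : Finset P} {m : P} (hj : ∀ i, m ∈ l i ↔ i < 1)
    {masks : List ℕ} (hM : Mk k masks)
    (hd : diffD (ptl l (F.erase m) masks) = true)
    (h : ∀ i, 1 ≤ i → i < k → (l i ∩ l 0 ∩ F.erase m).card = 2) : DP F m T := by
  intro B hB hmB Y hY Z hZ hYB hZB hYZ heq
  obtain ⟨b, hb, rfl⟩ := (hE.img B).1 hB
  obtain ⟨y, hy, rfl⟩ := (hE.img Y).1 hY
  obtain ⟨z, hz, rfl⟩ := (hE.img Z).1 hZ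
  have hb0 : b = 0 := by have := (hj b).1 hmB; omega
  subst hb0
  have hy0 : 1 ≤ y := by
    rcases Nat.eq_zero_or_pos y with rfl | h'
    · exact absurd rfl hYB
    · exact h'
  have hz0 : 1 ≤ z := by
    rcases Nat.eq_zero_or_pos z with rfl | h'
    · exact absurd rfl hZB
    · exact h'
  have hyz : y ≠ z := by rintro rfl; exact hYZ rfl
  have hc := h y hy0 hy
  obtain ⟨x, hx⟩ : (l y ∩ l 0 ∩ F.erase m).Nonempty := by
    rw [← card_pos, hc]; norm_num
  have hx' := hx
  rw [heq] at hx'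
  simp only [mem_inter] at hx hx'
  have hk4 := hE.k4
  exact diffD_sound (F.erase m) hM hE hd (show y < 4 by omega) (show z < 4 by omega) hy0 hz0 hyz
    hx.2 hx.1.2 hx.1.1 hx'.1.1

theorem conn_mono {X Y : Finset P} (h : X ⊆ Y) {C : Finset (Finset P)} (hC : Conn X C) :
    Conn Y C := by
  refine ⟨hC.1, fun S hS h1 h2 => ?_⟩
  obtain ⟨a, ha, b, hb, x, hx⟩ := hC.2 S hS h1 h2
  exact ⟨a, ha, b, hb, x, mem_inter.2 ⟨(mem_inter.1 hx).1, h (mem_inter.1 hx).2⟩⟩

/-- the V row at `T` -/
noncomputable def rV4 (F : Finset P) (𝓛 : Finset (Finset P)) (m : P) (T : Finset (Finset P)) : ℚ :=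
  if SP F m T then (if DP F m T then w (F.erase m) T else 0) else rowT F 𝓛 m 2 5 5 T

/-- three times the V row at `T` (three lines) -/
noncomputable def rV3 (F : Finset P) (𝓛 : Finset (Finset P)) (m : P) (T : Finset (Finset P)) : ℚ :=
  if SP F m T then (if DP F m T then 2 * w (F.erase m) T else 0) else 3 * rowT F 𝓛 m 2 5 9 T

/-- the cap row at `T` -/
noncomputable def rC (F : Finset P) (m : P) (T : Finset (Finset P)) : ℚ :=
  if CP F m T then w (F.erase m) T else 0

theorem rV4_nonneg (F : Finset P) (𝓛 : Finset (Finset P)) (m : P) (T : Finset (Finset P)) :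
    0 ≤ rV4 F 𝓛 m T := by
  unfold rV4
  split_ifs
  · exact w_nonneg _ _
  · exact le_rfl
  · exact rowT_nonneg _ _ _ _ _ _ _

theorem rV3_nonneg (F : Finset P) (𝓛 : Finset (Finset P)) (m : P) (T : Finset (Finset P)) :
    0 ≤ rV3 F 𝓛 m T := by
  unfold rV3
  split_ifs
  · exact mul_nonneg (by norm_num) (w_nonneg _ _)
  · exact le_rfl
  · exact mul_nonneg (by norm_num) (rowT_nonneg _ _ _ _ _ _ _)

theorem rC_nonneg (F : Finset P) (m : P) (T : Finset (Finset P)) : 0 ≤ rC F m T := by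
  unfold rC
  split_ifs
  · exact w_nonneg _ _
  · exact le_rfl

theorem capB_sound (hE : En T l 4) {F : Finset P} {m : P} {j : ℕ} (hj : ∀ i, m ∈ l i ↔ i < j)
    (h1 : 1 ≤ j) (hjk : j ≤ 4)
    (h : capB (tr l m) (ptl l (F.erase m) masks4) = true) : CP F m T := by
  unfold capB at h
  rw [Bool.and_eq_true, Bool.and_eq_true, beq_iff, tr_mark hj h1 hjk] at h
  obtain ⟨h2, h3, h4⟩ := h
  have hj1 : j = 1 := by
    interval_cases j
    · rfl
    · norm_num at h2
    · norm_num at h2
    · norm_num at h2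
  subst hj1
  have e : Cset l 14 = T.erase (l 0) := by
    ext L
    rw [hE.mem 14 (by norm_num), mem_erase, hE.img]
    constructor
    · rintro ⟨i, hi, hb, rfl⟩
      refine ⟨fun e => ?_, i, hi, rfl⟩
      have := hE.inj i hi 0 (by norm_num) e
      subst this
      exact absurd hb (by decide)
    · rintro ⟨hne, i, hi, rfl⟩
      refine ⟨i, hi, ?_, rfl⟩
      have : i ≠ 0 := by rintro rfl; exact hne rfl
      interval_cases i
      · exact absurd rfl this
      · decide
      · decide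
      · decide
  refine ⟨l 0, (hE.img _).2 ⟨0, by norm_num, rfl⟩, (hj 0).2 (by norm_num), ?_, ?_, ?_⟩
  · intro Y hY hne hmY
    obtain ⟨i, hi, rfl⟩ := (hE.img Y).1 hY
    have := (hj i).1 hmY
    have : i = 0 := by omega
    subst this
    exact hne rfl
  · rw [← e]
    apply conn_mono (erase_subset m F)
    exact (conn_iff hE (fun t s hts => conn_list' hE (F.erase m) mk4 t s hts)
      (show 14 < 2 ^ 4 by norm_num)).1 h4
  · have n10 : l 1 ≠ l 0 := fun e => by have := hE.inj 1 (by norm_num) 0 (by norm_num) e; omega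
    have n20 : l 2 ≠ l 0 := fun e => by have := hE.inj 2 (by norm_num) 0 (by norm_num) e; omega
    have n30 : l 3 ≠ l 0 := fun e => by have := hE.inj 3 (by norm_num) 0 (by norm_num) e; omega
    have n12 : l 1 ≠ l 2 := fun e => by have := hE.inj 1 (by norm_num) 2 (by norm_num) e; omega
    have n13 : l 1 ≠ l 3 := fun e => by have := hE.inj 1 (by norm_num) 3 (by norm_num) e; omega
    have n23 : l 2 ≠ l 3 := fun e => by have := hE.inj 2 (by norm_num) 3 (by norm_num) e; omega
    have m1 : l 1 ∈ T := (hE.img _).2 ⟨1, by norm_num, rfl⟩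
    have m2 : l 2 ∈ T := (hE.img _).2 ⟨2, by norm_num, rfl⟩
    have m3 : l 3 ∈ T := (hE.img _).2 ⟨3, by norm_num, rfl⟩
    rw [Bool.or_eq_true, Bool.or_eq_true, Bool.and_eq_true, Bool.and_eq_true, Bool.and_eq_true,
      isD2 hE _ mk4, isD4 hE _ mk4, isD8 hE _ mk4] at h3
    rcases h3 with ⟨a, b⟩ | ⟨a, b⟩ | ⟨a, b⟩
    · exact ⟨l 1, m1, l 2, m2, n10, n20, n12, a, b⟩
    · exact ⟨l 1, m1, l 3, m3, n10, n30, n13, a, b⟩
    · exact ⟨l 2, m2, l 3, m3, n20, n30, n23, a, b⟩

theorem spec_iff (hE : En T l 4) {F : Finset P} {m : P} {j : ℕ} (hj : ∀ i, m ∈ l i ↔ i < j)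
    (h1 : 1 ≤ j) (hjk : j ≤ 4) :
    spec (tr l m) (ptl l (F.erase m) masks4) = true ↔ SP F m T := by
  unfold spec
  rw [Bool.and_eq_true, Bool.and_eq_true, Bool.and_eq_true, beq_iff, tr_mark hj h1 hjk,
    isD2 hE _ mk4, isD4 hE _ mk4, isD8 hE _ mk4, SP_iff hE hj h1 hjk]
  have e : 2 ^ j - 1 = 1 ↔ j = 1 := by interval_cases j <;> simp
  rw [e]
  refine and_congr_right fun _ => ?_
  constructor
  · rintro ⟨a, b, c⟩ i hi hi4
    interval_cases i
    · exact a
    · exact b
    · exact c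
  · intro h
    exact ⟨h 1 (by norm_num) (by norm_num), h 2 (by norm_num) (by norm_num),
      h 3 (by norm_num) (by norm_num)⟩

theorem spec3_iff (hE : En T l 3) {F : Finset P} {m : P} {j : ℕ} (hj : ∀ i, m ∈ l i ↔ i < j)
    (h1 : 1 ≤ j) (hjk : j ≤ 3) :
    spec3 (tr l m) (ptl l (F.erase m) masks3) = true ↔ SP F m T := by
  unfold spec3
  rw [Bool.and_eq_true, Bool.and_eq_true, beq_iff, tr_mark hj h1 (by omega),
    isD2 hE _ mk3, isD4 hE _ mk3, SP_iff hE hj h1 hjk]
  have e : 2 ^ j - 1 = 1 ↔ j = 1 := by interval_cases j <;> simp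
  rw [e]
  refine and_congr_right fun _ => ?_
  constructor
  · rintro ⟨a, b⟩ i hi hi4
    interval_cases i
    · exact a
    · exact b
  · intro h
    exact ⟨h 1 (by norm_num) (by norm_num), h 2 (by norm_num) (by norm_num)⟩

theorem vco4_le (hE : En T l 4) {F : Finset P} {m : P} {j : ℕ} (hj : ∀ i, m ∈ l i ↔ i < j)
    (h1 : 1 ≤ j) (hjk : j ≤ 4) {c : ℕ}
    (hc : (c : ℚ) / 4096 * w (F.erase m) T ≤ rowT F 𝓛 m 2 5 5 T) :
    (vco (spec (tr l m) (ptl l (F.erase m) masks4)) (ptl l (F.erase m) masks4) 4096 c : ℚ) / 4096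
      * w (F.erase m) T ≤ rV4 F 𝓛 m T := by
  have hs := spec_iff (F := F) hE hj h1 hjk
  by_cases h : spec (tr l m) (ptl l (F.erase m) masks4) = true
  · have hSP := hs.1 h
    by_cases h' : diffD (ptl l (F.erase m) masks4) = true
    · have h2 := (SP_iff (F := F) hE hj h1 hjk).1 hSP
      have hj' : ∀ i, m ∈ l i ↔ i < 1 := by
        intro i; rw [hj i, h2.1]
      have hDP := DP_of hE hj' mk4 h' h2.2
      unfold vco rV4
      rw [h, h', if_pos hSP, if_pos hDP, cond_true, cond_true]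
      norm_num
    · simp only [Bool.not_eq_true] at h'
      unfold vco
      rw [h, h', cond_true, cond_false]
      simp only [Nat.cast_zero, zero_div, zero_mul]
      exact rV4_nonneg _ _ _ _
  · have hSP : ¬ SP F m T := fun e => h (hs.2 e)
    simp only [Bool.not_eq_true] at h
    unfold vco rV4
    rw [h, if_neg hSP, cond_false]
    exact hc

theorem vco3_le (hE : En T l 3) {F : Finset P} {m : P} {j : ℕ} (hj : ∀ i, m ∈ l i ↔ i < j)
    (h1 : 1 ≤ j) (hjk : j ≤ 3) {c : ℕ}
    (hc : (c : ℚ) / 4096 * w (F.erase m) T ≤ rowT F 𝓛 m 2 5 9 T) :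
    (vco (spec3 (tr l m) (ptl l (F.erase m) masks3)) (ptl l (F.erase m) masks3) 8192 (Nat.mul 3 c) : ℚ)
      / 4096 * w (F.erase m) T ≤ rV3 F 𝓛 m T := by
  have hs := spec3_iff (F := F) hE hj h1 hjk
  by_cases h : spec3 (tr l m) (ptl l (F.erase m) masks3) = true
  · have hSP := hs.1 h
    by_cases h' : diffD (ptl l (F.erase m) masks3) = true
    · have h2 := (SP_iff (F := F) hE hj h1 hjk).1 hSP
      have hj' : ∀ i, m ∈ l i ↔ i < 1 := by
        intro i; rw [hj i, h2.1]
      have hDP := DP_of hE hj' mk3 h' h2.2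
      unfold vco rV3
      rw [h, h', if_pos hSP, if_pos hDP, cond_true, cond_true]
      norm_num
    · simp only [Bool.not_eq_true] at h'
      unfold vco
      rw [h, h', cond_true, cond_false]
      simp only [Nat.cast_zero, zero_div, zero_mul]
      exact rV3_nonneg _ _ _ _
  · have hSP : ¬ SP F m T := fun e => h (hs.2 e)
    simp only [Bool.not_eq_true] at h
    unfold vco rV3
    rw [h, if_neg hSP, cond_false]
    have e : ((Nat.mul 3 c : ℕ) : ℚ) = 3 * c := by
      show ((3 * c : ℕ) : ℚ) = 3 * c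
      push_cast; rfl
    rw [e]
    linarith

theorem capc_le (hE : En T l 4) {F : Finset P} {m : P} {j : ℕ} (hj : ∀ i, m ∈ l i ↔ i < j)
    (h1 : 1 ≤ j) (hjk : j ≤ 4) :
    ((bif capB (tr l m) (ptl l (F.erase m) masks4) then 4096 else 0 : ℕ) : ℚ) / 4096
      * w (F.erase m) T ≤ rC F m T := by
  by_cases h : capB (tr l m) (ptl l (F.erase m) masks4) = true
  · have hC := capB_sound (F := F) hE hj h1 hjk h
    unfold rC
    rw [h, if_pos hC, cond_true]
    norm_num
  · simp only [Bool.not_eq_true] at h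
    rw [h, cond_false]
    simp only [Nat.cast_zero, zero_div, zero_mul]
    exact rC_nonneg _ _ _

end en

end Torus103
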