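import Pool.Agent.Lib.MP_77f3ac_co.Lines
import Pool.Agent.Lib.MP_77f3ac_co.Inv

/-!
Elementary facts on the lines of the torus `(ℤ/10)^3`.
-/

set_option autoImplicit false
set_option maxRecDepth 10000

namespace Torus103
open Finset

theorem mem_line_iff {n d : ℕ} [NeZero n] (P v x : TorusPt n d) :
    x ∈ line P v ↔ ∃ k : ZMod n, x = P + k • v := by
  simp only [line, mem_image, mem_range]
  constructor
  · rintro ⟨k, -, rfl⟩
    exact ⟨(k : ZMod n), rfl⟩
  · rintro ⟨k, rfl⟩
    exact ⟨k.val, ZMod.val_lt k, by rw [ZMod.natCast_zmod_val]⟩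

theorem line_rebase {n d : ℕ} [NeZero n] {P v x : TorusPt n d} (hx : x ∈ line P v) :
    line P v = line x v := by
  obtain ⟨k, rfl⟩ := (mem_line_iff P v x).mp hx
  ext y
  rw [mem_line_iff, mem_line_iff]
  constructor
  · rintro ⟨j, rfl⟩
    exact ⟨j - k, by rw [sub_smul]; abel⟩
  · rintro ⟨j, rfl⟩
    exact ⟨k + j, by rw [add_smul]; abel⟩

theorem line_neg_eq {n d : ℕ} [NeZero n] (P v : TorusPt n d) : line P (-v) = line P v := by
  ext y
  rw [mem_line_iff, mem_line_iff]
  constructor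
  · rintro ⟨j, rfl⟩
    exact ⟨-j, by simp⟩
  · rintro ⟨j, rfl⟩
    exact ⟨-j, by simp⟩

/-- the point with the natural coordinates `a` -/
def toPt (a : ℕ × ℕ × ℕ) : Pt := ![(a.1 : ZMod 10), (a.2.1 : ZMod 10), (a.2.2 : ZMod 10)]

/-- one of each pair of opposite directions -/
def D13 : List (ℕ × ℕ × ℕ) :=
  [(0, 0, 1), (0, 1, 0), (0, 1, 1), (0, 1, 9), (1, 0, 0), (1, 0, 1), (1, 0, 9), (1, 1, 0),
    (1, 1, 1), (1, 1, 9), (1, 9, 0), (1, 9, 1), (1, 9, 9)]

theorem dir_or (v : Pt) (h : ∀ i, v i = 0 ∨ v i = 1 ∨ v i = -1) (h0 : v ≠ 0) :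
    ∃ u ∈ D13, v = toPt u ∨ v = -toPt u := by
  have hv : v = ![v 0, v 1, v 2] := by
    ext i
    fin_cases i <;> rfl
  have h9 : (-1 : ZMod 10) = 9 := by decide
  rcases h 0 with h00 | h00 | h00 <;> rcases h 1 with h1 | h1 | h1 <;>
    rcases h 2 with h2 | h2 | h2 <;> rw [h00, h1, h2] at hv <;> subst hv
  all_goals first
    | exact absurd (by decide) h0
    | exact ⟨(0, 0, 1), by decide, by decide⟩
    | exact ⟨(0, 1, 0), by decide, by decide⟩
    | exact ⟨(0, 1, 1), by decide, by decide⟩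
    | exact ⟨(0, 1, 9), by decide, by decide⟩
    | exact ⟨(1, 0, 0), by decide, by decide⟩
    | exact ⟨(1, 0, 1), by decide, by decide⟩
    | exact ⟨(1, 0, 9), by decide, by decide⟩
    | exact ⟨(1, 1, 0), by decide, by decide⟩
    | exact ⟨(1, 1, 1), by decide, by decide⟩
    | exact ⟨(1, 1, 9), by decide, by decide⟩
    | exact ⟨(1, 9, 0), by decide, by decide⟩
    | exact ⟨(1, 9, 1), by decide, by decide⟩
    | exact ⟨(1, 9, 9), by decide, by decide⟩

/-- every line through `x` is `line x (toPt v)` for one of the 13 directions -/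
theorem lines_through {L : Finset Pt} (hL : L ∈ lines103) {x : Pt} (hx : x ∈ L) :
    ∃ v ∈ D13, L = line x (toPt v) := by
  rw [mem_lines103] at hL
  obtain ⟨P, v, h, h0, rfl⟩ := hL
  rw [line_rebase hx]
  obtain ⟨u, hu, rfl | rfl⟩ := dir_or v h h0
  · exact ⟨u, hu, rfl⟩
  · exact ⟨u, hu, line_neg_eq _ _⟩

theorem D13_dir (u : ℕ × ℕ × ℕ) (hu : u ∈ D13) :
    (∀ i, toPt u i = 0 ∨ toPt u i = 1 ∨ toPt u i = -1) ∧ toPt u ≠ 0 := by
  revert u
  decide

theorem line_mem (x : Pt) (u : ℕ × ℕ × ℕ) (hu : u ∈ D13) : line x (toPt u) ∈ lines103 := by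
  rw [mem_lines103]
  exact ⟨x, toPt u, (D13_dir u hu).1, (D13_dir u hu).2, rfl⟩

theorem card_line_of_dir (P v : Pt) (h : ∀ i, v i = 0 ∨ v i = 1 ∨ v i = -1) (h0 : v ≠ 0) :
    (line P v).card = 10 := by
  have : ∃ i, v i ≠ 0 := by
    by_contra hcon
    push Not at hcon
    exact h0 (funext hcon)
  obtain ⟨i, hi⟩ := this
  rw [line, card_image_of_injOn, card_range]
  intro a ha b hb hab
  simp only [coe_range, Set.mem_Iio] at ha hb
  have h1 : (a : ZMod 10) * v i = (b : ZMod 10) * v i := by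
    have := congrFun hab i
    simpa using this
  have h2 : (a : ZMod 10) = (b : ZMod 10) := by
    rcases h i with h | h | h
    · exact absurd h hi
    · rw [h, mul_one, mul_one] at h1
      exact h1
    · rw [h] at h1
      simpa using h1
  rw [ZMod.natCast_eq_natCast_iff'] at h2
  rwa [Nat.mod_eq_of_lt ha, Nat.mod_eq_of_lt hb] at h2

theorem card_line {L : Finset Pt} (hL : L ∈ lines103) : L.card = 10 := by
  rw [mem_lines103] at hL
  obtain ⟨P, v, h, h0, rfl⟩ := hL
  exact card_line_of_dir P v h h0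

/-- at most 13 lines through a point -/
theorem deg_le (x : Pt) : (lines103.filter fun L => x ∈ L).card ≤ 13 := by
  have : (lines103.filter fun L => x ∈ L) ⊆ (D13.toFinset.image fun u => line x (toPt u)) := by
    intro L hL
    rw [mem_filter] at hL
    obtain ⟨u, hu, rfl⟩ := lines_through hL.1 hL.2
    exact mem_image_of_mem _ (List.mem_toFinset.mpr hu)
  refine le_trans (card_le_card this) (le_trans card_image_le ?_)
  exact le_trans (List.toFinset_card_le _) (by decide)

theorem sum_card_inter (L : Finset Pt) (𝒢 : Finset (Finset Pt)) :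
    ∑ M ∈ 𝒢, (M ∩ L).card = ∑ x ∈ L, (𝒢.filter fun M => x ∈ M).card := by
  have h1 : ∀ M : Finset Pt, (M ∩ L).card = ∑ x ∈ L, if x ∈ M then 1 else 0 := by
    intro M
    rw [inter_comm, ← filter_mem_eq_inter, card_filter]
  simp only [h1, card_filter]
  rw [sum_comm]

theorem card_Pt : Fintype.card Pt = 1000 := by
  have h := Fintype.card_fun (α := Fin 3) (β := ZMod 10)
  rw [ZMod.card, Fintype.card_fin] at h
  rw [show (10 : ℕ) ^ 3 = 1000 by norm_num] at h
  exact h

theorem card_lines_le : lines103.card ≤ 1300 := by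
  have h1 : ∑ M ∈ lines103, (M ∩ univ).card = lines103.card * 10 := by
    refine sum_const_nat fun M hM => ?_
    rw [inter_univ]
    exact card_line hM
  have h2 : ∑ x : Pt, (lines103.filter fun M => x ∈ M).card ≤ Fintype.card Pt * 13 := by
    rw [← smul_eq_mul, ← card_univ, ← sum_const]
    exact sum_le_sum fun x _ => deg_le x
  have h3 : lines103.card * 10 ≤ Fintype.card Pt * 13 := by
    rw [← h1, sum_card_inter univ lines103]
    exact h2
  rw [card_Pt] at h3
  generalize lines103.card = N at h3 ⊢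
  omega

/-! ### The weighted adjacency -/

/-- `2^|a ∩ b|` if `a ≠ b` meet, else `0` -/
def yy (a b : Finset Pt) : ℚ := if a ≠ b ∧ (a ∩ b).Nonempty then 2 ^ (a ∩ b).card else 0

theorem yy_comm (a b : Finset Pt) : yy a b = yy b a := by
  simp only [yy, inter_comm a b, ne_comm (a := a)]

theorem yy_nonneg (a b : Finset Pt) : 0 ≤ yy a b := by
  unfold yy
  split_ifs
  · positivity
  · exact le_rfl

theorem yy_le (h2 : ∀ a ∈ lines103, ∀ b ∈ lines103, a ≠ b → (a ∩ b).card ≤ 2)
    {a b : Finset Pt} (ha : a ∈ lines103) (hb : b ∈ lines103) :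
    yy a b ≤ 2 * (if a ≠ b then ((a ∩ b).card : ℚ) else 0) := by
  unfold yy
  by_cases hab : a ≠ b
  · have hc := h2 a ha b hb hab
    by_cases hne : (a ∩ b).Nonempty
    · rw [if_pos ⟨hab, hne⟩, if_pos hab]
      have hpos := hne.card_pos
      generalize (a ∩ b).card = c at hc hpos ⊢
      interval_cases c <;> norm_num
    · rw [if_neg (fun h => hne h.2), if_pos hab]
      positivity
  · rw [if_neg (fun h => hab h.1), if_neg hab]
    norm_num

/-- `∑_b yy a b ≤ 240` -/
theorem sum_yy_le (h2 : ∀ a ∈ lines103, ∀ b ∈ lines103, a ≠ b → (a ∩ b).card ≤ 2)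
    {a : Finset Pt} (ha : a ∈ lines103) : ∑ b ∈ lines103, yy a b ≤ 240 := by
  have e1 : ∑ b ∈ lines103, yy a b ≤
      ∑ b ∈ lines103, 2 * (if a ≠ b then ((a ∩ b).card : ℚ) else 0) :=
    sum_le_sum fun b hb => yy_le h2 ha hb
  have e2 : ∑ b ∈ lines103, ((b ∩ a).card) ≤ 130 := by
    rw [sum_card_inter a lines103]
    calc ∑ x ∈ a, (lines103.filter fun M => x ∈ M).card ≤ ∑ _x ∈ a, 13 :=
          sum_le_sum fun x _ => deg_le x
      _ = a.card * 13 := by rw [sum_const, smul_eq_mul]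
      _ = 130 := by rw [card_line ha]
  have e3 : ∑ b ∈ lines103, (if a ≠ b then ((a ∩ b).card : ℚ) else 0) =
      ((∑ b ∈ lines103, ((b ∩ a).card) : ℕ) : ℚ) - 10 := by
    have : ∀ b ∈ lines103, (if a ≠ b then ((a ∩ b).card : ℚ) else 0) =
        ((b ∩ a).card : ℚ) - if a = b then 10 else 0 := by
      intro b _
      by_cases hab : a = b
      · subst hab
        rw [if_neg (by simp), if_pos rfl, inter_self, card_line ha]
        norm_num
      · rw [if_pos hab, if_neg hab, inter_comm, sub_zero]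
    rw [sum_congr rfl this, sum_sub_distrib, sum_ite_eq, if_pos ha]
    push_cast
    rfl
  rw [← mul_sum, e3] at e1
  have e4 : ((∑ b ∈ lines103, ((b ∩ a).card) : ℕ) : ℚ) ≤ 130 := by exact_mod_cast e2
  linarith

/-- the indicator sum of a point -/
theorem sum_ind_le (x : Pt) : ∑ a ∈ lines103, (if x ∈ a then (1 : ℚ) else 0) ≤ 13 := by
  rw [← sum_filter, sum_const, nsmul_eq_mul, mul_one]
  exact_mod_cast deg_le x

end Torus103
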