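import Pool.Agent.Lib.MP_77f3ac_co.StartBasic

/-!
Bit vectors of the lines, for computations in the kernel.
-/

set_option autoImplicit false

namespace Torus103
namespace SB
open Finset

/-! ### The computation -/

/-- the number of the point `p + k v` -/
def code (p1 p2 p3 v1 v2 v3 k : ℕ) : ℕ :=
  Nat.add (Nat.mod (Nat.add p1 (Nat.mul k v1)) 10) (Nat.add
    (Nat.mul 10 (Nat.mod (Nat.add p2 (Nat.mul k v2)) 10))
    (Nat.mul 100 (Nat.mod (Nat.add p3 (Nat.mul k v3)) 10)))

/-- the bit vector with the bits `f 0, …, f (n-1)` -/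
def orb (f : ℕ → ℕ) : ℕ → ℕ
  | 0 => 0
  | n + 1 => Nat.lor (orb f n) (Nat.pow 2 (f n))

/-- the bit vector of a line -/
def bitsL (p v : ℕ × ℕ × ℕ) : ℕ := orb (code p.1 p.2.1 p.2.2 v.1 v.2.1 v.2.2) 10

/-- number of bits, up to `f`; else `1000` -/
def pc : ℕ → ℕ → ℕ
  | 0, x => bif Nat.beq x 0 then 0 else 1000
  | f + 1, x => bif Nat.beq x 0 then 0 else Nat.succ (pc f (Nat.xor x (Nat.pow 2 (Nat.log2 x))))

/-- three times the factor of the outer lines `i, k` of a path `i, j, k` -/
def kN (Ai Aj Ak : ℕ) : ℕ :=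
  bif Nat.beq Ai Aj then 0 else bif Nat.beq Ak Aj then 0 else bif Nat.beq Ai Ak then 0
  else bif Nat.beq (Nat.land Ai Ak) 0 then 3
  else Nat.pow 2 (pc 3 (Nat.xor (Nat.land Ai Ak) (Nat.land (Nat.land Ai Ak) Aj)))

/-- sum over a list -/
def sL {α : Type} (f : α → ℕ) : List α → ℕ
  | [] => 0
  | a :: l => Nat.add (f a) (sL f l)

/-- three times the sum over all pairs of lines crossing the line through the origin with
direction `v`, the first one at the origin -/
def Kv (v : ℕ × ℕ × ℕ) : ℕ :=
  sL (fun d => sL (fun w => sL (fun u =>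
    kN (bitsL (0, 0, 0) u) (bitsL (0, 0, 0) v)
      (bitsL (Nat.mul d v.1, Nat.mul d v.2.1, Nat.mul d v.2.2) w)) D13) D13) (List.range 10)

/-! ### The link with the points -/

/-- the number of a point -/
def idx (x : Pt) : ℕ := (x 0).val + (10 * (x 1).val + 100 * (x 2).val)

theorem idx_inj : Function.Injective idx := by
  intro x y h
  have hx0 := ZMod.val_lt (x 0)
  have hx1 := ZMod.val_lt (x 1)
  have hx2 := ZMod.val_lt (x 2)
  have hy0 := ZMod.val_lt (y 0)
  have hy1 := ZMod.val_lt (y 1)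
  have hy2 := ZMod.val_lt (y 2)
  unfold idx at h
  have e0 : (x 0).val = (y 0).val := by omega
  have e1 : (x 1).val = (y 1).val := by omega
  have e2 : (x 2).val = (y 2).val := by omega
  funext i
  fin_cases i
  · exact ZMod.val_injective 10 e0
  · exact ZMod.val_injective 10 e1
  · exact ZMod.val_injective 10 e2

theorem idx_pt (a u : ℕ × ℕ × ℕ) (k : ℕ) :
    idx (toPt a + (k : ZMod 10) • toPt u) = code a.1 a.2.1 a.2.2 u.1 u.2.1 u.2.2 k := by
  have h : ∀ p v : ℕ, ((p : ZMod 10) + (k : ZMod 10) * (v : ZMod 10)).val = (p + k * v) % 10 := by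
    intro p v
    rw [← Nat.cast_mul, ← Nat.cast_add, ZMod.val_natCast]
  have h0 : (toPt a + (k : ZMod 10) • toPt u) 0 = (a.1 : ZMod 10) + (k : ZMod 10) * (u.1 : ZMod 10) :=
    rfl
  have h1 : (toPt a + (k : ZMod 10) • toPt u) 1 =
      (a.2.1 : ZMod 10) + (k : ZMod 10) * (u.2.1 : ZMod 10) := rfl
  have h2 : (toPt a + (k : ZMod 10) • toPt u) 2 =
      (a.2.2 : ZMod 10) + (k : ZMod 10) * (u.2.2 : ZMod 10) := rfl
  unfold idx
  rw [h0, h1, h2, h, h, h]
  rfl

theorem testBit_orb (f : ℕ → ℕ) (n m : ℕ) :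
    (orb f n).testBit m = true ↔ ∃ k < n, f k = m := by
  induction n with
  | zero =>
    have : orb f 0 = 0 := rfl
    rw [this, Nat.zero_testBit]
    constructor
    · intro h
      exact absurd h (by decide)
    · rintro ⟨k, hk, -⟩
      exact absurd hk (Nat.not_lt_zero k)
  | succ n ih =>
    have : orb f (n + 1) = orb f n ||| 2 ^ f n := rfl
    rw [this, Nat.testBit_or, Bool.or_eq_true, ih, Nat.testBit_two_pow, decide_eq_true_eq]
    constructor
    · rintro (⟨k, hk, h⟩ | h)
      · exact ⟨k, Nat.lt_succ_of_lt hk, h⟩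
      · exact ⟨n, Nat.lt_succ_self n, h⟩
    · rintro ⟨k, hk, h⟩
      rcases Nat.lt_succ_iff_lt_or_eq.mp hk with hk | rfl
      · exact Or.inl ⟨k, hk, h⟩
      · exact Or.inr h

theorem exists_of_testBit (a u : ℕ × ℕ × ℕ) (m : ℕ) (h : (bitsL a u).testBit m = true) :
    ∃ x ∈ line (toPt a) (toPt u), idx x = m := by
  obtain ⟨k, hk, rfl⟩ := (testBit_orb _ _ _).mp h
  exact ⟨toPt a + (k : ZMod 10) • toPt u, mem_image_of_mem _ (mem_range.mpr hk), idx_pt a u k⟩

theorem testBit_of_mem (a u : ℕ × ℕ × ℕ) {x : Pt} (h : x ∈ line (toPt a) (toPt u)) :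
    (bitsL a u).testBit (idx x) = true := by
  rw [line, mem_image] at h
  obtain ⟨k, hk, rfl⟩ := h
  exact (testBit_orb _ _ _).mpr ⟨k, mem_range.mp hk, (idx_pt a u k).symm⟩

theorem mem_iff (a u : ℕ × ℕ × ℕ) (x : Pt) :
    x ∈ line (toPt a) (toPt u) ↔ (bitsL a u).testBit (idx x) = true := by
  constructor
  · exact testBit_of_mem a u
  · intro h
    obtain ⟨y, hy, hxy⟩ := exists_of_testBit a u _ h
    rwa [← idx_inj hxy]

theorem line_eq_of_bits {a u b v : ℕ × ℕ × ℕ} (h : bitsL a u = bitsL b v) :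
    line (toPt a) (toPt u) = line (toPt b) (toPt v) := by
  ext x
  rw [mem_iff, mem_iff, h]

theorem card_le_pc (f : ℕ) : ∀ (N : ℕ) (S : Finset ℕ), S.card ≤ 1000 →
    (∀ m ∈ S, N.testBit m = true) → S.card ≤ pc f N := by
  induction f with
  | zero =>
    intro N S hS h
    by_cases hN : N = 0
    · subst hN
      have : S = ∅ := by
        rw [eq_empty_iff_forall_notMem]
        intro m hm
        have := h m hm
        rw [Nat.zero_testBit] at this
        exact absurd this (by decide)
      rw [this]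
      exact Nat.zero_le _
    · have hb : Nat.beq N 0 = false := by
        rw [← Bool.not_eq_true]
        exact fun hh => hN (Nat.eq_of_beq_eq_true hh)
      rw [pc, hb]
      exact hS
  | succ f ih =>
    intro N S hS h
    by_cases hN : N = 0
    · subst hN
      have : S = ∅ := by
        rw [eq_empty_iff_forall_notMem]
        intro m hm
        have := h m hm
        rw [Nat.zero_testBit] at this
        exact absurd this (by decide)
      rw [this]
      exact Nat.zero_le _
    · have hb : Nat.beq N 0 = false := by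
        rw [← Bool.not_eq_true]
        exact fun hh => hN (Nat.eq_of_beq_eq_true hh)
      have h1 : S.card ≤ (S.erase (Nat.log2 N)).card + 1 := by
        have := pred_card_le_card_erase (s := S) (a := Nat.log2 N)
        omega
      have h2 : (S.erase (Nat.log2 N)).card ≤ pc f (N ^^^ 2 ^ Nat.log2 N) := by
        refine ih _ _ (le_trans (card_le_card (erase_subset _ _)) hS) ?_
        intro m hm
        rw [mem_erase] at hm
        rw [Nat.testBit_xor, h m hm.2, Nat.testBit_two_pow_of_ne hm.1.symm]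
        rfl
      have h3 : pc (f + 1) N = pc f (N ^^^ 2 ^ Nat.log2 N) + 1 := by
        rw [pc, hb]
        rfl
      rw [h3]
      omega

end SB
end Torus103
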