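import Pool.Agent.Lib.MP_77f3ac_co.StartKv

/-!
Pairs of lines crossing a line.
-/

set_option autoImplicit false

namespace Torus103
namespace SB
open Finset

/-- the factor of the outer lines `i`, `k` of a path `i, j, k` -/
noncomputable def kap (i j k : Finset Pt) : ℚ :=
  if i = k then 0 else if i ∩ k = ∅ then 1 else 2 ^ ((i ∩ k) \ j).card / 3

theorem kap_nonneg (i j k : Finset Pt) : 0 ≤ kap i j k := by
  unfold kap
  split_ifs
  · exact le_rfl
  · norm_num
  · positivity

/-- the factor with the conditions -/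
noncomputable def kapc (i j k : Finset Pt) : ℚ := if i ≠ j ∧ k ≠ j then kap i j k else 0

theorem kapc_nonneg (i j k : Finset Pt) : 0 ≤ kapc i j k := by
  unfold kapc
  split_ifs
  · exact kap_nonneg i j k
  · exact le_rfl

theorem beq_false_of_ne {a b : ℕ} (h : a ≠ b) : Nat.beq a b = false := by
  rw [← Bool.not_eq_true]
  exact fun hh => h (Nat.eq_of_beq_eq_true hh)

theorem kapc_le (a u b v c w : ℕ × ℕ × ℕ) :
    kapc (line (toPt a) (toPt u)) (line (toPt b) (toPt v)) (line (toPt c) (toPt w)) ≤
      (kN (bitsL a u) (bitsL b v) (bitsL c w) : ℚ) / 3 := by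
  set I := line (toPt a) (toPt u) with hI
  set J := line (toPt b) (toPt v) with hJ
  set K := line (toPt c) (toPt w) with hK
  unfold kapc
  split_ifs with hc
  swap
  · positivity
  obtain ⟨hIJ, hKJ⟩ := hc
  unfold kap
  split_ifs with hIK h0
  · positivity
  · -- disjoint
    have e1 : Nat.beq (bitsL a u) (bitsL b v) = false :=
      beq_false_of_ne fun h => hIJ (line_eq_of_bits h)
    have e2 : Nat.beq (bitsL c w) (bitsL b v) = false :=
      beq_false_of_ne fun h => hKJ (line_eq_of_bits h)
    have e3 : Nat.beq (bitsL a u) (bitsL c w) = false :=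
      beq_false_of_ne fun h => hIK (line_eq_of_bits h)
    have e4 : Nat.land (bitsL a u) (bitsL c w) = 0 := by
      apply Nat.eq_of_testBit_eq
      intro m
      rw [Nat.zero_testBit, ← Bool.not_eq_true]
      intro hm
      have hm' : ((bitsL a u) &&& (bitsL c w)).testBit m = true := hm
      rw [Nat.testBit_and, Bool.and_eq_true] at hm'
      obtain ⟨x, hx, rfl⟩ := exists_of_testBit a u m hm'.1
      have hx' : x ∈ K := (mem_iff c w x).mpr hm'.2
      have : x ∈ I ∩ K := mem_inter.mpr ⟨hx, hx'⟩
      rw [h0] at this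
      exact notMem_empty _ this
    have : kN (bitsL a u) (bitsL b v) (bitsL c w) = 3 := by
      rw [kN, e1, e2, e3, e4]
      rfl
    rw [this]
    norm_num
  · -- not disjoint
    have e1 : Nat.beq (bitsL a u) (bitsL b v) = false :=
      beq_false_of_ne fun h => hIJ (line_eq_of_bits h)
    have e2 : Nat.beq (bitsL c w) (bitsL b v) = false :=
      beq_false_of_ne fun h => hKJ (line_eq_of_bits h)
    have e3 : Nat.beq (bitsL a u) (bitsL c w) = false :=
      beq_false_of_ne fun h => hIK (line_eq_of_bits h)
    obtain ⟨x, hx⟩ := nonempty_iff_ne_empty.mpr h0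
    rw [mem_inter] at hx
    have e4 : Nat.beq (Nat.land (bitsL a u) (bitsL c w)) 0 = false := by
      refine beq_false_of_ne fun h => ?_
      have h' : (bitsL a u) &&& (bitsL c w) = 0 := h
      have h1 : ((bitsL a u) &&& (bitsL c w)).testBit (idx x) = true := by
        rw [Nat.testBit_and, testBit_of_mem a u hx.1, testBit_of_mem c w hx.2]
        rfl
      rw [h', Nat.zero_testBit] at h1
      exact absurd h1 (by decide)
    have e5 : kN (bitsL a u) (bitsL b v) (bitsL c w) =
        2 ^ pc 3 (((bitsL a u) &&& (bitsL c w)) ^^^ (((bitsL a u) &&& (bitsL c w)) &&&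
          (bitsL b v))) := by
      rw [kN, e1, e2, e3, e4]
      rfl
    have h6 : ((I ∩ K) \ J).card ≤ pc 3 (((bitsL a u) &&& (bitsL c w)) ^^^
        (((bitsL a u) &&& (bitsL c w)) &&& (bitsL b v))) := by
      rw [← card_image_of_injective ((I ∩ K) \ J) idx_inj]
      apply card_le_pc
      · rw [card_image_of_injective _ idx_inj]
        have h7 : ((I ∩ K) \ J).card ≤ Fintype.card Pt := card_le_univ _
        rw [card_Pt] at h7
        exact h7
      · intro m hm
        rw [mem_image] at hm
        obtain ⟨y, hy, rfl⟩ := hm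
        rw [mem_sdiff, mem_inter] at hy
        have hb : (bitsL b v).testBit (idx y) = false := by
          rw [← Bool.not_eq_true]
          exact fun h => hy.2 ((mem_iff b v y).mpr h)
        rw [Nat.testBit_xor, Nat.testBit_and, Nat.testBit_and, testBit_of_mem a u hy.1.1,
          testBit_of_mem c w hy.1.2, hb, Bool.and_false]
        rfl
    rw [e5]
    push_cast
    exact div_le_div_of_nonneg_right (pow_le_pow_right₀ (by norm_num) h6) (by norm_num)

/-! ### Translation -/

theorem line_add (p a v : Pt) : line (p + a) v = (line a v).image (fun x => p + x) := by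
  ext y
  rw [mem_line_iff, mem_image]
  constructor
  · rintro ⟨k, rfl⟩
    exact ⟨a + k • v, (mem_line_iff _ _ _).mpr ⟨k, rfl⟩, by rw [add_assoc]⟩
  · rintro ⟨z, hz, rfl⟩
    obtain ⟨k, rfl⟩ := (mem_line_iff _ _ _).mp hz
    exact ⟨k, by rw [add_assoc]⟩

theorem kap_trans (p : Pt) (I J K : Finset Pt) :
    kap (I.image (fun x => p + x)) (J.image (fun x => p + x)) (K.image (fun x => p + x)) =
      kap I J K := by
  have inj : Function.Injective (fun x : Pt => p + x) := add_right_injective p
  unfold kap
  have h1 : (I.image (fun x => p + x) = K.image (fun x => p + x)) ↔ I = K :=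
    (image_injective inj).eq_iff
  rw [← image_inter _ _ inj, ← image_sdiff _ _ inj, card_image_of_injective _ inj]
  simp only [h1, image_eq_empty]

theorem kapc_trans (p : Pt) (I J K : Finset Pt) :
    kapc (I.image (fun x => p + x)) (J.image (fun x => p + x)) (K.image (fun x => p + x)) =
      kapc I J K := by
  have inj : Function.Injective (fun x : Pt => p + x) := add_right_injective p
  unfold kapc
  rw [kap_trans]
  have h1 : (I.image (fun x => p + x) = J.image (fun x => p + x)) ↔ I = J :=
    (image_injective inj).eq_iff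
  have h2 : (K.image (fun x => p + x) = J.image (fun x => p + x)) ↔ K = J :=
    (image_injective inj).eq_iff
  simp only [ne_eq, h1, h2]

theorem toPt_zero : toPt (0, 0, 0) = 0 := by
  funext i
  fin_cases i <;> rfl

theorem smul_toPt (d : ℕ) (v : ℕ × ℕ × ℕ) :
    (d : ZMod 10) • toPt v = toPt (Nat.mul d v.1, Nat.mul d v.2.1, Nat.mul d v.2.2) := by
  funext i
  fin_cases i
  · exact (Nat.cast_mul d v.1).symm
  · exact (Nat.cast_mul d v.2.1).symm
  · exact (Nat.cast_mul d v.2.2).symm

theorem kapc_path (p : Pt) (u v w : ℕ × ℕ × ℕ) (d : ℕ) :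
    kapc (line p (toPt u)) (line p (toPt v)) (line (p + (d : ZMod 10) • toPt v) (toPt w)) ≤
      (kN (bitsL (0, 0, 0) u) (bitsL (0, 0, 0) v)
        (bitsL (Nat.mul d v.1, Nat.mul d v.2.1, Nat.mul d v.2.2) w) : ℚ) / 3 := by
  have h1 := line_add p 0 (toPt u)
  have h2 := line_add p 0 (toPt v)
  rw [add_zero] at h1 h2
  rw [h1, h2, line_add, kapc_trans, smul_toPt, ← toPt_zero]
  exact kapc_le _ _ _ _ _ _

end SB
end Torus103
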