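import Pool.Agent.Lib.MP_77f3ac_co.StartBits

/-!
The kernel computations with the bit vectors of the lines.
-/

set_option autoImplicit false
set_option maxRecDepth 100000

namespace Torus103
namespace SB

theorem kvA : Kv (0, 0, 1) + Kv (0, 1, 0) + Kv (1, 0, 0) = 11754 := by decide +kernel

theorem kvB : Kv (0, 1, 1) + Kv (0, 1, 9) + Kv (1, 0, 1) = 11601 := by decide +kernel

theorem kvC : Kv (1, 0, 9) + Kv (1, 1, 0) + Kv (1, 9, 0) = 11601 := by decide +kernel

theorem kvD : Kv (1, 1, 1) + Kv (1, 1, 9) + (Kv (1, 9, 1) + Kv (1, 9, 9)) = 14964 := by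
  decide +kernel

end SB
end Torus103
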