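import Pool.Agent.Lib.MP_77f3ac_co.Base

/-!
The spanning tree bound for connected sets of three and four lines.
-/

set_option autoImplicit false

namespace Torus103
namespace ST
open Finset

/-- weight of a crossing with `h` common points -/
def yN (h : ℕ) : ℕ := if h = 0 then 0 else 2 ^ h

/-- spanning trees of a triangle -/
def t3 (ab ac bc : ℕ) : ℕ := ab * ac + ab * bc + ac * bc

/-- spanning trees of the complete graph on `a, b, c, d` -/
def t4 (ab ac ad bc bd cd : ℕ) : ℕ :=
  ab * ac * ad + ab * ac * bd + ab * ac * cd + ab * ad * bc + ab * ad * cd + ab * bc * bd +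
  ab * bc * cd + ab * bd * cd + ac * ad * bc + ac * ad * bd + ac * bc * bd + ac * bc * cd +
  ac * bd * cd + ad * bc * bd + ad * bc * cd + ad * bd * cd

/-- the triangle with the three crossing numbers has at most one double crossing -/
def okTri (x y z : ℕ) : Bool :=
  !(decide (0 < x) && decide (0 < y) && decide (0 < z) &&
    ((x == 2 && y == 2) || (x == 2 && z == 2) || (y == 2 && z == 2)))

/-- connectedness of the crossing graph -/
def cutsOk (ab ac ad bc bd cd : ℕ) : Bool :=
  decide (0 < ab + ac + ad) && decide (0 < ab + bc + bd) && decide (0 < ac + bc + cd) &&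
  decide (0 < ad + bd + cd) && decide (0 < ac + ad + bc + bd) &&
  decide (0 < ab + ad + bc + cd) && decide (0 < ab + ac + bd + cd)

/-- the finite check -/
def chk4 (ab ac ad bc bd cd : ℕ) : Bool :=
  !(cutsOk ab ac ad bc bd cd && okTri ab ac bc && okTri ab ad bd && okTri ac ad cd &&
    okTri bc bd cd) ||
  decide (2 ^ (ab + ac + ad + bc + bd + cd) ≤
    t4 (yN ab) (yN ac) (yN ad) (yN bc) (yN bd) (yN cd))

theorem chk4_all : ∀ ab < 3, ∀ ac < 3, ∀ ad < 3, ∀ bc < 3, ∀ bd < 3, ∀ cd < 3,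
    chk4 ab ac ad bc bd cd = true := by
  decide +kernel

/-- the second finite check -/
def chk1b (x y z : ℕ) : Bool :=
  decide (x + y + z = 0) || (x == 2 && decide (0 < y + z)) || (y == 2 && decide (0 < x + z)) ||
    (z == 2 && decide (0 < x + y)) ||
    decide (2 ^ (4 + (x + y + z)) ≤ t4 4 4 (yN x) 4 (yN y) (yN z))

theorem chk1b_all : ∀ x < 3, ∀ y < 3, ∀ z < 3, chk1b x y z = true := by
  decide +kernel

/-- three mutually doubly crossing lines and a fourth line -/
theorem chk1 (x : ℕ) (hx : x < 3) (y : ℕ) (hy : y < 3) (z : ℕ) (hz : z < 3)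
    (h0 : 0 < x + y + z) (h1 : ¬ (x = 2 ∧ 0 < y + z)) (h2 : ¬ (y = 2 ∧ 0 < x + z))
    (h3 : ¬ (z = 2 ∧ 0 < x + y)) :
    2 ^ (4 + (x + y + z)) ≤ t4 4 4 (yN x) 4 (yN y) (yN z) := by
  have h := chk1b_all x hx y hy z hz
  simp only [chk1b, Bool.or_eq_true, Bool.and_eq_true, decide_eq_true_eq, beq_iff_eq] at h
  rcases h with (((h | h) | h) | h) | h
  · omega
  · exact absurd h h1
  · exact absurd h h2
  · exact absurd h h3
  · exact h

variable {P : Type*} [DecidableEq P]

/-- the setting: four lines -/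
structure Four (a b c d : Finset P) : Prop where
  ca : a.card = 10
  cb : b.card = 10
  cc : c.card = 10
  cd : d.card = 10
  ab : (a ∩ b).card ≤ 2
  ac : (a ∩ c).card ≤ 2
  ad : (a ∩ d).card ≤ 2
  bc : (b ∩ c).card ≤ 2
  bd : (b ∩ d).card ≤ 2
  cd' : (c ∩ d).card ≤ 2

theorem card_union4_ge (a b c d : Finset P) (h : Four a b c d) :
    40 ≤ (a ∪ b ∪ c ∪ d).card + ((a ∩ b).card + (a ∩ c).card + (a ∩ d).card + (b ∩ c).card +
      (b ∩ d).card + (c ∩ d).card) := by
  have h1 := card_union_add_card_inter a b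
  have h2 := card_union_add_card_inter (a ∪ b) c
  have h3 := card_union_add_card_inter (a ∪ b ∪ c) d
  have h4 : ((a ∪ b) ∩ c).card ≤ (a ∩ c).card + (b ∩ c).card := by
    rw [union_inter_distrib_right]
    exact card_union_le _ _
  have h5 : ((a ∪ b ∪ c) ∩ d).card ≤ (a ∩ d).card + (b ∩ d).card + (c ∩ d).card := by
    rw [union_inter_distrib_right, union_inter_distrib_right]
    exact le_trans (card_union_le _ _) (Nat.add_le_add_right (card_union_le _ _) _)
  have := h.ca
  have := h.cb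
  have := h.cc
  have := h.cd
  omega

theorem case1 (a b c d : Finset P) (h : Four a b c d)
    (hc : cutsOk (a ∩ b).card (a ∩ c).card (a ∩ d).card (b ∩ c).card (b ∩ d).card
      (c ∩ d).card = true)
    (t1 : okTri (a ∩ b).card (a ∩ c).card (b ∩ c).card = true)
    (t2 : okTri (a ∩ b).card (a ∩ d).card (b ∩ d).card = true)
    (t3 : okTri (a ∩ c).card (a ∩ d).card (c ∩ d).card = true)
    (t4' : okTri (b ∩ c).card (b ∩ d).card (c ∩ d).card = true) :
    2 ^ (40 - (a ∪ b ∪ c ∪ d).card) ≤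
      t4 (yN (a ∩ b).card) (yN (a ∩ c).card) (yN (a ∩ d).card) (yN (b ∩ c).card)
        (yN (b ∩ d).card) (yN (c ∩ d).card) := by
  have hch := chk4_all _ (Nat.lt_succ_of_le h.ab) _ (Nat.lt_succ_of_le h.ac) _
    (Nat.lt_succ_of_le h.ad) _ (Nat.lt_succ_of_le h.bc) _ (Nat.lt_succ_of_le h.bd) _
    (Nat.lt_succ_of_le h.cd')
  rw [chk4, hc, t1, t2, t3, t4'] at hch
  simp only [Bool.and_self, Bool.not_true, Bool.false_or, decide_eq_true_eq] at hch
  refine le_trans (Nat.pow_le_pow_right (by norm_num) ?_) hch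
  have := card_union4_ge a b c d h
  omega

theorem case2 (a b c d : Finset P) (h : Four a b c d)
    (hab : (a ∩ b).card = 2) (e1 : a ∩ b = b ∩ c) (e2 : a ∩ c = b ∩ c)
    (hd : 0 < (a ∩ d).card + (b ∩ d).card + (c ∩ d).card)
    (tr : ∀ x ∈ ({a, b, c} : Finset (Finset P)), ∀ y ∈ ({a, b, c} : Finset (Finset P)), x ≠ y →
      (x ∩ d).card = 2 → (y ∩ d).Nonempty → x ∩ d = a ∩ b ∧ y ∩ d = a ∩ b)
    (nab : a ≠ b) (nac : a ≠ c) (nbc : b ≠ c) :
    2 ^ (40 - (a ∪ b ∪ c ∪ d).card) ≤
      t4 (yN (a ∩ b).card) (yN (a ∩ c).card) (yN (a ∩ d).card) (yN (b ∩ c).card)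
        (yN (b ∩ d).card) (yN (c ∩ d).card) := by
  have hbc : (b ∩ c).card = 2 := by rw [← e1, hab]
  have hac : (a ∩ c).card = 2 := by rw [e2, hbc]
  have u3 : (a ∪ b ∪ c).card = 26 := by
    have h1 := card_union_add_card_inter a b
    have h2 := card_union_add_card_inter (a ∪ b) c
    have h4 : (a ∪ b) ∩ c = b ∩ c := by
      rw [union_inter_distrib_right, e2, union_self]
    rw [h4] at h2
    have := h.ca
    have := h.cb
    have := h.cc
    omega
  have u4 := card_union_add_card_inter (a ∪ b ∪ c) d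
  have hdc := h.cd
  have hle : ((a ∪ b ∪ c) ∩ d).card ≤ (a ∩ d).card + (b ∩ d).card + (c ∩ d).card := by
    rw [union_inter_distrib_right, union_inter_distrib_right]
    exact le_trans (card_union_le _ _) (Nat.add_le_add_right (card_union_le _ _) _)
  have hy : yN 2 = 4 := by decide
  rw [hab, hac, hbc, hy]
  by_cases hbad : ((a ∩ d).card = 2 ∧ 0 < (b ∩ d).card + (c ∩ d).card) ∨
      ((b ∩ d).card = 2 ∧ 0 < (a ∩ d).card + (c ∩ d).card) ∨
      ((c ∩ d).card = 2 ∧ 0 < (a ∩ d).card + (b ∩ d).card)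
  · -- all intersections with `d` equal `π = a ∩ b`
    have ma : a ∈ ({a, b, c} : Finset (Finset P)) := by simp
    have mb : b ∈ ({a, b, c} : Finset (Finset P)) := by simp
    have mc : c ∈ ({a, b, c} : Finset (Finset P)) := by simp
    have pia : a ∩ b ⊆ a := inter_subset_left
    have pib : a ∩ b ⊆ b := inter_subset_right
    have pic : a ∩ b ⊆ c := by rw [e1]; exact inter_subset_right
    -- once `π ⊆ d` and one of the intersections is double, all are `π`
    have key : ∀ x ∈ ({a, b, c} : Finset (Finset P)), ∀ y ∈ ({a, b, c} : Finset (Finset P)),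
        x ≠ y → (x ∩ d).card = 2 → (y ∩ d).Nonempty →
        a ∩ d = a ∩ b ∧ b ∩ d = a ∩ b ∧ c ∩ d = a ∩ b := by
      intro x hx y hy' hxy hx2 hyn
      obtain ⟨hxd, hyd⟩ := tr x hx y hy' hxy hx2 hyn
      have pid : a ∩ b ⊆ d := by rw [← hxd]; exact inter_subset_right
      have hπ : (a ∩ b).Nonempty := by rw [← card_pos]; omega
      have all : ∀ z ∈ ({a, b, c} : Finset (Finset P)), z ∩ d = a ∩ b := by
        intro z hz
        by_cases hzx : z = x
        · rw [hzx]; exact hxd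
        · refine (tr x hx z hz (Ne.symm hzx) hx2 ?_).2
          obtain ⟨p, hp⟩ := hπ
          refine ⟨p, mem_inter.mpr ⟨?_, pid hp⟩⟩
          rcases mem_insert.mp hz with rfl | hz
          · exact pia hp
          · rcases mem_insert.mp hz with rfl | hz
            · exact pib hp
            · rw [mem_singleton.mp hz]; exact pic hp
      exact ⟨all a ma, all b mb, all c mc⟩
    have hall : a ∩ d = a ∩ b ∧ b ∩ d = a ∩ b ∧ c ∩ d = a ∩ b := by
      rcases hbad with ⟨h2, h0⟩ | ⟨h2, h0⟩ | ⟨h2, h0⟩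
      · by_cases hb0 : 0 < (b ∩ d).card
        · exact key a ma b mb nab h2 (card_pos.mp hb0)
        · exact key a ma c mc nac h2 (card_pos.mp (by omega))
      · by_cases hb0 : 0 < (a ∩ d).card
        · exact key b mb a ma nab.symm h2 (card_pos.mp hb0)
        · exact key b mb c mc nbc h2 (card_pos.mp (by omega))
      · by_cases hb0 : 0 < (a ∩ d).card
        · exact key c mc a ma nac.symm h2 (card_pos.mp hb0)
        · exact key c mc b mb nbc.symm h2 (card_pos.mp (by omega))
    obtain ⟨q1, q2, q3⟩ := hall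
    have h6 : (a ∪ b ∪ c) ∩ d = a ∩ b := by
      rw [union_inter_distrib_right, union_inter_distrib_right, q1, q2, q3, union_self,
        union_self]
    rw [h6, hab] at u4
    have : 40 - (a ∪ b ∪ c ∪ d).card = 6 := by omega
    rw [this, q1, q2, q3, hab, hy]
    decide
  · push Not at hbad
    obtain ⟨n1, n2, n3⟩ := hbad
    have hck := chk1 _ (Nat.lt_succ_of_le h.ad) _ (Nat.lt_succ_of_le h.bd) _
      (Nat.lt_succ_of_le h.cd') hd (fun hh => absurd hh.2 (by have := n1 hh.1; omega))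
      (fun hh => absurd hh.2 (by have := n2 hh.1; omega))
      (fun hh => absurd hh.2 (by have := n3 hh.1; omega))
    refine le_trans (Nat.pow_le_pow_right (by norm_num) ?_) hck
    omega

/-- the claim for four lines -/
def Q (a b c d : Finset P) : Prop :=
  2 ^ (40 - (a ∪ b ∪ c ∪ d).card) ≤
    t4 (yN (a ∩ b).card) (yN (a ∩ c).card) (yN (a ∩ d).card) (yN (b ∩ c).card)
      (yN (b ∩ d).card) (yN (c ∩ d).card)

theorem Q_swap12 {a b c d : Finset P} (h : Q b a c d) : Q a b c d := by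
  unfold Q at *
  rw [union_comm a b, inter_comm a b]
  refine le_trans h (le_of_eq ?_)
  simp only [t4]
  ring

theorem Q_swap23 {a b c d : Finset P} (h : Q a c b d) : Q a b c d := by
  unfold Q at *
  rw [union_right_comm a b c, inter_comm b c]
  refine le_trans h (le_of_eq ?_)
  simp only [t4]
  ring

theorem Q_swap34 {a b c d : Finset P} (h : Q a b d c) : Q a b c d := by
  unfold Q at *
  rw [union_right_comm (a ∪ b) c d, inter_comm c d]
  refine le_trans h (le_of_eq ?_)
  simp only [t4]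
  ring

theorem Four.swap12 {a b c d : Finset P} (h : Four a b c d) : Four b a c d :=
  ⟨h.cb, h.ca, h.cc, h.cd, by rw [inter_comm]; exact h.ab, h.bc, h.bd, h.ac, h.ad, h.cd'⟩

theorem Four.swap23 {a b c d : Finset P} (h : Four a b c d) : Four a c b d :=
  ⟨h.ca, h.cc, h.cb, h.cd, h.ac, h.ab, h.ad, by rw [inter_comm]; exact h.bc, h.cd', h.bd⟩

theorem Four.swap34 {a b c d : Finset P} (h : Four a b c d) : Four a b d c :=
  ⟨h.ca, h.cb, h.cd, h.cc, h.ab, h.ad, h.ac, h.bd, h.bc, by rw [inter_comm]; exact h.cd'⟩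

/-- a bad triangle consists of three lines through the same two points -/
theorem tri_all {𝒢 : Finset (Finset P)} (hG : Geom 𝒢) {a b c : Finset P} (ha : a ∈ 𝒢)
    (hb : b ∈ 𝒢) (hc : c ∈ 𝒢) (nab : a ≠ b) (nac : a ≠ c) (nbc : b ≠ c)
    (h : okTri (a ∩ b).card (a ∩ c).card (b ∩ c).card = false) :
    (a ∩ b).card = 2 ∧ a ∩ b = b ∩ c ∧ a ∩ c = b ∩ c := by
  simp only [okTri, Bool.not_eq_false', Bool.and_eq_true, decide_eq_true_eq, Bool.or_eq_true,
    beq_iff_eq] at h
  obtain ⟨⟨⟨h1, h2⟩, h3⟩, (⟨h4, h5⟩ | ⟨h4, h5⟩) | ⟨h4, h5⟩⟩ := h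
  · -- centre `a`
    have := hG.trans b hb a ha c hc nab.symm nac nbc (by rw [inter_comm]; exact h4) h5
      (card_pos.mp h3)
    refine ⟨h4, ?_, ?_⟩
    · rw [inter_comm a b, this.1, this.2]
    · exact this.2.symm
  · -- centre `b`
    have := hG.trans a ha b hb c hc nab nbc nac h4 h5 (card_pos.mp h2)
    exact ⟨h4, this.1, this.2⟩
  · -- centre `c`
    have := hG.trans a ha c hc b hb nac nbc.symm nab h4 (by rw [inter_comm]; exact h5)
      (card_pos.mp h1)
    rw [inter_comm c b] at this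
    refine ⟨?_, ?_, ?_⟩
    · rw [this.2]; exact h5
    · exact this.2
    · exact this.1

/-- the bad case, with `a, b, c` the bad triangle -/
theorem bad4 {𝒢 : Finset (Finset P)} (hG : Geom 𝒢) {a b c d : Finset P} (ha : a ∈ 𝒢)
    (hb : b ∈ 𝒢) (hc : c ∈ 𝒢) (hd : d ∈ 𝒢) (nab : a ≠ b) (nac : a ≠ c) (nbc : b ≠ c)
    (nad : a ≠ d) (nbd : b ≠ d) (ncd : c ≠ d) (h4 : Four a b c d)
    (h : okTri (a ∩ b).card (a ∩ c).card (b ∩ c).card = false)
    (hpos : 0 < (a ∩ d).card + (b ∩ d).card + (c ∩ d).card) : Q a b c d := by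
  obtain ⟨h2, e1, e2⟩ := tri_all hG ha hb hc nab nac nbc h
  refine case2 a b c d h4 h2 e1 e2 hpos ?_ nab nac nbc
  -- all pairwise intersections of `a, b, c` are `a ∩ b`
  have pw : ∀ x ∈ ({a, b, c} : Finset (Finset P)), ∀ y ∈ ({a, b, c} : Finset (Finset P)),
      x ≠ y → x ∩ y = a ∩ b := by
    intro x hx y hy hxy
    rw [mem_insert, mem_insert, mem_singleton] at hx hy
    rcases hx with rfl | rfl | rfl <;> rcases hy with rfl | rfl | rfl
    · exact absurd rfl hxy
    · rfl
    · rw [e2, e1]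
    · exact inter_comm _ _
    · exact absurd rfl hxy
    · exact e1.symm
    · rw [inter_comm, e2, e1]
    · rw [inter_comm]; exact e1.symm
    · exact absurd rfl hxy
  have mem : ∀ x ∈ ({a, b, c} : Finset (Finset P)), x ∈ 𝒢 ∧ x ≠ d := by
    intro x hx
    rw [mem_insert, mem_insert, mem_singleton] at hx
    rcases hx with rfl | rfl | rfl
    · exact ⟨ha, nad⟩
    · exact ⟨hb, nbd⟩
    · exact ⟨hc, ncd⟩
  intro x hx y hy hxy hx2 hyd
  have hp := pw x hx y hy hxy
  have := hG.trans d hd x (mem x hx).1 y (mem y hy).1 (mem x hx).2.symm hxy (mem y hy).2.symm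
    (by rw [inter_comm]; exact hx2) (by rw [hp]; exact h2) (by rw [inter_comm]; exact hyd)
  rw [hp] at this
  exact ⟨by rw [inter_comm]; exact this.1, by rw [inter_comm]; exact this.2⟩

/-- the spanning tree bound for four lines -/
theorem tree4 {𝒢 : Finset (Finset P)} (hG : Geom 𝒢) {a b c d : Finset P} (ha : a ∈ 𝒢)
    (hb : b ∈ 𝒢) (hc : c ∈ 𝒢) (hd : d ∈ 𝒢) (nab : a ≠ b) (nac : a ≠ c) (nad : a ≠ d)
    (nbc : b ≠ c) (nbd : b ≠ d) (ncd : c ≠ d) (hcard : ∀ L ∈ 𝒢, L.card = 10)
    (hcut : cutsOk (a ∩ b).card (a ∩ c).card (a ∩ d).card (b ∩ c).card (b ∩ d).card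
      (c ∩ d).card = true) : Q a b c d := by
  have h4 : Four a b c d := ⟨hcard a ha, hcard b hb, hcard c hc, hcard d hd,
    hG.two a ha b hb nab, hG.two a ha c hc nac, hG.two a ha d hd nad, hG.two b hb c hc nbc,
    hG.two b hb d hd nbd, hG.two c hc d hd ncd⟩
  have hcut' := hcut
  simp only [cutsOk, Bool.and_eq_true, decide_eq_true_eq] at hcut'
  obtain ⟨⟨⟨⟨⟨⟨c1, c2⟩, c3⟩, c4⟩, -⟩, -⟩, -⟩ := hcut'
  by_cases t1 : okTri (a ∩ b).card (a ∩ c).card (b ∩ c).card = true
  · by_cases t2 : okTri (a ∩ b).card (a ∩ d).card (b ∩ d).card = true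
    · by_cases t3 : okTri (a ∩ c).card (a ∩ d).card (c ∩ d).card = true
      · by_cases t4' : okTri (b ∩ c).card (b ∩ d).card (c ∩ d).card = true
        · exact case1 a b c d h4 hcut t1 t2 t3 t4'
        · -- triangle `b, c, d`
          rw [Bool.not_eq_true] at t4'
          have := bad4 hG hb hc hd ha nbc nbd ncd nab.symm nac.symm nad.symm
            h4.swap12.swap23.swap34 t4' (by
              rw [inter_comm b a, inter_comm c a, inter_comm d a]; exact c1)
          exact Q_swap12 (Q_swap23 (Q_swap34 this))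
      · -- triangle `a, c, d`
        rw [Bool.not_eq_true] at t3
        have := bad4 hG ha hc hd hb nac nad ncd nab nbc.symm nbd.symm
          h4.swap23.swap34 t3 (by
            rw [inter_comm c b, inter_comm d b]; exact c2)
        exact Q_swap23 (Q_swap34 this)
    · -- triangle `a, b, d`
      rw [Bool.not_eq_true] at t2
      have := bad4 hG ha hb hd hc nab nad nbd nac nbc ncd.symm h4.swap34 t2 (by
        rw [inter_comm d c]; exact c3)
      exact Q_swap34 this
  · rw [Bool.not_eq_true] at t1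
    exact bad4 hG ha hb hc hd nab nac nbc nad nbd ncd h4 t1 c4

/-! ### three lines -/

/-- the finite check for three lines -/
def chk3 (ab ac bc : ℕ) : Bool :=
  !(decide (0 < ab + ac) && decide (0 < ab + bc) && decide (0 < ac + bc) && okTri ab ac bc) ||
    decide (2 ^ (ab + ac + bc) ≤ t3 (yN ab) (yN ac) (yN bc))

theorem chk3_all : ∀ ab < 3, ∀ ac < 3, ∀ bc < 3, chk3 ab ac bc = true := by
  decide +kernel

theorem tree3 {𝒢 : Finset (Finset P)} (hG : Geom 𝒢) {a b c : Finset P} (ha : a ∈ 𝒢)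
    (hb : b ∈ 𝒢) (hc : c ∈ 𝒢) (nab : a ≠ b) (nac : a ≠ c) (nbc : b ≠ c)
    (hcard : ∀ L ∈ 𝒢, L.card = 10) (c1 : 0 < (a ∩ b).card + (a ∩ c).card)
    (c2 : 0 < (a ∩ b).card + (b ∩ c).card) (c3 : 0 < (a ∩ c).card + (b ∩ c).card) :
    2 ^ (30 - (a ∪ b ∪ c).card) ≤
      t3 (yN (a ∩ b).card) (yN (a ∩ c).card) (yN (b ∩ c).card) := by
  have h1 := card_union_add_card_inter a b
  have h2 := card_union_add_card_inter (a ∪ b) c
  have := hcard a ha
  have := hcard b hb
  have := hcard c hc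
  by_cases t : okTri (a ∩ b).card (a ∩ c).card (b ∩ c).card = true
  · have hch := chk3_all _ (Nat.lt_succ_of_le (hG.two a ha b hb nab)) _
      (Nat.lt_succ_of_le (hG.two a ha c hc nac)) _ (Nat.lt_succ_of_le (hG.two b hb c hc nbc))
    rw [chk3, t] at hch
    simp only [c1, c2, c3, decide_true, Bool.and_self, Bool.not_true, Bool.false_or,
      decide_eq_true_eq] at hch
    refine le_trans (Nat.pow_le_pow_right (by norm_num) ?_) hch
    have h4 : ((a ∪ b) ∩ c).card ≤ (a ∩ c).card + (b ∩ c).card := by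
      rw [union_inter_distrib_right]
      exact card_union_le _ _
    omega
  · rw [Bool.not_eq_true] at t
    obtain ⟨h, e1, e2⟩ := tri_all hG ha hb hc nab nac nbc t
    have h4 : (a ∪ b) ∩ c = b ∩ c := by
      rw [union_inter_distrib_right, e2, union_self]
    have hbc : (b ∩ c).card = 2 := by rw [← e1, h]
    rw [h4] at h2
    have : 30 - (a ∪ b ∪ c).card = 4 := by omega
    rw [this, e2, h, hbc]
    decide

end ST
end Torus103
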