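import Pool.Agent.Lib.MP_77f3ac_co.StartTri
import Pool.Agent.Lib.MP_77f3ac_co.StartT4

/-!
The potential of the empty board is below `7/4`.
-/

set_option autoImplicit false
set_option maxRecDepth 10000

namespace Torus103
namespace SM
open Finset SB

/-! ### Connected sets of two, three, four lines -/

theorem cut {C S T : Finset (Finset Pt)} (h : Conn univ C) (hS : S ⊆ C) (hne : S.Nonempty)
    (hne' : (C \ S).Nonempty) (hT : C \ S ⊆ T) :
    ∃ p ∈ S, ∃ q ∈ T, 0 < (p ∩ q).card ∧ 0 < (q ∩ p).card := by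
  obtain ⟨p, hp, q, hq, hn⟩ := h.2 S hS hne hne'
  rw [inter_univ] at hn
  exact ⟨p, hp, q, hT hq, hn.card_pos, by rw [inter_comm]; exact hn.card_pos⟩

theorem conn2 {a b : Finset Pt} (nab : a ≠ b) (h : Conn univ {a, b}) : (a ∩ b).Nonempty := by
  obtain ⟨p, hp, q, hq, h1, -⟩ := cut (S := {a}) (T := {b}) h (by simp) (by simp)
    ⟨b, by simp [nab.symm]⟩ (by intro x hx; simp at hx; simp; tauto)
  rw [mem_singleton] at hp hq
  subst hp hq
  exact card_pos.mp h1

theorem conn3 {a b c : Finset Pt} (nab : a ≠ b) (nac : a ≠ c) (nbc : b ≠ c)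
    (h : Conn univ {a, b, c}) : 0 < (a ∩ b).card + (a ∩ c).card ∧
      0 < (a ∩ b).card + (b ∩ c).card ∧ 0 < (a ∩ c).card + (b ∩ c).card := by
  refine ⟨?_, ?_, ?_⟩
  · obtain ⟨p, hp, q, hq, h1, h2⟩ := cut (S := {a}) (T := {b, c}) h (by simp) (by simp)
      ⟨b, by simp [nab.symm]⟩ (by intro x hx; simp at hx; simp; tauto)
    simp only [mem_insert, mem_singleton] at hp hq
    rcases hp with rfl; rcases hq with rfl | rfl <;> omega
  · obtain ⟨p, hp, q, hq, h1, h2⟩ := cut (S := {b}) (T := {a, c}) h (by simp) (by simp)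
      ⟨a, by simp [nab]⟩ (by intro x hx; simp at hx; simp; tauto)
    simp only [mem_insert, mem_singleton] at hp hq
    rcases hp with rfl; rcases hq with rfl | rfl <;> omega
  · obtain ⟨p, hp, q, hq, h1, h2⟩ := cut (S := {c}) (T := {a, b}) h (by simp) (by simp)
      ⟨a, by simp [nac]⟩ (by intro x hx; simp at hx; simp; tauto)
    simp only [mem_insert, mem_singleton] at hp hq
    rcases hp with rfl; rcases hq with rfl | rfl <;> omega

theorem conn4 {a b c d : Finset Pt} (nab : a ≠ b) (nac : a ≠ c) (nad : a ≠ d) (nbc : b ≠ c)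
    (nbd : b ≠ d) (ncd : c ≠ d) (h : Conn univ {a, b, c, d}) :
    ST.cutsOk (a ∩ b).card (a ∩ c).card (a ∩ d).card (b ∩ c).card (b ∩ d).card
      (c ∩ d).card = true := by
  simp only [ST.cutsOk, Bool.and_eq_true, decide_eq_true_eq]
  refine ⟨⟨⟨⟨⟨⟨?_, ?_⟩, ?_⟩, ?_⟩, ?_⟩, ?_⟩, ?_⟩
  · obtain ⟨p, hp, q, hq, h1, h2⟩ := cut (S := {a}) (T := {b, c, d}) h (by simp) (by simp)
      ⟨b, by simp [nab.symm]⟩ (by intro x hx; simp at hx; simp; tauto)
    simp only [mem_insert, mem_singleton] at hp hq
    rcases hp with rfl; rcases hq with rfl | rfl | rfl <;> omega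
  · obtain ⟨p, hp, q, hq, h1, h2⟩ := cut (S := {b}) (T := {a, c, d}) h (by simp) (by simp)
      ⟨a, by simp [nab]⟩ (by intro x hx; simp at hx; simp; tauto)
    simp only [mem_insert, mem_singleton] at hp hq
    rcases hp with rfl; rcases hq with rfl | rfl | rfl <;> omega
  · obtain ⟨p, hp, q, hq, h1, h2⟩ := cut (S := {c}) (T := {a, b, d}) h (by simp) (by simp)
      ⟨a, by simp [nac]⟩ (by intro x hx; simp at hx; simp; tauto)
    simp only [mem_insert, mem_singleton] at hp hq
    rcases hp with rfl; rcases hq with rfl | rfl | rfl <;> omega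
  · obtain ⟨p, hp, q, hq, h1, h2⟩ := cut (S := {d}) (T := {a, b, c}) h (by simp) (by simp)
      ⟨a, by simp [nad]⟩ (by intro x hx; simp at hx; simp; tauto)
    simp only [mem_insert, mem_singleton] at hp hq
    rcases hp with rfl; rcases hq with rfl | rfl | rfl <;> omega
  · obtain ⟨p, hp, q, hq, h1, h2⟩ := cut (S := {a, b}) (T := {c, d}) h
      (by intro x hx; simp at hx; simp; tauto) (by simp)
      ⟨c, by simp [nac.symm, nbc.symm]⟩ (by intro x hx; simp at hx; simp; tauto)
    simp only [mem_insert, mem_singleton] at hp hq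
    rcases hp with rfl | rfl <;> rcases hq with rfl | rfl <;> omega
  · obtain ⟨p, hp, q, hq, h1, h2⟩ := cut (S := {a, c}) (T := {b, d}) h
      (by intro x hx; simp at hx; simp; tauto) (by simp)
      ⟨b, by simp [nab.symm, nbc]⟩ (by intro x hx; simp at hx; simp; tauto)
    simp only [mem_insert, mem_singleton] at hp hq
    rcases hp with rfl | rfl <;> rcases hq with rfl | rfl <;> omega
  · obtain ⟨p, hp, q, hq, h1, h2⟩ := cut (S := {a, d}) (T := {b, c}) h
      (by intro x hx; simp at hx; simp; tauto) (by simp)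
      ⟨b, by simp [nab.symm, nbd]⟩ (by intro x hx; simp at hx; simp; tauto)
    simp only [mem_insert, mem_singleton] at hp hq
    rcases hp with rfl | rfl <;> rcases hq with rfl | rfl <;> omega

/-! ### Unions -/

theorem un1 (a : Finset Pt) : un univ {a} = a := by
  rw [un, inter_univ, singleton_biUnion, id]

theorem un2 (a b : Finset Pt) : un univ {a, b} = a ∪ b := by
  rw [un, inter_univ, biUnion_insert, singleton_biUnion, id, id]

theorem un3 (a b c : Finset Pt) : un univ {a, b, c} = a ∪ b ∪ c := by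
  rw [un, inter_univ, biUnion_insert, biUnion_insert, singleton_biUnion, id, id, id, union_assoc]

theorem un4 (a b c d : Finset Pt) : un univ {a, b, c, d} = a ∪ b ∪ c ∪ d := by
  rw [un, inter_univ, biUnion_insert, biUnion_insert, biUnion_insert, singleton_biUnion, id, id,
    id, id, union_assoc, union_assoc]

theorem yN_yy {a b : Finset Pt} (h : a ≠ b) : ((ST.yN (a ∩ b).card : ℕ) : ℚ) = yy a b := by
  unfold ST.yN
  by_cases hn : (a ∩ b).Nonempty
  · rw [yy_of h hn, if_neg (fun h0 => by rw [card_eq_zero] at h0; exact hn.ne_empty h0)]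
    push_cast
    rfl
  · rw [not_nonempty_iff_eq_empty] at hn
    rw [yy_zero hn, if_pos (by rw [hn]; rfl)]
    rfl

/-- the indicator of `x ∈ a` -/
def gg (x : Pt) (a : Finset Pt) : ℚ := if x ∈ a then 1 else 0

theorem gg_nonneg (x : Pt) (a : Finset Pt) : 0 ≤ gg x a := by
  unfold gg
  split_ifs <;> norm_num

theorem gg_union (x : Pt) (a b : Finset Pt) : gg x (a ∪ b) ≤ gg x a + gg x b := by
  unfold gg
  by_cases h1 : x ∈ a <;> by_cases h2 : x ∈ b <;> simp [h1, h2]

theorem gg_union3 (x : Pt) (a b c : Finset Pt) : gg x (a ∪ b ∪ c) ≤ gg x a + gg x b + gg x c := by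
  have := gg_union x (a ∪ b) c
  have := gg_union x a b
  linarith

theorem gg_union4 (x : Pt) (a b c d : Finset Pt) :
    gg x (a ∪ b ∪ c ∪ d) ≤ gg x a + gg x b + gg x c + gg x d := by
  have := gg_union x (a ∪ b ∪ c) d
  have := gg_union3 x a b c
  linarith

theorem sum_gg (x : Pt) : ∑ a ∈ lines103, gg x a ≤ 13 := sum_ind_le x

/-- the half powers -/
theorem half_pow {n N : ℕ} (h : n ≤ N) : ((1 : ℚ) / 2) ^ n = 2 ^ (N - n) / 2 ^ N := by
  rw [eq_div_iff (by positivity), div_pow, one_pow, one_div, inv_mul_eq_iff_eq_mul₀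
    (by positivity), ← pow_add]
  congr 1
  omega

/-! ### The weights -/

/-- weight of a connected set -/
noncomputable def G0 (C : Finset (Finset Pt)) : ℚ := if Conn univ C then w univ C else 0

/-- weight of a connected set with the mark `x` -/
noncomputable def G1 (x : Pt) (C : Finset (Finset Pt)) : ℚ := G0 C * gg x (un univ C)

theorem G0_nonneg (C : Finset (Finset Pt)) : 0 ≤ G0 C := by
  unfold G0 w
  split_ifs
  · positivity
  · exact le_rfl

theorem G0_two {a b : Finset Pt} (ha : a ∈ lines103) (hb : b ∈ lines103) (nab : a ≠ b) :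
    G0 {a, b} ≤ yy a b / 2 ^ 20 := by
  unfold G0
  split_ifs with h
  · have hn := conn2 nab h
    rw [w, un2, yy_of nab hn]
    have e1 := card_union_add_card_inter a b
    have e2 := card_line ha
    have e3 := card_line hb
    rw [half_pow (N := 20) (by omega)]
    apply le_of_eq
    congr 2
    omega
  · exact div_nonneg (yy_nonneg _ _) (by norm_num)

section
variable (hG : Geom lines103)
include hG

theorem G0_three {a b c : Finset Pt} (ha : a ∈ lines103) (hb : b ∈ lines103)
    (hc : c ∈ lines103) (nab : a ≠ b) (nac : a ≠ c) (nbc : b ≠ c) :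
    G0 {a, b, c} ≤ STr.q3 yy a b c / 2 ^ 30 := by
  have n1 := yy_nonneg a b
  have n2 := yy_nonneg a c
  have n3 := yy_nonneg b c
  unfold G0
  split_ifs with h
  · obtain ⟨c1, c2, c3⟩ := conn3 nab nac nbc h
    have ht := ST.tree3 hG ha hb hc nab nac nbc (fun L hL => card_line hL) c1 c2 c3
    have ht' : ((2 ^ (30 - (a ∪ b ∪ c).card) : ℕ) : ℚ) ≤
      ((ST.t3 (ST.yN (a ∩ b).card) (ST.yN (a ∩ c).card) (ST.yN (b ∩ c).card) : ℕ) : ℚ) := by
      exact_mod_cast ht
    unfold ST.t3 at ht'
    push_cast at ht'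
    rw [yN_yy nab, yN_yy nac, yN_yy nbc] at ht'
    have hle : (a ∪ b ∪ c).card ≤ 30 := by
      have e1 := card_union_le (a ∪ b) c
      have e2 := card_union_le a b
      have e3 := card_line ha
      have e4 := card_line hb
      have e5 := card_line hc
      omega
    rw [w, un3, half_pow hle]
    exact div_le_div_of_nonneg_right ht' (by norm_num)
  · unfold STr.q3
    positivity

theorem G0_four {a b c d : Finset Pt} (ha : a ∈ lines103) (hb : b ∈ lines103)
    (hc : c ∈ lines103) (hd : d ∈ lines103) (nab : a ≠ b) (nac : a ≠ c) (nad : a ≠ d)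
    (nbc : b ≠ c) (nbd : b ≠ d) (ncd : c ≠ d) :
    G0 {a, b, c, d} ≤ STr.q4 yy a b c d / 2 ^ 40 := by
  have n1 := yy_nonneg a b
  have n2 := yy_nonneg a c
  have n3 := yy_nonneg a d
  have n4 := yy_nonneg b c
  have n5 := yy_nonneg b d
  have n6 := yy_nonneg c d
  unfold G0
  split_ifs with h
  · have ht := ST.tree4 hG ha hb hc hd nab nac nad nbc nbd ncd (fun L hL => card_line hL)
      (conn4 nab nac nad nbc nbd ncd h)
    unfold ST.Q at ht
    have ht' : ((2 ^ (40 - (a ∪ b ∪ c ∪ d).card) : ℕ) : ℚ) ≤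
      ((ST.t4 (ST.yN (a ∩ b).card) (ST.yN (a ∩ c).card) (ST.yN (a ∩ d).card)
        (ST.yN (b ∩ c).card) (ST.yN (b ∩ d).card) (ST.yN (c ∩ d).card) : ℕ) : ℚ) := by
      exact_mod_cast ht
    unfold ST.t4 at ht'
    push_cast at ht'
    rw [yN_yy nab, yN_yy nac, yN_yy nad, yN_yy nbc, yN_yy nbd, yN_yy ncd] at ht'
    have hle : (a ∪ b ∪ c ∪ d).card ≤ 40 := by
      have e0 := card_union_le (a ∪ b ∪ c) d
      have e1 := card_union_le (a ∪ b) c
      have e2 := card_union_le a b
      have e3 := card_line ha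
      have e4 := card_line hb
      have e5 := card_line hc
      have e6 := card_line hd
      omega
    rw [w, un4, half_pow hle]
    exact div_le_div_of_nonneg_right ht' (by norm_num)
  · unfold STr.q4
    positivity

end

end SM
end Torus103
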