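import Mathlib

/-!
Sums over `k`-subsets as sums over ordered tuples.
-/

set_option autoImplicit false

namespace Torus103
namespace SSum
open Finset
variable {α : Type*} [DecidableEq α]

/-- double counting of pairs `a ∈ C` -/
theorem dc (k : ℕ) (𝒢 : Finset α) (G : Finset α → ℚ) :
    ((k + 1 : ℕ) : ℚ) * ∑ C ∈ 𝒢.powersetCard (k + 1), G C =
      ∑ a ∈ 𝒢, ∑ C ∈ (𝒢.erase a).powersetCard k, G (insert a C) := by
  have h1 : ((k + 1 : ℕ) : ℚ) * ∑ C ∈ 𝒢.powersetCard (k + 1), G C =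
      ∑ C ∈ 𝒢.powersetCard (k + 1), ∑ a ∈ 𝒢, if a ∈ C then G C else 0 := by
    rw [mul_sum]
    refine sum_congr rfl fun C hC => ?_
    rw [mem_powersetCard] at hC
    rw [← sum_filter, sum_const, nsmul_eq_mul]
    congr 2
    rw [filter_mem_eq_inter, inter_eq_right.mpr hC.1, hC.2]
  rw [h1, sum_comm]
  refine sum_congr rfl fun a ha => ?_
  rw [← sum_filter]
  refine sum_bij' (fun C _ => C.erase a) (fun C _ => insert a C) ?_ ?_ ?_ ?_ ?_
  · intro C hC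
    rw [mem_filter, mem_powersetCard] at hC
    rw [mem_powersetCard]
    exact ⟨erase_subset_erase _ hC.1.1, by rw [card_erase_of_mem hC.2, hC.1.2]; rfl⟩
  · intro C hC
    rw [mem_powersetCard] at hC
    have haC : a ∉ C := fun h => (mem_erase.mp (hC.1 h)).1 rfl
    rw [mem_filter, mem_powersetCard]
    refine ⟨⟨?_, by rw [card_insert_of_notMem haC, hC.2]⟩, mem_insert_self _ _⟩
    exact insert_subset ha (hC.1.trans (erase_subset _ _))
  · intro C hC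
    rw [mem_filter] at hC
    exact insert_erase hC.2
  · intro C hC
    rw [mem_powersetCard] at hC
    have haC : a ∉ C := fun h => (mem_erase.mp (hC.1 h)).1 rfl
    exact erase_insert haC
  · intro C hC
    rw [mem_filter] at hC
    rw [insert_erase hC.2]

theorem sum1 (𝒢 : Finset α) (G : Finset α → ℚ) :
    ∑ C ∈ 𝒢.powersetCard 1, G C = ∑ a ∈ 𝒢, G {a} := by
  have := dc 0 𝒢 G
  simpa using this

theorem sum2 (𝒢 : Finset α) (G : Finset α → ℚ) :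
    2 * ∑ C ∈ 𝒢.powersetCard 2, G C = ∑ a ∈ 𝒢, ∑ b ∈ 𝒢.erase a, G {a, b} := by
  have := dc 1 𝒢 G
  push_cast at this
  rw [this]
  refine sum_congr rfl fun a _ => ?_
  rw [sum1]

theorem sum3 (𝒢 : Finset α) (G : Finset α → ℚ) :
    6 * ∑ C ∈ 𝒢.powersetCard 3, G C =
      ∑ a ∈ 𝒢, ∑ b ∈ 𝒢.erase a, ∑ c ∈ (𝒢.erase a).erase b, G {a, b, c} := by
  have h := dc 2 𝒢 G
  norm_num at h
  have : 6 * ∑ C ∈ 𝒢.powersetCard 3, G C = 2 * (3 * ∑ C ∈ 𝒢.powersetCard 3, G C) := by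
    ring
  rw [this, h, mul_sum]
  refine sum_congr rfl fun a _ => ?_
  rw [sum2 (𝒢.erase a) fun C => G (insert a C)]

theorem sum4 (𝒢 : Finset α) (G : Finset α → ℚ) :
    24 * ∑ C ∈ 𝒢.powersetCard 4, G C =
      ∑ a ∈ 𝒢, ∑ b ∈ 𝒢.erase a, ∑ c ∈ (𝒢.erase a).erase b,
        ∑ d ∈ ((𝒢.erase a).erase b).erase c, G {a, b, c, d} := by
  have h := dc 3 𝒢 G
  norm_num at h
  have : 24 * ∑ C ∈ 𝒢.powersetCard 4, G C = 6 * (4 * ∑ C ∈ 𝒢.powersetCard 4, G C) := by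
    ring
  rw [this, h, mul_sum]
  refine sum_congr rfl fun a _ => ?_
  rw [sum3 (𝒢.erase a) fun C => G (insert a C)]

/-- `≤` version for two -/
theorem le2 (𝒢 : Finset α) (G : Finset α → ℚ) (F : α → α → ℚ)
    (hF : ∀ a b, 0 ≤ F a b)
    (h : ∀ a ∈ 𝒢, ∀ b ∈ 𝒢, a ≠ b → G {a, b} ≤ F a b) :
    2 * ∑ C ∈ 𝒢.powersetCard 2, G C ≤ ∑ a ∈ 𝒢, ∑ b ∈ 𝒢, F a b := by
  rw [sum2]
  refine sum_le_sum fun a ha => ?_
  calc ∑ b ∈ 𝒢.erase a, G {a, b} ≤ ∑ b ∈ 𝒢.erase a, F a b := by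
        refine sum_le_sum fun b hb => ?_
        rw [mem_erase] at hb
        exact h a ha b hb.2 hb.1.symm
    _ ≤ ∑ b ∈ 𝒢, F a b := sum_le_sum_of_subset_of_nonneg (erase_subset _ _) fun b _ _ => hF a b

theorem le3 (𝒢 : Finset α) (G : Finset α → ℚ) (F : α → α → α → ℚ)
    (hF : ∀ a b c, 0 ≤ F a b c)
    (h : ∀ a ∈ 𝒢, ∀ b ∈ 𝒢, ∀ c ∈ 𝒢, a ≠ b → a ≠ c → b ≠ c → G {a, b, c} ≤ F a b c) :
    6 * ∑ C ∈ 𝒢.powersetCard 3, G C ≤ ∑ a ∈ 𝒢, ∑ b ∈ 𝒢, ∑ c ∈ 𝒢, F a b c := by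
  rw [sum3]
  refine sum_le_sum fun a ha => ?_
  calc ∑ b ∈ 𝒢.erase a, ∑ c ∈ (𝒢.erase a).erase b, G {a, b, c}
      ≤ ∑ b ∈ 𝒢.erase a, ∑ c ∈ 𝒢, F a b c := by
        refine sum_le_sum fun b hb => ?_
        rw [mem_erase] at hb
        calc ∑ c ∈ (𝒢.erase a).erase b, G {a, b, c}
            ≤ ∑ c ∈ (𝒢.erase a).erase b, F a b c := by
              refine sum_le_sum fun c hc => ?_
              rw [mem_erase, mem_erase] at hc
              exact h a ha b hb.2 c hc.2.2 hb.1.symm hc.2.1.symm hc.1.symm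
          _ ≤ ∑ c ∈ 𝒢, F a b c :=
              sum_le_sum_of_subset_of_nonneg ((erase_subset _ _).trans (erase_subset _ _))
                fun c _ _ => hF a b c
    _ ≤ ∑ b ∈ 𝒢, ∑ c ∈ 𝒢, F a b c :=
        sum_le_sum_of_subset_of_nonneg (erase_subset _ _) fun b _ _ =>
          sum_nonneg fun c _ => hF a b c

theorem le4 (𝒢 : Finset α) (G : Finset α → ℚ) (F : α → α → α → α → ℚ)
    (hF : ∀ a b c d, 0 ≤ F a b c d)
    (h : ∀ a ∈ 𝒢, ∀ b ∈ 𝒢, ∀ c ∈ 𝒢, ∀ d ∈ 𝒢, a ≠ b → a ≠ c → a ≠ d → b ≠ c → b ≠ d → c ≠ d →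
      G {a, b, c, d} ≤ F a b c d) :
    24 * ∑ C ∈ 𝒢.powersetCard 4, G C ≤ ∑ a ∈ 𝒢, ∑ b ∈ 𝒢, ∑ c ∈ 𝒢, ∑ d ∈ 𝒢, F a b c d := by
  rw [sum4]
  refine sum_le_sum fun a ha => ?_
  calc ∑ b ∈ 𝒢.erase a, ∑ c ∈ (𝒢.erase a).erase b,
        ∑ d ∈ ((𝒢.erase a).erase b).erase c, G {a, b, c, d}
      ≤ ∑ b ∈ 𝒢.erase a, ∑ c ∈ 𝒢, ∑ d ∈ 𝒢, F a b c d := by
        refine sum_le_sum fun b hb => ?_
        rw [mem_erase] at hb
        calc ∑ c ∈ (𝒢.erase a).erase b, ∑ d ∈ ((𝒢.erase a).erase b).erase c, G {a, b, c, d}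
            ≤ ∑ c ∈ (𝒢.erase a).erase b, ∑ d ∈ 𝒢, F a b c d := by
              refine sum_le_sum fun c hc => ?_
              rw [mem_erase, mem_erase] at hc
              calc ∑ d ∈ ((𝒢.erase a).erase b).erase c, G {a, b, c, d}
                  ≤ ∑ d ∈ ((𝒢.erase a).erase b).erase c, F a b c d := by
                    refine sum_le_sum fun d hd => ?_
                    rw [mem_erase, mem_erase, mem_erase] at hd
                    exact h a ha b hb.2 c hc.2.2 d hd.2.2.2 hb.1.symm hc.2.1.symm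
                      hd.2.2.1.symm hc.1.symm hd.2.1.symm hd.1.symm
                _ ≤ ∑ d ∈ 𝒢, F a b c d :=
                    sum_le_sum_of_subset_of_nonneg
                      (((erase_subset _ _).trans (erase_subset _ _)).trans (erase_subset _ _))
                      fun d _ _ => hF a b c d
          _ ≤ ∑ c ∈ 𝒢, ∑ d ∈ 𝒢, F a b c d :=
              sum_le_sum_of_subset_of_nonneg ((erase_subset _ _).trans (erase_subset _ _))
                fun c _ _ => sum_nonneg fun d _ => hF a b c d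
    _ ≤ ∑ b ∈ 𝒢, ∑ c ∈ 𝒢, ∑ d ∈ 𝒢, F a b c d :=
        sum_le_sum_of_subset_of_nonneg (erase_subset _ _) fun b _ _ =>
          sum_nonneg fun c _ => sum_nonneg fun d _ => hF a b c d

end SSum
end Torus103
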