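import Mathlib

/-!
Sums over all labelled trees on 3 and 4 vertices of products of a nonnegative kernel with row
sums at most `R`.
-/

set_option autoImplicit false

namespace Torus103
namespace STr
open Finset

section
variable {α : Type*} (𝒢 : Finset α)

theorem comm2 (F : α → α → ℚ) : ∑ b ∈ 𝒢, ∑ c ∈ 𝒢, F b c = ∑ c ∈ 𝒢, ∑ b ∈ 𝒢, F b c := sum_comm

/-- order `(b, d, c)` -/
theorem o_bdc (F : α → α → α → ℚ) :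
    ∑ b ∈ 𝒢, ∑ c ∈ 𝒢, ∑ d ∈ 𝒢, F b c d = ∑ b ∈ 𝒢, ∑ d ∈ 𝒢, ∑ c ∈ 𝒢, F b c d :=
  sum_congr rfl fun _ _ => sum_comm

/-- order `(c, b, d)` -/
theorem o_cbd (F : α → α → α → ℚ) :
    ∑ b ∈ 𝒢, ∑ c ∈ 𝒢, ∑ d ∈ 𝒢, F b c d = ∑ c ∈ 𝒢, ∑ b ∈ 𝒢, ∑ d ∈ 𝒢, F b c d := sum_comm

/-- order `(c, d, b)` -/
theorem o_cdb (F : α → α → α → ℚ) :
    ∑ b ∈ 𝒢, ∑ c ∈ 𝒢, ∑ d ∈ 𝒢, F b c d = ∑ c ∈ 𝒢, ∑ d ∈ 𝒢, ∑ b ∈ 𝒢, F b c d := by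
  rw [o_cbd]
  exact sum_congr rfl fun _ _ => sum_comm

/-- order `(d, b, c)` -/
theorem o_dbc (F : α → α → α → ℚ) :
    ∑ b ∈ 𝒢, ∑ c ∈ 𝒢, ∑ d ∈ 𝒢, F b c d = ∑ d ∈ 𝒢, ∑ b ∈ 𝒢, ∑ c ∈ 𝒢, F b c d := by
  rw [o_bdc]
  exact sum_comm

/-- order `(d, c, b)` -/
theorem o_dcb (F : α → α → α → ℚ) :
    ∑ b ∈ 𝒢, ∑ c ∈ 𝒢, ∑ d ∈ 𝒢, F b c d = ∑ d ∈ 𝒢, ∑ c ∈ 𝒢, ∑ b ∈ 𝒢, F b c d := by
  rw [o_dbc]
  exact sum_congr rfl fun _ _ => sum_comm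

variable {𝒢}

theorem elim2 (R : ℚ) (hR : 0 ≤ R) (f : α → ℚ) (g : α → α → ℚ)
    (hf : ∀ b ∈ 𝒢, 0 ≤ f b) (h1 : ∑ b ∈ 𝒢, f b ≤ R)
    (h2 : ∀ b ∈ 𝒢, ∑ c ∈ 𝒢, g b c ≤ R) :
    ∑ b ∈ 𝒢, ∑ c ∈ 𝒢, f b * g b c ≤ R ^ 2 := by
  calc ∑ b ∈ 𝒢, ∑ c ∈ 𝒢, f b * g b c = ∑ b ∈ 𝒢, f b * ∑ c ∈ 𝒢, g b c :=
        sum_congr rfl fun b _ => (mul_sum _ _ _).symm
    _ ≤ ∑ b ∈ 𝒢, f b * R := sum_le_sum fun b hb => mul_le_mul_of_nonneg_left (h2 b hb) (hf b hb)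
    _ = (∑ b ∈ 𝒢, f b) * R := (sum_mul _ _ _).symm
    _ ≤ R * R := mul_le_mul_of_nonneg_right h1 hR
    _ = R ^ 2 := (sq R).symm

theorem elim3 (R : ℚ) (hR : 0 ≤ R) (f : α → ℚ) (g : α → α → ℚ) (h : α → α → α → ℚ)
    (hf : ∀ b ∈ 𝒢, 0 ≤ f b) (hg : ∀ b ∈ 𝒢, ∀ c ∈ 𝒢, 0 ≤ g b c)
    (h1 : ∑ b ∈ 𝒢, f b ≤ R)
    (h2 : ∀ b ∈ 𝒢, ∑ c ∈ 𝒢, g b c ≤ R)
    (h3 : ∀ b ∈ 𝒢, ∀ c ∈ 𝒢, ∑ d ∈ 𝒢, h b c d ≤ R) :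
    ∑ b ∈ 𝒢, ∑ c ∈ 𝒢, ∑ d ∈ 𝒢, f b * g b c * h b c d ≤ R ^ 3 := by
  calc ∑ b ∈ 𝒢, ∑ c ∈ 𝒢, ∑ d ∈ 𝒢, f b * g b c * h b c d
      = ∑ b ∈ 𝒢, ∑ c ∈ 𝒢, f b * g b c * ∑ d ∈ 𝒢, h b c d :=
        sum_congr rfl fun b _ => sum_congr rfl fun c _ => (mul_sum _ _ _).symm
    _ ≤ ∑ b ∈ 𝒢, ∑ c ∈ 𝒢, f b * g b c * R :=
        sum_le_sum fun b hb => sum_le_sum fun c hc =>
          mul_le_mul_of_nonneg_left (h3 b hb c hc) (mul_nonneg (hf b hb) (hg b hb c hc))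
    _ = (∑ b ∈ 𝒢, ∑ c ∈ 𝒢, f b * g b c) * R := by
        rw [sum_mul]
        exact sum_congr rfl fun b _ => (sum_mul _ _ _).symm
    _ ≤ R ^ 2 * R := mul_le_mul_of_nonneg_right (elim2 R hR f g hf h1 h2) hR
    _ = R ^ 3 := by ring

end

section
variable {α : Type*} {𝒢 : Finset α} (Y : α → α → ℚ)

/-- spanning trees of a triangle -/
def q3 (a b c : α) : ℚ := Y a b * Y a c + Y a b * Y b c + Y a c * Y b c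

/-- spanning trees of `K₄` -/
def q4 (a b c d : α) : ℚ :=
  Y a b * Y a c * Y a d + Y a b * Y a c * Y b d + Y a b * Y a c * Y c d + Y a b * Y a d * Y b c +
  Y a b * Y a d * Y c d + Y a b * Y b c * Y b d + Y a b * Y b c * Y c d + Y a b * Y b d * Y c d +
  Y a c * Y a d * Y b c + Y a c * Y a d * Y b d + Y a c * Y b c * Y b d + Y a c * Y b c * Y c d +
  Y a c * Y b d * Y c d + Y a d * Y b c * Y b d + Y a d * Y b c * Y c d + Y a d * Y b d * Y c d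

variable {Y} (hs : ∀ a b, Y a b = Y b a) (h0 : ∀ a b, 0 ≤ Y a b) {R : ℚ} (hR : 0 ≤ R)
  (hrow : ∀ a ∈ 𝒢, ∑ b ∈ 𝒢, Y a b ≤ R)
include hs h0 hR hrow

theorem q3_row {a : α} (ha : a ∈ 𝒢) : ∑ b ∈ 𝒢, ∑ c ∈ 𝒢, q3 Y a b c ≤ 3 * R ^ 2 := by
  have hrow' : ∀ a ∈ 𝒢, ∑ b ∈ 𝒢, Y b a ≤ R := fun a ha => by
    simpa only [hs _ a] using hrow a ha
  have e1 : ∑ b ∈ 𝒢, ∑ c ∈ 𝒢, Y a b * Y a c ≤ R ^ 2 :=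
    elim2 R hR _ (fun b c => Y a c) (fun b _ => h0 a b) (hrow a ha) (fun b _ => hrow a ha)
  have e2 : ∑ b ∈ 𝒢, ∑ c ∈ 𝒢, Y a b * Y b c ≤ R ^ 2 :=
    elim2 R hR _ _ (fun b _ => h0 a b) (hrow a ha) (fun b hb => hrow b hb)
  have e3 : ∑ b ∈ 𝒢, ∑ c ∈ 𝒢, Y a c * Y b c ≤ R ^ 2 := by
    rw [comm2]
    exact elim2 R hR _ _ (fun b _ => h0 a b) (hrow a ha) (fun b hb => hrow' b hb)
  simp only [q3, sum_add_distrib]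
  linarith

theorem q4_row {a : α} (ha : a ∈ 𝒢) :
    ∑ b ∈ 𝒢, ∑ c ∈ 𝒢, ∑ d ∈ 𝒢, q4 Y a b c d ≤ 16 * R ^ 3 := by
  have hrow' : ∀ a ∈ 𝒢, ∑ b ∈ 𝒢, Y b a ≤ R := fun a ha => by
    simpa only [hs _ a] using hrow a ha
  have A : ∑ b ∈ 𝒢, Y a b ≤ R := hrow a ha
  have z := fun b (_ : b ∈ 𝒢) => h0 a b
  have e1 : ∑ b ∈ 𝒢, ∑ c ∈ 𝒢, ∑ d ∈ 𝒢, Y a b * Y a c * Y a d ≤ R ^ 3 :=
    elim3 R hR _ (fun _ c => Y a c) (fun _ _ d => Y a d) z (fun _ _ c hc => z c hc) A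
      (fun _ _ => A) (fun _ _ _ _ => A)
  have e2 : ∑ b ∈ 𝒢, ∑ c ∈ 𝒢, ∑ d ∈ 𝒢, Y a b * Y a c * Y b d ≤ R ^ 3 :=
    elim3 R hR _ (fun _ c => Y a c) (fun b _ d => Y b d) z (fun _ _ c hc => z c hc) A
      (fun _ _ => A) (fun b hb _ _ => hrow b hb)
  have e3 : ∑ b ∈ 𝒢, ∑ c ∈ 𝒢, ∑ d ∈ 𝒢, Y a b * Y a c * Y c d ≤ R ^ 3 :=
    elim3 R hR _ (fun _ c => Y a c) (fun _ c d => Y c d) z (fun _ _ c hc => z c hc) A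
      (fun _ _ => A) (fun _ _ c hc => hrow c hc)
  have e4 : ∑ b ∈ 𝒢, ∑ c ∈ 𝒢, ∑ d ∈ 𝒢, Y a b * Y a d * Y b c ≤ R ^ 3 := by
    have := elim3 R hR (fun b => Y a b) (fun b c => Y b c) (fun _ _ d => Y a d) z
      (fun b _ c _ => h0 b c) A hrow (fun _ _ _ _ => A)
    refine le_trans (le_of_eq ?_) this
    refine sum_congr rfl fun b _ => sum_congr rfl fun c _ => sum_congr rfl fun d _ => ?_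
    ring
  have e5 : ∑ b ∈ 𝒢, ∑ c ∈ 𝒢, ∑ d ∈ 𝒢, Y a b * Y a d * Y c d ≤ R ^ 3 := by
    rw [o_bdc]
    exact elim3 R hR (fun b => Y a b) (fun _ d => Y a d) (fun _ d c => Y c d) z
      (fun _ _ c hc => z c hc) A (fun _ _ => A) (fun _ _ d hd => hrow' d hd)
  have e6 : ∑ b ∈ 𝒢, ∑ c ∈ 𝒢, ∑ d ∈ 𝒢, Y a b * Y b c * Y b d ≤ R ^ 3 :=
    elim3 R hR (fun b => Y a b) (fun b c => Y b c) (fun b _ d => Y b d) z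
      (fun b _ c _ => h0 b c) A hrow (fun b hb _ _ => hrow b hb)
  have e7 : ∑ b ∈ 𝒢, ∑ c ∈ 𝒢, ∑ d ∈ 𝒢, Y a b * Y b c * Y c d ≤ R ^ 3 :=
    elim3 R hR (fun b => Y a b) (fun b c => Y b c) (fun _ c d => Y c d) z
      (fun b _ c _ => h0 b c) A hrow (fun _ _ c hc => hrow c hc)
  have e8 : ∑ b ∈ 𝒢, ∑ c ∈ 𝒢, ∑ d ∈ 𝒢, Y a b * Y b d * Y c d ≤ R ^ 3 := by
    rw [o_bdc]
    exact elim3 R hR (fun b => Y a b) (fun b d => Y b d) (fun _ d c => Y c d) z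
      (fun b _ c _ => h0 b c) A hrow (fun _ _ d hd => hrow' d hd)
  have e9 : ∑ b ∈ 𝒢, ∑ c ∈ 𝒢, ∑ d ∈ 𝒢, Y a c * Y a d * Y b c ≤ R ^ 3 := by
    rw [o_cbd]
    have := elim3 R hR (fun c => Y a c) (fun c b => Y b c) (fun _ _ d => Y a d) z
      (fun c _ b _ => h0 b c) A hrow' (fun _ _ _ _ => A)
    refine le_trans (le_of_eq ?_) this
    refine sum_congr rfl fun c _ => sum_congr rfl fun b _ => sum_congr rfl fun d _ => ?_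
    ring
  have e10 : ∑ b ∈ 𝒢, ∑ c ∈ 𝒢, ∑ d ∈ 𝒢, Y a c * Y a d * Y b d ≤ R ^ 3 := by
    rw [o_dbc]
    have := elim3 R hR (fun d => Y a d) (fun d b => Y b d) (fun _ _ c => Y a c) z
      (fun d _ b _ => h0 b d) A hrow' (fun _ _ _ _ => A)
    refine le_trans (le_of_eq ?_) this
    refine sum_congr rfl fun d _ => sum_congr rfl fun b _ => sum_congr rfl fun c _ => ?_
    ring
  have e11 : ∑ b ∈ 𝒢, ∑ c ∈ 𝒢, ∑ d ∈ 𝒢, Y a c * Y b c * Y b d ≤ R ^ 3 := by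
    rw [o_cbd]
    exact elim3 R hR (fun c => Y a c) (fun c b => Y b c) (fun _ b d => Y b d) z
      (fun c _ b _ => h0 b c) A hrow' (fun _ _ b hb => hrow b hb)
  have e12 : ∑ b ∈ 𝒢, ∑ c ∈ 𝒢, ∑ d ∈ 𝒢, Y a c * Y b c * Y c d ≤ R ^ 3 := by
    rw [o_cbd]
    exact elim3 R hR (fun c => Y a c) (fun c b => Y b c) (fun c _ d => Y c d) z
      (fun c _ b _ => h0 b c) A hrow' (fun c hc _ _ => hrow c hc)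
  have e13 : ∑ b ∈ 𝒢, ∑ c ∈ 𝒢, ∑ d ∈ 𝒢, Y a c * Y b d * Y c d ≤ R ^ 3 := by
    rw [o_cdb]
    have := elim3 R hR (fun c => Y a c) (fun c d => Y c d) (fun _ d b => Y b d) z
      (fun c _ d _ => h0 c d) A hrow (fun _ _ d hd => hrow' d hd)
    refine le_trans (le_of_eq ?_) this
    refine sum_congr rfl fun c _ => sum_congr rfl fun d _ => sum_congr rfl fun b _ => ?_
    ring
  have e14 : ∑ b ∈ 𝒢, ∑ c ∈ 𝒢, ∑ d ∈ 𝒢, Y a d * Y b c * Y b d ≤ R ^ 3 := by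
    rw [o_dbc]
    have := elim3 R hR (fun d => Y a d) (fun d b => Y b d) (fun _ b c => Y b c) z
      (fun d _ b _ => h0 b d) A hrow' (fun _ _ b hb => hrow b hb)
    refine le_trans (le_of_eq ?_) this
    refine sum_congr rfl fun d _ => sum_congr rfl fun b _ => sum_congr rfl fun c _ => ?_
    ring
  have e15 : ∑ b ∈ 𝒢, ∑ c ∈ 𝒢, ∑ d ∈ 𝒢, Y a d * Y b c * Y c d ≤ R ^ 3 := by
    rw [o_dcb]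
    have := elim3 R hR (fun d => Y a d) (fun d c => Y c d) (fun _ c b => Y b c) z
      (fun d _ c _ => h0 c d) A hrow' (fun _ _ c hc => hrow' c hc)
    refine le_trans (le_of_eq ?_) this
    refine sum_congr rfl fun d _ => sum_congr rfl fun c _ => sum_congr rfl fun b _ => ?_
    ring
  have e16 : ∑ b ∈ 𝒢, ∑ c ∈ 𝒢, ∑ d ∈ 𝒢, Y a d * Y b d * Y c d ≤ R ^ 3 := by
    rw [o_dbc]
    exact elim3 R hR (fun d => Y a d) (fun d b => Y b d) (fun d _ c => Y c d) z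
      (fun d _ b _ => h0 b d) A hrow' (fun d hd _ _ => hrow' d hd)
  simp only [q4, sum_add_distrib]
  linarith

omit hs h0 hR hrow in
theorem q3_12 (hs : ∀ a b, Y a b = Y b a) (a b c : α) : q3 Y a b c = q3 Y b a c := by
  simp only [q3, hs b a]; ring

omit hs h0 hR hrow in
theorem q3_13 (hs : ∀ a b, Y a b = Y b a) (a b c : α) : q3 Y a b c = q3 Y c b a := by
  simp only [q3, hs c b, hs c a, hs b a]; ring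

omit hs h0 hR hrow in
theorem q4_12 (hs : ∀ a b, Y a b = Y b a) (a b c d : α) : q4 Y a b c d = q4 Y b a c d := by
  simp only [q4, hs b a]; ring

omit hs h0 hR hrow in
theorem q4_13 (hs : ∀ a b, Y a b = Y b a) (a b c d : α) : q4 Y a b c d = q4 Y c b a d := by
  simp only [q4, hs c b, hs c a, hs b a]; ring

omit hs h0 hR hrow in
theorem q4_14 (hs : ∀ a b, Y a b = Y b a) (a b c d : α) : q4 Y a b c d = q4 Y d b c a := by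
  simp only [q4, hs d b, hs d c, hs d a, hs b a, hs c a]; ring

/-- three vertices with marks -/
theorem q3_marked (g : α → ℚ) (hg : ∀ a ∈ 𝒢, 0 ≤ g a) (S : ℚ) (hS : ∑ a ∈ 𝒢, g a ≤ S) :
    ∑ a ∈ 𝒢, ∑ b ∈ 𝒢, ∑ c ∈ 𝒢, q3 Y a b c * (g a + g b + g c) ≤ 3 * (3 * R ^ 2 * S) := by
  have ma : ∑ a ∈ 𝒢, ∑ b ∈ 𝒢, ∑ c ∈ 𝒢, q3 Y a b c * g a ≤ 3 * R ^ 2 * S := by
    calc ∑ a ∈ 𝒢, ∑ b ∈ 𝒢, ∑ c ∈ 𝒢, q3 Y a b c * g a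
        = ∑ a ∈ 𝒢, (∑ b ∈ 𝒢, ∑ c ∈ 𝒢, q3 Y a b c) * g a := by
          refine sum_congr rfl fun a _ => ?_
          rw [sum_mul]
          exact sum_congr rfl fun b _ => (sum_mul _ _ _).symm
      _ ≤ ∑ a ∈ 𝒢, (3 * R ^ 2) * g a := sum_le_sum fun a ha =>
          mul_le_mul_of_nonneg_right (q3_row hs h0 hR hrow ha) (hg a ha)
      _ = (3 * R ^ 2) * ∑ a ∈ 𝒢, g a := (mul_sum _ _ _).symm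
      _ ≤ 3 * R ^ 2 * S := mul_le_mul_of_nonneg_left hS (by positivity)
  have mb : ∑ a ∈ 𝒢, ∑ b ∈ 𝒢, ∑ c ∈ 𝒢, q3 Y a b c * g b =
      ∑ a ∈ 𝒢, ∑ b ∈ 𝒢, ∑ c ∈ 𝒢, q3 Y a b c * g a := by
    rw [o_cbd]
    refine sum_congr rfl fun b _ => sum_congr rfl fun a _ => sum_congr rfl fun c _ => ?_
    rw [q3_12 hs]
  have mc : ∑ a ∈ 𝒢, ∑ b ∈ 𝒢, ∑ c ∈ 𝒢, q3 Y a b c * g c =
      ∑ a ∈ 𝒢, ∑ b ∈ 𝒢, ∑ c ∈ 𝒢, q3 Y a b c * g a := by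
    rw [o_dcb]
    refine sum_congr rfl fun c _ => sum_congr rfl fun b _ => sum_congr rfl fun a _ => ?_
    rw [q3_13 hs]
  simp only [mul_add, sum_add_distrib]
  rw [mb, mc]
  linarith

/-- four vertices with marks -/
theorem q4_marked (g : α → ℚ) (hg : ∀ a ∈ 𝒢, 0 ≤ g a) (S : ℚ) (hS : ∑ a ∈ 𝒢, g a ≤ S) :
    ∑ a ∈ 𝒢, ∑ b ∈ 𝒢, ∑ c ∈ 𝒢, ∑ d ∈ 𝒢, q4 Y a b c d * (g a + g b + g c + g d) ≤
      4 * (16 * R ^ 3 * S) := by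
  have ma : ∑ a ∈ 𝒢, ∑ b ∈ 𝒢, ∑ c ∈ 𝒢, ∑ d ∈ 𝒢, q4 Y a b c d * g a ≤ 16 * R ^ 3 * S := by
    calc ∑ a ∈ 𝒢, ∑ b ∈ 𝒢, ∑ c ∈ 𝒢, ∑ d ∈ 𝒢, q4 Y a b c d * g a
        = ∑ a ∈ 𝒢, (∑ b ∈ 𝒢, ∑ c ∈ 𝒢, ∑ d ∈ 𝒢, q4 Y a b c d) * g a := by
          refine sum_congr rfl fun a _ => ?_
          rw [sum_mul]
          refine sum_congr rfl fun b _ => ?_
          rw [sum_mul]
          exact sum_congr rfl fun c _ => (sum_mul _ _ _).symm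
      _ ≤ ∑ a ∈ 𝒢, (16 * R ^ 3) * g a := sum_le_sum fun a ha =>
          mul_le_mul_of_nonneg_right (q4_row hs h0 hR hrow ha) (hg a ha)
      _ = (16 * R ^ 3) * ∑ a ∈ 𝒢, g a := (mul_sum _ _ _).symm
      _ ≤ 16 * R ^ 3 * S := mul_le_mul_of_nonneg_left hS (by positivity)
  have mb : ∑ a ∈ 𝒢, ∑ b ∈ 𝒢, ∑ c ∈ 𝒢, ∑ d ∈ 𝒢, q4 Y a b c d * g b =
      ∑ a ∈ 𝒢, ∑ b ∈ 𝒢, ∑ c ∈ 𝒢, ∑ d ∈ 𝒢, q4 Y a b c d * g a := by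
    rw [sum_comm]
    refine sum_congr rfl fun b _ => sum_congr rfl fun a _ => sum_congr rfl fun c _ =>
      sum_congr rfl fun d _ => ?_
    rw [q4_12 hs]
  have mc : ∑ a ∈ 𝒢, ∑ b ∈ 𝒢, ∑ c ∈ 𝒢, ∑ d ∈ 𝒢, q4 Y a b c d * g c =
      ∑ a ∈ 𝒢, ∑ b ∈ 𝒢, ∑ c ∈ 𝒢, ∑ d ∈ 𝒢, q4 Y a b c d * g a := by
    rw [o_dcb]
    refine sum_congr rfl fun c _ => sum_congr rfl fun b _ => sum_congr rfl fun a _ =>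
      sum_congr rfl fun d _ => ?_
    rw [q4_13 hs]
  have md : ∑ a ∈ 𝒢, ∑ b ∈ 𝒢, ∑ c ∈ 𝒢, ∑ d ∈ 𝒢, q4 Y a b c d * g d =
      ∑ a ∈ 𝒢, ∑ b ∈ 𝒢, ∑ c ∈ 𝒢, ∑ d ∈ 𝒢, q4 Y a b c d * g a := by
    have e : ∀ F : α → α → α → α → ℚ, ∑ a ∈ 𝒢, ∑ b ∈ 𝒢, ∑ c ∈ 𝒢, ∑ d ∈ 𝒢, F a b c d =
        ∑ d ∈ 𝒢, ∑ b ∈ 𝒢, ∑ c ∈ 𝒢, ∑ a ∈ 𝒢, F a b c d := by
      intro F
      calc ∑ a ∈ 𝒢, ∑ b ∈ 𝒢, ∑ c ∈ 𝒢, ∑ d ∈ 𝒢, F a b c d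
          = ∑ a ∈ 𝒢, ∑ d ∈ 𝒢, ∑ b ∈ 𝒢, ∑ c ∈ 𝒢, F a b c d :=
            sum_congr rfl fun a _ => o_dbc 𝒢 (F a)
        _ = ∑ d ∈ 𝒢, ∑ a ∈ 𝒢, ∑ b ∈ 𝒢, ∑ c ∈ 𝒢, F a b c d := sum_comm
        _ = ∑ d ∈ 𝒢, ∑ b ∈ 𝒢, ∑ c ∈ 𝒢, ∑ a ∈ 𝒢, F a b c d :=
            sum_congr rfl fun d _ => o_cdb 𝒢 fun a b c => F a b c d
    rw [e]
    refine sum_congr rfl fun d _ => sum_congr rfl fun b _ => sum_congr rfl fun c _ =>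
      sum_congr rfl fun a _ => ?_
    rw [q4_14 hs]
  simp only [mul_add, sum_add_distrib]
  rw [mb, mc, md]
  linarith

end

end STr
end Torus103
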