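import Pool.Agent.Lib.MP_77f3ac_co.StartKap
import Pool.Agent.Lib.MP_77f3ac_co.StartSum
import Pool.Agent.Lib.MP_77f3ac_co.StartTree

/-!
The exact sum over the connected triples of lines.
-/

set_option autoImplicit false
set_option maxRecDepth 10000

namespace Torus103
namespace SB
open Finset

/-- path weight with centre `j` -/
noncomputable def cc (j i k : Finset Pt) : ℚ := yy i j * yy j k * kap i j k

theorem cc_nonneg (j i k : Finset Pt) : 0 ≤ cc j i k :=
  mul_nonneg (mul_nonneg (yy_nonneg _ _) (yy_nonneg _ _)) (kap_nonneg _ _ _)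

theorem sum_image_le' {α β : Type*} [DecidableEq β] (s : Finset α) (g : α → β) (f : β → ℚ)
    (hf : ∀ b, 0 ≤ f b) : ∑ b ∈ s.image g, f b ≤ ∑ a ∈ s, f (g a) := by
  rw [← sum_fiberwise_of_maps_to (s := s) (t := s.image g) (g := g)
    (fun a ha => mem_image_of_mem g ha) (fun a => f (g a))]
  refine sum_le_sum fun b hb => ?_
  obtain ⟨a, ha, rfl⟩ := mem_image.mp hb
  exact single_le_sum (f := fun a => f (g a)) (fun i _ => hf _) (mem_filter.mpr ⟨ha, rfl⟩)

theorem sum_through (f : Finset Pt → ℚ) (hf : ∀ L, 0 ≤ f L) (x : Pt) :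
    ∑ L ∈ lines103.filter (fun L => x ∈ L), f L ≤ ∑ u ∈ D13.toFinset, f (line x (toPt u)) := by
  have : (lines103.filter fun L => x ∈ L) ⊆ (D13.toFinset.image fun u => line x (toPt u)) := by
    intro L hL
    rw [mem_filter] at hL
    obtain ⟨u, hu, rfl⟩ := lines_through hL.1 hL.2
    exact mem_image_of_mem _ (List.mem_toFinset.mpr hu)
  exact le_trans (sum_le_sum_of_subset_of_nonneg this fun i _ _ => hf i)
    (sum_image_le' _ _ _ hf)

theorem sum_line (f : Pt → ℚ) (hf : ∀ x, 0 ≤ f x) (p v : Pt) :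
    ∑ q ∈ line p v, f q ≤ ∑ d ∈ range 10, f (p + (d : ZMod 10) • v) :=
  sum_image_le' _ _ _ hf

theorem sL_eq {α : Type} [DecidableEq α] (f : α → ℕ) (l : List α) (hl : l.Nodup) :
    sL f l = ∑ a ∈ l.toFinset, f a := by
  rw [List.sum_toFinset f hl]
  induction l with
  | nil => rfl
  | cons a l ih =>
    rw [List.nodup_cons] at hl
    rw [List.map_cons, List.sum_cons, ← ih hl.2]
    rfl

theorem Kv_eq (v : ℕ × ℕ × ℕ) : Kv v = ∑ d ∈ range 10, ∑ w ∈ D13.toFinset, ∑ u ∈ D13.toFinset,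
    kN (bitsL (0, 0, 0) u) (bitsL (0, 0, 0) v)
      (bitsL (Nat.mul d v.1, Nat.mul d v.2.1, Nat.mul d v.2.2) w) := by
  have hn : D13.Nodup := by decide
  rw [Kv, sL_eq _ _ List.nodup_range, List.toFinset_range]
  refine sum_congr rfl fun d _ => ?_
  rw [sL_eq _ _ hn]
  refine sum_congr rfl fun w _ => ?_
  rw [sL_eq _ _ hn]

theorem D13_nodup : D13.Nodup := by decide
theorem D13_sum (f : ℕ × ℕ × ℕ → ℕ) : ∑ v ∈ D13.toFinset, f v = (D13.map f).sum := List.sum_toFinset _ D13_nodup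
theorem D13_sum2 (K : ℕ × ℕ × ℕ → ℕ) : (D13.map K).sum = K (0, 0, 1) + (K (0, 1, 0) +
          (K (0, 1, 1) +
            (K (0, 1, 9) +
              (K (1, 0, 0) +
                (K (1, 0, 1) +
                  (K (1, 0, 9) +
                    (K (1, 1, 0) +
                      (K (1, 1, 1) + (K (1, 1, 9) + (K (1, 9, 0) + (K (1, 9, 1) + (K (1, 9, 9) + 0)))))))))))) := rfl
theorem Kv_sum1 (K : ℕ × ℕ × ℕ → ℕ) (h1 : K (0, 0, 1) + K (0, 1, 0) + K (1, 0, 0) = 11754)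
  (h2 : K (0, 1, 1) + K (0, 1, 9) + K (1, 0, 1) = 11601)
  (h3 : K (1, 0, 9) + K (1, 1, 0) + K (1, 9, 0) = 11601)
  (h4 : K (1, 1, 1) + K (1, 1, 9) + (K (1, 9, 1) + K (1, 9, 9)) = 14964) :
  (D13.map K).sum = 49920 := by
  rw [D13_sum2]
  omega
theorem Kv_sum2 (K : ℕ × ℕ × ℕ → ℕ) (h1 : K (0, 0, 1) + K (0, 1, 0) + K (1, 0, 0) = 11754)
  (h2 : K (0, 1, 1) + K (0, 1, 9) + K (1, 0, 1) = 11601)
  (h3 : K (1, 0, 9) + K (1, 1, 0) + K (1, 9, 0) = 11601)
  (h4 : K (1, 1, 1) + K (1, 1, 9) + (K (1, 9, 1) + K (1, 9, 9)) = 14964) :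
  ∑ v ∈ D13.toFinset, (K v : ℚ) = 49920 := by
  rw [← Nat.cast_sum, D13_sum, Kv_sum1 K h1 h2 h3 h4]
  norm_num
theorem Kv_sum : ∑ v ∈ D13.toFinset, (Kv v : ℚ) = 49920 := 
  Kv_sum2 Kv kvA kvB kvC kvD

section
variable (h2 : ∀ a ∈ lines103, ∀ b ∈ lines103, a ≠ b → (a ∩ b).card ≤ 2)
include h2

theorem cc_le {i j k : Finset Pt} (hi : i ∈ lines103) (hj : j ∈ lines103) (hk : k ∈ lines103) :
    cc j i k ≤ ∑ p ∈ j, ∑ q ∈ j,
      4 * ((if p ∈ i then 1 else 0) * ((if q ∈ k then 1 else 0) * kapc i j k)) := by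
  have hr : 0 ≤ ∑ p ∈ j, ∑ q ∈ j,
      4 * ((if p ∈ i then 1 else 0) * ((if q ∈ k then 1 else 0) * kapc i j k)) := by
    refine sum_nonneg fun p _ => sum_nonneg fun q _ => ?_
    have := kapc_nonneg i j k
    split_ifs <;> simp [this]
  have hs : ∀ L : Finset Pt, ∑ p ∈ j, (if p ∈ L then (1 : ℚ) else 0) = ((L ∩ j).card : ℚ) := by
    intro L
    rw [← sum_filter, sum_const, nsmul_eq_mul, mul_one, filter_mem_eq_inter, inter_comm]
  by_cases h1 : i = j
  · have : cc j i k = 0 := by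
      rw [cc, h1, yy, if_neg (fun h => h.1 rfl), zero_mul, zero_mul]
    rw [this]
    exact hr
  by_cases h3 : k = j
  · have : cc j i k = 0 := by
      rw [cc, h3]
      have : yy j j = 0 := by rw [yy, if_neg (fun h => h.1 rfl)]
      rw [this, mul_zero, zero_mul]
    rw [this]
    exact hr
  have e1 : kapc i j k = kap i j k := by rw [kapc, if_pos ⟨h1, h3⟩]
  have e2 : yy i j ≤ 2 * ((i ∩ j).card : ℚ) := by
    have := yy_le h2 hi hj
    rwa [if_pos h1] at this
  have e3 : yy j k ≤ 2 * ((k ∩ j).card : ℚ) := by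
    have := yy_le h2 hj hk
    rwa [if_pos (Ne.symm h3), inter_comm] at this
  have e4 : ∑ p ∈ j, ∑ q ∈ j,
      4 * ((if p ∈ i then 1 else 0) * ((if q ∈ k then 1 else 0) * kapc i j k)) =
      (2 * ((i ∩ j).card : ℚ)) * (2 * ((k ∩ j).card : ℚ)) * kap i j k := by
    rw [e1, ← hs i, ← hs k]
    have : ∀ p ∈ j, ∑ q ∈ j,
        4 * ((if p ∈ i then (1 : ℚ) else 0) * ((if q ∈ k then 1 else 0) * kap i j k)) =
        (if p ∈ i then (1 : ℚ) else 0) * (4 * (∑ q ∈ j, (if q ∈ k then (1 : ℚ) else 0)) *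
          kap i j k) := by
      intro p _
      rw [mul_sum, sum_mul, mul_sum]
      refine sum_congr rfl fun q _ => ?_
      ring
    rw [sum_congr rfl this, ← sum_mul]
    ring
  rw [e4, cc]
  exact mul_le_mul_of_nonneg_right
    (mul_le_mul e2 e3 (yy_nonneg _ _) (le_trans (yy_nonneg _ _) e2)) (kap_nonneg _ _ _)

theorem row_le (x : Pt) {v : ℕ × ℕ × ℕ} (hv : v ∈ D13) :
    ∑ i ∈ lines103, ∑ k ∈ lines103, cc (line x (toPt v)) i k ≤ 40 * ((Kv v : ℚ) / 3) := by
  have hj := line_mem x v hv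
  have hcard := card_line hj
  have hreb : ∀ p ∈ line x (toPt v), line x (toPt v) = line p (toPt v) :=
    fun p hp => line_rebase hp
  generalize line x (toPt v) = j at hj hcard hreb ⊢
  -- per pair of points
  have key : ∀ p ∈ j, ∀ q : Pt, ∑ i ∈ lines103, ∑ k ∈ lines103,
      4 * ((if p ∈ i then 1 else 0) * ((if q ∈ k then 1 else 0) * kapc i j k)) ≤
      4 * ∑ w ∈ D13.toFinset, ∑ u ∈ D13.toFinset,
        kapc (line p (toPt u)) j (line q (toPt w)) := by
    intro p _ q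
    have a1 : ∑ i ∈ lines103, ∑ k ∈ lines103,
        4 * ((if p ∈ i then 1 else 0) * ((if q ∈ k then 1 else 0) * kapc i j k)) =
        4 * ∑ i ∈ lines103.filter (fun L => p ∈ L), ∑ k ∈ lines103.filter (fun L => q ∈ L),
          kapc i j k := by
      rw [sum_filter, mul_sum]
      refine sum_congr rfl fun i _ => ?_
      by_cases hp : p ∈ i
      · simp only [if_pos hp, one_mul]
        rw [sum_filter, mul_sum]
        refine sum_congr rfl fun k _ => ?_
        by_cases hq : q ∈ k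
        · simp only [if_pos hq, one_mul]
        · simp only [if_neg hq, zero_mul, mul_zero]
      · simp only [if_neg hp, zero_mul, mul_zero, sum_const_zero]
    rw [a1]
    refine mul_le_mul_of_nonneg_left ?_ (by norm_num)
    calc ∑ i ∈ lines103.filter (fun L => p ∈ L), ∑ k ∈ lines103.filter (fun L => q ∈ L),
          kapc i j k
        ≤ ∑ u ∈ D13.toFinset, ∑ k ∈ lines103.filter (fun L => q ∈ L),
          kapc (line p (toPt u)) j k :=
          sum_through (fun i => ∑ k ∈ lines103.filter (fun L => q ∈ L), kapc i j k)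
            (fun i => sum_nonneg fun k _ => kapc_nonneg _ _ _) p
      _ ≤ ∑ u ∈ D13.toFinset, ∑ w ∈ D13.toFinset, kapc (line p (toPt u)) j (line q (toPt w)) :=
          sum_le_sum fun u _ => sum_through (fun k => kapc (line p (toPt u)) j k)
            (fun k => kapc_nonneg _ _ _) q
      _ = _ := sum_comm
  -- per point
  have key2 : ∀ p ∈ j, ∑ q ∈ j, ∑ i ∈ lines103, ∑ k ∈ lines103,
      4 * ((if p ∈ i then 1 else 0) * ((if q ∈ k then 1 else 0) * kapc i j k)) ≤
      4 * ((Kv v : ℚ) / 3) := by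
    intro p hp
    refine le_trans (sum_le_sum fun q _ => key p hp q) ?_
    rw [← mul_sum]
    refine mul_le_mul_of_nonneg_left ?_ (by norm_num)
    have hb := hreb p hp
    calc ∑ q ∈ j, ∑ w ∈ D13.toFinset, ∑ u ∈ D13.toFinset,
          kapc (line p (toPt u)) j (line q (toPt w))
        = ∑ q ∈ line p (toPt v), ∑ w ∈ D13.toFinset, ∑ u ∈ D13.toFinset,
          kapc (line p (toPt u)) (line p (toPt v)) (line q (toPt w)) := by rw [← hb]
      _ ≤ ∑ d ∈ range 10, ∑ w ∈ D13.toFinset, ∑ u ∈ D13.toFinset,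
          kapc (line p (toPt u)) (line p (toPt v))
            (line (p + (d : ZMod 10) • toPt v) (toPt w)) :=
          sum_line (fun q => ∑ w ∈ D13.toFinset, ∑ u ∈ D13.toFinset,
            kapc (line p (toPt u)) (line p (toPt v)) (line q (toPt w)))
            (fun q => sum_nonneg fun w _ => sum_nonneg fun u _ => kapc_nonneg _ _ _) p (toPt v)
      _ ≤ ∑ d ∈ range 10, ∑ w ∈ D13.toFinset, ∑ u ∈ D13.toFinset,
          (kN (bitsL (0, 0, 0) u) (bitsL (0, 0, 0) v)
            (bitsL (Nat.mul d v.1, Nat.mul d v.2.1, Nat.mul d v.2.2) w) : ℚ) / 3 :=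
          sum_le_sum fun d _ => sum_le_sum fun w _ => sum_le_sum fun u _ => kapc_path p u v w d
      _ = (Kv v : ℚ) / 3 := by
          rw [Kv_eq]
          push_cast
          simp only [sum_div]
  calc ∑ i ∈ lines103, ∑ k ∈ lines103, cc j i k
      ≤ ∑ i ∈ lines103, ∑ k ∈ lines103, ∑ p ∈ j, ∑ q ∈ j,
        4 * ((if p ∈ i then 1 else 0) * ((if q ∈ k then 1 else 0) * kapc i j k)) :=
        sum_le_sum fun i hi => sum_le_sum fun k hk => cc_le h2 hi hj hk
    _ = ∑ p ∈ j, ∑ q ∈ j, ∑ i ∈ lines103, ∑ k ∈ lines103,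
        4 * ((if p ∈ i then 1 else 0) * ((if q ∈ k then 1 else 0) * kapc i j k)) := by
        have e1 : ∀ i ∈ lines103, ∑ k ∈ lines103, ∑ p ∈ j, ∑ q ∈ j,
            4 * ((if p ∈ i then 1 else 0) * ((if q ∈ k then 1 else 0) * kapc i j k)) =
            ∑ p ∈ j, ∑ q ∈ j, ∑ k ∈ lines103,
            4 * ((if p ∈ i then 1 else 0) * ((if q ∈ k then 1 else 0) * kapc i j k)) := by
          intro i _
          rw [sum_comm]
          exact sum_congr rfl fun p _ => sum_comm
        rw [sum_congr rfl e1, sum_comm]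
        exact sum_congr rfl fun p _ => sum_comm
    _ ≤ ∑ p ∈ j, 4 * ((Kv v : ℚ) / 3) := sum_le_sum key2
    _ = 40 * ((Kv v : ℚ) / 3) := by
        rw [sum_const, hcard, nsmul_eq_mul]
        push_cast
        ring

/-- the total over all ordered paths -/
theorem total_le : ∑ j ∈ lines103, ∑ i ∈ lines103, ∑ k ∈ lines103, cc j i k ≤ 66560000 := by
  have hS : ∀ j, 0 ≤ ∑ i ∈ lines103, ∑ k ∈ lines103, cc j i k :=
    fun j => sum_nonneg fun i _ => sum_nonneg fun k _ => cc_nonneg _ _ _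
  have hrow : ∀ x : Pt, ∀ v ∈ D13.toFinset,
      ∑ i ∈ lines103, ∑ k ∈ lines103, cc (line x (toPt v)) i k ≤ 40 * ((Kv v : ℚ) / 3) :=
    fun x v hv => row_le h2 x (List.mem_toFinset.mp hv)
  generalize hSd : (fun j => ∑ i ∈ lines103, ∑ k ∈ lines103, cc j i k) = S at *
  have hS' : ∀ j, ∑ i ∈ lines103, ∑ k ∈ lines103, cc j i k = S j := fun j => by rw [← hSd]
  simp only [hS'] at *
  have e1 : 10 * ∑ j ∈ lines103, S j = ∑ j ∈ lines103, ∑ _x ∈ j, S j := by
    rw [mul_sum]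
    refine sum_congr rfl fun j hj => ?_
    rw [sum_const, card_line hj, nsmul_eq_mul]
    norm_num
  have e2 : ∑ j ∈ lines103, ∑ _x ∈ j, S j =
      ∑ x : Pt, ∑ j ∈ lines103.filter (fun L => x ∈ L), S j := by
    simp only [sum_filter]
    rw [sum_comm]
    refine sum_congr rfl fun j _ => ?_
    rw [← sum_filter, filter_mem_eq_inter, univ_inter]
  have e3 : ∑ x : Pt, ∑ j ∈ lines103.filter (fun L => x ∈ L), S j ≤
      ∑ _x : Pt, (665600 : ℚ) := by
    refine sum_le_sum fun x _ => ?_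
    refine le_trans (sum_through S hS x) ?_
    refine le_trans (sum_le_sum fun v hv => hrow x v hv) ?_
    rw [← mul_sum, ← sum_div, Kv_sum]
    norm_num
  have e4 : ∑ _x : Pt, (665600 : ℚ) = 665600000 := by
    rw [sum_const, nsmul_eq_mul, card_univ, card_Pt]
    norm_num
  linarith

end

end SB
end Torus103
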