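import Pool.Agent.Lib.MP_77f3ac_co.StartT3

/-!
The weight of a connected triple as a sum over its paths; the sum over all triples.
-/

set_option autoImplicit false
set_option maxRecDepth 10000

namespace Torus103
namespace SB
open Finset

theorem yy_of {a b : Finset Pt} (h : a ≠ b) (hn : (a ∩ b).Nonempty) :
    yy a b = 2 ^ (a ∩ b).card := by
  rw [yy, if_pos ⟨h, hn⟩]

theorem yy_zero {a b : Finset Pt} (hn : a ∩ b = ∅) : yy a b = 0 := by
  rw [yy, if_neg (fun h => h.2.ne_empty hn)]

theorem kap_of_empty {i j k : Finset Pt} (h : i ≠ k) (h0 : i ∩ k = ∅) : kap i j k = 1 := by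
  rw [kap, if_neg h, if_pos h0]

theorem kap_of_ne {i j k : Finset Pt} (h : i ≠ k) (h0 : (i ∩ k).Nonempty) :
    kap i j k = 2 ^ ((i ∩ k) \ j).card / 3 := by
  rw [kap, if_neg h, if_neg h0.ne_empty]

/-- one path, the outer lines disjoint -/
theorem path_val {i j k : Finset Pt} (hi : i.card = 10) (hj : j.card = 10) (hk : k.card = 10)
    (nij : i ≠ j) (njk : j ≠ k) (nik : i ≠ k) (h1 : (i ∩ j).Nonempty) (h2 : (j ∩ k).Nonempty)
    (h0 : i ∩ k = ∅) : cc j i k = 2 ^ (30 - (i ∪ j ∪ k).card) := by
  rw [cc, yy_of nij h1, yy_of njk h2, kap_of_empty nik h0, mul_one, ← pow_add]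
  congr 1
  have e1 := card_union_add_card_inter i j
  have e2 := card_union_add_card_inter (i ∪ j) k
  have e3 : (i ∪ j) ∩ k = j ∩ k := by
    rw [union_inter_distrib_right, h0, empty_union]
  rw [e3] at e2
  have h3 : (j ∩ k).card ≤ (i ∪ j ∪ k).card :=
    card_le_card ((inter_subset_left).trans (subset_union_right.trans subset_union_left))
  have h4 : (i ∩ j).card ≤ 10 := le_trans (card_le_card inter_subset_left) (le_of_eq hi)
  have h5 : (j ∩ k).card ≤ 10 := le_trans (card_le_card inter_subset_left) (le_of_eq hj)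
  omega

/-- one path, the three lines pairwise meeting -/
theorem path_val3 {i j k : Finset Pt} (hi : i.card = 10) (hj : j.card = 10) (hk : k.card = 10)
    (nij : i ≠ j) (njk : j ≠ k) (nik : i ≠ k) (h1 : (i ∩ j).Nonempty) (h2 : (j ∩ k).Nonempty)
    (h0 : (i ∩ k).Nonempty) : cc j i k = 2 ^ (30 - (i ∪ j ∪ k).card) / 3 := by
  rw [cc, yy_of nij h1, yy_of njk h2, kap_of_ne nik h0, ← mul_div_assoc, ← pow_add, ← pow_add]
  congr 2
  have e1 := card_union_add_card_inter i j
  have e2 := card_union_add_card_inter (i ∪ j) k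
  have e3 := card_union_add_card_inter (i ∩ k) (j ∩ k)
  rw [← union_inter_distrib_right] at e3
  have e4 : (i ∩ k) ∩ (j ∩ k) = (i ∩ k) ∩ j := by
    ext x
    simp only [mem_inter]
    tauto
  rw [e4] at e3
  have e5 := card_sdiff_add_card_inter (i ∩ k) j
  have h4 : (i ∩ j).card ≤ 10 := le_trans (card_le_card inter_subset_left) (le_of_eq hi)
  have h3 : ((i ∪ j) ∩ k).card ≤ 10 := le_trans (card_le_card inter_subset_right) (le_of_eq hk)
  omega

/-- the weight of a connected triple -/
theorem tri_le {a b c : Finset Pt} (ha : a.card = 10) (hb : b.card = 10) (hc : c.card = 10)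
    (nab : a ≠ b) (nac : a ≠ c) (nbc : b ≠ c)
    (c1 : 0 < (a ∩ b).card + (a ∩ c).card) (c2 : 0 < (a ∩ b).card + (b ∩ c).card)
    (c3 : 0 < (a ∩ c).card + (b ∩ c).card) :
    (2 : ℚ) ^ (30 - (a ∪ b ∪ c).card) ≤ cc a b c + cc b a c + cc c a b := by
  have n1 := cc_nonneg a b c
  have n2 := cc_nonneg b a c
  have n3 := cc_nonneg c a b
  have u1 : b ∪ a ∪ c = a ∪ b ∪ c := by rw [union_comm b a]
  have u3 : a ∪ c ∪ b = a ∪ b ∪ c := union_right_comm a c b
  by_cases hab : a ∩ b = ∅
  · rw [hab, card_empty] at c1 c2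
    have hac : (a ∩ c).Nonempty := card_pos.mp (by omega)
    have hbc : (b ∩ c).Nonempty := card_pos.mp (by omega)
    have := path_val ha hc hb nac nbc.symm nab hac (by rw [inter_comm]; exact hbc) hab
    rw [u3] at this
    linarith
  · by_cases hac : a ∩ c = ∅
    · rw [hac, card_empty] at c1 c3
      have hab' : (a ∩ b).Nonempty := card_pos.mp (by omega)
      have hbc : (b ∩ c).Nonempty := card_pos.mp (by omega)
      have := path_val ha hb hc nab nbc nac hab' hbc hac
      linarith
    · by_cases hbc : b ∩ c = ∅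
      · rw [hbc, card_empty] at c2 c3
        have hab' : (a ∩ b).Nonempty := card_pos.mp (by omega)
        have hac' : (a ∩ c).Nonempty := card_pos.mp (by omega)
        have := path_val hb ha hc nab.symm nac nbc (by rw [inter_comm]; exact hab') hac' hbc
        rw [u1] at this
        linarith
      · have hab' := nonempty_iff_ne_empty.mpr hab
        have hac' := nonempty_iff_ne_empty.mpr hac
        have hbc' := nonempty_iff_ne_empty.mpr hbc
        have v1 := path_val3 hb ha hc nab.symm nac nbc (by rw [inter_comm]; exact hab') hac' hbc'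
        have v2 := path_val3 ha hb hc nab nbc nac hab' hbc' hac'
        have v3 := path_val3 ha hc hb nac nbc.symm nab hac' (by rw [inter_comm]; exact hbc') hab'
        rw [u1] at v1
        rw [u3] at v3
        rw [v1, v2, v3]
        linarith

/-- the sum over all triples -/
theorem sum_triples (h2 : ∀ a ∈ lines103, ∀ b ∈ lines103, a ≠ b → (a ∩ b).card ≤ 2)
    (G : Finset (Finset Pt) → ℚ)
    (hG : ∀ a ∈ lines103, ∀ b ∈ lines103, ∀ c ∈ lines103, a ≠ b → a ≠ c → b ≠ c →
      G {a, b, c} ≤ cc a b c + cc b a c + cc c a b) :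
    ∑ C ∈ lines103.powersetCard 3, G C ≤ 33280000 := by
  have h := SSum.le3 lines103 G (fun a b c => cc a b c + cc b a c + cc c a b)
    (fun a b c => add_nonneg (add_nonneg (cc_nonneg _ _ _) (cc_nonneg _ _ _)) (cc_nonneg _ _ _)) hG
  have ht := total_le h2
  have e1 : ∑ a ∈ lines103, ∑ b ∈ lines103, ∑ c ∈ lines103, cc b a c =
      ∑ j ∈ lines103, ∑ i ∈ lines103, ∑ k ∈ lines103, cc j i k := sum_comm
  have e2 : ∑ a ∈ lines103, ∑ b ∈ lines103, ∑ c ∈ lines103, cc c a b =
      ∑ j ∈ lines103, ∑ i ∈ lines103, ∑ k ∈ lines103, cc j i k :=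
    STr.o_dbc lines103 fun a b c => cc c a b
  simp only [sum_add_distrib] at h
  rw [e1, e2] at h
  linarith

end SB
end Torus103
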