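import Pool.Agent.Lib.MP_77f3ac_co.StartMain

/-!
The potential of the empty board is below `7/4`; the invariant holds at the start.
-/

set_option autoImplicit false
set_option maxRecDepth 10000

namespace Torus103
namespace SM
open Finset SB

/-- the contribution of the sets of `k` lines -/
noncomputable def Wk (x : Pt) (k : ℕ) : ℚ := ∑ C ∈ lines103.powersetCard k, (G0 C + G1 x C)

theorem G1_nonneg (x : Pt) (C : Finset (Finset Pt)) : 0 ≤ G1 x C :=
  mul_nonneg (G0_nonneg C) (gg_nonneg _ _)

theorem Wk_nonneg (x : Pt) (k : ℕ) : 0 ≤ Wk x k :=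
  sum_nonneg fun C _ => add_nonneg (G0_nonneg C) (G1_nonneg x C)

theorem al_big {j : ℕ} (h : 5 ≤ j) : al j = 0 := by
  obtain ⟨n, rfl⟩ := Nat.exists_eq_add_of_le' h
  rfl

theorem al_nonneg (j : ℕ) : 0 ≤ al j := by
  by_cases h : 5 ≤ j
  · rw [al_big h]
  · interval_cases j <;> simp [al]

theorem phi_le (x : Pt) :
    Phi univ lines103 x ≤ Wk x 1 + 2 * Wk x 2 + 4 * Wk x 3 + 3 * Wk x 4 := by
  have e1 : Phi univ lines103 x = ∑ C ∈ lines103.powerset, al C.card * (G0 C + G1 x C) := by
    unfold Phi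
    rw [sum_filter]
    refine sum_congr rfl fun C _ => ?_
    unfold G1 G0 gg
    by_cases h : Conn univ C
    · rw [if_pos h, if_pos h]
      split_ifs <;> ring
    · rw [if_neg h, if_neg h]
      ring
  have e2 : ∑ C ∈ lines103.powerset, al C.card * (G0 C + G1 x C) =
      ∑ j ∈ range (lines103.card + 1), al j * Wk x j := by
    rw [sum_powerset]
    refine sum_congr rfl fun j _ => ?_
    rw [Wk, mul_sum]
    refine sum_congr rfl fun C hC => ?_
    rw [(mem_powersetCard.mp hC).2]
  have hnn : ∀ j, 0 ≤ al j * Wk x j := fun j => mul_nonneg (al_nonneg j) (Wk_nonneg x j)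
  rw [e1, e2]
  generalize lines103.card = N
  calc ∑ j ∈ range (N + 1), al j * Wk x j
      ≤ ∑ j ∈ range (max (N + 1) 5), al j * Wk x j :=
        sum_le_sum_of_subset_of_nonneg (range_mono (le_max_left _ _)) fun j _ _ => hnn j
    _ = ∑ j ∈ range 5, al j * Wk x j := by
        symm
        refine sum_subset (range_mono (le_max_right _ _)) fun j _ hj => ?_
        rw [mem_range, not_lt] at hj
        rw [al_big hj, zero_mul]
    _ = Wk x 1 + 2 * Wk x 2 + 4 * Wk x 3 + 3 * Wk x 4 := by
        simp only [sum_range_succ, sum_range_zero, al]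
        ring

theorem card_lines_le' : ((lines103.card : ℕ) : ℚ) ≤ 1300 := by
  exact_mod_cast card_lines_le

theorem sum_one : ∑ _a ∈ lines103, (1 : ℚ) ≤ 1300 := by
  rw [sum_const, nsmul_eq_mul, mul_one]
  exact card_lines_le'

theorem Wk1 (x : Pt) : Wk x 1 ≤ 1313 / 1024 := by
  rw [Wk, SSum.sum1 lines103 fun C => G0 C + G1 x C]
  have h : ∀ a ∈ lines103, G0 {a} + G1 x {a} ≤ 1 / 1024 * (1 + gg x a) := by
    intro a ha
    have hw : G0 {a} ≤ 1 / 1024 := by
      unfold G0
      split_ifs
      · rw [w, un1, card_line ha]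
        norm_num
      · norm_num
    rw [G1, un1]
    have := gg_nonneg x a
    nlinarith
  refine le_trans (sum_le_sum h) ?_
  rw [← mul_sum, sum_add_distrib]
  have h1 := sum_one
  have h2 := sum_gg x
  linarith

section
variable (hG : Geom lines103)
include hG

theorem row240 {a : Finset Pt} (ha : a ∈ lines103) : ∑ b ∈ lines103, yy a b ≤ 240 :=
  sum_yy_le hG.two ha

theorem row240' {a : Finset Pt} (ha : a ∈ lines103) : ∑ b ∈ lines103, yy b a ≤ 240 := by
  simp only [yy_comm _ a]
  exact sum_yy_le hG.two ha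

theorem Wk2 (x : Pt) : Wk x 2 ≤ 159120 / 2 ^ 20 := by
  have h := SSum.le2 lines103 (fun C => G0 C + G1 x C)
    (fun a b => yy a b / 2 ^ 20 * (1 + gg x a + gg x b))
    (fun a b => mul_nonneg (div_nonneg (yy_nonneg _ _) (by norm_num))
      (add_nonneg (add_nonneg zero_le_one (gg_nonneg _ _)) (gg_nonneg _ _)))
    (by
      intro a ha b hb nab
      have h1 := G0_two ha hb nab
      have h2 := G0_nonneg {a, b}
      have h3 := gg_union x a b
      have h4 := gg_nonneg x (a ∪ b)
      simp only [G1, un2]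
      calc G0 {a, b} + G0 {a, b} * gg x (a ∪ b) = G0 {a, b} * (1 + gg x (a ∪ b)) := by ring
        _ ≤ yy a b / 2 ^ 20 * (1 + gg x a + gg x b) := by
            apply mul_le_mul h1 (by linarith) (by linarith)
            exact div_nonneg (yy_nonneg _ _) (by norm_num))
  have e1 : ∑ a ∈ lines103, ∑ b ∈ lines103, yy a b / 2 ^ 20 * (1 + gg x a + gg x b) =
      1 / 2 ^ 20 * (∑ a ∈ lines103, (1 + gg x a) * ∑ b ∈ lines103, yy a b +
        ∑ b ∈ lines103, gg x b * ∑ a ∈ lines103, yy a b) := by
    have e2 : ∑ b ∈ lines103, gg x b * ∑ a ∈ lines103, yy a b =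
        ∑ a ∈ lines103, ∑ b ∈ lines103, gg x b * yy a b := by
      rw [sum_comm]
      exact sum_congr rfl fun b _ => mul_sum _ _ _
    rw [e2, ← sum_add_distrib, mul_sum]
    refine sum_congr rfl fun a _ => ?_
    rw [mul_sum, ← sum_add_distrib, mul_sum]
    refine sum_congr rfl fun b _ => ?_
    ring
  have e3 : ∑ a ∈ lines103, (1 + gg x a) * ∑ b ∈ lines103, yy a b ≤
      ∑ a ∈ lines103, (1 + gg x a) * 240 :=
    sum_le_sum fun a ha => mul_le_mul_of_nonneg_left (row240 hG ha)
      (add_nonneg zero_le_one (gg_nonneg _ _))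
  have e4 : ∑ b ∈ lines103, gg x b * ∑ a ∈ lines103, yy a b ≤ ∑ b ∈ lines103, gg x b * 240 :=
    sum_le_sum fun b hb => mul_le_mul_of_nonneg_left (row240' hG hb) (gg_nonneg _ _)
  rw [← sum_mul, sum_add_distrib] at e3
  rw [← sum_mul] at e4
  have h1 := sum_one
  have h2 := sum_gg x
  rw [e1] at h
  unfold Wk
  linarith

theorem Wk3a : ∑ C ∈ lines103.powersetCard 3, G0 C ≤ 33280000 / 2 ^ 30 := by
  have h := sum_triples hG.two (fun C => 2 ^ 30 * G0 C) (by
    intro a ha b hb c hc nab nac nbc
    have n1 := cc_nonneg a b c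
    have n2 := cc_nonneg b a c
    have n3 := cc_nonneg c a b
    simp only [G0]
    split_ifs with hC
    · obtain ⟨c1, c2, c3⟩ := conn3 nab nac nbc hC
      have ht := tri_le (card_line ha) (card_line hb) (card_line hc) nab nac nbc c1 c2 c3
      have hle : (a ∪ b ∪ c).card ≤ 30 := by
        have e1 := card_union_le (a ∪ b) c
        have e2 := card_union_le a b
        have e3 := card_line ha
        have e4 := card_line hb
        have e5 := card_line hc
        omega
      rw [w, un3, half_pow hle, mul_div_cancel₀ _ (by norm_num)]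
      exact ht
    · rw [mul_zero]
      positivity)
  rw [← mul_sum] at h
  rw [le_div_iff₀ (by norm_num)]
  linarith

theorem Wk3b (x : Pt) : ∑ C ∈ lines103.powersetCard 3, G1 x C ≤ 1123200 / 2 ^ 30 := by
  have q3n : ∀ a b c, 0 ≤ STr.q3 yy a b c := by
    intro a b c
    have n1 := yy_nonneg a b
    have n2 := yy_nonneg a c
    have n3 := yy_nonneg b c
    unfold STr.q3
    positivity
  have h := SSum.le3 lines103 (G1 x)
    (fun a b c => 1 / 2 ^ 30 * (STr.q3 yy a b c * (gg x a + gg x b + gg x c)))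
    (fun a b c => mul_nonneg (by norm_num) (mul_nonneg (q3n a b c)
      (add_nonneg (add_nonneg (gg_nonneg _ _) (gg_nonneg _ _)) (gg_nonneg _ _))))
    (by
      intro a ha b hb c hc nab nac nbc
      have h1 := G0_three hG ha hb hc nab nac nbc
      have h2 := G0_nonneg {a, b, c}
      have h3 := gg_union3 x a b c
      have h4 := gg_nonneg x (a ∪ b ∪ c)
      simp only [G1, un3]
      calc G0 {a, b, c} * gg x (a ∪ b ∪ c)
          ≤ STr.q3 yy a b c / 2 ^ 30 * (gg x a + gg x b + gg x c) :=
            mul_le_mul h1 h3 h4 (div_nonneg (q3n a b c) (by norm_num))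
        _ = _ := by ring)
  have hm := STr.q3_marked (𝒢 := lines103) (Y := yy) yy_comm yy_nonneg (R := 240) (by norm_num)
    (fun a ha => row240 hG ha) (gg x) (fun a _ => gg_nonneg x a) 13 (sum_gg x)
  have e : ∑ a ∈ lines103, ∑ b ∈ lines103, ∑ c ∈ lines103,
      1 / 2 ^ 30 * (STr.q3 yy a b c * (gg x a + gg x b + gg x c)) = 1 / 2 ^ 30 *
      ∑ a ∈ lines103, ∑ b ∈ lines103, ∑ c ∈ lines103,
        STr.q3 yy a b c * (gg x a + gg x b + gg x c) := by
    simp only [mul_sum]
  rw [e] at h
  have h5 := mul_le_mul_of_nonneg_left hm (show (0 : ℚ) ≤ 1 / 2 ^ 30 by norm_num)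
  linarith

theorem Wk3 (x : Pt) : Wk x 3 ≤ (33280000 + 1123200) / 2 ^ 30 := by
  have h1 := Wk3a hG
  have h2 := Wk3b hG x
  rw [Wk, sum_add_distrib]
  linarith

theorem Wk4 (x : Pt) : 24 * Wk x 4 ≤ 16 * 240 ^ 3 * 1352 / 2 ^ 40 := by
  have q4n : ∀ a b c d, 0 ≤ STr.q4 yy a b c d := by
    intro a b c d
    have n1 := yy_nonneg a b
    have n2 := yy_nonneg a c
    have n3 := yy_nonneg a d
    have n4 := yy_nonneg b c
    have n5 := yy_nonneg b d
    have n6 := yy_nonneg c d
    unfold STr.q4
    positivity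
  have h := SSum.le4 lines103 (fun C => G0 C + G1 x C)
    (fun a b c d => 1 / 2 ^ 40 * (STr.q4 yy a b c d +
      STr.q4 yy a b c d * (gg x a + gg x b + gg x c + gg x d)))
    (fun a b c d => mul_nonneg (by norm_num) (add_nonneg (q4n a b c d) (mul_nonneg (q4n a b c d)
      (add_nonneg (add_nonneg (add_nonneg (gg_nonneg _ _) (gg_nonneg _ _)) (gg_nonneg _ _))
        (gg_nonneg _ _)))))
    (by
      intro a ha b hb c hc d hd nab nac nad nbc nbd ncd
      have h1 := G0_four hG ha hb hc hd nab nac nad nbc nbd ncd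
      have h2 := G0_nonneg {a, b, c, d}
      have h3 := gg_union4 x a b c d
      have h4 := gg_nonneg x (a ∪ b ∪ c ∪ d)
      simp only [G1, un4]
      calc G0 {a, b, c, d} + G0 {a, b, c, d} * gg x (a ∪ b ∪ c ∪ d)
          = G0 {a, b, c, d} * (1 + gg x (a ∪ b ∪ c ∪ d)) := by ring
        _ ≤ STr.q4 yy a b c d / 2 ^ 40 * (1 + (gg x a + gg x b + gg x c + gg x d)) :=
            mul_le_mul h1 (by linarith) (by linarith) (div_nonneg (q4n a b c d) (by norm_num))
        _ = _ := by ring)
  have hm := STr.q4_marked (𝒢 := lines103) (Y := yy) yy_comm yy_nonneg (R := 240) (by norm_num)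
    (fun a ha => row240 hG ha) (gg x) (fun a _ => gg_nonneg x a) 13 (sum_gg x)
  have hu : ∑ a ∈ lines103, ∑ b ∈ lines103, ∑ c ∈ lines103, ∑ d ∈ lines103,
      STr.q4 yy a b c d ≤ 1300 * (16 * 240 ^ 3) := by
    have := sum_le_sum (s := lines103) (f := fun a => ∑ b ∈ lines103, ∑ c ∈ lines103,
      ∑ d ∈ lines103, STr.q4 yy a b c d) (g := fun _ => 1 * (16 * 240 ^ 3))
      (fun a ha => by
        rw [one_mul]
        exact STr.q4_row yy_comm yy_nonneg (by norm_num) (fun a ha => row240 hG ha) ha)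
    rw [← sum_mul] at this
    have h1 := sum_one
    linarith
  have e : ∑ a ∈ lines103, ∑ b ∈ lines103, ∑ c ∈ lines103, ∑ d ∈ lines103,
      1 / 2 ^ 40 * (STr.q4 yy a b c d +
        STr.q4 yy a b c d * (gg x a + gg x b + gg x c + gg x d)) = 1 / 2 ^ 40 *
      (∑ a ∈ lines103, ∑ b ∈ lines103, ∑ c ∈ lines103, ∑ d ∈ lines103, STr.q4 yy a b c d +
      ∑ a ∈ lines103, ∑ b ∈ lines103, ∑ c ∈ lines103, ∑ d ∈ lines103,
        STr.q4 yy a b c d * (gg x a + gg x b + gg x c + gg x d)) := by
    simp only [← mul_sum, sum_add_distrib]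
  rw [e] at h
  have h5 := mul_le_mul_of_nonneg_left (add_le_add hu hm)
    (show (0 : ℚ) ≤ 1 / 2 ^ 40 by norm_num)
  unfold Wk
  linarith

theorem start_value (x : Pt) : Phi univ lines103 x < 7 / 4 := by
  have h0 := phi_le x
  have h1 := Wk1 x
  have h2 := Wk2 hG x
  have h3 := Wk3 hG x
  have h4 := Wk4 hG x
  norm_num at h2 h3 h4
  linarith

/-- the invariant holds for the empty board -/
theorem start_empty : Inv (univ : Finset Pt) lines103 where
  pot := fun x _ => start_value hG x
  two_le := by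
    intro L hL
    rw [inter_univ]
    have := card_line hL
    omega
  nowin := by
    intro L₁ h1 L₂ _ hc
    rw [inter_univ] at hc
    have := card_line h1
    omega

end

/-- sets of lines avoiding the taken point -/
theorem un_erase {x : Pt} {C : Finset (Finset Pt)} (hC : ∀ L ∈ C, x ∉ L) :
    un (univ.erase x) C = un univ C := by
  ext y
  simp only [un, mem_inter, mem_biUnion, id, mem_erase, mem_univ, and_true]
  constructor
  · rintro ⟨h, -⟩
    exact h
  · rintro ⟨L, hL, hy⟩
    refine ⟨⟨L, hL, hy⟩, ?_⟩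
    rintro rfl
    exact hC L hL hy

theorem conn_erase {x : Pt} {C : Finset (Finset Pt)} (hC : Conn (univ.erase x) C) :
    Conn univ C := by
  refine ⟨hC.1, fun S hS h1 h2 => ?_⟩
  obtain ⟨a, ha, b, hb, hab⟩ := hC.2 S hS h1 h2
  exact ⟨a, ha, b, hb, hab.mono (inter_subset_inter_left (subset_univ _))⟩

theorem phi_one (x y : Pt) :
    Phi (univ.erase x) (lines103.filter fun L => x ∉ L) y ≤ Phi univ lines103 y := by
  unfold Phi
  have h1 : ∑ C ∈ (lines103.filter fun L => x ∉ L).powerset.filter (Conn (univ.erase x)),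
      al C.card * w (univ.erase x) C * (if y ∈ un (univ.erase x) C then 2 else 1) =
      ∑ C ∈ (lines103.filter fun L => x ∉ L).powerset.filter (Conn (univ.erase x)),
      al C.card * w univ C * (if y ∈ un univ C then 2 else 1) := by
    refine sum_congr rfl fun C hC => ?_
    rw [mem_filter, mem_powerset] at hC
    rw [w, w, un_erase fun L hL => (mem_filter.mp (hC.1 hL)).2]
  rw [h1]
  refine sum_le_sum_of_subset_of_nonneg ?_ ?_
  · intro C hC
    rw [mem_filter, mem_powerset] at hC ⊢
    exact ⟨hC.1.trans (filter_subset _ _), conn_erase hC.2⟩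
  · intro C _ _
    refine mul_nonneg (mul_nonneg (al_nonneg _) ?_) ?_
    · unfold w
      positivity
    · split_ifs <;> norm_num

/-- the invariant holds after one Breaker point -/
theorem start_one (hG : Geom lines103) (x : Pt) :
    Inv ((univ : Finset Pt).erase x) (lines103.filter fun L => x ∉ L) where
  pot := fun y _ => lt_of_le_of_lt (phi_one x y) (start_value hG y)
  two_le := by
    intro L hL
    rw [mem_filter] at hL
    have h1 := card_line hL.1
    have h2 : L ∩ univ.erase x = L := by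
      rw [inter_eq_left]
      intro z hz
      exact mem_erase.mpr ⟨fun h => hL.2 (h ▸ hz), mem_univ _⟩
    rw [h2]
    omega
  nowin := by
    intro L hL L₂ _ hc
    rw [mem_filter] at hL
    have h1 := card_line hL.1
    have h2 : L ∩ univ.erase x = L := by
      rw [inter_eq_left]
      intro z hz
      exact mem_erase.mpr ⟨fun h => hL.2 (h ▸ hz), mem_univ _⟩
    rw [h2] at hc
    omega

end SM
end Torus103
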