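import Pool.Agent.Lib.MP_77f3ac_co.Core
import Pool.Agent.Lib.MP_77f3ac_co_h39.Quiet
import Pool.Agent.Lib.MP_77f3ac_co_h56.Exchange
import Pool.Agent.Lib.MP_77f3ac_co_h1.Answer

/-! # MP_77f3ac_co: one round -/

set_option autoImplicit false

namespace Torus103
open Finset
variable {P : Type*} [DecidableEq P]

/-- One round of the game keeps the invariant. -/
theorem step {𝒢 𝓛 : Finset (Finset P)} (hG : Geom 𝒢) (hL : 𝓛 ⊆ 𝒢) (F : Finset P)
    (h : Inv F 𝓛) (z : P) (hz : z ∈ F) (hne : (F.erase z).Nonempty) :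
    ∃ y ∈ F.erase z, Inv ((F.erase z).erase y) (𝓛.filter (fun L => y ∉ L)) :=
  step_of F
    (fun m a hma A hA hAF =>
      exchange (fun hG' hL' F' m' hm' hE' => core hG' hL' F' m' hm' hE') hG hL F h m a hma A hA hAF)
    (fun z' hz' hq m hm L₁ L₂ h₁ h₂ hm₁ hm₂ hc₁ hc₂ hne' =>
      answer (fun hG' hL' F' m' hm' hE' => core hG' hL' F' m' hm' hE') hG hL F h z' hz' hq m hm
        L₁ L₂ h₁ h₂ hm₁ hm₂ hc₁ hc₂ hne')
    h z hz hne

end Torus103
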