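import Pool.Agent.Lib.MP_77f3ac_co.Bridge

/-! # MP_77f3ac_co: the configuration of the lines is a valid pattern -/

set_option autoImplicit false
set_option linter.unusedSectionVars false

namespace Torus103
open Finset Pat
variable {P : Type*} [DecidableEq P]

/-- four distinct lines of the geometry (or empty) -/
structure LL (𝒢 : Finset (Finset P)) (l : ℕ → Finset P) : Prop where
  mem : ∀ i, l i ∈ 𝒢 ∨ l i = ∅
  ne : ∀ i j, i ≠ j → l i = l j → l i = ∅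

/-- the number of common free points -/
def D2 (F : Finset P) (a b : Finset P) : ℕ := (a ∩ b ∩ F).card
def D3 (F : Finset P) (a b c : Finset P) : ℕ := (a ∩ b ∩ c ∩ F).card

/-- a non-concurrent triangle -/
def T3 (F : Finset P) (a b c : Finset P) : Prop :=
  D2 F a b ≠ 0 ∧ D2 F b c ≠ 0 ∧ D2 F a c ≠ 0 ∧ D3 F a b c = 0

theorem D2_comm (F a b : Finset P) : D2 F a b = D2 F b a := by
  unfold D2; rw [inter_comm a b]

theorem D3_comm (F a b c : Finset P) : D3 F a b c = D3 F b a c := by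
  unfold D3; rw [inter_comm a b]

theorem D3_comm' (F a b c : Finset P) : D3 F a b c = D3 F a c b := by
  unfold D3; rw [inter_assoc a b c, inter_comm b c, ← inter_assoc]

theorem T3_swap {F a b c : Finset P} (h : T3 F a b c) : T3 F b a c := by
  obtain ⟨h1, h2, h3, h4⟩ := h
  exact ⟨by rwa [D2_comm], h3, h2, by rwa [D3_comm]⟩

theorem T3_swap' {F a b c : Finset P} (h : T3 F a b c) : T3 F a c b := by
  obtain ⟨h1, h2, h3, h4⟩ := h
  exact ⟨h3, by rwa [D2_comm], h1, by rwa [D3_comm']⟩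

theorem T3_rot {F a b c : Finset P} (h : T3 F a b c) : T3 F b c a := T3_swap' (T3_swap h)

theorem T3_rot' {F a b c : Finset P} (h : T3 F a b c) : T3 F c a b := T3_swap (T3_swap' h)

section geo
variable {𝒢 : Finset (Finset P)} (hG : Geom 𝒢) {F : Finset P}
include hG

theorem D2_le {a b : Finset P} (ha : a ∈ 𝒢 ∨ a = ∅) (hb : b ∈ 𝒢 ∨ b = ∅)
    (hab : a = b → a = ∅) : D2 F a b ≤ 2 := by
  unfold D2
  rcases ha with ha | rfl
  · rcases hb with hb | rfl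
    · by_cases h : a = b
      · rw [hab h]; simp
      · exact (card_le_card inter_subset_left).trans (hG.two a ha b hb h)
    · simp
  · simp

theorem D2_two {a b : Finset P} (ha : a ∈ 𝒢 ∨ a = ∅) (hb : b ∈ 𝒢 ∨ b = ∅)
    (hab : a = b → a = ∅) (h : D2 F a b = 2) :
    a ∈ 𝒢 ∧ b ∈ 𝒢 ∧ a ≠ b ∧ (a ∩ b).card = 2 ∧ a ∩ b ∩ F = a ∩ b := by
  unfold D2 at h
  have ha' : a ≠ ∅ := by rintro rfl; simp at h
  have hb' : b ≠ ∅ := by rintro rfl; simp at h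
  have h1 := ha.resolve_right ha'
  have h2 := hb.resolve_right hb'
  have h3 : a ≠ b := fun e => ha' (hab e)
  have h4 := hG.two a h1 b h2 h3
  have h5 : a ∩ b ∩ F = a ∩ b := eq_of_subset_of_card_le inter_subset_left (by rw [h]; exact h4)
  exact ⟨h1, h2, h3, by rw [← h5, h], h5⟩

theorem trG {a b c : Finset P} (ha : a ∈ 𝒢 ∨ a = ∅) (hb : b ∈ 𝒢 ∨ b = ∅) (hc : c ∈ 𝒢 ∨ c = ∅)
    (hab : a = b → a = ∅) (hbc : b = c → b = ∅) (hac : a = c → a = ∅)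
    (h1 : D2 F a b = 2) (h2 : D2 F b c = 2) : D2 F a c = 0 ∨ D3 F a b c = 2 := by
  obtain ⟨a1, a2, a3, a4, a5⟩ := D2_two hG ha hb hab h1
  obtain ⟨b1, b2, b3, b4, b5⟩ := D2_two hG hb hc hbc h2
  have hne : a ≠ ∅ := by rintro rfl; simp [D2] at h1
  have h3 : a ≠ c := fun e => hne (hac e)
  by_cases h : (a ∩ c).Nonempty
  · right
    obtain ⟨e1, e2⟩ := hG.trans a a1 b a2 c b2 a3 b3 h3 a4 b4 h
    have : a ∩ b ∩ c = a ∩ b := by
      apply inter_eq_left.2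
      rw [e1]; exact inter_subset_right
    unfold D3
    rw [this]; exact h1
  · left
    rw [not_nonempty_iff_eq_empty] at h
    unfold D2; rw [h]; simp

theorem D2_pos_mem {a b : Finset P} (ha : a ∈ 𝒢 ∨ a = ∅) (h : D2 F a b ≠ 0) : a ∈ 𝒢 := by
  rcases ha with ha | rfl
  · exact ha
  · simp [D2] at h

theorem T3_empty {a b c : Finset P} (ha : a ∈ 𝒢 ∨ a = ∅) (hb : b ∈ 𝒢 ∨ b = ∅)
    (hc : c ∈ 𝒢 ∨ c = ∅) (hab : a = b → a = ∅) (hbc : b = c → b = ∅) (hac : a = c → a = ∅)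
    (h : T3 F a b c) : a ∩ b ∩ c = ∅ := by
  obtain ⟨h1, h2, h3, h4⟩ := h
  have a1 : a ∈ 𝒢 := D2_pos_mem hG ha h1
  have b1 : b ∈ 𝒢 := D2_pos_mem hG hb h2
  have c1 : c ∈ 𝒢 := D2_pos_mem hG (F := F) (b := a) hc (by rwa [D2_comm])
  have nab : a ≠ b := by
    intro e; rw [hab e] at h1; simp [D2] at h1
  have nbc : b ≠ c := by
    intro e; rw [hbc e] at h2; simp [D2] at h2
  have nac : a ≠ c := by
    intro e; rw [hac e] at h3; simp [D2] at h3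
  by_contra hne
  obtain ⟨r, hr⟩ := nonempty_iff_ne_empty.2 hne
  simp only [mem_inter] at hr
  obtain ⟨⟨ra, rb⟩, rc⟩ := hr
  have hD3 : ∀ x ∈ F, x ∈ a → x ∈ b → x ∈ c → False := by
    intro x xF xa xb xc
    have : x ∈ a ∩ b ∩ c ∩ F := by simp [xF, xa, xb, xc]
    unfold D3 at h4
    rw [card_eq_zero.1 h4] at this
    exact absurd this (notMem_empty _)
  have rF : r ∉ F := fun h => hD3 r h ra rb rc
  have key : ∀ u v : Finset P, u ∈ 𝒢 → v ∈ 𝒢 → u ≠ v → r ∈ u → r ∈ v → D2 F u v ≠ 0 →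
      (u ∩ v).card = 2 := by
    intro u v hu hv huv ru rv hD
    apply le_antisymm (hG.two u hu v hv huv)
    obtain ⟨p, hp⟩ := card_pos.1 (Nat.pos_of_ne_zero hD)
    simp only [mem_inter] at hp
    have hpr : p ≠ r := by rintro rfl; exact rF hp.2
    have hsub : ({p, r} : Finset P) ⊆ u ∩ v := by
      intro x hx
      simp only [mem_insert, mem_singleton] at hx
      rcases hx with rfl | rfl
      · exact mem_inter.2 hp.1
      · exact mem_inter.2 ⟨ru, rv⟩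
    calc 2 = ({p, r} : Finset P).card := (card_pair hpr).symm
    _ ≤ _ := card_le_card hsub
  have k1 := key a b a1 b1 nab ra rb h1
  have k2 := key b c b1 c1 nbc rb rc h2
  obtain ⟨e1, e2⟩ := hG.trans a a1 b b1 c c1 nab nbc nac k1 k2 ⟨r, mem_inter.2 ⟨ra, rc⟩⟩
  obtain ⟨p, hp⟩ := card_pos.1 (Nat.pos_of_ne_zero h1)
  simp only [mem_inter] at hp
  have hpc : p ∈ b ∩ c := by rw [← e1]; exact mem_inter.2 hp.1
  exact hD3 p hp.2 hp.1.1 hp.1.2 (mem_inter.1 hpc).2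

end geo

section four
variable {𝒢 : Finset (Finset P)} (hG : Geom 𝒢) {F : Finset P} {l : ℕ → Finset P} (hl : LL 𝒢 l)
include hG hl

theorem noM {i j h g : ℕ} (ij : i ≠ j) (ih : i ≠ h) (ig : i ≠ g) (jh : j ≠ h) (jg : j ≠ g)
    (hg : h ≠ g) (d1 : D2 F (l i) (l j) = 2) (d2 : D2 F (l h) (l g) = 2)
    (t1 : T3 F (l i) (l j) (l h))
    (t2 : T3 F (l i) (l j) (l g) ∨ T3 F (l i) (l h) (l g) ∨ T3 F (l j) (l h) (l g)) : False := by
  obtain ⟨a1, a2, a3, a4, a5⟩ := D2_two hG (hl.mem i) (hl.mem j) (hl.ne i j ij) d1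
  obtain ⟨b1, b2, b3, b4, b5⟩ := D2_two hG (hl.mem h) (hl.mem g) (hl.ne h g hg) d2
  have ne : ∀ u v : ℕ, u ≠ v → l u ∈ 𝒢 → D2 F (l u) (l v) = D2 F (l u) (l v) → l u ≠ ∅ →
      l u ≠ l v := fun u v huv _ _ hne e => hne (hl.ne u v huv e)
  have hi0 : l i ≠ ∅ := by intro e; rw [e] at d1; simp [D2] at d1
  have hj0 : l j ≠ ∅ := by intro e; rw [e] at d1; simp [D2] at d1
  have hh0 : l h ≠ ∅ := by intro e; rw [e] at d2; simp [D2] at d2
  have n1 : l i ≠ l h := ne i h ih a1 rfl hi0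
  have n2 : l i ≠ l g := ne i g ig a1 rfl hi0
  have n3 : l j ≠ l h := ne j h jh a2 rfl hj0
  have n4 : l j ≠ l g := ne j g jg a2 rfl hj0
  have e1 := T3_empty hG (hl.mem i) (hl.mem j) (hl.mem h) (hl.ne i j ij) (hl.ne j h jh)
    (hl.ne i h ih) t1
  have pos : ∀ u v : Finset P, D2 F u v ≠ 0 → (u ∩ v).Nonempty := by
    intro u v hD
    obtain ⟨p, hp⟩ := card_pos.1 (Nat.pos_of_ne_zero hD)
    exact ⟨p, (mem_inter.1 hp).1⟩
  refine hG.plane (l i) a1 (l j) a2 (l h) b1 (l g) b2 a3 n1 n2 n3 n4 b3 a4 b4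
    (pos _ _ t1.2.2.1) (pos _ _ t1.2.1) e1 ?_
  rcases t2 with t2 | t2 | t2
  · exact Or.inl ⟨pos _ _ t2.2.2.1, pos _ _ t2.2.1, T3_empty hG (hl.mem i) (hl.mem j) (hl.mem g)
      (hl.ne i j ij) (hl.ne j g jg) (hl.ne i g ig) t2⟩
  · exact Or.inr (Or.inl ⟨pos _ _ t2.2.2.1, T3_empty hG (hl.mem i) (hl.mem h) (hl.mem g)
      (hl.ne i h ih) (hl.ne h g hg) (hl.ne i g ig) t2⟩)
  · exact Or.inr (Or.inr ⟨pos _ _ t2.2.2.1, T3_empty hG (hl.mem j) (hl.mem h) (hl.mem g)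
      (hl.ne j h jh) (hl.ne h g hg) (hl.ne j g jg) t2⟩)

theorem noS {i j h g : ℕ} (ij : i ≠ j) (ih : i ≠ h) (ig : i ≠ g) (jh : j ≠ h) (jg : j ≠ g)
    (hg : h ≠ g) (d1 : D2 F (l j) (l h) = 2) (d2 : D2 F (l h) (l g) = 2)
    (d3 : D2 F (l j) (l g) = 2)
    (t1 : T3 F (l i) (l j) (l h)) (t2 : T3 F (l i) (l h) (l g)) : False := by
  obtain ⟨a1, a2, a3, a4, a5⟩ := D2_two hG (hl.mem j) (hl.mem h) (hl.ne j h jh) d1
  obtain ⟨b1, b2, b3, b4, b5⟩ := D2_two hG (hl.mem h) (hl.mem g) (hl.ne h g hg) d2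
  obtain ⟨c1, c2, c3, c4, c5⟩ := D2_two hG (hl.mem j) (hl.mem g) (hl.ne j g jg) d3
  have i1 : l i ∈ 𝒢 := D2_pos_mem hG (hl.mem i) t1.1
  have hi0 : l i ≠ ∅ := by intro e; have := t1.1; rw [e] at this; simp [D2] at this
  have n1 : l i ≠ l j := fun e => hi0 (hl.ne i j ij e)
  have n2 : l i ≠ l h := fun e => hi0 (hl.ne i h ih e)
  have n3 : l i ≠ l g := fun e => hi0 (hl.ne i g ig e)
  have pos : ∀ u v : Finset P, D2 F u v ≠ 0 → (u ∩ v).Nonempty := by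
    intro u v hD
    obtain ⟨p, hp⟩ := card_pos.1 (Nat.pos_of_ne_zero hD)
    exact ⟨p, (mem_inter.1 hp).1⟩
  exact hG.star (l i) i1 (l j) a1 (l h) a2 (l g) b2 n1 n2 n3 a3 c3 b3 a4 b4 c4
    (pos _ _ t1.1) (pos _ _ t1.2.2.1) (pos _ _ t2.2.2.1)
    (T3_empty hG (hl.mem i) (hl.mem j) (hl.mem h) (hl.ne i j ij) (hl.ne j h jh) (hl.ne i h ih) t1)
    (T3_empty hG (hl.mem i) (hl.mem h) (hl.mem g) (hl.ne i h ih) (hl.ne h g hg) (hl.ne i g ig) t2)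

theorem noD {i j h : ℕ} (ij : i ≠ j) (ih : i ≠ h) (jh : j ≠ h)
    (d1 : D2 F (l i) (l j) = 2) (d2 : D2 F (l j) (l h) = 2)
    (t1 : T3 F (l i) (l j) (l h)) : False := by
  rcases trG hG (hl.mem i) (hl.mem j) (hl.mem h) (hl.ne i j ij) (hl.ne j h jh) (hl.ne i h ih)
    d1 d2 with h1 | h1
  · exact t1.2.2.1 h1
  · have := t1.2.2.2; omega

/-- `i j | h g` double pairs: at most one triangle -/
theorem match1 {i j h g : ℕ} (ij : i ≠ j) (ih : i ≠ h) (ig : i ≠ g) (jh : j ≠ h) (jg : j ≠ g)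
    (hg : h ≠ g) (d1 : D2 F (l i) (l j) = 2) (d2 : D2 F (l h) (l g) = 2)
    (t : (T3 F (l i) (l j) (l h) ∧ T3 F (l i) (l j) (l g)) ∨
      (T3 F (l i) (l j) (l h) ∧ T3 F (l i) (l h) (l g)) ∨
      (T3 F (l i) (l j) (l h) ∧ T3 F (l j) (l h) (l g)) ∨
      (T3 F (l i) (l j) (l g) ∧ T3 F (l i) (l h) (l g)) ∨
      (T3 F (l i) (l j) (l g) ∧ T3 F (l j) (l h) (l g)) ∨
      (T3 F (l i) (l h) (l g) ∧ T3 F (l j) (l h) (l g))) : False := by
  rcases t with ⟨t1, t2⟩ | ⟨t1, t2⟩ | ⟨t1, t2⟩ | ⟨t1, t2⟩ | ⟨t1, t2⟩ | ⟨t1, t2⟩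
  · exact noM hG hl ij ih ig jh jg hg d1 d2 t1 (Or.inl t2)
  · exact noM hG hl ij ih ig jh jg hg d1 d2 t1 (Or.inr (Or.inl t2))
  · exact noM hG hl ij ih ig jh jg hg d1 d2 t1 (Or.inr (Or.inr t2))
  · exact noM hG hl ij ig ih jg jh hg.symm d1 (by rwa [D2_comm]) t1 (Or.inr (Or.inl (T3_swap' t2)))
  · exact noM hG hl ij ig ih jg jh hg.symm d1 (by rwa [D2_comm]) t1 (Or.inr (Or.inr (T3_swap' t2)))
  · exact noM hG hl hg ih.symm jh.symm ig.symm jg.symm ij d2 d1 (T3_rot t1) (Or.inl (T3_rot t2))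

/-- `j h g` mutually double, `i` the fourth line: at most one triangle -/
theorem star1 {i j h g : ℕ} (ij : i ≠ j) (ih : i ≠ h) (ig : i ≠ g) (jh : j ≠ h) (jg : j ≠ g)
    (hg : h ≠ g) (d1 : D2 F (l j) (l h) = 2) (d2 : D2 F (l h) (l g) = 2)
    (d3 : D2 F (l j) (l g) = 2)
    (t : T3 F (l j) (l h) (l g) ∨ (T3 F (l i) (l j) (l h) ∧ T3 F (l i) (l h) (l g)) ∨
      (T3 F (l i) (l j) (l h) ∧ T3 F (l i) (l j) (l g)) ∨
      (T3 F (l i) (l j) (l g) ∧ T3 F (l i) (l h) (l g))) : False := by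
  rcases t with t | ⟨t1, t2⟩ | ⟨t1, t2⟩ | ⟨t1, t2⟩
  · exact noD hG hl jh jg hg d1 d2 t
  · exact noS hG hl ij ih ig jh jg hg d1 d2 d3 t1 t2
  · exact noS hG hl ih ij ig jh.symm hg jg (by rwa [D2_comm]) d3 d2 (T3_swap' t1) t2
  · exact noS hG hl ij ig ih jg jh hg.symm d3 (by rwa [D2_comm]) d1 t1 (T3_swap' t2)

end four

end Torus103
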